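import Pool.Agent.SPU.Targets
import Pool.Agent.SPA.P_MAIN

/-!
SPU: target MN2 (MP_315051_nt)
-/

set_option autoImplicit false

open Finset

namespace Pool.Agent.SPU

open Pool.Agent.SPA

namespace MN2_

/-- The number of the exponents is at most the square of the logarithm. -/
theorem T_le {B C : ℝ} (hB : 0 < B) (hC : 0 < C) {z : ℕ} (hz : ⌈Real.exp (B * C + 1)⌉₊ ≤ z) :
    ((⌈B * C * Real.log z⌉₊ : ℕ) : ℝ) ≤ Real.log z ^ 2 := by
  have hBC : 0 < B * C := mul_pos hB hC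
  have h1 : Real.exp (B * C + 1) ≤ z := (Nat.le_ceil _).trans (by exact_mod_cast hz)
  have h2 : B * C + 1 ≤ Real.log z := by
    rw [← Real.log_exp (B * C + 1)]
    exact Real.log_le_log (Real.exp_pos _) h1
  have h3 : 0 ≤ B * C * Real.log z := mul_nonneg hBC.le (by linarith)
  have h4 := (Nat.ceil_lt_add_one h3).le
  nlinarith

end MN2_

open Pool.Agent.SPA.MAIN_ in
theorem p_MN2 (h1 : T_MO2) (h2 : T_VLO) (h3 : T_GAP) : T_MN2 := by
  classical
  obtain ⟨s, hs, h1'⟩ := h1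
  obtain ⟨C, hC, hV⟩ := h2
  set c : ℝ := ((2 * s : ℕ) : ℝ)⁻¹ with hc_def
  have hc : 0 < c := by
    have : (0 : ℝ) < ((2 * s : ℕ) : ℝ) := by exact_mod_cast (by omega : 0 < 2 * s)
    positivity
  refine ⟨c, hc, fun ε hε => ?_⟩
  obtain ⟨L, z0', B, hL, hB, hmom⟩ := h1' (ε / 4) (by positivity)
  have hM := MM_pos hL
  set z0 : ℕ := max z0' ⌈Real.exp (B * C + 1)⌉₊ with hz0_def
  set D : ℝ := 2 + 2 * L + L * (B * C * c) with hD
  set r : ℕ := ⌈D / c⌉₊ with hr
  refine ⟨L, r, hL, max (max (MM L ^ 2) ((max z0 2) ^ (2 * s)))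
    (max 3 ⌈(MM L + MM L * (ε / 4)) * (4 / ε)⌉₊), fun x hx => ?_⟩
  have hx1 : MM L ^ 2 ≤ x := le_trans (le_max_left _ _) (le_trans (le_max_left _ _) hx)
  have hx2 : (max z0 2) ^ (2 * s) ≤ x := le_trans (le_max_right _ _) (le_trans (le_max_left _ _) hx)
  have hx3 : 3 ≤ x := le_trans (le_max_left _ _) (le_trans (le_max_right _ _) hx)
  have hx4 : ⌈(MM L + MM L * (ε / 4)) * (4 / ε)⌉₊ ≤ x :=
    le_trans (le_max_right _ _) (le_trans (le_max_right _ _) hx)
  have hlx := one_le_log hx3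
  set z : ℕ := ⌊(x : ℝ) ^ c⌋₊ with hz
  have hz2 : (z : ℝ) ≤ (x : ℝ) ^ c := Nat.floor_le (by positivity)
  have hz3 : (x : ℝ) ^ c < z + 1 := Nat.lt_floor_add_one _
  have hz4 : max z0 2 ≤ z := Nat.le_floor (le_root hs hx2)
  have hz0 : z0 ≤ z := le_trans (le_max_left _ _) hz4
  have hz1 : 2 ≤ z := le_trans (le_max_right _ _) hz4
  have hz0' : z0' ≤ z := le_trans (le_max_left _ _) hz0
  have hz5 : ⌈Real.exp (B * C + 1)⌉₊ ≤ z := le_trans (le_max_right _ _) hz0
  have hzs : z ^ s ≤ x / MM L + 1 := le_Y hM hx1 (pow_le hs hz2)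
  set T : ℕ := ⌈B * C * Real.log z⌉₊ with hT
  have hTlog : (T : ℝ) ≤ Real.log z ^ 2 := MN2_.T_le hB hC hz5
  have hlz : 0 < Real.log z := Real.log_pos (by exact_mod_cast (by omega : 1 < z))
  have hTV : B ≤ T * VV L z := by
    have hv := (hV z (PS L z) hz1 (by
      intro p hp
      unfold PS at hp
      rw [mem_filter, mem_Icc] at hp
      obtain ⟨⟨-, hp1⟩, hp2, hp3⟩ := hp
      refine ⟨hp2, ?_, hp1⟩
      have h4 : p ≠ 2 := fun h => hp3 (h ▸ Dvd.intro _ rfl)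
      have h5 := hp2.two_le
      omega)).1
    have h6 : B * C * Real.log z ≤ T := Nat.le_ceil _
    have h7 : 0 < C * Real.log z := mul_pos hC hlz
    calc B = (B * C * Real.log z) * (1 / (C * Real.log z)) := by
          field_simp
      _ ≤ T * (1 / (C * Real.log z)) := mul_le_mul_of_nonneg_right h6 (by positivity)
      _ ≤ T * VV L z := mul_le_mul_of_nonneg_left hv (Nat.cast_nonneg T)
  -- the choice of the exponents
  have hch : ∀ κ : ℕ, ∃ a : ℕ, Opn L κ → 1 ≤ a ∧ a ≤ L ∧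
      Nat.Coprime (κ * 2 ^ a + 1) (2 ^ L - 1) := by
    intro κ
    by_cases h : Opn L κ
    · obtain ⟨a, ha⟩ := h
      exact ⟨a, fun _ => ha⟩
    · exact ⟨0, fun h' => absurd h' h⟩
  choose a ha using hch
  have hcount := count (x := x) (Y := x / MM L + 1) (z := z) (T := T) (δ := ε / 4)
    (P := fun k => Odd k ∧ Opn L k ∧ ¬ AlmostPrime c r k) hL a rfl (by
      intro κ _ j hj hjx hPk t ht hG
      obtain ⟨-, hO, hA⟩ := hPk
      have hOκ : Opn L κ := by
        obtain ⟨b, hb1, hb2, hb3⟩ := hO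
        exact ⟨b, hb1, hb2, cop.1 hb3⟩
      obtain ⟨ha1, ha2, ha3⟩ := ha κ hOκ
      have hk1 : 1 ≤ κ + MM L * j := by
        have : 1 ≤ MM L * j := Nat.mul_pos hM hj
        omega
      apply hA
      refine h3 L z (a κ) (κ + MM L * j) t r c hL ha1 hk1 (by omega) (cop.2 ha3) hG ?_ ?_
      · refine lt_of_le_of_lt ?_ hz3
        exact Real.rpow_le_rpow (Nat.cast_nonneg _) (by exact_mod_cast hjx) hc.le
      · exact logs hB hC hc hlx hk1 hjx ha2 ht hz1 hz2 hz3 hT hD (Nat.le_ceil _))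
    (fun κ => by
      have h8 := hmom z (x / MM L + 1) T κ (a κ) hz0' hzs hTV hTlog
      convert h8 using 3)
  refine hcount.trans ?_
  have hMr : (0 : ℝ) < MM L := by exact_mod_cast hM
  have hY : (MM L : ℝ) * ((x / MM L + 1 : ℕ) : ℝ) ≤ x + MM L := by
    have h9 : MM L * (x / MM L) ≤ x := Nat.mul_div_le x (MM L)
    have h10 : MM L * (x / MM L + 1) ≤ x + MM L := by
      rw [mul_add, mul_one]
      omega
    exact_mod_cast h10
  have hx5 : (MM L + MM L * (ε / 4)) * (4 / ε) ≤ (x : ℝ) := by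
    refine (Nat.le_ceil _).trans ?_
    exact_mod_cast hx4
  have hx6 : (MM L : ℝ) + MM L * (ε / 4) ≤ ε / 4 * x := by
    have h11 := mul_le_mul_of_nonneg_left hx5 (by positivity : (0 : ℝ) ≤ ε / 4)
    have h12 : ε / 4 * (((MM L : ℝ) + MM L * (ε / 4)) * (4 / ε)) = MM L + MM L * (ε / 4) := by
      field_simp
    rw [h12] at h11
    exact h11
  have h13 : (MM L : ℝ) * (ε / 4 * ((x / MM L + 1 : ℕ) : ℝ)) ≤ ε / 4 * (x + MM L) := by
    have := mul_le_mul_of_nonneg_left hY (by positivity : (0 : ℝ) ≤ ε / 4)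
    linarith
  have hx7 : (0 : ℝ) ≤ x := Nat.cast_nonneg x
  have h14 : 0 ≤ ε * x := by positivity
  linarith

end Pool.Agent.SPU
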