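import Pool.Agent.SPU.Targets

/-!
# SPU, target ASY: powers of the logarithm against powers
-/

set_option autoImplicit false

open Finset

namespace Pool.Agent.SPU

open Pool.Agent.SPA

namespace ASY_

/-- `c (log v)^12 ≤ v / 2` for large `v` -/
theorem log12 (c : ℝ) : ∃ v0 : ℝ, ∀ v : ℝ, v0 ≤ v → c * Real.log v ^ 12 ≤ v / 2 := by
  have h1 : (fun x : ℝ => c * Real.log x ^ 12) =o[Filter.atTop] (id : ℝ → ℝ) :=
    (Real.isLittleO_pow_log_id_atTop (n := 12)).const_mul_left c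
  have h2 := h1.def (c := 1 / 2) (by norm_num)
  have h3 := h2.and (Filter.eventually_ge_atTop (0 : ℝ))
  obtain ⟨v0, hv0⟩ := Filter.eventually_atTop.1 h3
  refine ⟨v0, fun v hv => ?_⟩
  obtain ⟨h4, h5⟩ := hv0 v hv
  have h6 : ‖(id v : ℝ)‖ = v := by
    rw [id, Real.norm_of_nonneg h5]
  rw [h6] at h4
  have h7 := le_abs_self (c * Real.log v ^ 12)
  rw [← Real.norm_eq_abs] at h7
  linarith

end ASY_

open ASY_ in
theorem p_ASY : T_ASY := by
  intro C m hm
  obtain ⟨v0, hv0⟩ := log12 (|C| * (m : ℝ) ^ 12)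
  obtain ⟨N, hN⟩ := exists_nat_ge v0
  refine ⟨max 3 ((max N 8) ^ m), fun z w hz hw => ?_⟩
  have hz3 : 3 ≤ z := (le_max_left _ _).trans hz
  have hzN : (max N 8) ^ m ≤ z := (le_max_right _ _).trans hz
  have hv : max N 8 < w + 1 := by
    by_contra h
    push Not at h
    have := Nat.pow_le_pow_left h m
    omega
  have hw8 : 8 < w + 1 := lt_of_le_of_lt (le_max_right _ _) hv
  have hwN : N < w + 1 := lt_of_le_of_lt (le_max_left _ _) hv
  have hlog1 : 1 ≤ Real.log z := by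
    have h3 : (3 : ℝ) ≤ z := by exact_mod_cast hz3
    rw [Real.le_log_iff_exp_le (by linarith)]
    have := Real.exp_one_lt_d9
    linarith
  refine ⟨?_, by omega, hlog1⟩
  have hv1 : v0 ≤ ((w + 1 : ℕ) : ℝ) := by
    have : (N : ℝ) ≤ ((w + 1 : ℕ) : ℝ) := by exact_mod_cast hwN.le
    linarith
  have h1 := hv0 _ hv1
  have hzpos : (0 : ℝ) < z := by
    have : 0 < z := by omega
    exact_mod_cast this
  have h2 : Real.log z ≤ m * Real.log ((w + 1 : ℕ) : ℝ) := by
    rw [← Real.log_pow]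
    refine Real.log_le_log hzpos ?_
    exact_mod_cast hw.le
  have h3 : Real.log z ^ 12 ≤ (m * Real.log ((w + 1 : ℕ) : ℝ)) ^ 12 :=
    pow_le_pow_left₀ (by linarith) h2 12
  have h4 : C * Real.log z ^ 12 ≤ |C| * (m * Real.log ((w + 1 : ℕ) : ℝ)) ^ 12 := by
    calc C * Real.log z ^ 12 ≤ |C| * Real.log z ^ 12 := by
          have : 0 ≤ Real.log z ^ 12 := by positivity
          exact mul_le_mul_of_nonneg_right (le_abs_self C) this
      _ ≤ |C| * (m * Real.log ((w + 1 : ℕ) : ℝ)) ^ 12 :=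
          mul_le_mul_of_nonneg_left h3 (abs_nonneg C)
  have h5 : |C| * (m * Real.log ((w + 1 : ℕ) : ℝ)) ^ 12 =
      |C| * (m : ℝ) ^ 12 * Real.log ((w + 1 : ℕ) : ℝ) ^ 12 := by ring
  have h6 : ((w + 1 : ℕ) : ℝ) / 2 ≤ w := by
    have : (8 : ℝ) ≤ w := by
      have : 8 ≤ w := by omega
      exact_mod_cast this
    push_cast
    linarith
  linarith

end Pool.Agent.SPU
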