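import Pool.Agent.SPU.Targets

/-!
SPU (MP_315051_nt): CAB, the coefficients are at most one.
-/

set_option autoImplicit false

open Finset

namespace Pool.Agent.SPU

open Pool.Agent.SPA

namespace CAB_

lemma abs_prod_le {z : ℕ} {f : ℕ → ℝ} (h : ∀ i ∈ range z, |f i| ≤ 1) :
    |∏ i ∈ range z, f i| ≤ 1 := by
  rw [Finset.abs_prod]
  exact Finset.prod_le_one (fun i _ => abs_nonneg _) h

lemma core (z : ℕ) (t e : ℕ → ℝ) (ht : ∀ i, |t i| ≤ 1) (he : ∀ i, |e i| ≤ 1)
    (hte : ∀ i, e i ≠ 0 → t i = 0) :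
    |∏ i ∈ range z, t i - ∑ i ∈ range z, ∏ l ∈ range z, (if l = i then e l else t l)| ≤ 1 ∧
    |∏ i ∈ range z, t i + ∑ i ∈ range z, ∏ l ∈ range z, (if l = i then e l else t l)| ≤ 1 := by
  by_cases h : ∀ i ∈ range z, e i = 0
  · have h0 : ∑ i ∈ range z, ∏ l ∈ range z, (if l = i then e l else t l) = 0 := by
      refine Finset.sum_eq_zero fun i hi => Finset.prod_eq_zero hi ?_
      rw [if_pos rfl, h i hi]
    rw [h0, sub_zero, add_zero]
    exact ⟨abs_prod_le fun i _ => ht i, abs_prod_le fun i _ => ht i⟩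
  · push Not at h
    obtain ⟨j, hj, hej⟩ := h
    have htj := hte j hej
    have h1 : ∏ i ∈ range z, t i = 0 := Finset.prod_eq_zero hj htj
    have h2 : ∑ i ∈ range z, ∏ l ∈ range z, (if l = i then e l else t l) =
        ∏ l ∈ range z, (if l = j then e l else t l) := by
      refine Finset.sum_eq_single j (fun i _ hij => ?_) fun h => absurd hj h
      refine Finset.prod_eq_zero hj ?_
      rw [if_neg (Ne.symm hij), htj]
    have h3 : |∏ l ∈ range z, (if l = j then e l else t l)| ≤ 1 := by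
      refine abs_prod_le fun l _ => ?_
      split_ifs
      · exact he l
      · exact ht l
    rw [h1, h2, zero_sub, zero_add, abs_neg]
    exact ⟨h3, h3⟩

lemma tau_abs (m : ℕ) (D : Finset ℕ) : |tau m D| ≤ 1 := by
  unfold tau
  split_ifs
  · rw [abs_pow, abs_neg, abs_one, one_pow]
  · rw [abs_zero]
    exact zero_le_one

lemma eps_abs (m : ℕ) (D : Finset ℕ) : |eps m D| ≤ 1 := by
  unfold eps
  split_ifs
  · rw [abs_one]
  · rw [abs_zero]
    exact zero_le_one

lemma eps_tau (m : ℕ) (D : Finset ℕ) (h : eps m D ≠ 0) : tau m D = 0 := by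
  unfold eps at h
  unfold tau
  split_ifs at h with h1
  · rw [if_neg (by omega)]
  · exact absurd rfl h

end CAB_

open CAB_ in
theorem p_CAB : T_CAB := by
  intro z b P D
  exact core z (fun i => tau (b + i) (D ∩ Bk P z i)) (fun i => eps (b + i) (D ∩ Bk P z i))
    (fun i => tau_abs _ _) (fun i => eps_abs _ _) (fun i h => eps_tau _ _ h)

end Pool.Agent.SPU
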