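import Pool.Agent.SPU.Targets

/-!
SPU (MP_315051_nt): CFN, the upper function and the correction as products over the blocks
(helper17).
-/

set_option autoImplicit false

open Finset

namespace Pool.Agent.SPU

open Pool.Agent.SPA

namespace CFN_

/-- the product over the blocks -/
theorem key (h1 : T_FNM) {z : ℕ} {P : Finset ℕ} (h4 : (range z).biUnion (Bk P z) = P)
    (h5 : ∀ i j, i ≠ j → Disjoint (Bk P z i) (Bk P z j)) (γ : ℕ → Finset ℕ → ℝ) (ω : ℕ → ℝ) :
    Fn (fun D => ∏ i ∈ range z, γ i (D ∩ Bk P z i)) P ω =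
      ∏ i ∈ range z, Fn (γ i) (Bk P z i) ω := by
  have h6 := h1 z (Bk P z) γ ω (fun i _ j _ hij => h5 i j hij)
  rw [h4] at h6
  exact h6.symm

/-- the sum over the blocks and the sum over the sets -/
theorem swap (z b : ℕ) (P : Finset ℕ) (ω : ℕ → ℝ) : Fn (cE z b P) P ω =
    ∑ i ∈ range z, Fn (fun D => ∏ l ∈ range z,
      (if l = i then eps (b + l) (D ∩ Bk P z l) else tau (b + l) (D ∩ Bk P z l))) P ω := by
  unfold Fn cE
  rw [Finset.sum_comm]
  exact Finset.sum_congr rfl fun D _ => Finset.sum_mul _ _ _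

end CFN_

theorem p_CFN (h1 : T_FNM) (h2 : T_BLK) : T_CFN := by
  intro z b P ω hz hP
  obtain ⟨G, -, h3⟩ := h2
  obtain ⟨h4, h5, -⟩ := h3 z P hz hP
  refine ⟨CFN_.key h1 h4 h5 (fun i => tau (b + i)) ω, ?_⟩
  rw [CFN_.swap]
  refine Finset.sum_congr rfl fun i _ => ?_
  rw [CFN_.key h1 h4 h5 (fun l D => if l = i then eps (b + l) D else tau (b + l) D) ω]
  refine Finset.prod_congr rfl fun l _ => ?_
  by_cases h : l = i
  · simp only [h, if_true]
  · simp only [h, if_false]

end Pool.Agent.SPU
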