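import Pool.Agent.SPU.Targets

/-!
SPU (MP_315051_nt): the Chebyshev step, `T_CHE`.
-/

set_option autoImplicit false

open Finset

namespace Pool.Agent.SPU

namespace CHE_

lemma refl_sum (n : ℕ) (f : ℕ → ℝ) : ∑ h ∈ Icc 1 n, f (n - h) = ∑ t ∈ range n, f t := by
  refine Finset.sum_nbij' (fun h => n - h) (fun t => n - t) ?_ ?_ ?_ ?_ ?_
  · intro h hh
    simp only [mem_Icc, mem_range] at hh ⊢
    omega
  · intro t ht
    simp only [mem_Icc, mem_range] at ht ⊢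
    omega
  · intro h hh
    simp only [mem_Icc] at hh
    omega
  · intro t ht
    simp only [mem_range] at ht
    omega
  · intro h _
    rfl

/-- The square of a sum over `range T`. -/
lemma sq_sum (T : ℕ) (a : ℕ → ℝ) :
    (∑ t ∈ range T, a t) ^ 2 =
      ∑ t ∈ range T, a t ^ 2 + 2 * ∑ t ∈ range T, ∑ h ∈ Icc 1 t, a (t - h) * a t := by
  induction T with
  | zero => simp
  | succ n ih =>
    have h1 : ∑ h ∈ Icc 1 n, a (n - h) * a n = (∑ t ∈ range n, a t) * a n := by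
      rw [sum_mul]
      exact refl_sum n (fun t => a t * a n)
    rw [sum_range_succ, sum_range_succ, sum_range_succ, add_sq, ih, h1]
    ring

lemma two_sum (T : ℕ) : 2 * ∑ t ∈ range T, (t : ℝ) ≤ (T : ℝ) ^ 2 := by
  induction T with
  | zero => simp
  | succ n ih =>
    rw [sum_range_succ]
    push_cast
    nlinarith

end CHE_

open CHE_

theorem p_CHE : T_CHE := by
  classical
  intro T Y a F v δ g D hv hδ hg h1 h2 h3 h4
  have hYv : 0 ≤ (Y : ℝ) * v ^ 2 := by positivity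
  have hc : 0 ≤ (1 + 22 * δ) * ((Y : ℝ) * v ^ 2) := by positivity
  -- the sum of the squares
  have hS2 : ∑ j ∈ Ioc 0 Y, (∑ t ∈ range T, a t j) ^ 2 ≤
      T * (D * Y) + (1 + 22 * δ) * (Y * v ^ 2) * ((1 + g) * (T : ℝ) ^ 2) := by
    have e1 : ∑ j ∈ Ioc 0 Y, (∑ t ∈ range T, a t j) ^ 2 =
        ∑ t ∈ range T, ∑ j ∈ Ioc 0 Y, a t j ^ 2 +
          2 * ∑ t ∈ range T, ∑ h ∈ Icc 1 t, ∑ j ∈ Ioc 0 Y, a (t - h) j * a t j := by
      rw [Finset.sum_congr rfl fun j _ => sq_sum T (fun t => a t j), sum_add_distrib, ← mul_sum]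
      congr 1
      · exact sum_comm
      · congr 1
        rw [sum_comm]
        refine sum_congr rfl fun t _ => ?_
        exact sum_comm
    have e2 : ∑ t ∈ range T, ∑ j ∈ Ioc 0 Y, a t j ^ 2 ≤ T * (D * Y) := by
      refine (sum_le_sum fun t ht => h2 t (mem_range.1 ht)).trans ?_
      simp
    have e3 : ∑ t ∈ range T, ∑ h ∈ Icc 1 t, ∑ j ∈ Ioc 0 Y, a (t - h) j * a t j ≤
        (1 + 22 * δ) * (Y * v ^ 2) * ((1 + g) * ∑ t ∈ range T, (t : ℝ)) := by
      have e4 : ∀ t ∈ range T, ∑ h ∈ Icc 1 t, ∑ j ∈ Ioc 0 Y, a (t - h) j * a t j ≤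
          (1 + 22 * δ) * (Y * v ^ 2) * ((1 + g) * (t : ℝ)) := by
        intro t ht
        have ht' := mem_range.1 ht
        have e5 : ∀ h ∈ Icc 1 t, ∑ j ∈ Ioc 0 Y, a (t - h) j * a t j ≤
            (1 + 22 * δ) * (Y * v ^ 2) * F h := by
          intro h hh
          have hh' := mem_Icc.1 hh
          have e6 := h3 (t - h) h hh'.1 (by omega)
          rwa [Nat.sub_add_cancel hh'.2] at e6
        refine (sum_le_sum e5).trans ?_
        rw [← mul_sum]
        refine mul_le_mul_of_nonneg_left ?_ hc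
        have := h4 t
        linarith [mul_comm (t : ℝ) (1 + g)]
      refine (sum_le_sum e4).trans ?_
      rw [← mul_sum, ← mul_sum]
    rw [e1]
    have e7 := two_sum T
    have e8 : 2 * ((1 + 22 * δ) * (Y * v ^ 2) * ((1 + g) * ∑ t ∈ range T, (t : ℝ))) ≤
        (1 + 22 * δ) * (Y * v ^ 2) * ((1 + g) * (T : ℝ) ^ 2) := by
      have e9 : 0 ≤ (1 + 22 * δ) * ((Y : ℝ) * v ^ 2) * (1 + g) := mul_nonneg hc (by linarith)
      have := mul_le_mul_of_nonneg_left e7 e9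
      linarith
    linarith
  -- the first moment
  have hS1 : (T : ℝ) * ((1 - 6 * δ) * (Y * v)) ≤ ∑ j ∈ Ioc 0 Y, ∑ t ∈ range T, a t j := by
    rw [sum_comm]
    refine le_trans ?_ (sum_le_sum fun t ht => h1 t (mem_range.1 ht))
    simp
  have hm0 : 0 ≤ (T : ℝ) * v := by positivity
  -- the variance
  have hV : ∑ j ∈ Ioc 0 Y, ((∑ t ∈ range T, a t j) - T * v) ^ 2 ≤
      Y * (T * D + (T * v) ^ 2 * (34 * δ + g + 22 * (δ * g))) := by
    have e1 : ∑ j ∈ Ioc 0 Y, ((∑ t ∈ range T, a t j) - T * v) ^ 2 =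
        ∑ j ∈ Ioc 0 Y, (∑ t ∈ range T, a t j) ^ 2 -
          2 * (T * v) * ∑ j ∈ Ioc 0 Y, ∑ t ∈ range T, a t j + Y * (T * v) ^ 2 := by
      have e2 : ∀ j ∈ Ioc 0 Y, ((∑ t ∈ range T, a t j) - T * v) ^ 2 =
          (∑ t ∈ range T, a t j) ^ 2 - 2 * (T * v) * (∑ t ∈ range T, a t j) + (T * v) ^ 2 := by
        intro j _
        ring
      rw [sum_congr rfl e2, sum_add_distrib, sum_sub_distrib, ← mul_sum]
      simp
    rw [e1]
    have e3 := mul_le_mul_of_nonneg_left hS1 (by linarith : (0 : ℝ) ≤ 2 * (T * v))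
    have e4 : (Y : ℝ) * (T * D + (T * v) ^ 2 * (34 * δ + g + 22 * (δ * g))) =
        T * (D * Y) + (1 + 22 * δ) * (Y * v ^ 2) * ((1 + g) * (T : ℝ) ^ 2) -
          2 * (T * v) * (T * ((1 - 6 * δ) * (Y * v))) + Y * (T * v) ^ 2 := by
      ring
    rw [e4]
    linarith
  refine le_trans ?_ hV
  -- the lower bound
  have hL : ∑ j ∈ (Ioc 0 Y).filter (fun j => ∀ t < T, a t j ≤ 0), ((T : ℝ) * v) ^ 2 ≤
      ∑ j ∈ (Ioc 0 Y).filter (fun j => ∀ t < T, a t j ≤ 0),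
        ((∑ t ∈ range T, a t j) - T * v) ^ 2 := by
    refine sum_le_sum fun j hj => ?_
    have hj' := (mem_filter.1 hj).2
    have hW : ∑ t ∈ range T, a t j ≤ 0 := sum_nonpos fun t ht => hj' t (mem_range.1 ht)
    nlinarith
  have hL2 : ∑ j ∈ (Ioc 0 Y).filter (fun j => ∀ t < T, a t j ≤ 0),
        ((∑ t ∈ range T, a t j) - T * v) ^ 2 ≤
      ∑ j ∈ Ioc 0 Y, ((∑ t ∈ range T, a t j) - T * v) ^ 2 :=
    sum_le_sum_of_subset_of_nonneg (filter_subset _ _) fun j _ _ => sq_nonneg _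
  rw [sum_const, nsmul_eq_mul] at hL
  exact hL.trans hL2

end Pool.Agent.SPU
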