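import Pool.Agent.SPU.Targets
import Pool.Agent.SPA.P_RH2

/-!
SPU: the number of `j` in an interval with three kinds of divisibility conditions (CNT).
-/

set_option autoImplicit false

open Finset

namespace Pool.Agent.SPU

open Pool.Agent.SPA
open Pool.Agent.TSP (Per rho)
open Pool.Agent.Tri5 (T_MER T_EXP)

namespace CNT_

lemma rho_congr {bad bad' : ℕ → ℕ → Prop} {l : ℕ} (h : ∀ j, bad l j ↔ bad' l j) :
    rho bad l = rho bad' l := by
  classical
  unfold rho
  congr 1
  exact filter_congr fun j _ => h j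

lemma ro_nonneg (d l : ℕ) : 0 ≤ ro d l := by
  unfold ro
  split_ifs <;> norm_num

lemma same (κ M n d l j : ℕ) (h : l ∣ 2 ^ d - 1) : b1 κ M (n + d) l j ↔ b1 κ M n l j := by
  unfold b1
  rw [pow_add, ← mul_assoc]
  exact RH2_.same h

lemma differ {κ M n d l j : ℕ} (hl : l.Prime) (h : ¬ l ∣ 2 ^ d - 1) (h1 : b1 κ M n l j) :
    ¬ b1 κ M (n + d) l j := by
  unfold b1 at h1 ⊢
  rw [pow_add, ← mul_assoc]
  exact RH2_.differ hl h h1

open Classical in
/-- the bad classes -/
noncomputable def bad (κ M n d : ℕ) (D D1 : Finset ℕ) (p j : ℕ) : Prop :=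
  if p ∈ D then b2 κ M n d p j else if p ∈ D1 then b1 κ M n p j else b1 κ M (n + d) p j

end CNT_

open CNT_ in
theorem p_CNT (h1 : T_RH1) (h2 : T_RH2) : T_CNT := by
  classical
  intro κ M n d Y P1 P2 D D1 D2 hP hdis hD hD1 hD2
  have hnot : ∀ l, l ∈ P2 → l ∉ D := fun l hl hlD =>
    (Finset.disjoint_left.1 hdis (hD hlD)) hl
  have hr0 : 0 ≤ ∏ l ∈ D, ro d l := prod_nonneg fun l _ => ro_nonneg d l
  by_cases he : ∀ l ∈ D1 ∩ D2, l ∣ 2 ^ d - 1
  · have hper : Per (bad κ M n d D D1) := by
      intro l m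
      unfold bad
      by_cases h3 : l ∈ D
      · rw [if_pos h3, if_pos h3]
        exact (h2 κ M n d).1 l m
      · rw [if_neg h3, if_neg h3]
        by_cases h4 : l ∈ D1
        · rw [if_pos h4, if_pos h4]
          exact (h1 κ M (2 ^ n)).1 l m
        · rw [if_neg h4, if_neg h4]
          exact (h1 κ M (2 ^ (n + d))).1 l m
    have hprime : ∀ l ∈ D ∪ (D1 ∪ D2), l.Prime := by
      intro l hl
      rcases mem_union.1 hl with h3 | h3
      · exact (hP l (mem_union_left _ (hD h3))).1
      · rcases mem_union.1 h3 with h4 | h4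
        · exact (hP l (mem_union_right _ (hD1 h4))).1
        · exact (hP l (mem_union_right _ (hD2 h4))).1
    have hc := Pool.Agent.TSP.count_bad hper (D ∪ (D1 ∪ D2)) hprime 0 Y
    rw [zero_add] at hc
    have hfil : ((Ioc 0 Y).filter fun m => ∀ l ∈ D ∪ (D1 ∪ D2),
        bad κ M n d D D1 l m).card = ((Ioc 0 Y).filter fun j => (∀ l ∈ D, b2 κ M n d l j) ∧
        (∀ l ∈ D1, b1 κ M n l j) ∧ ∀ l ∈ D2, b1 κ M (n + d) l j).card := by
      congr 1
      refine filter_congr fun j _ => ?_
      constructor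
      · intro h3
        refine ⟨fun l hl => ?_, fun l hl => ?_, fun l hl => ?_⟩
        · have h4 := h3 l (mem_union_left _ hl)
          unfold bad at h4
          rwa [if_pos hl] at h4
        · have h4 := h3 l (mem_union_right _ (mem_union_left _ hl))
          unfold bad at h4
          rwa [if_neg (hnot l (hD1 hl)), if_pos hl] at h4
        · have h4 := h3 l (mem_union_right _ (mem_union_right _ hl))
          unfold bad at h4
          rw [if_neg (hnot l (hD2 hl))] at h4
          by_cases h5 : l ∈ D1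
          · rw [if_pos h5] at h4
            exact (same κ M n d l j (he l (mem_inter.2 ⟨h5, hl⟩))).2 h4
          · rwa [if_neg h5] at h4
      · rintro ⟨h3, h4, h5⟩ l hl
        unfold bad
        rcases mem_union.1 hl with h6 | h6
        · rw [if_pos h6]
          exact h3 l h6
        · have h7 : l ∉ D := by
            rcases mem_union.1 h6 with h7 | h7
            · exact hnot l (hD1 h7)
            · exact hnot l (hD2 h7)
          rw [if_neg h7]
          by_cases h8 : l ∈ D1
          · rw [if_pos h8]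
            exact h4 l h8
          · rw [if_neg h8]
            exact h5 l ((mem_union.1 h6).resolve_left h8)
    have hrD : ∀ l ∈ D, (rho (bad κ M n d D D1) l : ℝ) = ro d l := by
      intro l hl
      obtain ⟨h3, h4⟩ := hP l (mem_union_left _ (hD hl))
      have h5 : rho (bad κ M n d D D1) l = rho (fun p j => p ∣ (κ + M * j) * 2 ^ n + 1 ∨
          p ∣ (κ + M * j) * 2 ^ (n + d) + 1) l := by
        refine rho_congr fun j => ?_
        unfold bad
        rw [if_pos hl]
        exact Iff.rfl
      rw [h5, (h2 κ M n d).2 l h3 h4]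
      unfold ro
      by_cases h6 : l ∣ 2 ^ d - 1
      · rw [if_pos h6, if_pos h6, Nat.cast_one]
      · rw [if_neg h6, if_neg h6]
        norm_num
    have hr1 : ∀ l ∈ D1 ∪ D2, (rho (bad κ M n d D D1) l : ℝ) = 1 := by
      intro l hl
      have h0 : l ∈ P2 := by
        rcases mem_union.1 hl with h3 | h3
        · exact hD1 h3
        · exact hD2 h3
      obtain ⟨h3, h4⟩ := hP l (mem_union_right _ h0)
      by_cases h5 : l ∈ D1
      · have h6 : rho (bad κ M n d D D1) l =
            rho (fun p j => p ∣ (κ + M * j) * 2 ^ n + 1) l := by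
          refine rho_congr fun j => ?_
          unfold bad
          rw [if_neg (hnot l h0), if_pos h5]
          exact Iff.rfl
        rw [h6, (h1 κ M (2 ^ n)).2 l h3 (RH2_.not_dvd_mul_pow h3 h4), Nat.cast_one]
      · have h6 : rho (bad κ M n d D D1) l =
            rho (fun p j => p ∣ (κ + M * j) * 2 ^ (n + d) + 1) l := by
          refine rho_congr fun j => ?_
          unfold bad
          rw [if_neg (hnot l h0), if_neg h5]
          exact Iff.rfl
        rw [h6, (h1 κ M (2 ^ (n + d))).2 l h3 (RH2_.not_dvd_mul_pow h3 h4), Nat.cast_one]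
    have hdj : Disjoint D (D1 ∪ D2) := by
      rw [Finset.disjoint_left]
      intro l hl hl'
      rcases mem_union.1 hl' with h3 | h3
      · exact hnot l (hD1 h3) hl
      · exact hnot l (hD2 h3) hl
    have hp1 : ∏ l ∈ D ∪ (D1 ∪ D2), ((rho (bad κ M n d D D1) l : ℝ) / l) =
        (∏ l ∈ D, ro d l / l) * ∏ l ∈ D1 ∪ D2, 1 / (l : ℝ) := by
      rw [prod_union hdj]
      congr 1
      · exact prod_congr rfl fun l hl => by rw [hrD l hl]
      · exact prod_congr rfl fun l hl => by rw [hr1 l hl]
    have hp2 : ∏ l ∈ D ∪ (D1 ∪ D2), (rho (bad κ M n d D D1) l : ℝ) = ∏ l ∈ D, ro d l := by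
      rw [prod_union hdj, prod_congr rfl hrD, prod_congr rfl hr1, prod_const_one, mul_one]
    rw [hp1, hp2] at hc
    rw [if_pos he, mul_one]
    rw [← hfil]
    convert hc using 3
  · rw [if_neg he]
    push Not at he
    obtain ⟨l, hl, hl'⟩ := he
    obtain ⟨h3, h4⟩ := mem_inter.1 hl
    have h5 : l.Prime := (hP l (mem_union_right _ (hD1 h3))).1
    have h6 : ((Ioc 0 Y).filter fun j => (∀ l ∈ D, b2 κ M n d l j) ∧
        (∀ l ∈ D1, b1 κ M n l j) ∧ ∀ l ∈ D2, b1 κ M (n + d) l j).card = 0 := by
      rw [card_eq_zero, filter_eq_empty_iff]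
      rintro j _ ⟨_, h7, h8⟩
      exact differ h5 hl' (h7 l h3) (h8 l h4)
    rw [h6]
    simpa using hr0

end Pool.Agent.SPU
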