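import Pool.Agent.SPU.Targets
import Pool.Agent.SPA.P_FIN

/-!
SPU: proof of the target FN2 (helper8)
-/

set_option autoImplicit false

open Finset

namespace Pool.Agent.SPU

open Pool.Agent.SPA

namespace FN2_

theorem lower (c0 : ℝ)
    (h1 : ∀ ε : ℝ, 0 < ε → ∃ L r : ℕ, 1 ≤ L ∧ ∃ x0 : ℕ, ∀ x ≥ x0,
      cnt (fun k => Odd k ∧ Opn L k ∧ ¬ AlmostPrime c0 r k) x ≤ ε * x)
    (h3 : T_DEN) (K : ℝ) (hK : ∀ L : ℕ, 1 ≤ L → K ≤ dens L) (c : ℝ) (hcc : c ≤ c0)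
    (ε : ℝ) (hε : 0 < ε) : ∃ x0 : ℕ, ∀ x ≥ x0,
      (K - ε) * x ≤ cnt (fun k => Odd k ∧ NoSmall c k) x := by
  obtain ⟨L, r, hL, x1, hx1⟩ := h1 (ε / 2) (by positivity)
  obtain ⟨x2, hx2⟩ := exists_nat_ge (2 * ((MM L : ℝ) + 1) / ε)
  refine ⟨max x1 x2, fun x hx => ?_⟩
  have hx3 := hx1 x (le_trans (le_max_left _ _) hx)
  have hx4 : (x2 : ℝ) ≤ x := by exact_mod_cast le_trans (le_max_right _ _) hx
  have h4 : cnt (fun k => Odd k ∧ Opn L k) x ≤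
      cnt (fun k => Odd k ∧ NoSmall c k) x +
        cnt (fun k => Odd k ∧ Opn L k ∧ ¬ AlmostPrime c0 r k) x := by
    apply FIN_.cnt_le_add
    intro k _ hk
    by_cases ha : AlmostPrime c0 r k
    · left
      refine ⟨hk.1, ?_⟩
      obtain ⟨n, hn, _, hp⟩ := ha
      refine ⟨n, hn, fun p hpp hd => lt_of_le_of_lt ?_ (hp p hpp hd)⟩
      apply Real.rpow_le_rpow_of_exponent_le _ hcc
      exact_mod_cast hk.1.pos
    · exact Or.inr ⟨hk.1, hk.2, ha⟩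
  have h7 := (abs_le.1 (h3 L hL x)).1
  have h8 : 2 * ((MM L : ℝ) + 1) ≤ x * ε := by
    rw [← div_le_iff₀ hε]
    exact hx2.trans hx4
  have h9 : K * x ≤ dens L * x := mul_le_mul_of_nonneg_right (hK L hL) (Nat.cast_nonneg x)
  nlinarith

end FN2_

open FN2_ in
theorem p_FN2 (h1 : T_MN2) (h2 : T_OPC) (h3 : T_DEN) : T_FN2 := by
  obtain ⟨c0, hc0, h1'⟩ := h1
  refine ⟨c0, hc0, fun c hc hcc K hK1 hK2 ε hε => ?_⟩
  obtain ⟨x1, hx1⟩ := lower c0 h1' h3 K hK1 c hcc ε hε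
  obtain ⟨x2, hx2⟩ := FIN_.upper h2 h3 K hK2 c hc ε hε
  refine ⟨max x1 x2, fun x hx => ?_⟩
  have a1 := hx1 x (le_trans (le_max_left _ _) hx)
  have a2 := hx2 x (le_trans (le_max_right _ _) hx)
  rw [abs_le]
  constructor <;> linarith

end Pool.Agent.SPU
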