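import Pool.Agent.SPU.Targets

/-!
SPU-KB: the bilinear form of two functions of the large primes.
-/

set_option autoImplicit false

open Finset

namespace Pool.Agent.SPU

open Pool.Agent.SPA

namespace KB_

lemma xpos {P : Finset ℕ} (hP : ∀ l ∈ P, 1 ≤ l) :
    ∀ l ∈ P, 0 ≤ 1 / (l : ℝ) ∧ 1 / (l : ℝ) ≤ 1 := by
  intro l hl
  have h : (1 : ℝ) ≤ l := by exact_mod_cast hP l hl
  refine ⟨by positivity, ?_⟩
  rw [div_le_one (by linarith)]
  exact h

open Classical in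
lemma term {e : ℕ → Prop} {P D D' : Finset ℕ} {x : ℕ → ℝ} (hx : ∀ l ∈ P, 0 ≤ x l ∧ x l ≤ 1)
    (hD : D ⊆ P) (hD' : D' ⊆ P) :
    |(∏ l ∈ D ∪ D', x l) * (if ∀ l ∈ D ∩ D', e l then (1 : ℝ) else 0) -
      (∏ l ∈ D, x l) * ∏ l ∈ D', x l| ≤
      ∑ l ∈ P, (x l + if e l then (1 : ℝ) else 0) *
        (if l ∈ D ∩ D' then ∏ q ∈ D ∪ D', x q else 0) := by
  have hU : 0 ≤ ∏ l ∈ D ∪ D', x l :=
    Finset.prod_nonneg fun l hl => (hx l (Finset.union_subset hD hD' hl)).1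
  have hI : 0 ≤ ∏ l ∈ D ∩ D', x l :=
    Finset.prod_nonneg fun l hl => (hx l (hD (Finset.mem_inter.mp hl).1)).1
  have hnn : ∀ l ∈ P, 0 ≤ (x l + if e l then (1 : ℝ) else 0) *
      (if l ∈ D ∩ D' then ∏ q ∈ D ∪ D', x q else 0) := by
    intro l hl
    have h1 := (hx l hl).1
    refine mul_nonneg ?_ ?_
    · split_ifs <;> linarith
    · split_ifs
      · exact hU
      · exact le_rfl
  rw [← Finset.prod_union_inter, ← mul_sub, abs_mul, abs_of_nonneg hU]
  rcases (D ∩ D').eq_empty_or_nonempty with h0 | ⟨l, hl⟩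
  · have h1 : |(if ∀ l ∈ D ∩ D', e l then (1 : ℝ) else 0) - ∏ l ∈ D ∩ D', x l| = 0 := by
      rw [h0, if_pos (by simp)]
      simp
    rw [h1, mul_zero]
    exact Finset.sum_nonneg hnn
  · have hlP : l ∈ P := hD (Finset.mem_inter.mp hl).1
    refine le_trans ?_ (Finset.single_le_sum hnn hlP)
    rw [if_pos hl, mul_comm]
    refine mul_le_mul_of_nonneg_right ?_ hU
    have hI1 : ∏ q ∈ D ∩ D', x q ≤ x l := by
      rw [← Finset.mul_prod_erase _ _ hl]
      have h2 : ∏ q ∈ (D ∩ D').erase l, x q ≤ 1 := by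
        refine Finset.prod_le_one (fun q hq => ?_) (fun q hq => ?_)
        · exact (hx q (hD (Finset.mem_inter.mp (Finset.mem_of_mem_erase hq)).1)).1
        · exact (hx q (hD (Finset.mem_inter.mp (Finset.mem_of_mem_erase hq)).1)).2
      calc x l * ∏ q ∈ (D ∩ D').erase l, x q ≤ x l * 1 :=
            mul_le_mul_of_nonneg_left h2 (hx l hlP).1
        _ = x l := mul_one _
    have hite0 : (0 : ℝ) ≤ if ∀ l ∈ D ∩ D', e l then (1 : ℝ) else 0 := by
      split_ifs <;> norm_num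
    have hite1 : (if ∀ l ∈ D ∩ D', e l then (1 : ℝ) else 0) ≤ if e l then (1 : ℝ) else 0 := by
      by_cases h : ∀ l ∈ D ∩ D', e l
      · rw [if_pos h, if_pos (h l hl)]
      · rw [if_neg h]
        split_ifs <;> norm_num
    have hxl := (hx l hlP).1
    rw [abs_le]
    constructor <;> linarith

end KB_

open Classical in
open KB_ in
theorem p_KB (h : T_KI) : T_KB := by
  intro e P c c' hP hc hc'
  have hx := xpos hP
  set x : ℕ → ℝ := fun l => 1 / (l : ℝ) with hxd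
  have hx' : ∀ l ∈ P, 0 ≤ x l ∧ x l ≤ 1 := hx
  have hKI := h P x fun l hl => (hx' l hl).1
  have hcc : ∀ D D', |c D * c' D'| ≤ 1 := by
    intro D D'
    rw [abs_mul]
    exact mul_le_one₀ (hc D) (abs_nonneg _) (hc' D')
  constructor
  · rw [← (hKI).1]
    unfold KK
    refine (Finset.abs_sum_le_sum_abs _ _).trans (Finset.sum_le_sum fun D hD => ?_)
    refine (Finset.abs_sum_le_sum_abs _ _).trans (Finset.sum_le_sum fun D' hD' => ?_)
    rw [Finset.mem_powerset] at hD hD'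
    have hU : 0 ≤ ∏ l ∈ D ∪ D', x l :=
      Finset.prod_nonneg fun l hl => (hx' l (Finset.union_subset hD hD' hl)).1
    rw [abs_mul]
    have h1 : |(∏ l ∈ D ∪ D', 1 / (l : ℝ)) * (if ∀ l ∈ D ∩ D', e l then (1 : ℝ) else 0)| ≤
        ∏ l ∈ D ∪ D', x l := by
      rw [abs_mul, abs_of_nonneg hU]
      have h2 : |(if ∀ l ∈ D ∩ D', e l then (1 : ℝ) else 0)| ≤ 1 := by
        split_ifs <;> simp
      calc (∏ l ∈ D ∪ D', 1 / (l : ℝ)) * |(if ∀ l ∈ D ∩ D', e l then (1 : ℝ) else 0)| ≤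
          (∏ l ∈ D ∪ D', x l) * 1 := mul_le_mul_of_nonneg_left h2 hU
        _ = ∏ l ∈ D ∪ D', x l := mul_one _
    calc |c D * c' D'| *
        |(∏ l ∈ D ∪ D', 1 / (l : ℝ)) * (if ∀ l ∈ D ∩ D', e l then (1 : ℝ) else 0)| ≤
        1 * ∏ l ∈ D ∪ D', x l := mul_le_mul (hcc D D') h1 (abs_nonneg _) zero_le_one
      _ = ∏ l ∈ D ∪ D', x l := one_mul _
  · have hdiff : KK e P c c' - Fn c P (fun l => 1 / (l : ℝ)) * Fn c' P (fun l => 1 / (l : ℝ)) =
        ∑ D ∈ P.powerset, ∑ D' ∈ P.powerset, c D * c' D' *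
          ((∏ l ∈ D ∪ D', x l) * (if ∀ l ∈ D ∩ D', e l then (1 : ℝ) else 0) -
            (∏ l ∈ D, x l) * ∏ l ∈ D', x l) := by
      unfold KK Fn
      rw [Finset.sum_mul_sum, ← Finset.sum_sub_distrib]
      refine Finset.sum_congr rfl fun D _ => ?_
      rw [← Finset.sum_sub_distrib]
      refine Finset.sum_congr rfl fun D' _ => ?_
      simp only [hxd]
      ring
    rw [hdiff]
    have hb : |∑ D ∈ P.powerset, ∑ D' ∈ P.powerset, c D * c' D' *
          ((∏ l ∈ D ∪ D', x l) * (if ∀ l ∈ D ∩ D', e l then (1 : ℝ) else 0) -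
            (∏ l ∈ D, x l) * ∏ l ∈ D', x l)| ≤
        ∑ D ∈ P.powerset, ∑ D' ∈ P.powerset, ∑ l ∈ P, (x l + if e l then (1 : ℝ) else 0) *
          (if l ∈ D ∩ D' then ∏ q ∈ D ∪ D', x q else 0) := by
      refine (Finset.abs_sum_le_sum_abs _ _).trans (Finset.sum_le_sum fun D hD => ?_)
      refine (Finset.abs_sum_le_sum_abs _ _).trans (Finset.sum_le_sum fun D' hD' => ?_)
      rw [Finset.mem_powerset] at hD hD'
      rw [abs_mul]
      refine le_trans ?_ (term hx' hD hD')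
      exact mul_le_of_le_one_left (abs_nonneg _) (hcc D D')
    refine hb.trans ?_
    have hsw : ∑ D ∈ P.powerset, ∑ D' ∈ P.powerset, ∑ l ∈ P,
        (x l + if e l then (1 : ℝ) else 0) *
          (if l ∈ D ∩ D' then ∏ q ∈ D ∪ D', x q else 0) =
        ∑ l ∈ P, (x l + if e l then (1 : ℝ) else 0) * ∑ D ∈ P.powerset, ∑ D' ∈ P.powerset,
          (if l ∈ D ∩ D' then ∏ q ∈ D ∪ D', x q else 0) := by
      have h1 : ∀ D ∈ P.powerset, ∑ D' ∈ P.powerset, ∑ l ∈ P,
          (x l + if e l then (1 : ℝ) else 0) *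
            (if l ∈ D ∩ D' then ∏ q ∈ D ∪ D', x q else 0) =
          ∑ l ∈ P, ∑ D' ∈ P.powerset, (x l + if e l then (1 : ℝ) else 0) *
            (if l ∈ D ∩ D' then ∏ q ∈ D ∪ D', x q else 0) := fun D _ => Finset.sum_comm
      rw [Finset.sum_congr rfl h1, Finset.sum_comm]
      refine Finset.sum_congr rfl fun l _ => ?_
      rw [Finset.mul_sum]
      refine Finset.sum_congr rfl fun D _ => ?_
      rw [Finset.mul_sum]
    rw [hsw, Finset.sum_mul]
    refine Finset.sum_le_sum fun l hl => ?_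
    have hnn : 0 ≤ x l + if e l then (1 : ℝ) else 0 := by
      have h1 := (hx' l hl).1
      split_ifs <;> linarith
    calc (x l + if e l then (1 : ℝ) else 0) * ∑ D ∈ P.powerset, ∑ D' ∈ P.powerset,
          (if l ∈ D ∩ D' then ∏ q ∈ D ∪ D', x q else 0) ≤
        (x l + if e l then (1 : ℝ) else 0) * (x l * ∏ q ∈ P, (1 + 3 * x q)) :=
          mul_le_mul_of_nonneg_left (hKI.2 l hl) hnn
      _ = (x l + if e l then (1 : ℝ) else 0) * x l * ∏ q ∈ P, (1 + 3 * x q) := by ring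

end Pool.Agent.SPU
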