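import Pool.Agent.SPU.Targets

/-!
# SPU, target KI: sums over pairs of subsets
-/

set_option autoImplicit false

open Finset

namespace Pool.Agent.SPU

namespace KI_

theorem pr (s : Finset ℕ) (x : ℕ → ℝ) (q : ℕ) (hq : q ∉ s) (D D' : Finset ℕ)
    (hD : D ∈ s.powerset) (hD' : D' ∈ s.powerset) :
    ∏ l ∈ insert q (D ∪ D'), x l = x q * ∏ l ∈ D ∪ D', x l := by
  refine Finset.prod_insert fun h => hq ?_
  rcases Finset.mem_union.1 h with h | h
  · exact Finset.mem_powerset.1 hD h
  · exact Finset.mem_powerset.1 hD' h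

theorem sum_ins (s : Finset ℕ) (q : ℕ) (hq : q ∉ s) (f : Finset ℕ → Finset ℕ → ℝ) :
    ∑ D ∈ (insert q s).powerset, ∑ D' ∈ (insert q s).powerset, f D D' =
      ∑ D ∈ s.powerset, ∑ D' ∈ s.powerset,
        (f D D' + f D (insert q D') + f (insert q D) D' + f (insert q D) (insert q D')) := by
  rw [Finset.sum_powerset_insert hq, ← Finset.sum_add_distrib]
  refine Finset.sum_congr rfl fun D _ => ?_
  rw [Finset.sum_powerset_insert hq, Finset.sum_powerset_insert hq, ← Finset.sum_add_distrib,
    ← Finset.sum_add_distrib, ← Finset.sum_add_distrib]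
  refine Finset.sum_congr rfl fun D' _ => ?_
  ring

theorem fst (P : Finset ℕ) (x : ℕ → ℝ) :
    ∑ D ∈ P.powerset, ∑ D' ∈ P.powerset, ∏ q ∈ D ∪ D', x q = ∏ q ∈ P, (1 + 3 * x q) := by
  induction P using Finset.induction_on with
  | empty => simp
  | insert q s hq ih =>
    rw [sum_ins s q hq, Finset.prod_insert hq, ← ih, Finset.mul_sum]
    refine Finset.sum_congr rfl fun D hD => ?_
    rw [Finset.mul_sum]
    refine Finset.sum_congr rfl fun D' hD' => ?_
    rw [Finset.union_insert, Finset.insert_union, Finset.insert_union, Finset.union_insert,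
      Finset.insert_idem, pr s x q hq D D' hD hD']
    ring

theorem snd (s : Finset ℕ) (x : ℕ → ℝ) (l : ℕ) (hl : l ∉ s) :
    ∑ D ∈ (insert l s).powerset, ∑ D' ∈ (insert l s).powerset,
      (if l ∈ D ∩ D' then ∏ q ∈ D ∪ D', x q else 0) = x l * ∏ q ∈ s, (1 + 3 * x q) := by
  rw [sum_ins s l hl, ← fst, Finset.mul_sum]
  refine Finset.sum_congr rfl fun D hD => ?_
  rw [Finset.mul_sum]
  refine Finset.sum_congr rfl fun D' hD' => ?_
  have h1 : l ∉ D := fun h => hl (Finset.mem_powerset.1 hD h)
  have h2 : l ∉ D' := fun h => hl (Finset.mem_powerset.1 hD' h)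
  rw [if_neg (fun h => h1 (Finset.mem_inter.1 h).1), if_neg (fun h => h1 (Finset.mem_inter.1 h).1),
    if_neg (fun h => h2 (Finset.mem_inter.1 h).2),
    if_pos (Finset.mem_inter.2 ⟨Finset.mem_insert_self _ _, Finset.mem_insert_self _ _⟩),
    Finset.insert_union, Finset.union_insert, Finset.insert_idem, pr s x l hl D D' hD hD']
  ring

end KI_

open KI_ in
theorem p_KI : T_KI := by
  intro P x hx
  refine ⟨fst P x, fun l hl => ?_⟩
  have e : P = insert l (P.erase l) := (Finset.insert_erase hl).symm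
  have h1 := snd (P.erase l) x l (Finset.notMem_erase l P)
  rw [← e] at h1
  rw [h1]
  refine mul_le_mul_of_nonneg_left ?_ (hx l hl)
  conv_rhs => rw [e, Finset.prod_insert (Finset.notMem_erase l P)]
  have h2 : 0 ≤ ∏ q ∈ P.erase l, (1 + 3 * x q) :=
    Finset.prod_nonneg fun q hq => by
      have := hx q (Finset.mem_of_mem_erase hq)
      linarith
  nlinarith [hx l hl]

end Pool.Agent.SPU
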