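import Pool.Agent.SPU.Targets

/-!
SPU: M2, the pairs (MP_315051_nt).
-/

set_option autoImplicit false

open Finset

namespace Pool.Agent.SPU

open Pool.Agent.SPA

namespace M2_

theorem Fn_cM (z b : ℕ) (P : Finset ℕ) (ω : ℕ → ℝ) :
    Fn (cM z b P) P ω = Fn (cT z b P) P ω - Fn (cE z b P) P ω := by
  unfold Fn cM
  rw [← sum_sub_distrib]
  exact sum_congr rfl fun D _ => sub_mul _ _ _

theorem Fn_cP (z b : ℕ) (P : Finset ℕ) (ω : ℕ → ℝ) :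
    Fn (cP z b P) P ω = Fn (cT z b P) P ω + Fn (cE z b P) P ω := by
  unfold Fn cP
  rw [← sum_add_distrib]
  exact sum_congr rfl fun D _ => add_mul _ _ _

theorem xx_mul (κ M n d : ℕ) (P : Finset ℕ) (j : ℕ) :
    xx (b1 κ M n) P j * xx (b1 κ M (n + d)) P j = xx (b2 κ M n d) P j := by
  unfold xx
  by_cases h1 : ∀ l ∈ P, ¬ b1 κ M n l j
  · by_cases h2 : ∀ l ∈ P, ¬ b1 κ M (n + d) l j
    · have h3 : ∀ l ∈ P, ¬ b2 κ M n d l j := fun l hl h => h.elim (h1 l hl) (h2 l hl)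
      rw [if_pos h1, if_pos h2, if_pos h3, one_mul]
    · have h3 : ¬ ∀ l ∈ P, ¬ b2 κ M n d l j := fun h => h2 fun l hl h' => h l hl (Or.inr h')
      rw [if_neg h2, mul_zero, if_neg h3]
  · have h3 : ¬ ∀ l ∈ P, ¬ b2 κ M n d l j := fun h => h1 fun l hl h' => h l hl (Or.inl h')
    rw [if_neg h1, zero_mul, if_neg h3]

theorem xx_nonneg (bad : ℕ → ℕ → Prop) (P : Finset ℕ) (j : ℕ) : 0 ≤ xx bad P j := by
  unfold xx
  split_ifs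
  · exact zero_le_one
  · exact le_rfl

theorem abs_le_cP (h1 : T_PNT) {z b : ℕ} {P : Finset ℕ} (bad : ℕ → ℕ → Prop) (j : ℕ)
    (hz : 2 ≤ z) (hP : ∀ p ∈ P, p.Prime ∧ 7 ≤ p ∧ p ≤ z) :
    |Fn (cM z b P) P (oi bad j)| ≤ Fn (cP z b P) P (oi bad j) := by
  obtain ⟨e1, e2, -⟩ := h1 z b P bad j hz hP
  have e0 := xx_nonneg bad P j
  rw [Fn_cM, Fn_cP, abs_le]
  constructor <;> linarith

theorem point {pre G E F1 F2 A1 A2 : ℝ} (hG : pre ≤ G) (hE : G ≤ pre + E)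
    (h1 : |F1| ≤ A1) (h2 : |F2| ≤ A2) :
    pre * (F1 * F2) ≤ G * (F1 * F2) + E * (A1 * A2) := by
  have h3 : |F1 * F2| ≤ A1 * A2 := by
    rw [abs_mul]
    exact mul_le_mul h1 h2 (abs_nonneg _) ((abs_nonneg _).trans h1)
  have h4 : (G - pre) * |F1 * F2| ≤ E * (A1 * A2) :=
    mul_le_mul (by linarith) h3 (abs_nonneg _) (by linarith)
  have h5 : (G - pre) * (-(F1 * F2)) ≤ (G - pre) * |F1 * F2| :=
    mul_le_mul_of_nonneg_left (neg_le_abs _) (sub_nonneg.2 hG)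
  have h6 : pre * (F1 * F2) = G * (F1 * F2) + (G - pre) * (-(F1 * F2)) := by ring
  linarith

theorem num {C δ L w d μ S Q : ℝ} (hC : 1 ≤ C) (hδ : 0 < δ) (hL : 1 ≤ L) (hw : 0 < w)
    (hwC : 8 * C ^ 5 / δ * L ^ 12 ≤ w) (hd0 : 0 ≤ d) (hd : d ≤ L ^ 3)
    (hμ : 1 / 2 * (1 / (C * L)) ≤ μ) (hS : S ≤ (1 + d) / w) (hQ0 : 0 ≤ Q)
    (hQ : Q ≤ (C * L) ^ 3) : S * Q ≤ δ * μ ^ 2 := by
  have hL0 : 0 < L := by linarith
  have hC0 : 0 < C := by linarith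
  have hCL : 0 < C * L := mul_pos hC0 hL0
  have h1 : 8 * C ^ 5 * L ^ 8 ≤ δ * w := by
    have h2 : L ^ 8 ≤ L ^ 12 := pow_le_pow_right₀ hL (by norm_num)
    have h3 : 8 * C ^ 5 * L ^ 12 ≤ δ * w := by
      have h4 := mul_le_mul_of_nonneg_left hwC hδ.le
      have h5 : δ * (8 * C ^ 5 / δ * L ^ 12) = 8 * C ^ 5 * L ^ 12 := by
        field_simp
      rwa [h5] at h4
    have h6 : 8 * C ^ 5 * L ^ 8 ≤ 8 * C ^ 5 * L ^ 12 :=
      mul_le_mul_of_nonneg_left h2 (by positivity)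
    linarith
  have h2 : (1 + d) / w * (C * L) ^ 3 ≤ δ * (1 / 2 * (1 / (C * L))) ^ 2 := by
    have h3 : δ * (1 / 2 * (1 / (C * L))) ^ 2 = δ / (4 * (C * L) ^ 2) := by
      field_simp
      ring
    rw [h3, div_mul_eq_mul_div, div_le_div_iff₀ hw (by positivity)]
    have h4 : 1 + d ≤ 2 * L ^ 3 := by
      have h5 : 1 ≤ L ^ 3 := one_le_pow₀ hL
      linarith
    calc (1 + d) * (C * L) ^ 3 * (4 * (C * L) ^ 2)
        = (1 + d) * (4 * (C * L) ^ 5) := by ring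
      _ ≤ 2 * L ^ 3 * (4 * (C * L) ^ 5) := mul_le_mul_of_nonneg_right h4 (by positivity)
      _ = 8 * C ^ 5 * L ^ 8 := by ring
      _ ≤ δ * w := h1
  calc S * Q ≤ (1 + d) / w * (C * L) ^ 3 := mul_le_mul hS hQ hQ0 (by positivity)
    _ ≤ δ * (1 / 2 * (1 / (C * L))) ^ 2 := h2
    _ ≤ δ * μ ^ 2 := mul_le_mul_of_nonneg_left (pow_le_pow_left₀ (by positivity) hμ 2) hδ.le

theorem fin {Y V μ δ mG mE K1 K2 S1 S2 R1 R2 : ℝ} (hY : 0 ≤ Y) (hV : 0 ≤ V) (hδ : 0 ≤ δ)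
    (hδ1 : δ ≤ 1) (hG0 : 0 ≤ mG) (hG : mG ≤ (1 + δ) * V) (hE0 : 0 ≤ mE) (hE : mE ≤ δ * V)
    (hK1 : K1 ≤ μ ^ 2 + δ * μ ^ 2) (hK2 : K2 ≤ (4 * μ) ^ 2 + δ * μ ^ 2)
    (hS1 : S1 ≤ Y * (mG * K1) + R1) (hS2 : S2 ≤ Y * (mE * K2) + R2)
    (hR1 : R1 ≤ δ * (Y * (V * μ ^ 2))) (hR2 : R2 ≤ δ * (Y * (V * μ ^ 2))) :
    S1 + S2 ≤ (1 + 22 * δ) * (Y * (V * μ ^ 2)) := by
  have hμ : 0 ≤ μ ^ 2 := sq_nonneg μ
  have hX : 0 ≤ V * μ ^ 2 := mul_nonneg hV hμ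
  have h1 : mG * K1 ≤ (1 + δ) * (1 + δ) * (V * μ ^ 2) := by
    calc mG * K1 ≤ mG * (μ ^ 2 + δ * μ ^ 2) := mul_le_mul_of_nonneg_left hK1 hG0
      _ ≤ (1 + δ) * V * (μ ^ 2 + δ * μ ^ 2) := mul_le_mul_of_nonneg_right hG (by positivity)
      _ = (1 + δ) * (1 + δ) * (V * μ ^ 2) := by ring
  have h2 : mE * K2 ≤ δ * 17 * (V * μ ^ 2) := by
    calc mE * K2 ≤ mE * ((4 * μ) ^ 2 + δ * μ ^ 2) := mul_le_mul_of_nonneg_left hK2 hE0
      _ ≤ δ * V * ((4 * μ) ^ 2 + δ * μ ^ 2) := mul_le_mul_of_nonneg_right hE (by positivity)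
      _ = δ * (16 + δ) * (V * μ ^ 2) := by ring
      _ ≤ δ * 17 * (V * μ ^ 2) := by
        refine mul_le_mul_of_nonneg_right ?_ hX
        exact mul_le_mul_of_nonneg_left (by linarith) hδ
  have h3 := mul_le_mul_of_nonneg_left h1 hY
  have h4 := mul_le_mul_of_nonneg_left h2 hY
  have hZ : 0 ≤ Y * (V * μ ^ 2) := mul_nonneg hY hX
  have h5 : δ * δ * (Y * (V * μ ^ 2)) ≤ δ * (Y * (V * μ ^ 2)) := by
    refine mul_le_mul_of_nonneg_right ?_ hZ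
    calc δ * δ ≤ δ * 1 := mul_le_mul_of_nonneg_left hδ1 hδ
      _ = δ := mul_one δ
  calc S1 + S2 ≤ Y * (mG * K1) + δ * (Y * (V * μ ^ 2)) +
        (Y * (mE * K2) + δ * (Y * (V * μ ^ 2))) := by linarith
    _ ≤ Y * ((1 + δ) * (1 + δ) * (V * μ ^ 2)) + δ * (Y * (V * μ ^ 2)) +
        (Y * (δ * 17 * (V * μ ^ 2)) + δ * (Y * (V * μ ^ 2))) := by linarith
    _ = (1 + 21 * δ) * (Y * (V * μ ^ 2)) + δ * δ * (Y * (V * μ ^ 2)) := by ring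
    _ ≤ (1 + 21 * δ) * (Y * (V * μ ^ 2)) + δ * (Y * (V * μ ^ 2)) := by linarith
    _ = (1 + 22 * δ) * (Y * (V * μ ^ 2)) := by ring

theorem ro_bd (d l : ℕ) : 1 ≤ ro d l ∧ ro d l ≤ 2 := by
  unfold ro
  split_ifs
  · exact ⟨le_rfl, by norm_num⟩
  · exact ⟨by norm_num, le_rfl⟩

end M2_

open M2_ in
theorem p_M2 (h1 : T_PNT) (h2 : T_PS2) (h3 : T_RMD) (h4 : T_MUB) (h5 : T_KB) (h6 : T_CAB)
    (h7 : T_ASY) (h8 : T_PRO) : T_M2 := by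
  classical
  intro b b' δ
  obtain ⟨C, hC1, hpro⟩ := h8
  obtain ⟨z1, hrmd⟩ := h3 b b' δ
  obtain ⟨z2, hasy⟩ := h7 (8 * C ^ 5 / δ) (4 * b' + 12) (by omega)
  refine ⟨max z1 z2, ?_⟩
  intro z w Y M κ n d P1 P2 hz hH hd1 hdL
  have hz1 : z1 ≤ z := le_trans (le_max_left _ _) hz
  have hz2 : z2 ≤ z := le_trans (le_max_right _ _) hz
  obtain ⟨hwC, hw7, hL1⟩ := hasy z w hz2 hH.zw
  have hw2 : 2 ≤ w := hH.pp.hw
  have hzw : 2 ≤ z := hw2.trans hH.pp.hwz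
  have hδ := hH.d0
  have hP1 : ∀ p ∈ P1, p.Prime ∧ 7 ≤ p ∧ p ≤ w := fun p hp =>
    ⟨(hH.pp.h1 p hp).1, (hH.pp.h1 p hp).2.1, (hH.pp.h1 p hp).2.2.1⟩
  have hP2 : ∀ p ∈ P2, p.Prime ∧ 7 ≤ p ∧ p ≤ z := fun p hp =>
    ⟨(hH.pp.h2 p hp).1, (hH.pp.h2 p hp).2.1, (hH.pp.h2 p hp).2.2.2.1⟩
  have hdis : Disjoint P1 P2 := by
    rw [Finset.disjoint_left]
    intro p hp hp'
    exact absurd (hH.pp.h1 p hp).2.2.1 (not_le.2 (hH.pp.h2 p hp').2.2.1)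
  have hPM : ∀ p ∈ P1 ∪ P2, p.Prime ∧ ¬ p ∣ 2 * M := by
    intro p hp
    rcases mem_union.1 hp with h | h
    · exact ⟨(hH.pp.h1 p h).1, (hH.pp.h1 p h).2.2.2⟩
    · exact ⟨(hH.pp.h2 p h).1, (hH.pp.h2 p h).2.2.2.2⟩
  obtain ⟨-, hlow, -, hQ3, -, -, hlast⟩ := hpro M w z (4 * b' + 12) P1 P2 hH.pp (by omega) hH.zw
  obtain ⟨hmu1, hmu0, -, hp0, hp4⟩ := h4 z b P2 hH.ma hzw hP2
  obtain ⟨μ, hμ⟩ : ∃ μ : ℝ, μ = mu z b P2 := ⟨_, rfl⟩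
  obtain ⟨V, hV⟩ : ∃ V : ℝ, V = ∏ p ∈ P1, (1 - ro d p / (p : ℝ)) := ⟨_, rfl⟩
  have hV0 : 0 ≤ V := by
    rw [hV]
    refine prod_nonneg fun p hp => ?_
    have h7p : (7 : ℝ) ≤ p := by exact_mod_cast (hP1 p hp).2.1
    have h9 : ro d p / (p : ℝ) ≤ 1 := by
      rw [div_le_one (by linarith)]
      have := (ro_bd d p).2
      linarith
    linarith
  -- the means over the small primes
  obtain ⟨mG1, mG2, mE1, mE2⟩ := hH.ma' w P1 (fun l => ro d l / (l : ℝ)) hw2 (by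
    intro p hp
    have h7p : (7 : ℝ) ≤ p := by exact_mod_cast (hP1 p hp).2.1
    have hr := ro_bd d p
    refine ⟨(hP1 p hp).1, (hP1 p hp).2.1, (hP1 p hp).2.2, ?_, ?_⟩
    · exact div_nonneg (by linarith) (by linarith)
    · exact div_le_div_of_nonneg_right hr.2 (by linarith))
  -- the error term
  have hom : (∑ l ∈ P2, (1 / (l : ℝ) + if l ∣ 2 ^ d - 1 then 1 else 0) * (1 / (l : ℝ))) *
      ∏ l ∈ P2, (1 + 3 * (1 / (l : ℝ))) ≤ δ * μ ^ 2 := by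
    refine num hC1 hδ hL1 (by exact_mod_cast (by omega : 0 < w)) hwC (Nat.cast_nonneg d) hdL ?_
      ?_ ?_ hQ3
    · rw [hμ]
      refine le_trans ?_ hmu1
      exact mul_le_mul_of_nonneg_left hlow (by norm_num)
    · have hl := hlast d hd1 (P2.filter fun l => l ∣ 2 ^ d - 1) (filter_subset _ _)
        (fun l hl => (mem_filter.1 hl).2)
      refine le_trans (le_of_eq ?_) hl
      rw [sum_filter, ← sum_add_distrib]
      refine sum_congr rfl fun l _ => ?_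
      split_ifs
      · ring
      · ring
    · refine prod_nonneg fun l _ => ?_
      positivity
  have hP2' : ∀ l ∈ P2, 1 ≤ l := fun l hl => by
    have := (hP2 l hl).2.1
    omega
  have hK1 : KK (fun l => l ∣ 2 ^ d - 1) P2 (cM z b P2) (cM z b P2) ≤ μ ^ 2 + δ * μ ^ 2 := by
    have h9 := (h5 (fun l => l ∣ 2 ^ d - 1) P2 (cM z b P2) (cM z b P2) hP2'
      (fun D => (h6 z b P2 D).1) (fun D => (h6 z b P2 D).1)).2
    have h10 := (abs_le.1 h9).2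
    have h11 : Fn (cM z b P2) P2 (fun l => 1 / (l : ℝ)) = μ := by rw [hμ]; rfl
    rw [h11] at h10
    have h12 : (∑ l ∈ P2, (1 / (l : ℝ) + if l ∣ 2 ^ d - 1 then 1 else 0) * (1 / (l : ℝ))) *
      ∏ l ∈ P2, (1 + 3 * (1 / (l : ℝ))) ≤ δ * μ ^ 2 := hom
    have h13 : KK (fun l => l ∣ 2 ^ d - 1) P2 (cM z b P2) (cM z b P2) - μ * μ ≤ δ * μ ^ 2 := by
      refine le_trans h10 (le_trans (le_of_eq ?_) h12)
      congr 1
      refine sum_congr rfl fun l _ => ?_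
      congr
    nlinarith
  have hK2 : KK (fun l => l ∣ 2 ^ d - 1) P2 (cP z b P2) (cP z b P2) ≤
      (4 * μ) ^ 2 + δ * μ ^ 2 := by
    have h9 := (h5 (fun l => l ∣ 2 ^ d - 1) P2 (cP z b P2) (cP z b P2) hP2'
      (fun D => (h6 z b P2 D).2) (fun D => (h6 z b P2 D).2)).2
    have h10 := (abs_le.1 h9).2
    have h13 : KK (fun l => l ∣ 2 ^ d - 1) P2 (cP z b P2) (cP z b P2) -
        Fn (cP z b P2) P2 (fun l => 1 / (l : ℝ)) * Fn (cP z b P2) P2 (fun l => 1 / (l : ℝ)) ≤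
        δ * μ ^ 2 := by
      refine le_trans h10 (le_trans (le_of_eq ?_) hom)
      congr 1
      refine sum_congr rfl fun l _ => ?_
      congr
    have h14 : Fn (cP z b P2) P2 (fun l => 1 / (l : ℝ)) *
        Fn (cP z b P2) P2 (fun l => 1 / (l : ℝ)) ≤ (4 * μ) ^ 2 := by
      rw [← sq, hμ]
      exact pow_le_pow_left₀ hp0 hp4 2
    linarith
  -- the remainders
  have hR1 := (hrmd z w Y M d P1 P2 (cT w b' P1) (cM z b P2) (cM z b P2) hz1 hH (Or.inl rfl)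
    (Or.inl rfl) (Or.inl rfl)).1
  have hR2 := (hrmd z w Y M d P1 P2 (cE w b' P1) (cP z b P2) (cP z b P2) hz1 hH (Or.inr rfl)
    (Or.inr rfl) (Or.inr rfl)).1
  rw [← hV, ← hμ] at hR1 hR2
  have hS1 := (abs_le.1 (h2 κ M n d Y P1 P2 (cT w b' P1) (cM z b P2) (cM z b P2) hPM hdis)).2
  have hS2 := (abs_le.1 (h2 κ M n d Y P1 P2 (cE w b' P1) (cP z b P2) (cP z b P2) hPM hdis)).2
  -- pointwise
  have hpt : ∀ j ∈ Ioc 0 Y,
      (xx (b1 κ M n) P1 j * Fn (cM z b P2) P2 (oi (b1 κ M n) j)) *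
        (xx (b1 κ M (n + d)) P1 j * Fn (cM z b P2) P2 (oi (b1 κ M (n + d)) j)) ≤
      Fn (cT w b' P1) P1 (oi (b2 κ M n d) j) * (Fn (cM z b P2) P2 (oi (b1 κ M n) j) *
        Fn (cM z b P2) P2 (oi (b1 κ M (n + d)) j)) +
      Fn (cE w b' P1) P1 (oi (b2 κ M n d) j) * (Fn (cP z b P2) P2 (oi (b1 κ M n) j) *
        Fn (cP z b P2) P2 (oi (b1 κ M (n + d)) j)) := by
    intro j _
    obtain ⟨e1, -, e3⟩ := h1 w b' P1 (b2 κ M n d) j hw2 hP1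
    have e4 := point e1 e3 (abs_le_cP h1 (b := b) (b1 κ M n) j hzw hP2)
      (abs_le_cP h1 (b := b) (b1 κ M (n + d)) j hzw hP2)
    refine le_trans (le_of_eq ?_) e4
    rw [← xx_mul]
    ring
  have hfin := fin (Nat.cast_nonneg Y) hV0 hδ.le hH.d1 (le_trans hV0 (hV ▸ mG1)) (hV ▸ mG2) mE1
    (hV ▸ mE2) hK1 hK2 (sub_le_iff_le_add'.1 hS1) (sub_le_iff_le_add'.1 hS2) hR1 hR2
  refine le_trans (sum_le_sum hpt) ?_
  rw [sum_add_distrib, ← hV, ← hμ]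
  exact hfin

end Pool.Agent.SPU
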