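import Pool.Agent.SPU.Targets

/-!
SPU: the means of the sieve functions (T_MEA)
-/

set_option autoImplicit false

open Finset

namespace Pool.Agent.SPU

open Pool.Agent.SPA
open Pool.Agent.TSP (Per rho)
open Pool.Agent.Tri5 (T_MER T_EXP)

namespace MEA_

theorem Fn_tau (P : Finset ℕ) (g : ℕ → ℝ) (m : ℕ) : Fn (tau m) P g = UU g P m := by
  unfold Fn tau UU
  rfl

theorem Fn_eps (P : Finset ℕ) (g : ℕ → ℝ) (m : ℕ) : Fn (eps m) P g = ee g P (2 * m + 1) := by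
  unfold Fn eps ee
  rfl

theorem ee_nonneg (P : Finset ℕ) (g : ℕ → ℝ) (k : ℕ) (h : ∀ l ∈ P, 0 ≤ g l) : 0 ≤ ee g P k := by
  unfold ee
  refine Finset.sum_nonneg fun D hD => ?_
  have h1 : 0 ≤ ∏ l ∈ D, g l :=
    Finset.prod_nonneg fun l hl => h l (Finset.mem_powerset.1 hD hl)
  split_ifs
  · rw [one_mul]
    exact h1
  · rw [zero_mul]

end MEA_

open MEA_ in
theorem p_MEA (h1 : T_CFN) (h2 : T_FLM) (h3 : T_ALT) : T_MEA := by
  intro η hη
  obtain ⟨b, hb⟩ := h2 η hη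
  refine ⟨b, fun z P g hz hP => ?_⟩
  obtain ⟨e1, e2⟩ := h1 z b P g hz (fun p hp => ⟨(hP p hp).1, (hP p hp).2.1, (hP p hp).2.2.1⟩)
  simp only [Fn_tau, Fn_eps] at e1 e2
  obtain ⟨f1, f2, f3⟩ := hb z P g hz hP
  have hg : ∀ i, ∀ l ∈ Bk P z i, 0 ≤ g l ∧ g l ≤ 1 := by
    intro i l hl
    have hlP : l ∈ P := (Finset.mem_filter.1 hl).1
    obtain ⟨-, h7, -, g0, g1⟩ := hP l hlP
    refine ⟨g0, g1.trans ?_⟩
    have h8 : (7 : ℝ) ≤ l := by exact_mod_cast h7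
    rw [div_le_one (by linarith)]
    linarith
  refine ⟨by rw [e1]; exact f1, by rw [e1]; exact f2, ?_, by rw [e2]; exact f3⟩
  rw [e2]
  refine Finset.sum_nonneg fun i _ => Finset.prod_nonneg fun l _ => ?_
  split_ifs
  · exact ee_nonneg _ _ _ fun q hq => (hg l q hq).1
  · refine le_trans ?_ (h3 g (Bk P z l) (b + l) (hg l)).1
    exact Finset.prod_nonneg fun q hq => by
      have := (hg l q hq).2
      linarith

end Pool.Agent.SPU
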