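import Pool.Agent.SPU.Targets
import Pool.Agent.SPA.P_MOM

/-!
SPU: MO2, the second moment with a fixed exponent (MP_315051_nt).
-/

set_option autoImplicit false

open Finset

namespace Pool.Agent.SPU

open Pool.Agent.SPA
open Pool.Agent.SPA.MOM_ (dvd15 seven_le)

namespace MO2_

/-- Integer roots. -/
theorem exists_root (z m : ℕ) (hm : 1 ≤ m) : ∃ w : ℕ, w ^ m ≤ z ∧ z < (w + 1) ^ m := by
  obtain ⟨w, hw⟩ : ∃ w, w = Nat.findGreatest (fun x => x ^ m ≤ z) z := ⟨_, rfl⟩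
  refine ⟨w, ?_, ?_⟩
  · rw [hw]
    refine Nat.findGreatest_spec (P := fun x => x ^ m ≤ z) (m := 0) (Nat.zero_le _) ?_
    show (0 : ℕ) ^ m ≤ z
    rw [zero_pow (by omega)]
    exact Nat.zero_le _
  · by_contra hc
    have hc' : (w + 1) ^ m ≤ z := not_lt.1 hc
    have h1 : w + 1 ≤ z := le_trans (Nat.le_self_pow (by omega) _) hc'
    have h2 : w + 1 ≤ Nat.findGreatest (fun x => x ^ m ≤ z) z :=
      Nat.le_findGreatest (P := fun x => x ^ m ≤ z) h1 hc'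
    omega

theorem Fn_cM (z b : ℕ) (P : Finset ℕ) (ω : ℕ → ℝ) :
    Fn (cM z b P) P ω = Fn (cT z b P) P ω - Fn (cE z b P) P ω := by
  simp only [Fn, cM, sub_mul, sum_sub_distrib]

theorem xx_nonneg (bad : ℕ → ℕ → Prop) (P : Finset ℕ) (n : ℕ) : 0 ≤ xx bad P n := by
  unfold xx
  split_ifs <;> norm_num

/-- The real arithmetic at the end. -/
theorem arith (e N Y T V μ A K B δ g : ℝ) (he : 0 < e) (he1 : e ≤ 1) (hY : 0 ≤ Y)
    (hT : 0 < T) (hV : 0 < V) (hμ : 0 < μ) (hA : 0 < A) (hK : 0 < K)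
    (hB : B = 2 * A * (2 * K) ^ 2 / e) (hTV : B ≤ T * V)
    (hμ2 : 1 / (2 * K) ≤ μ) (hδ : δ = e / 136) (hg : g = e / 92)
    (h : N * (T * (V * μ)) ^ 2 ≤
      Y * (T * (A * V) + (T * (V * μ)) ^ 2 * (34 * δ + g + 22 * (δ * g)))) :
    N ≤ e * Y := by
  have hq : 0 < (T * (V * μ)) ^ 2 := by positivity
  have h0 : (0 : ℝ) < 2 * K := by positivity
  have h1 : (1 / (2 * K)) ^ 2 ≤ μ ^ 2 := pow_le_pow_left₀ (by positivity) hμ2 2
  have h2 : B * (1 / (2 * K)) ^ 2 ≤ (T * V) * μ ^ 2 :=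
    mul_le_mul hTV h1 (by positivity) (by positivity)
  have h3 : B * (1 / (2 * K)) ^ 2 = 2 * A / e := by
    rw [hB]
    field_simp
  rw [h3] at h2
  have h4 : A ≤ e / 2 * ((T * V) * μ ^ 2) := by
    have := mul_le_mul_of_nonneg_left h2 (show (0 : ℝ) ≤ e / 2 by positivity)
    have h5 : e / 2 * (2 * A / e) = A := by field_simp
    rwa [h5] at this
  have h5 : T * (A * V) ≤ e / 2 * (T * (V * μ)) ^ 2 := by
    have := mul_le_mul_of_nonneg_left h4 (show (0 : ℝ) ≤ T * V by positivity)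
    calc T * (A * V) = T * V * A := by ring
      _ ≤ _ := this
      _ = _ := by ring
  have h6 : 34 * δ + g + 22 * (δ * g) ≤ e / 2 := by
    rw [hδ, hg]
    nlinarith
  have h7 : N * (T * (V * μ)) ^ 2 ≤ (e * Y) * (T * (V * μ)) ^ 2 := by
    refine h.trans ?_
    have h8 : T * (A * V) + (T * (V * μ)) ^ 2 * (34 * δ + g + 22 * (δ * g)) ≤
        e * (T * (V * μ)) ^ 2 := by
      have := mul_le_mul_of_nonneg_left h6 hq.le
      linarith
    have := mul_le_mul_of_nonneg_left h8 hY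
    linarith
  exact le_of_mul_le_mul_right h7 hq

end MO2_

open MO2_ in
theorem p_MO2 (h1 : T_GSM) (h2 : T_SH) (h3 : T_PR2) (h4 : T_MEA) (h5 : T_M1) (h6 : T_M2)
    (h7 : T_M3) (h8 : T_CHE) (h9 : T_PNT) (h10 : T_MUB) (h11 : T_PRO) (h12 : T_ASY) : T_MO2 := by
  classical
  obtain ⟨b, hb⟩ := h4 (1 / 2) (by norm_num)
  refine ⟨8 * b + 30, by omega, ?_⟩
  intro ε hε
  obtain ⟨e, he0, he1, heε⟩ : ∃ e : ℝ, 0 < e ∧ e ≤ 1 ∧ e ≤ ε :=
    ⟨min ε 1, lt_min hε one_pos, min_le_right _ _, min_le_left _ _⟩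
  obtain ⟨δ, hδ⟩ : ∃ δ : ℝ, δ = e / 136 := ⟨_, rfl⟩
  have hδ0 : 0 < δ := by rw [hδ]; positivity
  have hδ1 : δ ≤ 1 := by rw [hδ]; linarith
  obtain ⟨g, hg⟩ : ∃ g : ℝ, g = e / 92 := ⟨_, rfl⟩
  have hg0 : 0 < g := by rw [hg]; positivity
  obtain ⟨b', hb'⟩ := h4 δ hδ0
  obtain ⟨L, hL1, hL60, hBG⟩ := h1 g hg0
  obtain ⟨C, hC1, hPRO⟩ := h11
  obtain ⟨z1, hz1⟩ := h5 b b' δ
  obtain ⟨z2, hz2⟩ := h6 b b' δ
  obtain ⟨z3, A, hA0, hz3⟩ := h7 b b' δ
  obtain ⟨z4, hz4⟩ := h12 1 (4 * b' + 12) (by omega)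
  obtain ⟨m, hm⟩ : ∃ m : ℕ, m = 4 * b' + 12 := ⟨_, rfl⟩
  obtain ⟨B, hB⟩ : ∃ B : ℝ, B = 2 * A * (2 * (C * m)) ^ 2 / e := ⟨_, rfl⟩
  have hm1 : 1 ≤ m := by omega
  have hm0 : (0 : ℝ) < m := by exact_mod_cast hm1
  have hCm : 0 < C * m := by positivity
  have hB0 : 0 < B := by rw [hB]; positivity
  refine ⟨L, max (max z1 z2) (max (max z3 z4) (max 2 ⌈Real.exp L⌉₊)), B, hL1, hB0, ?_⟩
  intro z Y T κ a hz hY hBT hT2
  have hz1' : z1 ≤ z := by
    refine le_trans ?_ hz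
    exact le_trans (le_max_left _ _) (le_max_left _ _)
  have hz2' : z2 ≤ z := by
    refine le_trans ?_ hz
    exact le_trans (le_max_right _ _) (le_max_left _ _)
  have hz3' : z3 ≤ z := by
    refine le_trans ?_ hz
    exact le_trans (le_trans (le_max_left _ _) (le_max_left _ _)) (le_max_right _ _)
  have hz4' : z4 ≤ z := by
    refine le_trans ?_ hz
    exact le_trans (le_trans (le_max_right _ _) (le_max_left _ _)) (le_max_right _ _)
  have hz5' : 2 ≤ z := by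
    refine le_trans ?_ hz
    exact le_trans (le_trans (le_max_left _ _) (le_max_right _ _)) (le_max_right _ _)
  have hz6' : ⌈Real.exp L⌉₊ ≤ z := by
    refine le_trans ?_ hz
    exact le_trans (le_trans (le_max_right _ _) (le_max_right _ _)) (le_max_right _ _)
  have hzL : (L : ℝ) ≤ Real.log z := by
    have h := (Nat.le_ceil (Real.exp (L : ℝ))).trans (by exact_mod_cast hz6' :
      ((⌈Real.exp (L : ℝ)⌉₊ : ℕ) : ℝ) ≤ (z : ℝ))
    have h' := Real.log_le_log (Real.exp_pos _) h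
    rwa [Real.log_exp] at h'
  obtain ⟨w, hwz, hzw⟩ := exists_root z m hm1
  have hasy := hz4 z w hz4' (by rw [← hm]; exact hzw)
  have hw7 : 7 ≤ w := by exact_mod_cast hasy.2.1
  have hwlez : w ≤ z := le_trans (Nat.le_self_pow (by omega) _) hwz
  -- the primes
  have hS : ∀ z' : ℕ, ∀ p ∈ PS L z', p.Prime ∧ 7 ≤ p ∧ p ≤ z' ∧ ¬ p ∣ 2 * (2 ^ L - 1) := by
    intro z' p hp
    rw [PS, mem_filter, mem_Icc] at hp
    exact ⟨hp.2.1, seven_le L p hL60 hp.2.1 hp.2.2, hp.1.2, hp.2.2⟩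
  have hM2 : ∀ z' : ℕ, ∀ p ∈ PS L z', ¬ p ∣ 2 * MM L := by
    intro z' p hp hd
    rcases (Nat.Prime.dvd_mul (hS z' p hp).1).1 hd with h | h
    · exact (hS z' p hp).2.2.2 (h.trans (dvd_mul_right _ _))
    · exact (hS z' p hp).2.2.2 h
  have hsub : PS L w ⊆ PS L z := by
    intro p hp
    rw [PS, mem_filter, mem_Icc] at hp ⊢
    exact ⟨⟨hp.1.1, hp.1.2.trans hwlez⟩, hp.2⟩
  obtain ⟨P1, hP1⟩ : ∃ P1 : Finset ℕ, P1 = PS L w := ⟨_, rfl⟩
  obtain ⟨P2, hP2⟩ : ∃ P2 : Finset ℕ, P2 = PS L z \ PS L w := ⟨_, rfl⟩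
  have hmem2 : ∀ p ∈ P2, p ∈ PS L z ∧ w < p := by
    intro p hp
    rw [hP2, mem_sdiff] at hp
    refine ⟨hp.1, ?_⟩
    by_contra hc
    refine hp.2 ?_
    have h := hp.1
    rw [PS, mem_filter, mem_Icc] at h ⊢
    exact ⟨⟨h.1.1, not_lt.1 hc⟩, h.2⟩
  have hPP : PP (MM L) w z P1 P2 := by
    refine ⟨?_, ?_, by omega, hwlez⟩
    · intro p hp
      rw [hP1] at hp
      exact ⟨(hS w p hp).1, (hS w p hp).2.1, (hS w p hp).2.2.1, hM2 w p hp⟩
    · intro p hp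
      have hp' := hmem2 p hp
      exact ⟨(hS z p hp'.1).1, (hS z p hp'.1).2.1, hp'.2, (hS z p hp'.1).2.2.1,
        hM2 z p hp'.1⟩
  have hHH : HH b b' δ z w Y (MM L) P1 P2 :=
    ⟨hb, hb', hδ0, hδ1, hPP, by rw [← hm]; exact hwz, by rw [← hm]; exact hzw, hY⟩
  -- products
  have hfac : ∀ p ∈ PS L z, 0 < 1 - 1 / (p : ℝ) ∧ 1 - 1 / (p : ℝ) ≤ 1 := by
    intro p hp
    have h7' : (7 : ℝ) ≤ p := by exact_mod_cast (hS z p hp).2.1
    have h8' : 1 / (p : ℝ) < 1 := by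
      rw [div_lt_one (by linarith)]
      linarith
    have h9' : 0 ≤ 1 / (p : ℝ) := by positivity
    exact ⟨by linarith, by linarith⟩
  obtain ⟨V, hV⟩ : ∃ V : ℝ, V = ∏ p ∈ P1, (1 - 1 / (p : ℝ)) := ⟨_, rfl⟩
  have hV0 : 0 < V := by
    rw [hV, hP1]
    exact prod_pos fun p hp => (hfac p (hsub hp)).1
  have hVV0 : 0 < VV L z := prod_pos fun p hp => (hfac p hp).1
  have hVV : VV L z ≤ V := by
    rw [VV, ← prod_sdiff hsub, ← hP2, ← hP1, ← hV]
    have hle : ∏ p ∈ P2, (1 - 1 / (p : ℝ)) ≤ 1 :=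
      prod_le_one (fun p hp => (hfac p (hmem2 p hp).1).1.le)
        (fun p hp => (hfac p (hmem2 p hp).1).2)
    have := mul_le_mul_of_nonneg_right hle hV0.le
    linarith
  have hP2' : ∀ p ∈ P2, p.Prime ∧ 7 ≤ p ∧ p ≤ z := fun p hp =>
    ⟨(hPP.h2 p hp).1, (hPP.h2 p hp).2.1, (hPP.h2 p hp).2.2.2.1⟩
  obtain ⟨μ, hμ⟩ : ∃ μ : ℝ, μ = mu z b P2 := ⟨_, rfl⟩
  have hmub := h10 z b P2 hb hz5' hP2'
  have hμ0 : 0 < μ := by rw [hμ]; exact hmub.2.1
  have hμ2 : 1 / (2 * (C * m)) ≤ μ := by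
    have hpro := (hPRO (MM L) w z m P1 P2 hPP hm1 hzw).2.2.2.2.2.1
    have h := hmub.1
    rw [← hμ] at h
    have h' : 1 / (2 * (C * (m : ℝ))) = 1 / 2 * (1 / (C * m)) := by
      rw [one_div_mul_one_div]
    rw [h']
    linarith
  -- the number of exponents
  have hT0 : (0 : ℝ) < T := by
    by_contra hc
    have hc' : (T : ℝ) ≤ 0 := not_lt.1 hc
    have := mul_nonpos_of_nonpos_of_nonneg hc' hVV0.le
    linarith
  have hTV : B ≤ T * V := hBT.trans (mul_le_mul_of_nonneg_left hVV hT0.le)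
  -- the functions
  obtain ⟨G, hG⟩ : ∃ G : ℕ → ℕ → ℝ, G = fun t j =>
      xx (b1 κ (MM L) (a + L * t)) P1 j *
        Fn (cM z b P2) P2 (oi (b1 κ (MM L) (a + L * t)) j) := ⟨_, rfl⟩
  obtain ⟨F, hF⟩ : ∃ F : ℕ → ℝ, F = fun h =>
      ∏ p ∈ P1.filter (fun p => p ∣ 2 ^ (L * h) - 1), (1 + 1 / ((p : ℝ) - 1)) := ⟨_, rfl⟩
  have hF1 : ∀ N : ℕ, ∑ h ∈ Icc 1 N, F h ≤ N * (1 + g) := by
    intro N
    rw [hF]
    refine h2 L g hL1 hBG P1 (fun p hp => ?_) N
    rw [hP1] at hp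
    exact ⟨(hS w p hp).1, (hS w p hp).2.2.2⟩
  have hche := h8 T Y G F (V * μ) δ g (A * V) (by positivity) hδ0.le hg0.le ?_ ?_ ?_ hF1
  · -- conclusion
    have hfin := arith e _ Y T V μ A (C * m) B δ g he0 he1 (by positivity) hT0 hV0 hμ0 hA0 hCm hB
      hTV hμ2 hδ hg hche
    have hsubset : ((Ioc 0 Y).filter fun j => ∀ t < T, ¬ Gd L z a (κ + MM L * j) t) ⊆
        ((Ioc 0 Y).filter fun j => ∀ t < T, G t j ≤ 0) := by
      intro j hj
      rw [mem_filter] at hj ⊢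
      refine ⟨hj.1, fun t ht => ?_⟩
      have hgd := hj.2 t ht
      rw [Gd] at hgd
      push Not at hgd
      obtain ⟨p, hp, hpd⟩ := hgd
      rw [hG]
      by_cases hpw : p ∈ PS L w
      · have hx0 : xx (b1 κ (MM L) (a + L * t)) P1 j = 0 := by
          rw [xx, if_neg]
          intro hc
          exact hc p (by rw [hP1]; exact hpw) hpd
        show xx (b1 κ (MM L) (a + L * t)) P1 j * _ ≤ 0
        rw [hx0, zero_mul]
      · have hp2 : p ∈ P2 := by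
          rw [hP2, mem_sdiff]
          exact ⟨hp, hpw⟩
        have hx0 : xx (b1 κ (MM L) (a + L * t)) P2 j = 0 := by
          rw [xx, if_neg]
          intro hc
          exact hc p hp2 hpd
        have hpnt := h9 z b P2 (b1 κ (MM L) (a + L * t)) j hz5' hP2'
        have hneg : Fn (cM z b P2) P2 (oi (b1 κ (MM L) (a + L * t)) j) ≤ 0 := by
          rw [Fn_cM]
          have := hpnt.2.2
          rw [hx0] at this
          linarith
        exact mul_nonpos_of_nonneg_of_nonpos (xx_nonneg _ _ _) hneg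
    have hcard : (((Ioc 0 Y).filter fun j =>
        ∀ t < T, ¬ Gd L z a (κ + MM L * j) t).card : ℝ) ≤
        (((Ioc 0 Y).filter fun j => ∀ t < T, G t j ≤ 0).card : ℝ) := by
      exact_mod_cast card_le_card hsubset
    have hY0 : (0 : ℝ) ≤ Y := by positivity
    have hlast : e * Y ≤ ε * Y := mul_le_mul_of_nonneg_right heε hY0
    have hgoal := (hcard.trans (by convert hfin)).trans hlast
    convert hgoal
  · -- the first moment
    intro t _
    have h := hz1 z w Y (MM L) κ (a + L * t) P1 P2 hz1' hHH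
    rw [hG]
    show (1 - 6 * δ) * (Y * (V * μ)) ≤ _
    rw [hV, hμ]
    exact h
  · -- the diagonal
    intro t _
    have h := hz3 z w Y (MM L) κ (a + L * t) P1 P2 hz3' hHH
    rw [hG]
    refine le_trans h (le_of_eq ?_)
    rw [hV]
    ring
  · -- the pairs
    intro t h hh htT
    have hLh1 : 1 ≤ L * h := Nat.one_le_iff_ne_zero.2 (by positivity)
    have hLh3 : ((L * h : ℕ) : ℝ) ≤ Real.log z ^ 3 := by
      have hhT : (h : ℝ) ≤ T := by
        have : h ≤ T := by omega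
        exact_mod_cast this
      push_cast
      have hl0 : (0 : ℝ) ≤ Real.log z := le_trans (by positivity) hzL
      calc (L : ℝ) * h ≤ Real.log z * Real.log z ^ 2 :=
            mul_le_mul hzL (hhT.trans hT2) (by positivity) hl0
        _ = Real.log z ^ 3 := by ring
    have hm2 := hz2 z w Y (MM L) κ (a + L * t) (L * h) P1 P2 hz2' hHH hLh1 hLh3
    have hadd : a + L * (t + h) = a + L * t + L * h := by ring
    have hlhs : ∑ j ∈ Ioc 0 Y, G t j * G (t + h) j = ∑ j ∈ Ioc 0 Y,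
        (xx (b1 κ (MM L) (a + L * t)) P1 j *
          Fn (cM z b P2) P2 (oi (b1 κ (MM L) (a + L * t)) j)) *
        (xx (b1 κ (MM L) (a + L * t + L * h)) P1 j *
          Fn (cM z b P2) P2 (oi (b1 κ (MM L) (a + L * t + L * h)) j)) := by
      refine sum_congr rfl fun j _ => ?_
      rw [hG]
      show _ * (xx (b1 κ (MM L) (a + L * (t + h))) P1 j *
          Fn (cM z b P2) P2 (oi (b1 κ (MM L) (a + L * (t + h))) j)) = _
      rw [hadd]
    rw [hlhs]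
    refine hm2.trans ?_
    have hpr : ∏ p ∈ P1, (1 - ro (L * h) p / (p : ℝ)) ≤ V ^ 2 * F h := by
      have hq := h3 P1 (2 ^ (L * h) - 1) (fun p hp => by
        rw [hP1] at hp
        exact ⟨(hS w p hp).1, le_trans (by norm_num) (hS w p hp).2.1⟩)
      rw [hV, hF]
      refine le_trans (le_of_eq ?_) hq
      refine prod_congr rfl fun p _ => ?_
      rw [ro]
      split_ifs <;> norm_num
    have hc : (0 : ℝ) ≤ (1 + 22 * δ) * (Y * μ ^ 2) := by positivity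
    have := mul_le_mul_of_nonneg_left hpr hc
    rw [← hμ]
    calc (1 + 22 * δ) * (Y * ((∏ p ∈ P1, (1 - ro (L * h) p / (p : ℝ))) * μ ^ 2))
        = (1 + 22 * δ) * (Y * μ ^ 2) * ∏ p ∈ P1, (1 - ro (L * h) p / (p : ℝ)) := by ring
      _ ≤ (1 + 22 * δ) * (Y * μ ^ 2) * (V ^ 2 * F h) := this
      _ = (1 + 22 * δ) * (Y * (V * μ) ^ 2) * F h := by ring

end Pool.Agent.SPU
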