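import Pool.Agent.SPU.Targets

set_option autoImplicit false

/-!
# SPU, target MUB: bounds for the mean of the lower function
-/

open Finset

namespace Pool.Agent.SPU

namespace MUB_

theorem cM_eq (z b : ℕ) (P : Finset ℕ) (ω : ℕ → ℝ) :
    Fn (cM z b P) P ω = Fn (cT z b P) P ω - Fn (cE z b P) P ω := by
  unfold Fn cM
  rw [← sum_sub_distrib]
  exact sum_congr rfl fun D _ => by ring

theorem cP_eq (z b : ℕ) (P : Finset ℕ) (ω : ℕ → ℝ) :
    Fn (cP z b P) P ω = Fn (cT z b P) P ω + Fn (cE z b P) P ω := by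
  unfold Fn cP
  rw [← sum_add_distrib]
  exact sum_congr rfl fun D _ => by ring

end MUB_

open MUB_ in
theorem p_MUB : T_MUB := by
  intro z b P hb hz hP
  have hp0 : ∀ p ∈ P, (7 : ℝ) ≤ p := fun p hp => by exact_mod_cast (hP p hp).2.1
  obtain ⟨h1, h2, h3, h4⟩ := hb z P (fun l => 1 / (l : ℝ)) hz (fun p hp =>
    ⟨(hP p hp).1, (hP p hp).2.1, (hP p hp).2.2, by positivity,
      div_le_div_of_nonneg_right (by norm_num) (Nat.cast_nonneg p)⟩)
  have hf : ∀ p ∈ P, 1 / (p : ℝ) ≤ 1 / 7 := fun p hp =>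
    one_div_le_one_div_of_le (by norm_num) (hp0 p hp)
  have hpos : 0 < ∏ p ∈ P, (1 - 1 / (p : ℝ)) :=
    prod_pos fun p hp => by have := hf p hp; linarith
  have hle : ∏ p ∈ P, (1 - 1 / (p : ℝ)) ≤ 1 :=
    prod_le_one (fun p hp => by have := hf p hp; linarith)
      (fun p _ => by have : 0 ≤ 1 / (p : ℝ) := by positivity
                     linarith)
  unfold mu
  rw [cM_eq, cP_eq]
  refine ⟨?_, ?_, ?_, ?_, ?_⟩ <;> linarith

end Pool.Agent.SPU
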