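import Pool.Agent.SPU.Targets

/-!
SPU (MP_315051_nt), block PNT: the pointwise inequalities of the sieve functions.
-/

set_option autoImplicit false

open Finset

namespace Pool.Agent.SPU

open Pool.Agent.SPA

namespace PNT_

theorem prod_oi (bad : ℕ → ℕ → Prop) (n : ℕ) (D : Finset ℕ) :
    ∏ l ∈ D, oi bad n l = ind bad D n := by
  classical
  unfold oi ind
  rw [Finset.prod_ite_zero]
  by_cases h : ∀ l ∈ D, bad l n
  · rw [if_pos h, if_pos h, Finset.prod_const_one]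
  · rw [if_neg h, if_neg h]

theorem fn_tau (bad : ℕ → ℕ → Prop) (P : Finset ℕ) (m n : ℕ) :
    Fn (tau m) P (oi bad n) = TT bad P m n := by
  unfold Fn TT
  refine Finset.sum_congr rfl fun D _ => ?_
  rw [prod_oi]
  rfl

theorem fn_eps (bad : ℕ → ℕ → Prop) (P : Finset ℕ) (m n : ℕ) :
    Fn (eps m) P (oi bad n) = EE bad P m n := by
  unfold Fn EE
  refine Finset.sum_congr rfl fun D _ => ?_
  rw [prod_oi]
  rfl

theorem xx_prod (bad : ℕ → ℕ → Prop) (P : Finset ℕ) (z n : ℕ)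
    (h : (range z).biUnion (Bk P z) = P) :
    xx bad P n = ∏ i ∈ range z, xx bad (Bk P z i) n := by
  classical
  unfold xx
  rw [Finset.prod_ite_zero]
  have h1 : (∀ l ∈ P, ¬ bad l n) ↔ ∀ i ∈ range z, ∀ l ∈ Bk P z i, ¬ bad l n := by
    constructor
    · intro h2 i hi l hl
      refine h2 l ?_
      rw [← h, Finset.mem_biUnion]
      exact ⟨i, hi, hl⟩
    · intro h2 l hl
      rw [← h, Finset.mem_biUnion] at hl
      obtain ⟨i, hi, hl⟩ := hl
      exact h2 i hi l hl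
  by_cases h2 : ∀ l ∈ P, ¬ bad l n
  · rw [if_pos h2, if_pos (h1.1 h2), Finset.prod_const_one]
  · rw [if_neg h2, if_neg (fun h3 => h2 (h1.2 h3))]

end PNT_

open PNT_ in
theorem p_PNT (h1 : T_CFN) (h2 : T_PTW) (h3 : T_TEL) (h4 : T_BLK) : T_PNT := by
  intro z b P bad n hz hP
  obtain ⟨G, -, hG⟩ := h4
  obtain ⟨hU, -, -⟩ := hG z P hz hP
  obtain ⟨e1, e2⟩ := h1 z b P (oi bad n) hz hP
  simp only [fn_tau, fn_eps] at e1 e2
  rw [e1, e2, xx_prod bad P z n hU]
  have hb : ∀ i, 0 ≤ xx bad (Bk P z i) n ∧ xx bad (Bk P z i) n ≤ TT bad (Bk P z i) (b + i) n ∧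
      TT bad (Bk P z i) (b + i) n ≤ xx bad (Bk P z i) n + EE bad (Bk P z i) (b + i) n ∧
      0 ≤ EE bad (Bk P z i) (b + i) n := fun i => h2 bad (Bk P z i) (b + i) n
  have hT : ∀ i, 0 ≤ TT bad (Bk P z i) (b + i) n := fun i => (hb i).1.trans (hb i).2.1
  refine ⟨?_, ?_, ?_⟩
  · exact Finset.prod_le_prod (fun i _ => (hb i).1) fun i _ => (hb i).2.1
  · refine Finset.sum_nonneg fun i _ => Finset.prod_nonneg fun l _ => ?_
    split_ifs
    · exact (hb l).2.2.2
    · exact hT l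
  · exact h3 z (fun i => xx bad (Bk P z i) n) (fun i => TT bad (Bk P z i) (b + i) n)
      (fun i => EE bad (Bk P z i) (b + i) n) fun i _ => hb i

end Pool.Agent.SPU
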