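import Pool.Agent.SPU.Targets

set_option autoImplicit false

open Finset

namespace Pool.Agent.SPU

open Pool.Agent.SPA
open Pool.Agent.TSP (Per rho)
open Pool.Agent.Tri5 (T_MER T_EXP)

namespace PRO_

lemma card_le (w z : ℕ) (P : Finset ℕ) (hP : ∀ p ∈ P, w < p ∧ p ≤ z) : P.card ≤ z := by
  have : P ⊆ Icc 1 z := fun p hp => by
    have h := hP p hp
    rw [mem_Icc]
    omega
  calc P.card ≤ (Icc 1 z).card := card_le_card this
    _ = z := by simp

lemma fac (p : ℕ) (hp : 3 ≤ p) : 1 - 1 / (p : ℝ) = (1 + 1 / ((p : ℝ) - 1))⁻¹ := by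
  have h3 : (3 : ℝ) ≤ p := by exact_mod_cast hp
  have h1 : (p : ℝ) ≠ 0 := by linarith
  have h2 : (p : ℝ) - 1 ≠ 0 := by
    intro h
    linarith
  have h4 : 1 + 1 / ((p : ℝ) - 1) = p / (p - 1) := by
    field_simp
    ring
  rw [h4, inv_div]
  field_simp

lemma three (p : ℕ) (hp : 3 ≤ p) : 1 + 3 * (1 / (p : ℝ)) ≤ (1 + 1 / ((p : ℝ) - 1)) ^ 3 := by
  have h3 : (3 : ℝ) ≤ p := by exact_mod_cast hp
  have h1 : 1 / (p : ℝ) ≤ 1 / ((p : ℝ) - 1) :=
    one_div_le_one_div_of_le (by linarith) (by linarith)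
  have h0 : 0 < 1 / ((p : ℝ) - 1) := by
    have : 0 < (p : ℝ) - 1 := by linarith
    positivity
  have h2 : 0 ≤ (1 / ((p : ℝ) - 1)) ^ 2 := by positivity
  have h4 : 0 ≤ (1 / ((p : ℝ) - 1)) ^ 3 := by positivity
  nlinarith

lemma tele (w z : ℕ) (hw : 1 ≤ w) (hz : w ≤ z) :
    ∑ l ∈ Ioc w z, (1 / (l : ℝ)) * (1 / (l : ℝ)) ≤ 1 / w - 1 / z := by
  induction z, hz using Nat.le_induction with
  | base => simp
  | succ n hn ih =>
    rw [sum_Ioc_succ_top hn]
    have h0 : (0 : ℝ) < n := by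
      have : 0 < n := by omega
      exact_mod_cast this
    have h1 : 1 / (((n + 1 : ℕ)) : ℝ) * (1 / (((n + 1 : ℕ)) : ℝ)) ≤
        1 / (n : ℝ) - 1 / (((n + 1 : ℕ)) : ℝ) := by
      push_cast
      rw [div_sub_div _ _ h0.ne' (by positivity), div_mul_div_comm,
        div_le_div_iff₀ (by positivity) (by positivity)]
      nlinarith
    linarith

lemma few (d : ℕ) (hd : 1 ≤ d) (P : Finset ℕ) (hP : ∀ l ∈ P, l.Prime)
    (h : ∀ l ∈ P, l ∣ 2 ^ d - 1) : P.card ≤ d := by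
  have h1 : (∏ l ∈ P, l) ∣ 2 ^ d - 1 :=
    Finset.prod_primes_dvd _ (fun l hl => (hP l hl).prime) h
  have h2 : 2 ≤ 2 ^ d := by
    calc 2 = 2 ^ 1 := by norm_num
      _ ≤ 2 ^ d := Nat.pow_le_pow_right (by norm_num) hd
  have h3 : ∏ l ∈ P, l ≤ 2 ^ d - 1 := Nat.le_of_dvd (by omega) h1
  have h4 : 2 ^ P.card ≤ ∏ l ∈ P, l := by
    rw [← Finset.prod_const]
    exact Finset.prod_le_prod' (fun l hl => (hP l hl).two_le)
  have h5 : 2 ^ P.card ≤ 2 ^ d := by omega
  exact (Nat.pow_le_pow_iff_right (by norm_num)).1 h5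

end PRO_

open PRO_

theorem p_PRO (h1 : T_MER) (h2 : T_VLO) : T_PRO := by
  obtain ⟨C0, hC0, HM⟩ := h1
  obtain ⟨C1, hC1, HV⟩ := h2
  refine ⟨max 1 (max C1 (2 * C0)), le_max_left _ _, ?_⟩
  intro M w z m P1 P2 hPP hm hzw
  set C : ℝ := max 1 (max C1 (2 * C0)) with hC
  have hCa : C1 ≤ C := (le_max_left _ _).trans (le_max_right _ _)
  have hCb : 2 * C0 ≤ C := (le_max_right _ _).trans (le_max_right _ _)
  have hC1' : 1 ≤ C := le_max_left _ _
  have hC0' : 0 < C := by linarith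
  have hw := hPP.hw
  have hwz := hPP.hwz
  have hz2 : 2 ≤ z := hw.trans hwz
  have hzr : (2 : ℝ) ≤ z := by exact_mod_cast hz2
  have hwr : (2 : ℝ) ≤ w := by exact_mod_cast hw
  have hlz : 0 < Real.log z := Real.log_pos (by linarith)
  have hlw : 0 < Real.log w := Real.log_pos (by linarith)
  have hmr : (1 : ℝ) ≤ m := by exact_mod_cast hm
  have k1 := HV z P1 hz2 (fun p hp => ⟨(hPP.h1 p hp).1, by
    have := (hPP.h1 p hp).2.1
    omega, (hPP.h1 p hp).2.2.1.trans hwz⟩)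
  have k2 := HV z P2 hz2 (fun p hp => ⟨(hPP.h2 p hp).1, by
    have := (hPP.h2 p hp).2.1
    omega, (hPP.h2 p hp).2.2.2.1⟩)
  have hmon : 1 / (C * Real.log z) ≤ 1 / (C1 * Real.log z) :=
    one_div_le_one_div_of_le (by positivity) (mul_le_mul_of_nonneg_right hCa hlz.le)
  have h3p : ∀ p ∈ P2, 3 ≤ p := fun p hp => by
    have := (hPP.h2 p hp).2.1
    omega
  -- the product `A`
  obtain ⟨A, hA⟩ : ∃ A : ℝ, A = ∏ p ∈ P2, (1 + 1 / ((p : ℝ) - 1)) := ⟨_, rfl⟩
  have hpos : ∀ p ∈ P2, 0 < 1 + 1 / ((p : ℝ) - 1) := fun p hp => by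
    have h3 : (3 : ℝ) ≤ p := by exact_mod_cast h3p p hp
    have : 0 < (p : ℝ) - 1 := by linarith
    positivity
  have hA0 : 0 < A := by
    rw [hA]
    exact prod_pos hpos
  have e1 : ∏ p ∈ P2, (1 - 1 / (p : ℝ)) = A⁻¹ := by
    rw [hA, ← prod_inv_distrib]
    exact prod_congr rfl fun p hp => fac p (h3p p hp)
  have e2 : ∏ p ∈ P2, (1 + 3 * (1 / (p : ℝ))) ≤ A ^ 3 := by
    rw [hA, ← prod_pow]
    exact prod_le_prod (fun p _ => by positivity) (fun p hp => three p (h3p p hp))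
  have hA1 : A ≤ C * Real.log z := by
    have h4 := k2.1
    rw [e1, ← one_div, one_div_le_one_div (by positivity) hA0] at h4
    exact h4.trans (mul_le_mul_of_nonneg_right hCa hlz.le)
  have hA2 : A ≤ C * m := by
    have h4 := HM w z P2 hw hwz (card_le w z P2 (fun p hp =>
      ⟨(hPP.h2 p hp).2.2.1, (hPP.h2 p hp).2.2.2.1⟩))
      (fun p hp => ⟨(hPP.h2 p hp).1, (hPP.h2 p hp).2.2.1⟩)
    rw [← hA] at h4
    have h5 : Real.log z ≤ 2 * m * Real.log w := by
      have h6 : (z : ℝ) ≤ ((w : ℝ) + 1) ^ m := by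
        have : z ≤ (w + 1) ^ m := hzw.le
        exact_mod_cast this
      have h7 := Real.log_le_log (by linarith) h6
      rw [Real.log_pow] at h7
      have h8 : Real.log ((w : ℝ) + 1) ≤ 2 * Real.log w := by
        rw [show 2 * Real.log w = Real.log ((w : ℝ) ^ 2) by
          rw [Real.log_pow]
          push_cast
          ring]
        exact Real.log_le_log (by linarith) (by nlinarith)
      have h9 : (m : ℝ) * Real.log ((w : ℝ) + 1) ≤ m * (2 * Real.log w) :=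
        mul_le_mul_of_nonneg_left h8 (by linarith)
      linarith
    calc A ≤ C0 * Real.log z / Real.log w := h4
      _ ≤ C0 * (2 * m * Real.log w) / Real.log w := by gcongr
      _ = 2 * C0 * m := by
          field_simp
      _ ≤ C * m := mul_le_mul_of_nonneg_right hCb (by linarith)
  refine ⟨hmon.trans k1.1, hmon.trans k2.1, ?_, ?_, ?_, ?_, ?_⟩
  · intro d
    have h0 : 0 ≤ 1 / (C * Real.log z) := by positivity
    refine (pow_le_pow_left₀ h0 hmon 3).trans (k1.2.trans ?_)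
    refine prod_le_prod (fun p hp => ?_) (fun p hp => ?_)
    · have h7 : (7 : ℝ) ≤ p := by exact_mod_cast (hPP.h1 p hp).2.1
      have : 2 / (p : ℝ) ≤ 1 := by
        rw [div_le_one (by linarith)]
        linarith
      linarith
    · have h7 : (7 : ℝ) ≤ p := by exact_mod_cast (hPP.h1 p hp).2.1
      have h8 : ro d p ≤ 2 := by
        unfold ro
        split_ifs <;> norm_num
      have h9 : ro d p / (p : ℝ) ≤ 2 / p := div_le_div_of_nonneg_right h8 (by linarith)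
      linarith
  · exact e2.trans (pow_le_pow_left₀ hA0.le hA1 3)
  · exact e2.trans (pow_le_pow_left₀ hA0.le hA2 3)
  · rw [e1, ← one_div]
    exact one_div_le_one_div_of_le hA0 hA2
  · intro d hd P hP hdvd
    have hw0 : (0 : ℝ) < w := by linarith
    have s1 : ∑ l ∈ P2, (1 / (l : ℝ)) * (1 / (l : ℝ)) ≤ 1 / w := by
      have hsub : P2 ⊆ Ioc w z := fun p hp => by
        rw [mem_Ioc]
        exact ⟨(hPP.h2 p hp).2.2.1, (hPP.h2 p hp).2.2.2.1⟩
      have h4 := tele w z (by omega) hwz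
      have h5 : ∑ l ∈ P2, (1 / (l : ℝ)) * (1 / (l : ℝ)) ≤
          ∑ l ∈ Ioc w z, (1 / (l : ℝ)) * (1 / (l : ℝ)) :=
        sum_le_sum_of_subset_of_nonneg hsub (fun l _ _ => by positivity)
      have h6 : 0 < 1 / (z : ℝ) := by positivity
      linarith
    have s2 : ∑ l ∈ P, 1 / (l : ℝ) ≤ d / w := by
      have h4 : P.card ≤ d := few d hd P (fun l hl => (hPP.h2 l (hP hl)).1) hdvd
      have h5 : ∑ l ∈ P, 1 / (l : ℝ) ≤ P.card • (1 / (w : ℝ)) := by
        refine sum_le_card_nsmul P _ _ (fun l hl => ?_)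
        have h6 := (hPP.h2 l (hP hl)).2.2.1
        have h7 : (w : ℝ) ≤ l := by exact_mod_cast h6.le
        exact one_div_le_one_div_of_le hw0 h7
      rw [nsmul_eq_mul] at h5
      have h8 : (P.card : ℝ) ≤ d := by exact_mod_cast h4
      calc ∑ l ∈ P, 1 / (l : ℝ) ≤ P.card * (1 / (w : ℝ)) := h5
        _ ≤ d * (1 / (w : ℝ)) := mul_le_mul_of_nonneg_right h8 (by positivity)
        _ = d / w := by ring
    rw [add_div]
    linarith

end Pool.Agent.SPU
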