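import Pool.Agent.SPU.Targets

/-!
SPU (MP_315051_nt): target PS1, the mean of the product of two sieve functions.
-/

set_option autoImplicit false

open Finset

namespace Pool.Agent.SPU

open Pool.Agent.SPA
open Pool.Agent.TSP (Per rho)

namespace PS1_

theorem prod_oi (bad : ℕ → ℕ → Prop) (D : Finset ℕ) (n : ℕ) :
    ∏ l ∈ D, oi bad n l = ind bad D n := by
  classical
  unfold oi ind
  by_cases h : ∀ l ∈ D, bad l n
  · rw [if_pos h]
    exact Finset.prod_eq_one fun l hl => if_pos (h l hl)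
  · rw [if_neg h]
    push Not at h
    obtain ⟨l, hl, hb⟩ := h
    exact Finset.prod_eq_zero hl (if_neg hb)

/-- A multilinear sum is a sieve function. -/
theorem sf (bad : ℕ → ℕ → Prop) (P : Finset ℕ) (c : Finset ℕ → ℝ) :
    SF bad P (fun n => Fn c P (oi bad n)) (Fn c P (fun l => (rho bad l : ℝ) / l))
      (∑ D ∈ P.powerset, |c D| * ∏ l ∈ D, (rho bad l : ℝ)) :=
  ⟨c, fun n => by
    change Fn c P (oi bad n) = _
    unfold Fn
    exact Finset.sum_congr rfl fun D _ => by rw [prod_oi], rfl, le_refl _⟩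

end PS1_

open PS1_ in
theorem p_PS1 (h1 : T_SFM) (h2 : T_SFC) : T_PS1 := by
  intro bad P1 P2 c0 c1 Y hper hP hdis
  have h3 := h1 bad P1 P2 _ _ _ _ _ _ hdis (sf bad P1 c0) (sf bad P2 c1)
  have h4 := h2 bad hper (P1 ∪ P2) _ _ _ hP h3 0 Y
  rw [zero_add] at h4
  exact h4

end Pool.Agent.SPU
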