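import Pool.Agent.SPU.Targets

/-!
SPU (MP_315051_nt), target PS2: the product of three sieve functions.
-/

set_option autoImplicit false

open Finset

namespace Pool.Agent.SPU

open Pool.Agent.SPA

namespace PS2_

theorem prod_oi (bad : ℕ → ℕ → Prop) (D : Finset ℕ) (n : ℕ) [Decidable (∀ l ∈ D, bad l n)] :
    ∏ l ∈ D, oi bad n l = if ∀ l ∈ D, bad l n then 1 else 0 := by
  by_cases h : ∀ l ∈ D, bad l n
  · rw [if_pos h]
    refine Finset.prod_eq_one fun l hl => ?_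
    unfold oi
    rw [if_pos (h l hl)]
  · rw [if_neg h]
    push Not at h
    obtain ⟨l, hl, hb⟩ := h
    refine Finset.prod_eq_zero hl ?_
    unfold oi
    rw [if_neg hb]

theorem triple {α : Type} (s t : Finset α) (f g k : α → ℝ) :
    (∑ D ∈ s, f D) * ((∑ D ∈ t, g D) * ∑ D ∈ t, k D) =
      ∑ D ∈ s, ∑ D1 ∈ t, ∑ D2 ∈ t, f D * (g D1 * k D2) := by
  rw [Finset.sum_mul_sum t t g k, Finset.sum_mul_sum]
  refine Finset.sum_congr rfl fun D _ => Finset.sum_congr rfl fun D1 _ => ?_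
  rw [Finset.mul_sum]

end PS2_

open PS2_ in
/-- **PS2** -/
theorem p_PS2 (h : T_CNT) : T_PS2 := by
  classical
  intro κ M n d Y P1 P2 c0 c1 c2 hP hdis
  -- the number of CNT
  have key : ∀ D ∈ P1.powerset, ∀ D1 ∈ P2.powerset, ∀ D2 ∈ P2.powerset,
      |∑ j ∈ Ioc 0 Y, ((∏ l ∈ D, oi (b2 κ M n d) j l) * ((∏ l ∈ D1, oi (b1 κ M n) j l) *
        ∏ l ∈ D2, oi (b1 κ M (n + d)) j l)) -
        Y * ((∏ l ∈ D, ro d l / l) * ((∏ l ∈ D1 ∪ D2, 1 / (l : ℝ)) *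
          if ∀ l ∈ D1 ∩ D2, l ∣ 2 ^ d - 1 then 1 else 0))| ≤ ∏ l ∈ D, ro d l := by
    intro D hD D1 hD1 D2 hD2
    have h1 := h κ M n d Y P1 P2 D D1 D2 hP hdis (Finset.mem_powerset.1 hD)
      (Finset.mem_powerset.1 hD1) (Finset.mem_powerset.1 hD2)
    have e : ∑ j ∈ Ioc 0 Y, ((∏ l ∈ D, oi (b2 κ M n d) j l) *
        ((∏ l ∈ D1, oi (b1 κ M n) j l) * ∏ l ∈ D2, oi (b1 κ M (n + d)) j l)) =
        (((Ioc 0 Y).filter fun j => (∀ l ∈ D, b2 κ M n d l j) ∧ (∀ l ∈ D1, b1 κ M n l j) ∧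
          ∀ l ∈ D2, b1 κ M (n + d) l j).card : ℝ) := by
      rw [← Finset.sum_boole]
      refine Finset.sum_congr rfl fun j _ => ?_
      rw [prod_oi, prod_oi, prod_oi]
      by_cases a : (∀ l ∈ D, b2 κ M n d l j) ∧ (∀ l ∈ D1, b1 κ M n l j) ∧
          ∀ l ∈ D2, b1 κ M (n + d) l j
      · rw [if_pos a, if_pos a.1, if_pos a.2.1, if_pos a.2.2, one_mul, one_mul]
      · rw [if_neg a]
        by_cases a1 : ∀ l ∈ D, b2 κ M n d l j
        · by_cases a2 : ∀ l ∈ D1, b1 κ M n l j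
          · have a3 : ¬ ∀ l ∈ D2, b1 κ M (n + d) l j := fun hh => a ⟨a1, a2, hh⟩
            rw [if_neg a3, mul_zero, mul_zero]
          · rw [if_neg a2, zero_mul, mul_zero]
        · rw [if_neg a1, zero_mul]
    rw [e]
    convert h1 using 8
  -- expansions
  have L : ∑ j ∈ Ioc 0 Y, Fn c0 P1 (oi (b2 κ M n d) j) *
      (Fn c1 P2 (oi (b1 κ M n) j) * Fn c2 P2 (oi (b1 κ M (n + d)) j)) =
      ∑ D ∈ P1.powerset, ∑ D1 ∈ P2.powerset, ∑ D2 ∈ P2.powerset, (c0 D * (c1 D1 * c2 D2)) *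
        ∑ j ∈ Ioc 0 Y, ((∏ l ∈ D, oi (b2 κ M n d) j l) * ((∏ l ∈ D1, oi (b1 κ M n) j l) *
          ∏ l ∈ D2, oi (b1 κ M (n + d)) j l)) := by
    unfold Fn
    have e1 : ∀ j ∈ Ioc 0 Y, (∑ D ∈ P1.powerset, c0 D * ∏ l ∈ D, oi (b2 κ M n d) j l) *
        ((∑ D ∈ P2.powerset, c1 D * ∏ l ∈ D, oi (b1 κ M n) j l) *
          ∑ D ∈ P2.powerset, c2 D * ∏ l ∈ D, oi (b1 κ M (n + d)) j l) =
        ∑ D ∈ P1.powerset, ∑ D1 ∈ P2.powerset, ∑ D2 ∈ P2.powerset,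
          (c0 D * (c1 D1 * c2 D2)) * ((∏ l ∈ D, oi (b2 κ M n d) j l) *
            ((∏ l ∈ D1, oi (b1 κ M n) j l) * ∏ l ∈ D2, oi (b1 κ M (n + d)) j l)) := by
      intro j _
      rw [triple]
      refine Finset.sum_congr rfl fun D _ => Finset.sum_congr rfl fun D1 _ =>
        Finset.sum_congr rfl fun D2 _ => ?_
      ring
    rw [Finset.sum_congr rfl e1, Finset.sum_comm]
    refine Finset.sum_congr rfl fun D _ => ?_
    rw [Finset.sum_comm]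
    refine Finset.sum_congr rfl fun D1 _ => ?_
    rw [Finset.sum_comm]
    refine Finset.sum_congr rfl fun D2 _ => ?_
    rw [Finset.mul_sum]
  have Rm : (Y : ℝ) * (Fn c0 P1 (fun l => ro d l / l) * KK (fun l => l ∣ 2 ^ d - 1) P2 c1 c2) =
      ∑ D ∈ P1.powerset, ∑ D1 ∈ P2.powerset, ∑ D2 ∈ P2.powerset, (c0 D * (c1 D1 * c2 D2)) *
        (Y * ((∏ l ∈ D, ro d l / l) * ((∏ l ∈ D1 ∪ D2, 1 / (l : ℝ)) *
          if ∀ l ∈ D1 ∩ D2, l ∣ 2 ^ d - 1 then 1 else 0))) := by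
    unfold Fn KK
    rw [Finset.sum_mul, Finset.mul_sum]
    refine Finset.sum_congr rfl fun D _ => ?_
    rw [Finset.mul_sum, Finset.mul_sum]
    refine Finset.sum_congr rfl fun D1 _ => ?_
    rw [Finset.mul_sum, Finset.mul_sum]
    refine Finset.sum_congr rfl fun D2 _ => ?_
    by_cases a : ∀ l ∈ D1 ∩ D2, l ∣ 2 ^ d - 1
    · rw [if_pos a]
      beta_reduce
      ring
    · rw [if_neg a]
      beta_reduce
      ring
  rw [L, Rm, triple, ← Finset.sum_sub_distrib]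
  refine (Finset.abs_sum_le_sum_abs _ _).trans (Finset.sum_le_sum fun D hD => ?_)
  rw [← Finset.sum_sub_distrib]
  refine (Finset.abs_sum_le_sum_abs _ _).trans (Finset.sum_le_sum fun D1 hD1 => ?_)
  rw [← Finset.sum_sub_distrib]
  refine (Finset.abs_sum_le_sum_abs _ _).trans (Finset.sum_le_sum fun D2 hD2 => ?_)
  rw [← mul_sub, abs_mul, abs_mul, abs_mul]
  have h2 := mul_le_mul_of_nonneg_left (key D hD D1 hD1 D2 hD2)
    (mul_nonneg (abs_nonneg (c0 D)) (mul_nonneg (abs_nonneg (c1 D1)) (abs_nonneg (c2 D2))))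
  refine h2.trans (le_of_eq ?_)
  ring

end Pool.Agent.SPU
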