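import Pool.Agent.SPU.Targets

/-!
SPU (MP_315051_nt), REM: the remainders.
-/

set_option autoImplicit false

open Finset

namespace Pool.Agent.SPU

open Pool.Agent.SPA
open Pool.Agent.TSP (Per rho)
open Pool.Agent.Tri5 (T_MER T_EXP)

namespace REM_

theorem exp2 : Real.exp 2 ≤ 49 := by
  have h := Real.exp_one_lt_d9
  have h1 : Real.exp 2 = Real.exp 1 * Real.exp 1 := by rw [← Real.exp_add]; norm_num
  rw [h1]
  have := Real.exp_pos 1
  nlinarith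

/-- one block -/
theorem block (h3 : T_RNK) (Q : Finset ℕ) (m : ℕ) (y : ℝ) (ω : ℕ → ℝ) (γ : Finset ℕ → ℝ)
    (hy : 1 ≤ y) (hy7 : Q.Nonempty → 7 ≤ y) (hc : (Q.card : ℝ) ≤ y)
    (hω : ∀ p ∈ Q, 0 ≤ ω p ∧ ω p ≤ 2)
    (hγ : ∀ D, 0 ≤ γ D ∧ γ D ≤ if D.card ≤ 2 * m + 1 then (1 : ℝ) else 0) :
    0 ≤ Fn γ Q ω ∧ Fn γ Q ω ≤ y ^ (2 * m + 3) := by
  have hpos : ∀ D ∈ Q.powerset, 0 ≤ ∏ l ∈ D, ω l := fun D hD =>
    Finset.prod_nonneg fun l hl => (hω l (Finset.mem_powerset.1 hD hl)).1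
  refine ⟨Finset.sum_nonneg fun D hD => mul_nonneg (hγ D).1 (hpos D hD), ?_⟩
  rcases Q.eq_empty_or_nonempty with rfl | hne
  · have h1 : Fn γ ∅ ω = γ ∅ := by simp [Fn]
    rw [h1]
    have h2 := (hγ ∅).2
    rw [if_pos (by simp)] at h2
    exact h2.trans (one_le_pow₀ hy)
  · have h7 := hy7 hne
    have h1 : Fn γ Q ω ≤
        ∑ D ∈ Q.powerset, (if D.card ≤ 2 * m + 1 then (1 : ℝ) else 0) * ∏ l ∈ D, ω l :=
      Finset.sum_le_sum fun D hD => mul_le_mul_of_nonneg_right (hγ D).2 (hpos D hD)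
    have h2 := (h3 ω Q (2 * m + 1) (fun l hl => (hω l hl).1)).2 y hy
    have h4 : ∑ l ∈ Q, ω l ≤ 2 * y := by
      calc ∑ l ∈ Q, ω l ≤ ∑ _l ∈ Q, (2 : ℝ) := Finset.sum_le_sum fun l hl => (hω l hl).2
        _ = Q.card * 2 := by rw [Finset.sum_const, nsmul_eq_mul]
        _ ≤ 2 * y := by linarith
    have h5 : (∑ l ∈ Q, ω l) / y ≤ 2 := by
      rw [div_le_iff₀ (by linarith)]
      exact h4
    have h6 : Real.exp ((∑ l ∈ Q, ω l) / y) ≤ y ^ 2 := by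
      refine (Real.exp_le_exp.2 h5).trans (exp2.trans ?_)
      nlinarith
    calc Fn γ Q ω ≤ _ := h1
      _ ≤ _ := h2
      _ ≤ y ^ (2 * m + 1) * y ^ 2 := by gcongr
      _ = y ^ (2 * m + 3) := by rw [← pow_add]

/-- products over the blocks -/
theorem fam (h1 : T_FNM) (h2 : T_BLK) (h3 : T_RNK) (h4 : T_RPW) (z b : ℕ) (P : Finset ℕ)
    (ω : ℕ → ℝ) (γ : ℕ → Finset ℕ → ℝ) (hz : 2 ≤ z) (hP : ∀ p ∈ P, p.Prime ∧ 7 ≤ p ∧ p ≤ z)
    (hω : ∀ p ∈ P, 0 ≤ ω p ∧ ω p ≤ 2)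
    (hγ : ∀ l D, 0 ≤ γ l D ∧ γ l D ≤ if D.card ≤ 2 * (b + l) + 1 then (1 : ℝ) else 0) :
    ∑ D ∈ P.powerset, (∏ l ∈ range z, γ l (D ∩ Bk P z l)) * ∏ l ∈ D, ω l ≤
      (z : ℝ) ^ (4 * b + 10) := by
  obtain ⟨G, _, hB⟩ := h2
  obtain ⟨hU, hD, hb⟩ := hB z P hz hP
  have e := h1 z (Bk P z) γ ω (fun i _ j _ hij => hD i j hij)
  rw [hU] at e
  have e2 : Fn (fun D => ∏ i ∈ range z, γ i (D ∩ Bk P z i)) P ω =
      ∑ D ∈ P.powerset, (∏ l ∈ range z, γ l (D ∩ Bk P z l)) * ∏ l ∈ D, ω l := rfl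
  rw [← e2, ← e]
  have hbl : ∀ i, 0 ≤ Fn (γ i) (Bk P z i) ω ∧
      Fn (γ i) (Bk P z i) ω ≤ yy z i ^ (2 * (b + i) + 3) := by
    intro i
    obtain ⟨g1, g2, g3, _⟩ := hb i
    refine block h3 (Bk P z i) (b + i) (yy z i) ω (γ i) g1 g2 g3 ?_ (hγ i)
    intro p hp
    exact hω p (Finset.mem_filter.1 hp).1
  exact (Finset.prod_le_prod (fun i _ => (hbl i).1) (fun i _ => (hbl i).2)).trans
    (h4 z b z (by omega))

theorem tau_le (m : ℕ) (D : Finset ℕ) :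
    0 ≤ |tau m D| ∧ |tau m D| ≤ if D.card ≤ 2 * m + 1 then (1 : ℝ) else 0 := by
  refine ⟨abs_nonneg _, ?_⟩
  unfold tau
  by_cases h : D.card ≤ 2 * m
  · rw [if_pos h, if_pos (by omega)]
    simp [abs_pow]
  · rw [if_neg h, abs_zero]
    split_ifs <;> norm_num

theorem eps_le (m : ℕ) (D : Finset ℕ) :
    0 ≤ |eps m D| ∧ |eps m D| ≤ if D.card ≤ 2 * m + 1 then (1 : ℝ) else 0 := by
  refine ⟨abs_nonneg _, ?_⟩
  unfold eps
  by_cases h : D.card = 2 * m + 1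
  · rw [if_pos h, if_pos (by omega)]
    simp
  · rw [if_neg h, abs_zero]
    split_ifs <;> norm_num

end REM_

open REM_ in
theorem p_REM (h1 : T_FNM) (h2 : T_BLK) (h3 : T_RNK) (h4 : T_RPW) : T_REM := by
  intro z b P ω hz hP hω
  refine ⟨?_, ?_⟩
  · have h5 := fam h1 h2 h3 h4 z b P ω (fun l D => |tau (b + l) D|) hz hP hω
      (fun l D => tau_le (b + l) D)
    refine le_trans (le_of_eq ?_) h5
    refine Finset.sum_congr rfl fun D _ => ?_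
    rw [cT, Finset.abs_prod]
  · set γ : ℕ → ℕ → Finset ℕ → ℝ := fun i l D =>
      |if l = i then eps (b + l) D else tau (b + l) D| with hγ
    have h6 : ∀ i, ∑ D ∈ P.powerset, (∏ l ∈ range z, γ i l (D ∩ Bk P z l)) * ∏ l ∈ D, ω l ≤
        (z : ℝ) ^ (4 * b + 10) := by
      intro i
      refine fam h1 h2 h3 h4 z b P ω (γ i) hz hP hω ?_
      intro l D
      simp only [hγ]
      by_cases h : l = i
      · rw [if_pos h]
        exact eps_le (b + l) D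
      · rw [if_neg h]
        exact tau_le (b + l) D
    have h7 : ∀ D ∈ P.powerset, |cE z b P D| * ∏ l ∈ D, ω l ≤
        ∑ i ∈ range z, (∏ l ∈ range z, γ i l (D ∩ Bk P z l)) * ∏ l ∈ D, ω l := by
      intro D hD
      rw [← Finset.sum_mul]
      refine mul_le_mul_of_nonneg_right ?_ (Finset.prod_nonneg fun l hl =>
        (hω l (Finset.mem_powerset.1 hD hl)).1)
      rw [cE]
      refine (Finset.abs_sum_le_sum_abs _ _).trans (le_of_eq ?_)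
      refine Finset.sum_congr rfl fun i _ => ?_
      rw [Finset.abs_prod]
    refine (Finset.sum_le_sum h7).trans ?_
    rw [Finset.sum_comm]
    refine (Finset.sum_le_sum fun i _ => h6 i).trans (le_of_eq ?_)
    rw [Finset.sum_const, Finset.card_range, nsmul_eq_mul, ← pow_succ']

end Pool.Agent.SPU
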