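import Pool.Agent.SPU.Targets

/-!
# SPU-RMD: the remainder
-/

set_option autoImplicit false

open Finset

namespace Pool.Agent.SPU

open Pool.Agent.SPA

namespace RMD_

theorem ro_nonneg (d l : ℕ) : 0 ≤ ro d l := by
  unfold ro; split_ifs <;> norm_num

theorem ro_le (d l : ℕ) : ro d l ≤ 2 := by
  unfold ro; split_ifs <;> norm_num

/-- The sum over the small primes. -/
theorem small (h1 : T_REM) {w b' d : ℕ} {P : Finset ℕ} {c : Finset ℕ → ℝ} (hw : 2 ≤ w)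
    (hP : ∀ p ∈ P, p.Prime ∧ 7 ≤ p ∧ p ≤ w) (hc : c = cT w b' P ∨ c = cE w b' P) :
    0 ≤ ∑ D ∈ P.powerset, |c D| * ∏ l ∈ D, ro d l ∧
    ∑ D ∈ P.powerset, |c D| * ∏ l ∈ D, ro d l ≤ (w : ℝ) ^ (4 * b' + 11) := by
  refine ⟨Finset.sum_nonneg fun D _ => mul_nonneg (abs_nonneg _)
    (Finset.prod_nonneg fun l _ => ro_nonneg d l), ?_⟩
  have h := h1 w b' P (ro d) hw hP fun p _ => ⟨ro_nonneg d p, ro_le d p⟩
  have hw1 : (1 : ℝ) ≤ w := by
    have : 1 ≤ w := by omega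
    exact_mod_cast this
  rcases hc with rfl | rfl
  · exact h.1.trans (pow_le_pow_right₀ hw1 (by omega))
  · exact h.2

/-- The sums over the large primes. -/
theorem large (h1 : T_REM) {z b : ℕ} {P : Finset ℕ} {c : Finset ℕ → ℝ} (hz : 2 ≤ z)
    (hP : ∀ p ∈ P, p.Prime ∧ 7 ≤ p ∧ p ≤ z) (hc : c = cM z b P ∨ c = cP z b P) :
    0 ≤ ∑ D ∈ P.powerset, |c D| ∧ ∑ D ∈ P.powerset, |c D| ≤ (z : ℝ) ^ (4 * b + 12) := by
  refine ⟨Finset.sum_nonneg fun D _ => abs_nonneg _, ?_⟩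
  have h := h1 z b P (fun _ => 1) hz hP fun p _ => ⟨zero_le_one, one_le_two⟩
  simp only [Finset.prod_const_one, mul_one] at h
  have hz2 : (2 : ℝ) ≤ z := by exact_mod_cast hz
  have hb : ∀ D ∈ P.powerset, |c D| ≤ |cT z b P D| + |cE z b P D| := by
    intro D _
    rcases hc with rfl | rfl
    · exact abs_sub _ _
    · exact abs_add_le _ _
  have h3 := Finset.sum_le_sum hb
  rw [Finset.sum_add_distrib] at h3
  have h4 : (z : ℝ) ^ (4 * b + 10) ≤ (z : ℝ) ^ (4 * b + 11) :=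
    pow_le_pow_right₀ (by linarith) (by omega)
  have h5 : (z : ℝ) ^ (4 * b + 12) = (z : ℝ) ^ (4 * b + 11) * z := by
    rw [← pow_succ]
  have h6 : (0 : ℝ) ≤ (z : ℝ) ^ (4 * b + 11) := by positivity
  rw [h5]
  nlinarith [h.1, h.2, mul_le_mul_of_nonneg_left hz2 h6]

/-- The final arithmetic. -/
theorem fin {z b Y : ℕ} {δ V μ L A B : ℝ} (hz : 2 ≤ z) (hY : z ^ (8 * b + 30) ≤ Y)
    (hL : 1 ≤ L) (hδ : 0 < δ) (hLz : 4 * L ^ 5 ≤ δ * z) (hV : (1 / L) ^ 3 ≤ V)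
    (hμ : 1 / 2 * (1 / L) ≤ μ) (hA : A ≤ (z : ℝ) ^ (8 * b + 25))
    (hB : B ≤ (z : ℝ) ^ (8 * b + 25)) :
    A ≤ δ * (Y * (V * μ ^ 2)) ∧ B ≤ δ * (Y * (V * μ)) := by
  have hL0 : 0 < L := by linarith
  have hz1 : (1 : ℝ) ≤ z := by
    have : 1 ≤ z := by omega
    exact_mod_cast this
  have hY' : (z : ℝ) ^ (8 * b + 25) * z ≤ Y := by
    have h1 : (z : ℝ) ^ (8 * b + 25) * z ≤ (z : ℝ) ^ (8 * b + 30) := by
      rw [← pow_succ]
      exact pow_le_pow_right₀ hz1 (by omega)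
    have h2 : (z : ℝ) ^ (8 * b + 30) ≤ Y := by exact_mod_cast hY
    exact h1.trans h2
  have hi : 0 < 1 / L := by positivity
  have hi1 : 1 / L ≤ 1 := by
    rw [div_le_one hL0]; exact hL
  have hμ0 : 0 < μ := lt_of_lt_of_le (by positivity) hμ
  have hV0 : 0 < V := lt_of_lt_of_le (by positivity) hV
  have e5 : 1 / (4 * L ^ 5) = (1 / L) ^ 3 * (1 / 2 * (1 / L)) ^ 2 := by
    field_simp
    norm_num
  have k1 : 1 / (4 * L ^ 5) ≤ V * μ ^ 2 := by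
    rw [e5]
    exact mul_le_mul hV (pow_le_pow_left₀ (by positivity) hμ 2) (by positivity) hV0.le
  have k2 : 1 / (4 * L ^ 5) ≤ V * μ := by
    rw [e5]
    have : (1 / 2 * (1 / L)) ^ 2 ≤ 1 / 2 * (1 / L) := by nlinarith
    exact mul_le_mul hV (this.trans hμ) (by positivity) hV0.le
  have key : ∀ x : ℝ, 1 / (4 * L ^ 5) ≤ x →
      (z : ℝ) ^ (8 * b + 25) ≤ δ * (Y * x) := by
    intro x hx
    have hx0 : 0 < x := lt_of_lt_of_le (by positivity) hx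
    have h1 : 1 ≤ δ * z * x := by
      have h2 : δ * z * (1 / (4 * L ^ 5)) ≤ δ * z * x :=
        mul_le_mul_of_nonneg_left hx (by positivity)
      refine le_trans ?_ h2
      rw [mul_one_div, le_div_iff₀ (by positivity)]
      linarith
    have h3 : (z : ℝ) ^ (8 * b + 25) * 1 ≤ (z : ℝ) ^ (8 * b + 25) * (δ * z * x) :=
      mul_le_mul_of_nonneg_left h1 (by positivity)
    have h4 : (z : ℝ) ^ (8 * b + 25) * z * (δ * x) ≤ Y * (δ * x) :=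
      mul_le_mul_of_nonneg_right hY' (by positivity)
    calc (z : ℝ) ^ (8 * b + 25) = (z : ℝ) ^ (8 * b + 25) * 1 := (mul_one _).symm
      _ ≤ (z : ℝ) ^ (8 * b + 25) * (δ * z * x) := h3
      _ = (z : ℝ) ^ (8 * b + 25) * z * (δ * x) := by ring
      _ ≤ Y * (δ * x) := h4
      _ = δ * (Y * x) := by ring
  exact ⟨hA.trans (key _ k1), hB.trans (key _ k2)⟩

end RMD_

open RMD_ in
/-- The remainder. -/
theorem p_RMD (h1 : T_REM) (h2 : T_ASY) (h3 : T_PRO) (h4 : T_MUB) : T_RMD := by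
  intro b b' δ
  by_cases hδ : 0 < δ
  swap
  · exact ⟨0, fun z w Y M d P1 P2 c0 c1 c2 _ hH => absurd hH.d0 hδ⟩
  obtain ⟨C, hC1, hC⟩ := h3
  have hC0 : 0 < C := by linarith
  obtain ⟨z0, hz0⟩ := h2 (4 * C ^ 5 / δ) (4 * b' + 12) (by omega)
  refine ⟨z0, fun z w Y M d P1 P2 c0 c1 c2 hz hH hc0 hc1 hc2 => ?_⟩
  obtain ⟨ha, -, hlog⟩ := hz0 z w hz hH.zw
  have hw2 : 2 ≤ w := hH.pp.hw
  have hwz : w ≤ z := hH.pp.hwz
  have hz2 : 2 ≤ z := hw2.trans hwz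
  have hwzR : (w : ℝ) ≤ z := by exact_mod_cast hwz
  have hw1 : (1 : ℝ) ≤ w := by
    have : 1 ≤ w := by omega
    exact_mod_cast this
  have hz1 : (1 : ℝ) ≤ z := hw1.trans hwzR
  obtain ⟨-, p2, p3, -⟩ := hC M w z (4 * b' + 12) P1 P2 hH.pp (by omega) hH.zw
  have hP1 : ∀ p ∈ P1, p.Prime ∧ 7 ≤ p ∧ p ≤ w := fun p hp =>
    ⟨(hH.pp.h1 p hp).1, (hH.pp.h1 p hp).2.1, (hH.pp.h1 p hp).2.2.1⟩
  have hP2 : ∀ p ∈ P2, p.Prime ∧ 7 ≤ p ∧ p ≤ z := fun p hp =>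
    ⟨(hH.pp.h2 p hp).1, (hH.pp.h2 p hp).2.1, (hH.pp.h2 p hp).2.2.2.1⟩
  obtain ⟨m1, -⟩ := h4 z b P2 hH.ma hz2 hP2
  obtain ⟨s0, s1⟩ := small (d := d) h1 hw2 hP1 hc0
  obtain ⟨u0, u1⟩ := large h1 hz2 hP2 hc1
  obtain ⟨v0, v1⟩ := large h1 hz2 hP2 hc2
  have hL : 1 ≤ C * Real.log z := by nlinarith
  have hLz : 4 * (C * Real.log z) ^ 5 ≤ δ * z := by
    have h5 : Real.log z ^ 5 ≤ Real.log z ^ 12 := pow_le_pow_right₀ hlog (by norm_num)
    have h6 : 4 * C ^ 5 / δ * Real.log z ^ 5 ≤ z :=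
      ((mul_le_mul_of_nonneg_left h5 (by positivity)).trans ha).trans hwzR
    have h7 : δ * (4 * C ^ 5 / δ * Real.log z ^ 5) ≤ δ * z :=
      mul_le_mul_of_nonneg_left h6 hδ.le
    have h8 : δ * (4 * C ^ 5 / δ * Real.log z ^ 5) = 4 * (C * Real.log z) ^ 5 := by
      field_simp
    linarith
  have hμ : 1 / 2 * (1 / (C * Real.log z)) ≤ mu z b P2 :=
    (mul_le_mul_of_nonneg_left p2 (by norm_num)).trans m1
  -- the sum over the small primes is at most `z`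
  have sz : ∑ D ∈ P1.powerset, |c0 D| * ∏ l ∈ D, ro d l ≤ z := by
    have h5 : (w : ℝ) ^ (4 * b' + 11) ≤ (w : ℝ) ^ (4 * b' + 12) :=
      pow_le_pow_right₀ hw1 (by omega)
    have h6 : (w : ℝ) ^ (4 * b' + 12) ≤ z := by exact_mod_cast hH.wz
    linarith
  refine fin hz2 hH.zY hL hδ hLz (p3 d) hμ ?_ ?_
  · have e : (z : ℝ) ^ (8 * b + 25) =
        z * ((z : ℝ) ^ (4 * b + 12) * (z : ℝ) ^ (4 * b + 12)) := by
      rw [← pow_add, ← pow_succ']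
      congr 1
      omega
    rw [e]
    exact mul_le_mul sz (mul_le_mul u1 v1 v0 (by positivity)) (mul_nonneg u0 v0)
      (by positivity)
  · have e : (z : ℝ) * (z : ℝ) ^ (4 * b + 12) ≤ (z : ℝ) ^ (8 * b + 25) := by
      rw [← pow_succ']
      exact pow_le_pow_right₀ hz1 (by omega)
    exact (mul_le_mul sz u1 u0 (by positivity)).trans e

end Pool.Agent.SPU
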