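import Pool.Agent.SPU.P_FNM
import Pool.Agent.SPU.P_CFN
import Pool.Agent.SPU.P_CAB
import Pool.Agent.SPU.P_REM
import Pool.Agent.SPU.P_PNT
import Pool.Agent.SPU.P_MEA
import Pool.Agent.SPU.P_PS1
import Pool.Agent.SPU.P_CNT
import Pool.Agent.SPU.P_PS2
import Pool.Agent.SPU.P_KI
import Pool.Agent.SPU.P_KB
import Pool.Agent.SPU.P_ASY
import Pool.Agent.SPU.P_PRO
import Pool.Agent.SPU.P_MUB
import Pool.Agent.SPU.P_RMD
import Pool.Agent.SPU.P_M1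
import Pool.Agent.SPU.P_M2
import Pool.Agent.SPU.P_M3
import Pool.Agent.SPU.P_CHE
import Pool.Agent.SPU.P_MO2
import Pool.Agent.SPU.P_MN2
import Pool.Agent.SPU.P_FN2
import Pool.Agent.SPT.All

/-!
SPU (MP_315051_nt): assembly.
-/

set_option autoImplicit false

open Finset

namespace Pool.Agent.SPU

open Pool.Agent.SPA
open Pool.Agent.SPT (PrimeLog c_all inf_le)
open Pool.Agent.Tri5 (p_MER p_EXP)

theorem blk_all : T_BLK := p_BLK p_MER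

theorem vlo_all : T_VLO := p_VLO p_MER

theorem rh2_all : T_RH2 := p_RH2 p_RH1

theorem flm_all : T_FLM := p_FLM p_ALT p_RNK blk_all

theorem cfn_all : T_CFN := p_CFN p_FNM blk_all

theorem rem_all : T_REM := p_REM p_FNM blk_all p_RNK p_RPW

theorem pnt_all : T_PNT := p_PNT cfn_all p_PTW p_TEL blk_all

theorem mea_all : T_MEA := p_MEA cfn_all flm_all p_ALT

theorem ps1_all : T_PS1 := p_PS1 p_SFM p_SFC

theorem ps2_all : T_PS2 := p_PS2 (p_CNT p_RH1 rh2_all)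

theorem kb_all : T_KB := p_KB p_KI

theorem pro_all : T_PRO := p_PRO p_MER vlo_all

theorem rmd_all : T_RMD := p_RMD rem_all p_ASY pro_all p_MUB

theorem m1_all : T_M1 := p_M1 pnt_all ps1_all rmd_all p_MUB p_RH1

theorem m2_all : T_M2 := p_M2 pnt_all ps2_all rmd_all p_MUB kb_all p_CAB p_ASY pro_all

theorem m3_all : T_M3 := p_M3 pnt_all ps2_all rmd_all p_MUB kb_all p_CAB pro_all

theorem mo2_all : T_MO2 :=
  p_MO2 gsm_all sh_all p_PR2 mea_all m1_all m2_all m3_all p_CHE pnt_all p_MUB pro_all p_ASY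

theorem mn2_all : T_MN2 := p_MN2 mo2_all vlo_all p_GAP

theorem fn2_all : T_FN2 := p_FN2 mn2_all p_OPC p_DEN

/-- `K` is at most all the densities. -/
theorem le_dens (K : ℝ) (h : ∀ P : Finset ℕ, (∀ p ∈ P, p.Prime) → ∀ ε : ℝ, 0 < ε → ∃ x0 : ℕ,
      ∀ x ≥ x0, (K - ε) * x ≤ cnt (fun k => Odd k ∧ ¬ CoveredBy P k) x) (L : ℕ) (hL : 1 ≤ L) :
    K ≤ dens L := by
  apply le_of_forall_pos_le_add
  intro ε hε
  obtain ⟨x0, hx⟩ := h (2 ^ L - 1).primeFactors (fun p hp => Nat.prime_of_mem_primeFactors hp)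
    (ε / 2) (by positivity)
  obtain ⟨x, hx1⟩ : ∃ x : ℕ, x = x0 + ⌈(MM L + 1 : ℝ) / (ε / 2)⌉₊ + 1 := ⟨_, rfl⟩
  have hxe : (MM L + 1 : ℝ) ≤ ε / 2 * x := by
    have h5 : (MM L + 1 : ℝ) / (ε / 2) ≤ x :=
      (Nat.le_ceil _).trans (by exact_mod_cast (by omega : ⌈(MM L + 1 : ℝ) / (ε / 2)⌉₊ ≤ x))
    rw [div_le_iff₀ (by positivity)] at h5
    linarith
  have h6 := (abs_le.1 (p_DEN L hL x)).2
  have h7 : cnt (fun k => Odd k ∧ ¬ CoveredBy (2 ^ L - 1).primeFactors k) x ≤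
      cnt (fun k => Odd k ∧ Opn L k) x :=
    cnt_mono (fun k hk => ⟨hk.1, opn_of_not p_OPC hL hk.2⟩) x
  have h8 := hx x (by omega)
  have hx0 : (0 : ℝ) < x := by exact_mod_cast (by omega : 0 < x)
  have h10 : K * x ≤ (dens L + ε) * x := by
    have e : (K - ε / 2) * (x : ℝ) = K * x - ε / 2 * x := by ring
    rw [e] at h8
    have e2 : (dens L + ε) * (x : ℝ) = dens L * x + ε / 2 * x + ε / 2 * x := by ring
    rw [e2]
    linarith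
  exact le_of_mul_le_mul_right h10 hx0

/-- The sieve density with a fixed exponent, and primes with small exponents. -/
theorem d_all : ∃ K : ℝ, 0 < K ∧
    (∀ P : Finset ℕ, (∀ p ∈ P, p.Prime) → ∀ ε : ℝ, 0 < ε → ∃ x0 : ℕ, ∀ x ≥ x0,
      (K - ε) * x ≤ cnt (fun k => Odd k ∧ ¬ CoveredBy P k) x) ∧
    (∀ ε : ℝ, 0 < ε → ∃ P : Finset ℕ, (∀ p ∈ P, p.Prime) ∧ ∃ x0 : ℕ, ∀ x ≥ x0,
      cnt (fun k => Odd k ∧ ¬ CoveredBy P k) x ≤ (K + ε) * x) ∧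
    (∃ c0 : ℝ, 0 < c0 ∧ ∀ c : ℝ, 0 < c → c ≤ c0 → ∀ ε : ℝ, 0 < ε → ∃ x0 : ℕ, ∀ x ≥ x0,
      |cnt (fun k => Odd k ∧ NoSmall c k) x - K * x| ≤ ε * x) ∧
    (∀ ε : ℝ, 0 < ε → ∃ x0 : ℕ, ∀ x ≥ x0, cnt (fun k => Odd k ∧ HasPrime k) x ≤ (K + ε) * x) ∧
    ∃ C : ℝ, 0 < C ∧ ∀ A : ℝ, 0 < A → ∃ x0 : ℕ, ∀ x ≥ x0,
      cnt (fun k => Odd k ∧ PrimeLog A x k) x ≤ (K - Real.exp (-(C * (A + 1)))) * x := by
  obtain ⟨K, h0, h1, h2, _, h4, h5⟩ := c_all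
  obtain ⟨c0, hc0, h3⟩ := fn2_all
  exact ⟨K, h0, h1, h2, ⟨c0, hc0, fun c hc hcc =>
    h3 c hc hcc K (le_dens K h1) (inf_le K h2)⟩, h4, h5⟩

/-- The almost primes with a fixed exponent. -/
theorem e_all : ∃ c : ℝ, 0 < c ∧ ∀ ε : ℝ, 0 < ε → ∃ (P : Finset ℕ) (r : ℕ),
    (∀ p ∈ P, p.Prime) ∧ ∃ x0 : ℕ, ∀ x ≥ x0,
      cnt (fun k => Odd k ∧ ¬ CoveredBy P k ∧ ¬ AlmostPrime c r k) x ≤ ε * x := by
  obtain ⟨c, hc, h⟩ := mn2_all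
  refine ⟨c, hc, fun ε hε => ?_⟩
  obtain ⟨L, r, hL, x0, hx⟩ := h ε hε
  refine ⟨(2 ^ L - 1).primeFactors, r, fun p hp => Nat.prime_of_mem_primeFactors hp, x0,
    fun x hx0 => ?_⟩
  refine le_trans (cnt_mono ?_ x) (hx x hx0)
  rintro k ⟨ho, hk, ha⟩
  exact ⟨ho, opn_of_not p_OPC hL hk, ha⟩

end Pool.Agent.SPU
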