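import Pool.Agent.SPU.Targets2

/-!
SPU, part 2 (MP_315051_nt): DAB, the size of the coefficients for exactly one prime.
-/

set_option autoImplicit false

open Finset

namespace Pool.Agent.SPU

open Pool.Agent.SPA

namespace DAB_

lemma abs_sum_le (D : Finset ℕ) (f : ℕ → ℝ) (hf : ∀ p ∈ D, |f p| ≤ 1) :
    |∑ p ∈ D, f p| ≤ 2 ^ D.card := by
  have h1 : |∑ p ∈ D, f p| ≤ ∑ p ∈ D, |f p| := Finset.abs_sum_le_sum_abs _ _
  have h2 : ∑ p ∈ D, |f p| ≤ ∑ _p ∈ D, (1 : ℝ) := Finset.sum_le_sum hf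
  rw [Finset.sum_const, nsmul_eq_mul, mul_one] at h2
  have h3 : ((D.card : ℕ) : ℝ) ≤ ((2 ^ D.card : ℕ) : ℝ) :=
    Nat.cast_le.2 Nat.lt_two_pow_self.le
  rw [Nat.cast_pow, Nat.cast_ofNat] at h3
  exact (h1.trans h2).trans h3

end DAB_

open DAB_ in
theorem p_DAB (h : T_CAB) : T_DAB := by
  intro z b P D
  refine ⟨?_, ?_⟩
  · unfold dM
    exact abs_sum_le D _ fun p _ => (h z b (P.erase p) (D.erase p)).1
  · unfold dP
    exact abs_sum_le D _ fun p _ => (h z b (P.erase p) (D.erase p)).2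

end Pool.Agent.SPU
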