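import Pool.Agent.SPU.Targets2
import Pool.Agent.SPU.P_MUB

set_option autoImplicit false

/-!
# SPU, target DMU: bounds for the mean of the lower function for exactly one prime
-/

open Finset

namespace Pool.Agent.SPU

namespace DMU_

/-- One term. -/
theorem one (z b : ℕ) (P : Finset ℕ) (hb : MA (1 / 2) b) (hz : 2 ≤ z)
    (hP : ∀ p ∈ P, p.Prime ∧ 7 ≤ p ∧ p ≤ z) :
    1 / 2 * ∏ p ∈ P, (1 - 1 / (p : ℝ)) ≤ Fn (cM z b P) P (fun l => 1 / (l : ℝ)) ∧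
    Fn (cM z b P) P (fun l => 1 / (l : ℝ)) ≤ 3 / 2 * ∏ p ∈ P, (1 - 1 / (p : ℝ)) ∧
    0 ≤ Fn (cP z b P) P (fun l => 1 / (l : ℝ)) ∧
    Fn (cP z b P) P (fun l => 1 / (l : ℝ)) ≤ 4 * Fn (cM z b P) P (fun l => 1 / (l : ℝ)) ∧
    0 ≤ ∏ p ∈ P, (1 - 1 / (p : ℝ)) := by
  have hp0 : ∀ p ∈ P, (7 : ℝ) ≤ p := fun p hp => by exact_mod_cast (hP p hp).2.1
  obtain ⟨h1, h2, h3, h4⟩ := hb z P (fun l => 1 / (l : ℝ)) hz (fun p hp =>
    ⟨(hP p hp).1, (hP p hp).2.1, (hP p hp).2.2, by positivity,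
      div_le_div_of_nonneg_right (by norm_num) (Nat.cast_nonneg p)⟩)
  have hf : ∀ p ∈ P, 1 / (p : ℝ) ≤ 1 / 7 := fun p hp =>
    one_div_le_one_div_of_le (by norm_num) (hp0 p hp)
  have hpos : 0 < ∏ p ∈ P, (1 - 1 / (p : ℝ)) :=
    prod_pos fun p hp => by have := hf p hp; linarith
  rw [MUB_.cM_eq, MUB_.cP_eq]
  refine ⟨?_, ?_, ?_, ?_, hpos.le⟩ <;> linarith

theorem two_mul_le_exp (x : ℝ) (hx : 0 ≤ x) : 2 * x ≤ Real.exp x := by
  have h := Real.quadratic_le_exp_of_nonneg hx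
  nlinarith [sq_nonneg (x - 1)]

theorem prod_le (P : Finset ℕ) (hP : ∀ p ∈ P, (7 : ℝ) ≤ p) :
    ∏ p ∈ P, (1 - 1 / (p : ℝ)) ≤ Real.exp (-La P) := by
  unfold La
  rw [← sum_neg_distrib, Real.exp_sum]
  refine prod_le_prod (fun p hp => ?_) (fun p _ => ?_)
  · have h1 : 1 / (p : ℝ) ≤ 1 / 7 := one_div_le_one_div_of_le (by norm_num) (hP p hp)
    linarith
  · have h1 := Real.add_one_le_exp (-(1 / (p : ℝ)))
    linarith

end DMU_

open DMU_ in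
theorem p_DMU (h1 : T_FND) : T_DMU := by
  intro z b P hb hz hP
  have hp0 : ∀ p ∈ P, (7 : ℝ) ≤ p := fun p hp => by exact_mod_cast (hP p hp).2.1
  have e1 : nu z b P = ∑ p ∈ P, 1 / (p : ℝ) *
      Fn (cM z b (P.erase p)) (P.erase p) (fun l => 1 / (l : ℝ)) :=
    h1 (fun p => cM z b (P.erase p)) P (fun l => 1 / (l : ℝ))
  have e2 : Fn (dP z b P) P (fun l => 1 / (l : ℝ)) = ∑ p ∈ P, 1 / (p : ℝ) *
      Fn (cP z b (P.erase p)) (P.erase p) (fun l => 1 / (l : ℝ)) :=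
    h1 (fun p => cP z b (P.erase p)) P (fun l => 1 / (l : ℝ))
  have hone := fun p (_ : p ∈ P) => one z b (P.erase p) hb hz
    (fun q hq => hP q (mem_of_mem_erase hq))
  have hsplit : ∀ p ∈ P, ∏ q ∈ P, (1 - 1 / (q : ℝ)) =
      (1 - 1 / (p : ℝ)) * ∏ q ∈ P.erase p, (1 - 1 / (q : ℝ)) := fun p hp =>
    (mul_prod_erase P (fun q => (1 - 1 / (q : ℝ))) hp).symm
  have hf : ∀ p ∈ P, 1 / (p : ℝ) ≤ 1 / 7 := fun p hp =>
    one_div_le_one_div_of_le (by norm_num) (hp0 p hp)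
  have hf0 : ∀ p ∈ P, 0 ≤ 1 / (p : ℝ) := fun p _ => by positivity
  have hLa : 0 ≤ La P := sum_nonneg hf0
  have hPi : 0 ≤ ∏ p ∈ P, (1 - 1 / (p : ℝ)) :=
    prod_nonneg fun p hp => by have := hf p hp; linarith
  have hlow : 1 / 2 * (La P * ∏ p ∈ P, (1 - 1 / (p : ℝ))) ≤ nu z b P := by
    rw [e1]
    unfold La
    rw [sum_mul, mul_sum]
    refine sum_le_sum fun p hp => ?_
    obtain ⟨a1, a2, a3, a4, a5⟩ := hone p hp
    have h2 : ∏ q ∈ P, (1 - 1 / (q : ℝ)) ≤ ∏ q ∈ P.erase p, (1 - 1 / (q : ℝ)) := by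
      rw [hsplit p hp]
      have := mul_nonneg (hf0 p hp) a5
      linarith
    have h3 := mul_le_mul_of_nonneg_left ((mul_le_mul_of_nonneg_left h2
      (by norm_num : (0 : ℝ) ≤ 1 / 2)).trans a1) (hf0 p hp)
    linarith
  have hup : nu z b P ≤ 2 * (La P * ∏ p ∈ P, (1 - 1 / (p : ℝ))) := by
    rw [e1]
    unfold La
    rw [sum_mul, mul_sum]
    refine sum_le_sum fun p hp => ?_
    obtain ⟨a1, a2, a3, a4, a5⟩ := hone p hp
    have h2 : 3 / 2 * ∏ q ∈ P.erase p, (1 - 1 / (q : ℝ)) ≤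
        2 * ∏ q ∈ P, (1 - 1 / (q : ℝ)) := by
      rw [hsplit p hp]
      have := mul_le_mul_of_nonneg_right (hf p hp) a5
      linarith
    have h3 := mul_le_mul_of_nonneg_left (a2.trans h2) (hf0 p hp)
    linarith
  have hle1 : nu z b P ≤ 1 := by
    refine hup.trans ?_
    have h2 := mul_le_mul_of_nonneg_left (prod_le P hp0) hLa
    have h3 := mul_le_mul_of_nonneg_right (two_mul_le_exp (La P) hLa)
      (Real.exp_pos (-La P)).le
    rw [← Real.exp_add, add_neg_cancel, Real.exp_zero] at h3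
    linarith
  refine ⟨hlow, hup, ?_, hle1, ?_, ?_⟩
  · exact (mul_nonneg (by norm_num) (mul_nonneg hLa hPi)).trans hlow
  · rw [e2]
    exact sum_nonneg fun p hp => mul_nonneg (hf0 p hp) (hone p hp).2.2.1
  · rw [e1, e2, mul_sum]
    refine sum_le_sum fun p hp => ?_
    have h3 := mul_le_mul_of_nonneg_left (hone p hp).2.2.2.1 (hf0 p hp)
    linarith

end Pool.Agent.SPU
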