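import Pool.Agent.SPU.Targets2

/-!
SPU2, target DPT (MP_315051_nt).
-/

set_option autoImplicit false

open Finset

namespace Pool.Agent.SPU

open Pool.Agent.SPA

namespace DPT_

theorem oi_nonneg (bad : ℕ → ℕ → Prop) (n l : ℕ) : 0 ≤ oi bad n l := by
  unfold oi
  split_ifs <;> norm_num

/-- The lower function is the upper function minus the correction. -/
theorem fn_cM (z b : ℕ) (P : Finset ℕ) (ω : ℕ → ℝ) :
    Fn (cM z b P) P ω = Fn (cT z b P) P ω - Fn (cE z b P) P ω := by
  unfold Fn cM
  rw [← Finset.sum_sub_distrib]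
  exact Finset.sum_congr rfl fun D _ => by ring

theorem fn_cP (z b : ℕ) (P : Finset ℕ) (ω : ℕ → ℝ) :
    Fn (cP z b P) P ω = Fn (cT z b P) P ω + Fn (cE z b P) P ω := by
  unfold Fn cP
  rw [← Finset.sum_add_distrib]
  exact Finset.sum_congr rfl fun D _ => by ring

theorem xx_nonneg (bad : ℕ → ℕ → Prop) (P : Finset ℕ) (n : ℕ) : 0 ≤ xx bad P n := by
  unfold xx
  split_ifs <;> norm_num

end DPT_

open DPT_

theorem p_DPT (h1 : T_FND) (h2 : T_PNT) : T_DPT := by
  intro z b P bad n hz hP
  have hM : Fn (dM z b P) P (oi bad n) =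
      ∑ p ∈ P, oi bad n p * Fn (cM z b (P.erase p)) (P.erase p) (oi bad n) :=
    h1 (fun p D' => cM z b (P.erase p) D') P (oi bad n)
  have hQ : Fn (dP z b P) P (oi bad n) =
      ∑ p ∈ P, oi bad n p * Fn (cP z b (P.erase p)) (P.erase p) (oi bad n) :=
    h1 (fun p D' => cP z b (P.erase p) D') P (oi bad n)
  have key : ∀ p ∈ P, |Fn (cM z b (P.erase p)) (P.erase p) (oi bad n)| ≤
        Fn (cP z b (P.erase p)) (P.erase p) (oi bad n) ∧
      Fn (cM z b (P.erase p)) (P.erase p) (oi bad n) ≤ xx bad (P.erase p) n := by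
    intro p _
    obtain ⟨k1, k2, k3⟩ := h2 z b (P.erase p) bad n hz fun q hq => hP q (Finset.mem_of_mem_erase hq)
    have k4 := xx_nonneg bad (P.erase p) n
    rw [fn_cM, fn_cP]
    constructor
    · rw [abs_le]
      constructor <;> linarith
    · linarith
  rw [hM, hQ]
  constructor
  · refine (Finset.abs_sum_le_sum_abs _ _).trans (Finset.sum_le_sum fun p hp => ?_)
    rw [abs_mul, abs_of_nonneg (oi_nonneg bad n p)]
    exact mul_le_mul_of_nonneg_left (key p hp).1 (oi_nonneg bad n p)
  · intro hpos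
    obtain ⟨p, hp, hlt⟩ : ∃ p ∈ P,
        0 < oi bad n p * Fn (cM z b (P.erase p)) (P.erase p) (oi bad n) := by
      by_contra hcon
      push Not at hcon
      exact absurd hpos (not_lt.2 (Finset.sum_nonpos hcon))
    have hbad : bad p n := by
      by_contra hb
      have h0 : oi bad n p = 0 := by
        unfold oi
        rw [if_neg hb]
      rw [h0, zero_mul] at hlt
      exact lt_irrefl _ hlt
    have h1' : oi bad n p = 1 := by
      unfold oi
      rw [if_pos hbad]
    rw [h1', one_mul] at hlt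
    have hxx : 0 < xx bad (P.erase p) n := lt_of_lt_of_le hlt (key p hp).2
    have hall : ∀ l ∈ P.erase p, ¬ bad l n := by
      by_contra hcon
      have h0 : xx bad (P.erase p) n = 0 := by
        unfold xx
        rw [if_neg hcon]
      rw [h0] at hxx
      exact lt_irrefl _ hxx
    refine ⟨p, hp, hbad, fun q hq hbq => ?_⟩
    by_contra hne
    exact hall q (Finset.mem_erase.2 ⟨hne, hq⟩) hbq

end Pool.Agent.SPU
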