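import Pool.Agent.SPU.Targets2

/-!
SPU, part 2: proof of T_DRM from T_REM and T_FND
-/

set_option autoImplicit false

open Finset

namespace Pool.Agent.SPU

open Pool.Agent.SPA

namespace DRM_

/-- The general bound. -/
theorem gen (h2 : T_FND) (C : ℕ → Finset ℕ → ℝ) (P : Finset ℕ) (K : ℝ)
    (hK : ∀ p ∈ P, ∑ D ∈ (P.erase p).powerset, |C p D| ≤ K) :
    ∑ D ∈ P.powerset, |∑ p ∈ D, C p (D.erase p)| ≤ P.card * K := by
  have hF := h2 (fun p D => |C p D|) P (fun _ => 1)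
  simp only [Fn, Finset.prod_const_one, mul_one, one_mul] at hF
  calc ∑ D ∈ P.powerset, |∑ p ∈ D, C p (D.erase p)|
      ≤ ∑ D ∈ P.powerset, ∑ p ∈ D, |C p (D.erase p)| :=
        Finset.sum_le_sum fun D _ => Finset.abs_sum_le_sum_abs _ _
    _ = ∑ p ∈ P, ∑ D ∈ (P.erase p).powerset, |C p D| := hF
    _ ≤ ∑ _p ∈ P, K := Finset.sum_le_sum hK
    _ = P.card * K := by rw [Finset.sum_const, nsmul_eq_mul]

/-- The powers of `z`. -/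
theorem pw (z b : ℕ) (hz : 2 ≤ z) :
    (z : ℝ) ^ (4 * b + 10) + (z : ℝ) ^ (4 * b + 11) ≤ (z : ℝ) ^ (4 * b + 12) := by
  have hz' : (2 : ℝ) ≤ z := by exact_mod_cast hz
  have h0 : (0 : ℝ) ≤ (z : ℝ) ^ (4 * b + 10) := by positivity
  have e1 : (z : ℝ) ^ (4 * b + 11) = (z : ℝ) ^ (4 * b + 10) * z := pow_succ _ _
  have e2 : (z : ℝ) ^ (4 * b + 12) = (z : ℝ) ^ (4 * b + 10) * z ^ 2 := by
    rw [← pow_add]
  rw [e1, e2]
  have h3 : (0 : ℝ) ≤ (z : ℝ) ^ (4 * b + 10) * ((z : ℝ) ^ 2 - z - 1) :=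
    mul_nonneg h0 (by nlinarith)
  linarith

theorem sums (h1 : T_REM) (z b : ℕ) (P : Finset ℕ) (hz : 2 ≤ z)
    (hP : ∀ p ∈ P, p.Prime ∧ 7 ≤ p ∧ p ≤ z) :
    ∑ D ∈ P.powerset, |cM z b P D| ≤ (z : ℝ) ^ (4 * b + 12) ∧
    ∑ D ∈ P.powerset, |cP z b P D| ≤ (z : ℝ) ^ (4 * b + 12) := by
  obtain ⟨hT, hE⟩ := h1 z b P (fun _ => 1) hz hP (fun _ _ => ⟨zero_le_one, one_le_two⟩)
  simp only [Finset.prod_const_one, mul_one] at hT hE
  have hp := pw z b hz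
  have hs : ∑ D ∈ P.powerset, (|cT z b P D| + |cE z b P D|) ≤ (z : ℝ) ^ (4 * b + 12) := by
    rw [Finset.sum_add_distrib]
    linarith
  refine ⟨le_trans (Finset.sum_le_sum fun D _ => ?_) hs,
    le_trans (Finset.sum_le_sum fun D _ => ?_) hs⟩
  · exact abs_sub _ _
  · exact abs_add_le _ _

theorem card_le (z : ℕ) (P : Finset ℕ) (hP : ∀ p ∈ P, p.Prime ∧ 7 ≤ p ∧ p ≤ z) :
    (P.card : ℝ) ≤ z := by
  have h : P ⊆ Finset.Icc 1 z := fun p hp =>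
    Finset.mem_Icc.2 ⟨(hP p hp).1.one_le, (hP p hp).2.2⟩
  have h2 := Finset.card_le_card h
  rw [Nat.card_Icc] at h2
  exact_mod_cast h2

theorem fin (h2 : T_FND) (C : ℕ → Finset ℕ → ℝ) (z b : ℕ) (P : Finset ℕ)
    (hP : ∀ p ∈ P, p.Prime ∧ 7 ≤ p ∧ p ≤ z)
    (hK : ∀ p ∈ P, ∑ D ∈ (P.erase p).powerset, |C p D| ≤ (z : ℝ) ^ (4 * b + 12)) :
    ∑ D ∈ P.powerset, |∑ p ∈ D, C p (D.erase p)| ≤ (z : ℝ) ^ (4 * b + 13) := by
  refine le_trans (gen h2 C P _ hK) ?_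
  have h : (P.card : ℝ) * (z : ℝ) ^ (4 * b + 12) ≤ z * (z : ℝ) ^ (4 * b + 12) :=
    mul_le_mul_of_nonneg_right (card_le z P hP) (by positivity)
  calc (P.card : ℝ) * (z : ℝ) ^ (4 * b + 12) ≤ z * (z : ℝ) ^ (4 * b + 12) := h
    _ = (z : ℝ) ^ (4 * b + 13) := (pow_succ' _ _).symm

end DRM_

theorem p_DRM (h1 : T_REM) (h2 : T_FND) : T_DRM := by
  intro z b P hz hP
  have hP' : ∀ p, ∀ q ∈ P.erase p, q.Prime ∧ 7 ≤ q ∧ q ≤ z := fun p q hq =>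
    hP q (Finset.mem_of_mem_erase hq)
  exact ⟨DRM_.fin h2 (fun p D => cM z b (P.erase p) D) z b P hP
      fun p _ => (DRM_.sums h1 z b _ hz (hP' p)).1,
    DRM_.fin h2 (fun p D => cP z b (P.erase p) D) z b P hP
      fun p _ => (DRM_.sums h1 z b _ hz (hP' p)).2⟩

end Pool.Agent.SPU
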