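import Pool.Agent.SPU.Targets2

/-!
SPU, part 2: block DSQ, the mean of the square of the majorant for exactly one prime.
-/

set_option autoImplicit false

open Finset

namespace Pool.Agent.SPU

open Pool.Agent.SPA

namespace DSQ_

lemma Fn_one (c : Finset ℕ → ℝ) (P : Finset ℕ) :
    Fn c P (fun _ => 1) = ∑ D ∈ P.powerset, c D := by
  unfold Fn
  simp

lemma Fn_mono {c c' : Finset ℕ → ℝ} {P : Finset ℕ} {ω : ℕ → ℝ} (hω : ∀ l ∈ P, 0 ≤ ω l)
    (h : ∀ D, c D ≤ c' D) : Fn c P ω ≤ Fn c' P ω := by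
  unfold Fn
  refine sum_le_sum fun D hD => mul_le_mul_of_nonneg_right (h D) (prod_nonneg fun l hl => ?_)
  exact hω l (mem_powerset.1 hD hl)

/-- the inner sums -/
noncomputable def g (z b : ℕ) (P : Finset ℕ) (p : ℕ) (W : Finset ℕ) : ℝ :=
  ∑ D ∈ W.powerset, cP z b (P.erase p) D

lemma sum_dP (h3 : T_FND) (z b : ℕ) (P W : Finset ℕ) :
    ∑ D ∈ W.powerset, dP z b P D = ∑ p ∈ W, g z b P p (W.erase p) := by
  have h := h3 (fun p D => cP z b (P.erase p) D) W (fun _ => 1)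
  rw [Fn_one] at h
  unfold dP
  rw [h]
  refine sum_congr rfl fun p _ => ?_
  rw [Fn_one, one_mul, g]

lemma sq_le (h3 : T_FND) (z b : ℕ) (P W : Finset ℕ) :
    (∑ D ∈ W.powerset, dP z b P D) * (∑ D ∈ W.powerset, dP z b P D) ≤
      ∑ p ∈ W, 2 ^ (W.erase p).card * g z b P p (W.erase p) ^ 2 := by
  rw [sum_dP h3, ← sq]
  refine (sq_sum_le_card_mul_sum_sq (s := W) (f := fun p => g z b P p (W.erase p))).trans ?_
  rw [mul_sum]
  refine sum_le_sum fun p hp => mul_le_mul_of_nonneg_right ?_ (sq_nonneg _)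
  rw [card_erase_of_mem hp]
  have h1 : 1 ≤ W.card := card_pos.2 ⟨p, hp⟩
  have h2 : W.card - 1 < 2 ^ (W.card - 1) := Nat.lt_two_pow_self
  have h4 : W.card ≤ 2 ^ (W.card - 1) := by omega
  exact_mod_cast h4

end DSQ_

open DSQ_ in
theorem p_DSQ (h1 : T_EXK) (h2 : T_SQM) (h3 : T_FND) : T_DSQ := by
  obtain ⟨C, hC, hS⟩ := h2
  refine ⟨2 * C, by positivity, fun z b P hz hP => ?_⟩
  have hx : ∀ l ∈ P, (0 : ℝ) ≤ 1 / ((l : ℝ) - 1) ∧ 1 / ((l : ℝ) - 1) ≤ 2 * (1 / (l : ℝ)) := by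
    intro l hl
    have h7 : (7 : ℝ) ≤ l := by exact_mod_cast (hP l hl).2.1
    refine ⟨by apply one_div_nonneg.2; linarith, ?_⟩
    rw [mul_one_div, div_le_div_iff₀ (by linarith) (by linarith)]
    linarith
  have hPi : 0 ≤ ∏ l ∈ P, (1 - 1 / (l : ℝ)) := by
    refine prod_nonneg fun l hl => ?_
    have h7 : (7 : ℝ) ≤ l := by exact_mod_cast (hP l hl).2.1
    have h8 : 1 / (l : ℝ) ≤ 1 := by
      rw [div_le_one (by linarith)]
      linarith
    linarith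
  rw [h1 P _ _ fun l hl => (hP l hl).1.two_le]
  have key : Fn (fun W => (∑ D ∈ W.powerset, dP z b P D) * ∑ D ∈ W.powerset, dP z b P D) P
      (fun l => 1 / ((l : ℝ) - 1)) ≤ 2 * C * La P := by
    refine (Fn_mono (fun l hl => (hx l hl).1) (sq_le h3 z b P)).trans ?_
    rw [h3 (fun p W => 2 ^ W.card * g z b P p W ^ 2) P]
    unfold La
    rw [mul_sum]
    refine sum_le_sum fun p hp => ?_
    have h5 : Fn (fun W => 2 ^ W.card * g z b P p W ^ 2) (P.erase p)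
        (fun l => 1 / ((l : ℝ) - 1)) ≤ C :=
      hS z b (P.erase p) hz fun q hq => hP q (mem_of_mem_erase hq)
    calc 1 / ((p : ℝ) - 1) * Fn (fun W => 2 ^ W.card * g z b P p W ^ 2) (P.erase p)
          (fun l => 1 / ((l : ℝ) - 1))
        ≤ 1 / ((p : ℝ) - 1) * C := mul_le_mul_of_nonneg_left h5 (hx p hp).1
      _ ≤ 2 * (1 / (p : ℝ)) * C := mul_le_mul_of_nonneg_right (hx p hp).2 hC.le
      _ = 2 * C * (1 / (p : ℝ)) := by ring
  calc (∏ l ∈ P, (1 - 1 / (l : ℝ))) *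
        Fn (fun W => (∑ D ∈ W.powerset, dP z b P D) * ∑ D ∈ W.powerset, dP z b P D) P
          (fun l => 1 / ((l : ℝ) - 1))
      ≤ (∏ l ∈ P, (1 - 1 / (l : ℝ))) * (2 * C * La P) := mul_le_mul_of_nonneg_left key hPi
    _ = 2 * C * (La P * ∏ p ∈ P, (1 - 1 / (p : ℝ))) := by ring

end Pool.Agent.SPU
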