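import Pool.Agent.SPU.Targets2

/-!
SPU2-EXK: the bilinear form with the full indicator as a sum over sets of primes.
-/

set_option autoImplicit false

open Finset

namespace Pool.Agent.SPU

open Pool.Agent.SPA

namespace EXK_

lemma inner {P U : Finset ℕ} (hU : U ⊆ P) (x : ℕ → ℝ) :
    ∑ W ∈ P.powerset, (if U ⊆ W then (∏ l ∈ W, x l) * ∏ l ∈ P \ W, (1 - x l) else 0) =
      ∏ l ∈ U, x l := by
  classical
  have h := Finset.prod_add (fun i => x i) (fun i => if i ∈ U then (0 : ℝ) else 1 - x i) P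
  have h1 : ∏ i ∈ P, (x i + if i ∈ U then (0 : ℝ) else 1 - x i) = ∏ l ∈ U, x l := by
    have h2 : ∀ i ∈ P, (x i + if i ∈ U then (0 : ℝ) else 1 - x i) =
        if i ∈ U then x i else 1 := by
      intro i _
      by_cases hi : i ∈ U
      · rw [if_pos hi, if_pos hi, add_zero]
      · rw [if_neg hi, if_neg hi]
        ring
    rw [Finset.prod_congr rfl h2, Finset.prod_ite_mem, Finset.inter_eq_right.mpr hU]
  rw [h1] at h
  rw [h]
  refine Finset.sum_congr rfl fun W hW => ?_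
  by_cases hUW : U ⊆ W
  · rw [if_pos hUW]
    congr 1
    refine Finset.prod_congr rfl fun i hi => ?_
    rw [if_neg (fun h3 => (Finset.mem_sdiff.mp hi).2 (hUW h3))]
  · rw [if_neg hUW]
    obtain ⟨i, hiU, hiW⟩ := Finset.not_subset.mp hUW
    have h3 : ∏ i ∈ P \ W, (if i ∈ U then (0 : ℝ) else 1 - x i) = 0 := by
      refine Finset.prod_eq_zero (i := i) (Finset.mem_sdiff.mpr ⟨hU hiU, hiW⟩) ?_
      rw [if_pos hiU]
    rw [h3, mul_zero]

lemma sub_sum {P W : Finset ℕ} (hW : W ⊆ P) (c : Finset ℕ → ℝ) :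
    ∑ D ∈ W.powerset, c D = ∑ D ∈ P.powerset, if D ⊆ W then c D else 0 := by
  classical
  rw [← Finset.sum_filter]
  refine Finset.sum_congr ?_ fun _ _ => rfl
  ext D
  rw [Finset.mem_filter, Finset.mem_powerset, Finset.mem_powerset]
  exact ⟨fun h => ⟨h.trans hW, h⟩, fun h => h.2⟩

lemma wt {P W : Finset ℕ} (hP : ∀ l ∈ P, 2 ≤ l) (hW : W ⊆ P) :
    (∏ l ∈ P, (1 - 1 / (l : ℝ))) * ∏ l ∈ W, 1 / ((l : ℝ) - 1) =
      (∏ l ∈ W, 1 / (l : ℝ)) * ∏ l ∈ P \ W, (1 - 1 / (l : ℝ)) := by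
  classical
  rw [← Finset.prod_sdiff hW, mul_assoc, ← Finset.prod_mul_distrib, mul_comm]
  congr 1
  refine Finset.prod_congr rfl fun l hl => ?_
  have h2 : (2 : ℝ) ≤ l := by exact_mod_cast hP l (hW hl)
  have h3 : (l : ℝ) - 1 ≠ 0 := by linarith
  have h4 : (l : ℝ) ≠ 0 := by linarith
  field_simp

end EXK_

open EXK_ in
theorem p_EXK : T_EXK := by
  classical
  intro P c c' hP
  have hR : (∏ l ∈ P, (1 - 1 / (l : ℝ))) *
      Fn (fun W => (∑ D ∈ W.powerset, c D) * ∑ D ∈ W.powerset, c' D) P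
        (fun l => 1 / ((l : ℝ) - 1)) =
      ∑ W ∈ P.powerset, ∑ D ∈ P.powerset, ∑ D' ∈ P.powerset, c D * c' D' *
        (if D ∪ D' ⊆ W then (∏ l ∈ W, 1 / (l : ℝ)) * ∏ l ∈ P \ W, (1 - 1 / (l : ℝ)) else 0) := by
    unfold Fn
    rw [Finset.mul_sum]
    refine Finset.sum_congr rfl fun W hW => ?_
    rw [Finset.mem_powerset] at hW
    have h1 : (∏ l ∈ P, (1 - 1 / (l : ℝ))) *
        (((∑ D ∈ W.powerset, c D) * ∑ D ∈ W.powerset, c' D) * ∏ l ∈ W, 1 / ((l : ℝ) - 1)) =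
        ((∑ D ∈ W.powerset, c D) * ∑ D ∈ W.powerset, c' D) *
          ((∏ l ∈ W, 1 / (l : ℝ)) * ∏ l ∈ P \ W, (1 - 1 / (l : ℝ))) := by
      rw [← wt hP hW]
      ring
    rw [h1, sub_sum hW c, sub_sum hW c', Finset.sum_mul_sum, Finset.sum_mul]
    refine Finset.sum_congr rfl fun D _ => ?_
    rw [Finset.sum_mul]
    refine Finset.sum_congr rfl fun D' _ => ?_
    by_cases h2 : D ⊆ W
    · by_cases h3 : D' ⊆ W
      · rw [if_pos h2, if_pos h3, if_pos (Finset.union_subset h2 h3)]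
      · rw [if_neg h3, if_neg fun h => h3 ((Finset.subset_union_right).trans h)]
        simp
    · rw [if_neg h2, if_neg fun h => h2 ((Finset.subset_union_left).trans h)]
      simp
  rw [hR, Finset.sum_comm]
  unfold KK
  refine Finset.sum_congr rfl fun D hD => ?_
  rw [Finset.sum_comm]
  refine Finset.sum_congr rfl fun D' hD' => ?_
  rw [Finset.mem_powerset] at hD hD'
  rw [← Finset.mul_sum, inner (Finset.union_subset hD hD') (fun l => 1 / (l : ℝ)),
    if_pos (fun _ _ => trivial), mul_one]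

end Pool.Agent.SPU
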