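import Pool.Agent.SPU.Targets2
import Pool.Agent.SPA.P_FIN

/-!
SPU, part 2: proof of the target FN3
-/

set_option autoImplicit false

open Finset

namespace Pool.Agent.SPU

open Pool.Agent.SPA

namespace FN3_

/-- the property with the function `g` -/
def AG (g : ℕ → ℝ) (r k : ℕ) : Prop :=
  ∃ n : ℕ, 1 ≤ n ∧ (k * 2 ^ n + 1).primeFactorsList.length ≤ r ∧
    ∀ p : ℕ, p.Prime → p ∣ k * 2 ^ n + 1 → g k < p

theorem lower (r : ℕ)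
    (h1 : ∀ ε : ℝ, 0 < ε → ∃ (L : ℕ) (c : ℝ), 1 ≤ L ∧ 0 < c ∧ ∃ x0 : ℕ, ∀ x ≥ x0,
      cnt (fun k => Odd k ∧ Opn L k ∧ ¬ AlmostPrime c r k) x ≤ ε * x)
    (h3 : T_DEN) (K : ℝ) (hK : ∀ L : ℕ, 1 ≤ L → K ≤ dens L) (g : ℕ → ℝ)
    (hg : ∀ c : ℝ, 0 < c → ∃ k0 : ℕ, ∀ k : ℕ, k0 ≤ k → g k ≤ (k : ℝ) ^ c)
    (ε : ℝ) (hε : 0 < ε) : ∃ x0 : ℕ, ∀ x ≥ x0,
      (K - ε) * x ≤ cnt (fun k => Odd k ∧ AG g r k) x := by
  obtain ⟨L, c, hL, hc, x1, hx1⟩ := h1 (ε / 2) (by positivity)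
  obtain ⟨k1, hk1⟩ := hg c hc
  obtain ⟨x2, hx2⟩ := exists_nat_ge (2 * ((MM L : ℝ) + 1 + (k1 + 1)) / ε)
  refine ⟨max x1 x2, fun x hx => ?_⟩
  have hx3 := hx1 x (le_trans (le_max_left _ _) hx)
  have hx4 : (x2 : ℝ) ≤ x := by exact_mod_cast le_trans (le_max_right _ _) hx
  have h4 : cnt (fun k => Odd k ∧ Opn L k) x ≤
      cnt (fun k => Odd k ∧ AG g r k ∨ (k : ℝ) < (k1 : ℝ)) x +
        cnt (fun k => Odd k ∧ Opn L k ∧ ¬ AlmostPrime c r k) x := by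
    apply FIN_.cnt_le_add
    intro k _ hk
    by_cases ha : AlmostPrime c r k
    · left
      by_cases hkk : k1 ≤ k
      · left
        refine ⟨hk.1, ?_⟩
        obtain ⟨n, hn, hr, hp⟩ := ha
        exact ⟨n, hn, hr, fun p hpp hd => lt_of_le_of_lt (hk1 k hkk) (hp p hpp hd)⟩
      · right
        exact_mod_cast not_le.1 hkk
    · exact Or.inr ⟨hk.1, hk.2, ha⟩
  have h5 : cnt (fun k => Odd k ∧ AG g r k ∨ (k : ℝ) < (k1 : ℝ)) x ≤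
      cnt (fun k => Odd k ∧ AG g r k) x + cnt (fun k => (k : ℝ) < (k1 : ℝ)) x :=
    FIN_.cnt_le_add _ _ _ x fun k _ hk => hk
  have h6 := FIN_.cnt_small (k1 : ℝ) (Nat.cast_nonneg k1) x
  have h7 := (abs_le.1 (h3 L hL x)).1
  have h8 : 2 * ((MM L : ℝ) + 1 + (k1 + 1)) ≤ x * ε := by
    rw [← div_le_iff₀ hε]
    exact hx2.trans hx4
  have h9 : K * x ≤ dens L * x := mul_le_mul_of_nonneg_right (hK L hL) (Nat.cast_nonneg x)
  nlinarith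

theorem upper (r : ℕ) (h2 : T_OPC) (h3 : T_DEN) (K : ℝ)
    (hK : ∀ K' : ℝ, (∀ L : ℕ, 1 ≤ L → K' ≤ dens L) → K' ≤ K) (g : ℕ → ℝ)
    (hg : Filter.Tendsto g Filter.atTop Filter.atTop) (ε : ℝ) (hε : 0 < ε) :
    ∃ x0 : ℕ, ∀ x ≥ x0, cnt (fun k => Odd k ∧ AG g r k) x ≤ (K + ε) * x := by
  have h4 : ∃ L : ℕ, 1 ≤ L ∧ dens L < K + ε / 2 := by
    by_contra hcon
    push Not at hcon
    have := hK (K + ε / 2) hcon
    linarith
  obtain ⟨L, hL, hd⟩ := h4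
  obtain ⟨k0, hk0⟩ := Filter.eventually_atTop.1 (hg.eventually_ge_atTop ((2 : ℝ) ^ L))
  obtain ⟨x0, hx0⟩ := exists_nat_ge (2 * (MM L + 1 + ((k0 : ℝ) + 1)) / ε)
  refine ⟨x0, fun x hx => ?_⟩
  have h5 : cnt (fun k => Odd k ∧ AG g r k) x ≤
      cnt (fun k => Odd k ∧ Opn L k) x + cnt (fun k => (k : ℝ) < (k0 : ℝ)) x := by
    apply FIN_.cnt_le_add
    intro k _ hk
    by_cases ho : Opn L k
    · exact Or.inl ⟨hk.1, ho⟩
    · right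
      by_contra hkk
      have hkk' : k0 ≤ k := by exact_mod_cast not_lt.1 hkk
      obtain ⟨n, hn, -, hn2⟩ := hk.2
      obtain ⟨p, hp, hpd, hpk⟩ := h2 L k hL ho n hn
      have h6 := hn2 p hp hpk
      have h7 : 2 ≤ 2 ^ L := by
        calc 2 = 2 ^ 1 := rfl
          _ ≤ 2 ^ L := Nat.pow_le_pow_right (by norm_num) hL
      have h8 : p ≤ 2 ^ L := (Nat.le_of_dvd (by omega) hpd).trans (Nat.sub_le _ _)
      have h9 : (p : ℝ) ≤ (2 : ℝ) ^ L := by exact_mod_cast h8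
      have h10 := hk0 k hkk'
      linarith
  have h6 := FIN_.cnt_small (k0 : ℝ) (Nat.cast_nonneg k0) x
  have h7 := (abs_le.1 (h3 L hL x)).2
  have hx1 : (x0 : ℝ) ≤ x := by exact_mod_cast hx
  have h8 : 2 * (MM L + 1 + ((k0 : ℝ) + 1)) ≤ x * ε := by
    rw [← div_le_iff₀ hε]
    exact hx0.trans hx1
  have h9 : dens L * x ≤ (K + ε / 2) * x := mul_le_mul_of_nonneg_right hd.le (Nat.cast_nonneg x)
  nlinarith

end FN3_

open FN3_ in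
theorem p_FN3 (h1 : T_MN3) (h2 : T_OPC) (h3 : T_DEN) : T_FN3 := by
  obtain ⟨r, h1'⟩ := h1
  refine ⟨r, fun K hK1 hK2 g hg1 hg2 ε hε => ?_⟩
  obtain ⟨x1, hx1⟩ := lower r h1' h3 K hK1 g hg2 ε hε
  obtain ⟨x2, hx2⟩ := upper r h2 h3 K hK2 g hg1 ε hε
  refine ⟨max x1 x2, fun x hx => ?_⟩
  have a1 := hx1 x (le_trans (le_max_left _ _) hx)
  have a2 := hx2 x (le_trans (le_max_right _ _) hx)
  unfold AG at a1 a2
  rw [abs_le]
  constructor <;> linarith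

end Pool.Agent.SPU
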