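import Pool.Agent.SPU.Targets2

/-!
SPU-FND: the multilinear sum of a sum over one marked element.
-/

set_option autoImplicit false

open Finset

namespace Pool.Agent.SPU

namespace FND_

/-- the terms with the marked element `p` -/
theorem inner (c : Finset ℕ → ℝ) (P : Finset ℕ) (ω : ℕ → ℝ) (p : ℕ) (hp : p ∈ P) :
    ∑ D ∈ P.powerset.filter (fun D => p ∈ D), c (D.erase p) * ∏ l ∈ D, ω l =
      ω p * ∑ D ∈ (P.erase p).powerset, c D * ∏ l ∈ D, ω l := by
  rw [Finset.mul_sum]
  refine Finset.sum_bij' (fun D _ => D.erase p) (fun D _ => insert p D) ?_ ?_ ?_ ?_ ?_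
  · intro D hD
    rw [mem_filter, mem_powerset] at hD
    rw [mem_powerset]
    exact Finset.erase_subset_erase p hD.1
  · intro D hD
    rw [mem_powerset] at hD
    rw [mem_filter, mem_powerset]
    refine ⟨?_, Finset.mem_insert_self p D⟩
    intro x hx
    rw [mem_insert] at hx
    rcases hx with rfl | hx
    · exact hp
    · exact Finset.mem_of_mem_erase (hD hx)
  · intro D hD
    rw [mem_filter] at hD
    exact Finset.insert_erase hD.2
  · intro D hD
    rw [mem_powerset] at hD
    exact Finset.erase_insert (fun h => Finset.notMem_erase p P (hD h))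
  · intro D hD
    rw [mem_filter] at hD
    rw [← Finset.mul_prod_erase D ω hD.2]
    ring

end FND_

open FND_ in
theorem p_FND : T_FND := by
  intro c P ω
  unfold Fn
  have h1 : ∑ D ∈ P.powerset, (∑ p ∈ D, c p (D.erase p)) * ∏ l ∈ D, ω l =
      ∑ D ∈ P.powerset, ∑ p ∈ D, c p (D.erase p) * ∏ l ∈ D, ω l :=
    Finset.sum_congr rfl (fun D _ => by rw [Finset.sum_mul])
  rw [h1, Finset.sum_comm' (t' := P) (s' := fun p => P.powerset.filter (fun D => p ∈ D))]
  · exact Finset.sum_congr rfl (fun p hp => inner (c p) P ω p hp)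
  · intro D p
    rw [mem_filter, mem_powerset]
    constructor
    · rintro ⟨h2, h3⟩
      exact ⟨⟨h2, h3⟩, h2 h3⟩
    · rintro ⟨⟨h2, h3⟩, -⟩
      exact ⟨h2, h3⟩

end Pool.Agent.SPU
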