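import Pool.Agent.SPU.Targets2
import Pool.Agent.SPA.P_GAP

/-!
SPU part 2 (MP_315051_nt): almost primes with one small prime factor
-/

set_option autoImplicit false

open Finset

namespace Pool.Agent.SPU

open Pool.Agent.SPA

namespace GA3_

theorem memPS {L z a k t : ℕ} (ha : 1 ≤ a)
    (hco : Nat.Coprime (k * 2 ^ a + 1) (2 ^ L - 1)) {p : ℕ}
    (hp : p.Prime) (hd : p ∣ k * 2 ^ (a + L * t) + 1) (hpz : p ≤ z) : p ∈ PS L z := by
  have h2 : ¬ p ∣ 2 := by
    intro h
    have e : k * 2 ^ (a + L * t) = 2 * (k * 2 ^ (a + L * t - 1)) := by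
      obtain ⟨m, hm⟩ : ∃ m, a + L * t = m + 1 := ⟨a + L * t - 1, by omega⟩
      rw [hm, Nat.add_sub_cancel, pow_succ]
      ring
    have h' : p ∣ k * 2 ^ (a + L * t) := by
      rw [e]
      exact Dvd.dvd.mul_right h _
    have := (Nat.dvd_add_right h').mp hd
    exact hp.one_lt.ne' (Nat.dvd_one.mp this)
  have hL : ¬ p ∣ 2 ^ L - 1 := by
    intro h
    have h1 : 1 ≡ 2 ^ L [MOD p] := (Nat.modEq_iff_dvd' Nat.one_le_two_pow).mpr h
    have h3 : k * 2 ^ a + 1 ≡ k * 2 ^ (a + L * t) + 1 [MOD p] := by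
      apply Nat.ModEq.add_right
      apply Nat.ModEq.mul_left
      rw [pow_add, pow_mul]
      have := (h1.pow t).mul_left (2 ^ a)
      simpa using this
    have h4 : p ∣ k * 2 ^ a + 1 := (h3.dvd_iff (dvd_refl p)).mpr hd
    have h5 : p ∣ Nat.gcd (k * 2 ^ a + 1) (2 ^ L - 1) := Nat.dvd_gcd h4 h
    rw [hco] at h5
    exact hp.one_lt.ne' (Nat.dvd_one.mp h5)
  unfold PS
  rw [Finset.mem_filter, Finset.mem_Icc]
  exact ⟨⟨hp.one_lt.le, hpz⟩, hp, fun h => ((Nat.Prime.dvd_mul hp).mp h).elim h2 hL⟩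

theorem len {L z a k t r N' : ℕ} (hk : 1 ≤ k) (hz : 1 ≤ z) (hN0 : N' ≠ 0)
    (hN : N' ≤ k * 2 ^ (a + L * t) + 1) (hq : ∀ q : ℕ, q.Prime → q ∣ N' → z + 1 ≤ q)
    (hr : Real.log (2 * k) + (a + L * t) * Real.log 2 ≤ r * Real.log (z + 1)) :
    N'.primeFactorsList.length ≤ r := by
  have h1 : (z + 1) ^ N'.primeFactorsList.length ≤ N' := by
    have := List.pow_card_le_prod N'.primeFactorsList (z + 1) fun p hp =>
      hq p (Nat.prime_of_mem_primeFactorsList hp) (Nat.dvd_of_mem_primeFactorsList hp)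
    rwa [Nat.prod_primeFactorsList hN0] at this
  have hk2 : 1 ≤ k * 2 ^ (a + L * t) := Nat.mul_pos hk (by positivity)
  have h2 : N' ≤ 2 * k * 2 ^ (a + L * t) := by
    refine hN.trans ?_
    rw [mul_assoc, two_mul]
    omega
  have h3 : ((z : ℝ) + 1) ^ N'.primeFactorsList.length ≤ 2 * k * 2 ^ (a + L * t) := by
    exact_mod_cast h1.trans h2
  have hz1 : (1 : ℝ) ≤ z := by exact_mod_cast hz
  have hk1 : (1 : ℝ) ≤ k := by exact_mod_cast hk
  have h4 := Real.log_le_log (by positivity) h3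
  rw [Real.log_pow, Real.log_mul (by positivity) (by positivity), Real.log_pow] at h4
  push_cast at h4
  have h5 : (0 : ℝ) < Real.log (z + 1) := Real.log_pos (by linarith)
  have h6 : (N'.primeFactorsList.length : ℝ) * Real.log (z + 1) ≤ r * Real.log (z + 1) :=
    h4.trans hr
  have h7 := le_of_mul_le_mul_right h6 h5
  exact_mod_cast h7

end GA3_

/-- GA3. -/
theorem p_GA3 : T_GA3 := by
  intro L z w a k t r c _ ha hk hz _ hco hg hp1 hsq hc hr
  obtain ⟨p, hpm, hpu⟩ := hp1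
  have hpp : p.Prime := by
    have := (Finset.mem_sdiff.1 hpm).1
    unfold PS at this
    exact (Finset.mem_filter.1 this).2.1
  have hlw : ∀ q : ℕ, q.Prime → q ∣ k * 2 ^ (a + L * t) + 1 → w + 1 ≤ q :=
    fun q hq hd => Pool.Agent.SPA.GAP_.large ha hco hg hq hd
  have hlz : ∀ q : ℕ, q.Prime → q ∣ k * 2 ^ (a + L * t) + 1 → q ≠ p → z + 1 ≤ q := by
    intro q hq hd hne
    by_contra hcon
    have hqz : q ≤ z := by omega
    have h1 := GA3_.memPS ha hco hq hd hqz
    refine hne (hpu q (Finset.mem_sdiff.2 ⟨h1, fun h2 => hg q h2 hd⟩) hd)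
  refine ⟨a + L * t, by omega, ?_, ?_⟩
  · by_cases hpd : p ∣ k * 2 ^ (a + L * t) + 1
    · obtain ⟨N', hN'⟩ := hpd
      have hN0 : N' ≠ 0 := by
        rintro rfl
        omega
      have hle : N' ≤ k * 2 ^ (a + L * t) + 1 := by
        rw [hN']
        exact Nat.le_mul_of_pos_left _ hpp.pos
      have h1 := GA3_.len (r := r) hk hz hN0 hle (fun q hq hd => by
        refine hlz q hq (by rw [hN']; exact Dvd.dvd.mul_left hd _) ?_
        rintro rfl
        refine hsq q hpm ?_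
        rw [hN', pow_two]
        exact Nat.mul_dvd_mul_left _ hd) hr
      rw [hN', (Nat.perm_primeFactorsList_mul hpp.ne_zero hN0).length_eq, List.length_append,
        Nat.primeFactorsList_prime hpp, List.length_singleton]
      omega
    · have h1 := GA3_.len (r := r) hk hz (by omega) le_rfl (fun q hq hd => by
        refine hlz q hq hd ?_
        rintro rfl
        exact hpd hd) hr
      omega
  · intro q hq hd
    have := hlw q hq hd
    have h1 : ((w : ℝ) + 1) ≤ q := by exact_mod_cast this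
    linarith

end Pool.Agent.SPU
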