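import Pool.Agent.SPU.Targets2
import Pool.Agent.SPU.P_KB
import Pool.Agent.SPU.P_KI

/-!
SPU-KB2: the bilinear form with the weights `2 ^ |D| 2 ^ |D'|`.
-/

set_option autoImplicit false

open Finset

namespace Pool.Agent.SPU

open Pool.Agent.SPA

namespace KB2_

theorem card_ins {s D : Finset ℕ} {q : ℕ} (hq : q ∉ s) (hD : D ∈ s.powerset) :
    (insert q D).card = D.card + 1 :=
  Finset.card_insert_of_notMem fun h => hq (Finset.mem_powerset.1 hD h)

theorem fst2 (P : Finset ℕ) (x : ℕ → ℝ) :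
    ∑ D ∈ P.powerset, ∑ D' ∈ P.powerset, (2 : ℝ) ^ D.card * 2 ^ D'.card *
      ∏ q ∈ D ∪ D', x q = ∏ q ∈ P, (1 + 8 * x q) := by
  induction P using Finset.induction_on with
  | empty => simp
  | insert q s hq ih =>
    rw [KI_.sum_ins s q hq, Finset.prod_insert hq, ← ih, Finset.mul_sum]
    refine Finset.sum_congr rfl fun D hD => ?_
    rw [Finset.mul_sum]
    refine Finset.sum_congr rfl fun D' hD' => ?_
    rw [Finset.union_insert, Finset.insert_union, Finset.insert_union, Finset.union_insert,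
      Finset.insert_idem, KI_.pr s x q hq D D' hD hD', card_ins hq hD, card_ins hq hD']
    ring

theorem snd2 (s : Finset ℕ) (x : ℕ → ℝ) (l : ℕ) (hl : l ∉ s) :
    ∑ D ∈ (insert l s).powerset, ∑ D' ∈ (insert l s).powerset, (2 : ℝ) ^ D.card * 2 ^ D'.card *
      (if l ∈ D ∩ D' then ∏ q ∈ D ∪ D', x q else 0) =
        4 * (x l * ∏ q ∈ s, (1 + 8 * x q)) := by
  rw [KI_.sum_ins s l hl, ← fst2, Finset.mul_sum, Finset.mul_sum]
  refine Finset.sum_congr rfl fun D hD => ?_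
  rw [Finset.mul_sum, Finset.mul_sum]
  refine Finset.sum_congr rfl fun D' hD' => ?_
  have h1 : l ∉ D := fun h => hl (Finset.mem_powerset.1 hD h)
  have h2 : l ∉ D' := fun h => hl (Finset.mem_powerset.1 hD' h)
  rw [if_neg (fun h => h1 (Finset.mem_inter.1 h).1), if_neg (fun h => h1 (Finset.mem_inter.1 h).1),
    if_neg (fun h => h2 (Finset.mem_inter.1 h).2),
    if_pos (Finset.mem_inter.2 ⟨Finset.mem_insert_self _ _, Finset.mem_insert_self _ _⟩),
    Finset.insert_union, Finset.union_insert, Finset.insert_idem, KI_.pr s x l hl D D' hD hD',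
    card_ins hl hD, card_ins hl hD']
  ring

theorem inner (P : Finset ℕ) (x : ℕ → ℝ) (hx : ∀ l ∈ P, 0 ≤ x l) (l : ℕ) (hl : l ∈ P) :
    ∑ D ∈ P.powerset, ∑ D' ∈ P.powerset, (2 : ℝ) ^ D.card * 2 ^ D'.card *
      (if l ∈ D ∩ D' then ∏ q ∈ D ∪ D', x q else 0) ≤
        x l * (4 * ∏ q ∈ P, (1 + 8 * x q)) := by
  have e : P = insert l (P.erase l) := (Finset.insert_erase hl).symm
  have h1 := snd2 (P.erase l) x l (Finset.notMem_erase l P)
  rw [← e] at h1
  rw [h1]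
  have h2 : 0 ≤ ∏ q ∈ P.erase l, (1 + 8 * x q) :=
    Finset.prod_nonneg fun q hq => by
      have := hx q (Finset.mem_of_mem_erase hq)
      linarith
  have h3 : ∏ q ∈ P.erase l, (1 + 8 * x q) ≤ ∏ q ∈ P, (1 + 8 * x q) := by
    conv_rhs => rw [e, Finset.prod_insert (Finset.notMem_erase l P)]
    nlinarith [hx l hl]
  calc 4 * (x l * ∏ q ∈ P.erase l, (1 + 8 * x q)) ≤ 4 * (x l * ∏ q ∈ P, (1 + 8 * x q)) := by
        have := mul_le_mul_of_nonneg_left h3 (hx l hl)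
        linarith
    _ = x l * (4 * ∏ q ∈ P, (1 + 8 * x q)) := by ring

end KB2_

open Classical in
open KB_ KB2_ in
theorem p_KB2 : T_KB2 := by
  intro e P c c' hP hc hc'
  have hx := xpos hP
  set x : ℕ → ℝ := fun l => 1 / (l : ℝ) with hxd
  have hx' : ∀ l ∈ P, 0 ≤ x l ∧ x l ≤ 1 := hx
  have hcc : ∀ D D', |c D * c' D'| ≤ 2 ^ D.card * 2 ^ D'.card := by
    intro D D'
    rw [abs_mul]
    exact mul_le_mul (hc D) (hc' D') (abs_nonneg _) (by positivity)
  have hdiff : KK e P c c' - Fn c P (fun l => 1 / (l : ℝ)) * Fn c' P (fun l => 1 / (l : ℝ)) =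
      ∑ D ∈ P.powerset, ∑ D' ∈ P.powerset, c D * c' D' *
        ((∏ l ∈ D ∪ D', x l) * (if ∀ l ∈ D ∩ D', e l then (1 : ℝ) else 0) -
          (∏ l ∈ D, x l) * ∏ l ∈ D', x l) := by
    unfold KK Fn
    rw [Finset.sum_mul_sum, ← Finset.sum_sub_distrib]
    refine Finset.sum_congr rfl fun D _ => ?_
    rw [← Finset.sum_sub_distrib]
    refine Finset.sum_congr rfl fun D' _ => ?_
    simp only [hxd]
    ring
  rw [hdiff]
  have hb : |∑ D ∈ P.powerset, ∑ D' ∈ P.powerset, c D * c' D' *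
        ((∏ l ∈ D ∪ D', x l) * (if ∀ l ∈ D ∩ D', e l then (1 : ℝ) else 0) -
          (∏ l ∈ D, x l) * ∏ l ∈ D', x l)| ≤
      ∑ D ∈ P.powerset, ∑ D' ∈ P.powerset, ∑ l ∈ P, (x l + if e l then (1 : ℝ) else 0) *
        ((2 : ℝ) ^ D.card * 2 ^ D'.card *
          (if l ∈ D ∩ D' then ∏ q ∈ D ∪ D', x q else 0)) := by
    refine (Finset.abs_sum_le_sum_abs _ _).trans (Finset.sum_le_sum fun D hD => ?_)
    refine (Finset.abs_sum_le_sum_abs _ _).trans (Finset.sum_le_sum fun D' hD' => ?_)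
    rw [Finset.mem_powerset] at hD hD'
    rw [abs_mul]
    calc |c D * c' D'| * |(∏ l ∈ D ∪ D', x l) *
          (if ∀ l ∈ D ∩ D', e l then (1 : ℝ) else 0) - (∏ l ∈ D, x l) * ∏ l ∈ D', x l| ≤
        (2 ^ D.card * 2 ^ D'.card) * ∑ l ∈ P, (x l + if e l then (1 : ℝ) else 0) *
          (if l ∈ D ∩ D' then ∏ q ∈ D ∪ D', x q else 0) :=
          mul_le_mul (hcc D D') (term hx' hD hD') (abs_nonneg _) (by positivity)
      _ = _ := by
          rw [Finset.mul_sum]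
          refine Finset.sum_congr rfl fun l _ => ?_
          ring
  refine hb.trans ?_
  have hsw : ∑ D ∈ P.powerset, ∑ D' ∈ P.powerset, ∑ l ∈ P,
      (x l + if e l then (1 : ℝ) else 0) * ((2 : ℝ) ^ D.card * 2 ^ D'.card *
        (if l ∈ D ∩ D' then ∏ q ∈ D ∪ D', x q else 0)) =
      ∑ l ∈ P, (x l + if e l then (1 : ℝ) else 0) * ∑ D ∈ P.powerset, ∑ D' ∈ P.powerset,
        (2 : ℝ) ^ D.card * 2 ^ D'.card *
          (if l ∈ D ∩ D' then ∏ q ∈ D ∪ D', x q else 0) := by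
    have h1 : ∀ D ∈ P.powerset, ∑ D' ∈ P.powerset, ∑ l ∈ P,
        (x l + if e l then (1 : ℝ) else 0) * ((2 : ℝ) ^ D.card * 2 ^ D'.card *
          (if l ∈ D ∩ D' then ∏ q ∈ D ∪ D', x q else 0)) =
        ∑ l ∈ P, ∑ D' ∈ P.powerset, (x l + if e l then (1 : ℝ) else 0) *
          ((2 : ℝ) ^ D.card * 2 ^ D'.card *
            (if l ∈ D ∩ D' then ∏ q ∈ D ∪ D', x q else 0)) := fun D _ => Finset.sum_comm
    rw [Finset.sum_congr rfl h1, Finset.sum_comm]
    refine Finset.sum_congr rfl fun l _ => ?_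
    rw [Finset.mul_sum]
    refine Finset.sum_congr rfl fun D _ => ?_
    rw [Finset.mul_sum]
  rw [hsw, Finset.sum_mul]
  refine Finset.sum_le_sum fun l hl => ?_
  have hnn : 0 ≤ x l + if e l then (1 : ℝ) else 0 := by
    have h1 := (hx' l hl).1
    split_ifs <;> linarith
  calc (x l + if e l then (1 : ℝ) else 0) * ∑ D ∈ P.powerset, ∑ D' ∈ P.powerset,
        (2 : ℝ) ^ D.card * 2 ^ D'.card *
          (if l ∈ D ∩ D' then ∏ q ∈ D ∪ D', x q else 0) ≤
      (x l + if e l then (1 : ℝ) else 0) * (x l * (4 * ∏ q ∈ P, (1 + 8 * x q))) :=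
        mul_le_mul_of_nonneg_left (inner P x (fun l hl => (hx' l hl).1) l hl) hnn
    _ = (x l + if e l then (1 : ℝ) else 0) * x l * (4 * ∏ q ∈ P, (1 + 8 * x q)) := by ring

end Pool.Agent.SPU
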