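import Pool.Agent.SPU.Targets2
import Pool.Agent.TSP.Tools

/-!
SPU, part 2: LAM, the sum of the reciprocals of the primes in the second range is large.
-/

set_option autoImplicit false

open Finset

namespace Pool.Agent.SPU

open Pool.Agent.SPA
open Pool.Agent.TSP (Per rho)
open Pool.Agent.Tri5 (T_MER T_EXP)
open Pool.Agent.Cyclic (pr mem_pr)

namespace LAM_

lemma exp_le (t : ℝ) (h0 : 0 ≤ t) (h1 : t ≤ 1 / 2) : Real.exp (-(2 * t)) ≤ 1 - t := by
  have hpos : 0 < 1 - t := by linarith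
  have h2 := Real.one_sub_inv_le_log_of_pos hpos
  have h3 : -(2 * t) ≤ 1 - (1 - t)⁻¹ := by
    have h4 : (1 - t)⁻¹ ≤ 1 + 2 * t := by
      rw [inv_le_iff_one_le_mul₀ hpos]
      nlinarith
    linarith
  calc Real.exp (-(2 * t)) ≤ Real.exp (Real.log (1 - t)) := Real.exp_le_exp.2 (h3.trans h2)
    _ = 1 - t := Real.exp_log hpos

lemma inv_le_half {p : ℕ} (hp : p.Prime) : 1 / (p : ℝ) ≤ 1 / 2 :=
  one_div_le_one_div_of_le (by norm_num) (by exact_mod_cast hp.two_le)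

lemma exp_prod (Q : Finset ℕ) (hQ : ∀ p ∈ Q, p.Prime) :
    Real.exp (-(2 * La Q)) ≤ ∏ p ∈ Q, (1 - 1 / (p : ℝ)) := by
  have h1 : Real.exp (-(2 * La Q)) = ∏ p ∈ Q, Real.exp (-(2 * (1 / (p : ℝ)))) := by
    rw [← Real.exp_sum]
    congr 1
    unfold La
    rw [sum_neg_distrib, ← mul_sum]
  rw [h1]
  exact prod_le_prod (fun p _ => (Real.exp_pos _).le)
    (fun p hp => exp_le _ (by positivity) (inv_le_half (hQ p hp)))

lemma low (C : ℝ) (hC : 0 < C) (h : ∀ (z : ℕ) (P : Finset ℕ), 2 ≤ z →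
    (∀ p ∈ P, p.Prime ∧ 3 ≤ p ∧ p ≤ z) →
    1 / (C * Real.log z) ≤ ∏ p ∈ P, (1 - 1 / (p : ℝ)) ∧
    (1 / (C * Real.log z)) ^ 3 ≤ ∏ p ∈ P, (1 - 2 / (p : ℝ))) (w : ℕ) (hw : 2 ≤ w) :
    1 / (2 * C * Real.log w) ≤ ∏ p ∈ pr w, (1 - 1 / (p : ℝ)) := by
  have h1 := (h w ((pr w).erase 2) hw (fun p hp => by
    obtain ⟨h2, h3⟩ := mem_erase.1 hp
    obtain ⟨h4, h5⟩ := mem_pr.1 h3
    have := h5.two_le
    exact ⟨h5, by omega, h4⟩)).1
  have h2 : 2 ∈ pr w := mem_pr.2 ⟨hw, Nat.prime_two⟩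
  rw [← mul_prod_erase _ _ h2]
  have hlog : 0 < Real.log w := Real.log_pos (by exact_mod_cast hw)
  have h3 : 1 / (2 * C * Real.log w) = (1 - 1 / ((2 : ℕ) : ℝ)) * (1 / (C * Real.log w)) := by
    push_cast
    field_simp
    norm_num
  rw [h3]
  exact mul_le_mul_of_nonneg_left h1 (by norm_num)

lemma sd_eq (L z w : ℕ) (hL : 1 ≤ L) (hw : 2 * (2 ^ L - 1) ≤ w) :
    PS L z \ PS L w = (pr z).filter (fun p => w < p) := by
  have hpos : 0 < 2 * (2 ^ L - 1) := by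
    have : 2 ^ 1 ≤ 2 ^ L := Nat.pow_le_pow_right (by norm_num) hL
    omega
  ext p
  simp only [PS, mem_sdiff, mem_filter, mem_Icc, mem_pr]
  constructor
  · rintro ⟨⟨⟨h1, h2⟩, h3, h4⟩, h5⟩
    refine ⟨⟨h2, h3⟩, ?_⟩
    by_contra h6
    exact h5 ⟨⟨h1, by omega⟩, h3, h4⟩
  · rintro ⟨⟨h1, h2⟩, h3⟩
    refine ⟨⟨⟨h2.one_lt.le, h1⟩, h2, fun h4 => ?_⟩, fun h5 => ?_⟩
    · have := Nat.le_of_dvd hpos h4
      omega
    · omega

end LAM_

open LAM_ in
theorem p_LAM (h1 : T_VLO) : T_LAM := by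
  obtain ⟨C, hC, h⟩ := h1
  refine ⟨|Real.log (2 * C)| / 2 + 1, by positivity, ?_⟩
  intro L m hL hm
  refine ⟨(2 + 2 * (2 ^ L - 1)) ^ m, ?_⟩
  intro z w hz hwz hzw
  have hw : 2 + 2 * (2 ^ L - 1) ≤ w := by
    by_contra hcon
    have h2 : w + 1 ≤ 2 + 2 * (2 ^ L - 1) := by omega
    have h3 : (w + 1) ^ m ≤ (2 + 2 * (2 ^ L - 1)) ^ m := Nat.pow_le_pow_left h2 m
    omega
  have hw2 : 2 ≤ w := by omega
  have hwz' : w ≤ z := (Nat.le_self_pow (by omega) w).trans hwz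
  rw [sd_eq L z w hL (by omega)]
  have hQ : ∀ p ∈ (pr z).filter (fun p => w < p), p.Prime := fun p hp =>
    (mem_pr.1 (mem_filter.1 hp).1).2
  have hsplit : (∏ p ∈ (pr z).filter (fun p => w < p), (1 - 1 / (p : ℝ))) *
      ∏ p ∈ pr w, (1 - 1 / (p : ℝ)) = ∏ p ∈ pr z, (1 - 1 / (p : ℝ)) := by
    have h2 : pr w = (pr z).filter (fun p => ¬ w < p) := by
      ext p
      simp only [mem_filter, mem_pr]
      constructor
      · rintro ⟨a, b⟩
        exact ⟨⟨by omega, b⟩, by omega⟩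
      · rintro ⟨⟨a, b⟩, c⟩
        exact ⟨by omega, b⟩
    rw [h2]
    exact prod_filter_mul_prod_filter_not _ _ _
  have hmer := Pool.Agent.TSP.mertens z
  have hlow := low C hC h w hw2
  have hexp := exp_prod _ hQ
  set G := ∏ p ∈ (pr z).filter (fun p => w < p), (1 - 1 / (p : ℝ)) with hG
  have hG0 : 0 < G := lt_of_lt_of_le (Real.exp_pos _) hexp
  have hlw : 0 < Real.log w := Real.log_pos (by exact_mod_cast hw2)
  have hz1 : (1 : ℝ) < z := by
    have : 2 ≤ z := by omega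
    exact_mod_cast this
  have hlz : (m : ℝ) * Real.log w ≤ Real.log (z + 1) := by
    have h2 : (m : ℝ) * Real.log w = Real.log ((w : ℝ) ^ m) := by
      rw [Real.log_pow]
    rw [h2]
    refine Real.log_le_log (by positivity) ?_
    have h3 : ((w : ℝ)) ^ m ≤ z := by exact_mod_cast hwz
    linarith
  have hmpos : (0 : ℝ) < m := by exact_mod_cast hm
  have hup : G * m ≤ 2 * C := by
    have h2 : G * (1 / (2 * C * Real.log w)) * (m * Real.log w) ≤ 1 := by
      calc G * (1 / (2 * C * Real.log w)) * (m * Real.log w)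
          ≤ G * (∏ p ∈ pr w, (1 - 1 / (p : ℝ))) * Real.log (z + 1) := by
            refine mul_le_mul (mul_le_mul_of_nonneg_left hlow hG0.le) hlz (by positivity) ?_
            refine mul_nonneg hG0.le (le_trans ?_ hlow)
            positivity
        _ ≤ 1 := by
            rw [hsplit]
            exact hmer
    have h3 : G * (1 / (2 * C * Real.log w)) * (m * Real.log w) = G * m / (2 * C) := by
      field_simp
    rw [h3, div_le_one (by positivity)] at h2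
    exact h2
  have hfin : Real.exp (-(2 * La ((pr z).filter (fun p => w < p)))) * m ≤ 2 * C :=
    (mul_le_mul_of_nonneg_right hexp hmpos.le).trans hup
  have hlog := Real.log_le_log (by positivity) hfin
  rw [Real.log_mul (Real.exp_pos _).ne' hmpos.ne', Real.log_exp] at hlog
  have habs := le_abs_self (Real.log (2 * C))
  linarith

end Pool.Agent.SPU
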