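import Pool.Agent.SPU.Targets2
import Pool.Agent.SPA.P_MAIN

/-!
SPU: target MN3 (MP_315051_nt), block by helper92
-/

set_option autoImplicit false

open Finset

namespace Pool.Agent.SPU

open Pool.Agent.SPA

namespace MN3_

open Pool.Agent.SPA.MAIN_

open Classical in
/-- The counting part. -/
theorem count {L Y x : ℕ} {P : ℕ → Prop} {Bad : ℕ → ℕ → Prop} {δ : ℝ} (hL : 1 ≤ L)
    (hY : Y = x / MM L + 1)
    (hP : ∀ κ < MM L, ∀ j, 1 ≤ j → κ + MM L * j ≤ x → P (κ + MM L * j) → Bad κ j)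
    (hc : ∀ κ, (((Ioc 0 Y).filter fun j => Bad κ j).card : ℝ) ≤ δ * Y) :
    cnt P x ≤ MM L + MM L * (δ * Y) := by
  have hM := MM_pos hL
  have hsub : ((range (x + 1)).filter P) ⊆ range (MM L) ∪
      (range (MM L)).biUnion fun κ => ((Ioc 0 Y).filter fun j => Bad κ j).image
        fun j => κ + MM L * j := by
    intro k hk
    rw [mem_filter, mem_range] at hk
    obtain ⟨hk1, hk2⟩ := hk
    by_cases hkM : k < MM L
    · exact mem_union_left _ (mem_range.2 hkM)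
    · apply mem_union_right
      rw [mem_biUnion]
      have h1 : k % MM L + MM L * (k / MM L) = k := Nat.mod_add_div k (MM L)
      have h2 : 1 ≤ k / MM L := (Nat.one_le_div_iff hM).2 (by omega)
      have h3 : k / MM L ≤ x / MM L := Nat.div_le_div_right (by omega)
      refine ⟨k % MM L, mem_range.2 (Nat.mod_lt _ hM), ?_⟩
      rw [mem_image]
      refine ⟨k / MM L, ?_, h1⟩
      rw [mem_filter, mem_Ioc]
      refine ⟨⟨by omega, by omega⟩, ?_⟩
      refine hP _ (Nat.mod_lt _ hM) _ h2 (by omega) ?_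
      rw [h1]
      exact hk2
  have hcard : ((range (x + 1)).filter P).card ≤ MM L + ∑ κ ∈ range (MM L),
      ((Ioc 0 Y).filter fun j => Bad κ j).card := by
    refine (card_le_card hsub).trans ((card_union_le _ _).trans ?_)
    rw [card_range]
    refine Nat.add_le_add_left (card_biUnion_le.trans (sum_le_sum fun κ _ => card_image_le)) _
  have hreal : (((range (x + 1)).filter P).card : ℝ) ≤ MM L + ∑ κ ∈ range (MM L), δ * Y := by
    refine (Nat.cast_le.2 hcard).trans ?_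
    rw [Nat.cast_add, Nat.cast_sum]
    have h5 : ∑ κ ∈ range (MM L), ((((Ioc 0 Y).filter fun j => Bad κ j).card : ℕ) : ℝ) ≤
        ∑ κ ∈ range (MM L), δ * Y :=
      sum_le_sum fun κ _ => by
        have h6 := hc κ
        convert h6 using 3
    linarith
  rw [sum_const, card_range, nsmul_eq_mul] at hreal
  unfold cnt
  convert hreal using 3

open Classical in
theorem or_card (p q : ℕ → Prop) (S : Finset ℕ) {a b : ℝ}
    (h1 : ((S.filter fun j => p j).card : ℝ) ≤ a) (h2 : ((S.filter fun j => q j).card : ℝ) ≤ b) :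
    ((S.filter fun j => p j ∨ q j).card : ℝ) ≤ a + b := by
  have h : (S.filter fun j => p j ∨ q j).card ≤ (S.filter p).card + (S.filter q).card := by
    rw [filter_or]
    exact card_union_le _ _
  have h' : ((S.filter fun j => p j ∨ q j).card : ℝ) ≤ (S.filter p).card + (S.filter q).card := by
    exact_mod_cast h
  linarith

theorem root_ex {m : ℕ} (hm : 1 ≤ m) (z : ℕ) : ∃ w : ℕ, w ^ m ≤ z ∧ z < (w + 1) ^ m := by
  classical
  have hex : ∃ n : ℕ, z < (n + 1) ^ m :=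
    ⟨z, lt_of_lt_of_le (Nat.lt_succ_self z) (Nat.le_self_pow (by omega) _)⟩
  refine ⟨Nat.find hex, ?_, Nat.find_spec hex⟩
  rcases Nat.eq_zero_or_pos (Nat.find hex) with h | h
  · rw [h, zero_pow (by omega)]
    exact Nat.zero_le _
  · have h1 := Nat.find_min hex (m := Nat.find hex - 1) (by omega)
    rw [not_lt, Nat.sub_add_cancel h] at h1
    exact h1

theorem time {L z : ℕ} (hL : 1 ≤ L) (hz : ⌈Real.exp L⌉₊ ≤ z) :
    Real.log z ≤ 2 * (L * (⌊Real.log z / L⌋₊ : ℕ)) ∧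
    ((L : ℝ) * (⌊Real.log z / L⌋₊ : ℕ) : ℝ) ≤ Real.log z ∧
    ((⌊Real.log z / L⌋₊ : ℕ) : ℝ) ≤ Real.log z := by
  have hL1 : (1 : ℝ) ≤ L := by exact_mod_cast hL
  have hL0 : (0 : ℝ) < L := by linarith
  have h1 : Real.exp L ≤ z := (Nat.le_ceil _).trans (by exact_mod_cast hz)
  have h2 : (L : ℝ) ≤ Real.log z := by
    rw [← Real.log_exp (L : ℝ)]
    exact Real.log_le_log (Real.exp_pos _) h1
  have h3 : 1 ≤ Real.log z / L := by
    rw [le_div_iff₀ hL0]
    linarith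
  have h4 : (1 : ℝ) ≤ (⌊Real.log z / L⌋₊ : ℕ) := by
    have : 1 ≤ ⌊Real.log z / L⌋₊ := Nat.le_floor (by exact_mod_cast h3)
    exact_mod_cast this
  have h5 : Real.log z / L < (⌊Real.log z / L⌋₊ : ℕ) + 1 := Nat.lt_floor_add_one _
  have h6 : ((⌊Real.log z / L⌋₊ : ℕ) : ℝ) ≤ Real.log z / L := Nat.floor_le (by linarith)
  have h7 : ((L : ℝ) * (⌊Real.log z / L⌋₊ : ℕ) : ℝ) ≤ Real.log z := by
    have := mul_le_mul_of_nonneg_left h6 hL0.le
    rwa [mul_div_cancel₀ _ hL0.ne'] at this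
  refine ⟨?_, h7, ?_⟩
  · have h8 : Real.log z / L ≤ 2 * (⌊Real.log z / L⌋₊ : ℕ) := by linarith
    have h9 := mul_le_mul_of_nonneg_left h8 hL0.le
    rw [mul_div_cancel₀ _ hL0.ne'] at h9
    linarith
  · nlinarith

theorem logs3 {L z k x t T a s : ℕ} (hs : 3 ≤ s) (hk : 1 ≤ k) (hkx : k ≤ x) (ha : a ≤ L)
    (ht : t < T) (hx : ⌈Real.exp (L + 1)⌉₊ ≤ x) (hz1 : 1 ≤ z)
    (hz2 : (z : ℝ) ≤ (x : ℝ) ^ (((2 * s : ℕ) : ℝ)⁻¹))
    (hz3 : (x : ℝ) ^ (((2 * s : ℕ) : ℝ)⁻¹) < z + 1)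
    (hT : (L * T : ℝ) ≤ Real.log z) :
    Real.log (2 * k) + (a + L * t) * Real.log 2 ≤ (6 * s : ℕ) * Real.log (z + 1) := by
  have hx1 : Real.exp (L + 1) ≤ x := (Nat.le_ceil _).trans (by exact_mod_cast hx)
  have hx0 : (0 : ℝ) < x := (Real.exp_pos _).trans_le hx1
  have hlx : (L : ℝ) + 1 ≤ Real.log x := by
    rw [← Real.log_exp ((L : ℝ) + 1)]
    exact Real.log_le_log (Real.exp_pos _) hx1
  have hk0 : (0 : ℝ) < k := by exact_mod_cast (by omega : 0 < k)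
  have hz0 : (0 : ℝ) < z := by exact_mod_cast (by omega : 0 < z)
  have hl2 : Real.log 2 ≤ 1 := by
    have := Real.log_two_lt_d9
    linarith
  have hL0 : (0 : ℝ) ≤ L := Nat.cast_nonneg L
  have h1 : Real.log (2 * k) ≤ 1 + Real.log x := by
    rw [Real.log_mul (by norm_num) hk0.ne']
    have : Real.log k ≤ Real.log x := Real.log_le_log hk0 (by exact_mod_cast hkx)
    linarith
  have hs0 : (0 : ℝ) < ((2 * s : ℕ) : ℝ) := by exact_mod_cast (by omega : 0 < 2 * s)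
  have hs6 : (6 : ℝ) ≤ ((2 * s : ℕ) : ℝ) := by exact_mod_cast (by omega : 6 ≤ 2 * s)
  have hlx0 : 0 ≤ Real.log x := by linarith
  have h2 : Real.log z ≤ Real.log x / 6 := by
    have h : Real.log z ≤ ((2 * s : ℕ) : ℝ)⁻¹ * Real.log x := by
      rw [← Real.log_rpow hx0]
      exact Real.log_le_log hz0 hz2
    have h' : ((2 * s : ℕ) : ℝ)⁻¹ ≤ 1 / 6 := by
      rw [inv_eq_one_div]
      exact one_div_le_one_div_of_le (by norm_num) hs6
    have := mul_le_mul_of_nonneg_right h' hlx0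
    linarith
  have h3 : 3 * Real.log x ≤ (6 * s : ℕ) * Real.log (z + 1) := by
    have h : ((2 * s : ℕ) : ℝ)⁻¹ * Real.log x ≤ Real.log (z + 1) := by
      rw [← Real.log_rpow hx0]
      exact Real.log_le_log (Real.rpow_pos_of_pos hx0 _) hz3.le
    have h' : ((6 * s : ℕ) : ℝ) = 3 * ((2 * s : ℕ) : ℝ) := by
      push_cast
      ring
    have h'' := mul_le_mul_of_nonneg_left h (by positivity : (0 : ℝ) ≤ ((6 * s : ℕ) : ℝ))
    have e : ((6 * s : ℕ) : ℝ) * (((2 * s : ℕ) : ℝ)⁻¹ * Real.log x) = 3 * Real.log x := by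
      rw [h']
      field_simp
    rw [e] at h''
    exact h''
  have h4 : (a : ℝ) + L * t ≤ L + Real.log z := by
    have ha' : (a : ℝ) ≤ L := by exact_mod_cast ha
    have ht' : (t : ℝ) ≤ T := by exact_mod_cast ht.le
    have := mul_le_mul_of_nonneg_left ht' hL0
    linarith
  have h5 : ((a : ℝ) + L * t) * Real.log 2 ≤ L + Real.log z := by
    have h9 : 0 ≤ (a : ℝ) + L * t := by positivity
    calc ((a : ℝ) + L * t) * Real.log 2 ≤ ((a : ℝ) + L * t) * 1 :=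
          mul_le_mul_of_nonneg_left hl2 h9
      _ ≤ _ := by linarith
  linarith

end MN3_

open Pool.Agent.SPA.MAIN_ MN3_ in
theorem p_MN3 (h1 : T_MO3) (h2 : T_SQF) (h3 : T_GA3) (_h4 : T_ASY) : T_MN3 := by
  classical
  obtain ⟨s, hs, h1'⟩ := h1
  refine ⟨6 * s + 1, fun ε hε => ?_⟩
  obtain ⟨L, m, z1, hL, hm, hmom⟩ := h1' (ε / 8) (by positivity)
  obtain ⟨z2, hsqf⟩ := h2 L m (ε / 8) hL hm (by positivity)
  have hM := MM_pos hL
  set c' : ℝ := ((2 * s : ℕ) : ℝ)⁻¹ with hc'_def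
  have hc' : 0 < c' := by
    have : (0 : ℝ) < ((2 * s : ℕ) : ℝ) := by exact_mod_cast (by omega : 0 < 2 * s)
    positivity
  have hm0 : (0 : ℝ) < m := by exact_mod_cast (by omega : 0 < m)
  set c : ℝ := c' * (m : ℝ)⁻¹ with hc_def
  have hc : 0 < c := by positivity
  set z0 : ℕ := max (max z1 z2) ⌈Real.exp L⌉₊ with hz0_def
  refine ⟨L, c, hL, hc, max (max (MM L ^ 2) ((max z0 2) ^ (2 * s)))
    (max ⌈Real.exp (L + 1)⌉₊ ⌈(MM L + MM L * (ε / 4)) * (4 / ε)⌉₊), fun x hx => ?_⟩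
  have hx1 : MM L ^ 2 ≤ x := le_trans (le_max_left _ _) (le_trans (le_max_left _ _) hx)
  have hx2 : (max z0 2) ^ (2 * s) ≤ x :=
    le_trans (le_max_right _ _) (le_trans (le_max_left _ _) hx)
  have hx3 : ⌈Real.exp (L + 1)⌉₊ ≤ x :=
    le_trans (le_max_left _ _) (le_trans (le_max_right _ _) hx)
  have hx4 : ⌈(MM L + MM L * (ε / 4)) * (4 / ε)⌉₊ ≤ x :=
    le_trans (le_max_right _ _) (le_trans (le_max_right _ _) hx)
  set z : ℕ := ⌊(x : ℝ) ^ c'⌋₊ with hz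
  have hzz2 : (z : ℝ) ≤ (x : ℝ) ^ c' := Nat.floor_le (by positivity)
  have hzz3 : (x : ℝ) ^ c' < z + 1 := Nat.lt_floor_add_one _
  have hzz4 : max z0 2 ≤ z := Nat.le_floor (le_root (by omega) hx2)
  have hz0 : z0 ≤ z := le_trans (le_max_left _ _) hzz4
  have hz2 : 2 ≤ z := le_trans (le_max_right _ _) hzz4
  have hz1' : z1 ≤ z := le_trans (le_max_left _ _) (le_trans (le_max_left _ _) hz0)
  have hz2' : z2 ≤ z := le_trans (le_max_right _ _) (le_trans (le_max_left _ _) hz0)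
  have hz3' : ⌈Real.exp L⌉₊ ≤ z := le_trans (le_max_right _ _) hz0
  have hzs : z ^ s ≤ x / MM L + 1 := le_Y hM hx1 (pow_le (by omega) hzz2)
  have hz3s : z ^ 3 ≤ x / MM L + 1 := le_trans (Nat.pow_le_pow_right (by omega) hs) hzs
  obtain ⟨w, hw1, hw2⟩ := root_ex hm z
  have hwz : w ≤ z := le_trans (Nat.le_self_pow (by omega) _) hw1
  set T : ℕ := ⌊Real.log z / L⌋₊ with hT
  obtain ⟨hT1, hT2, hT3⟩ := time hL hz3'
  rw [← hT] at hT1 hT2 hT3
  -- the lower bound for the primes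
  have hwc : (x : ℝ) ^ c < w + 1 := by
    have e1 : (x : ℝ) ^ c = ((x : ℝ) ^ c') ^ (m : ℝ)⁻¹ := by
      rw [hc_def, Real.rpow_mul (Nat.cast_nonneg x)]
    have e2 : (z : ℝ) + 1 ≤ ((w : ℝ) + 1) ^ m := by
      have : z + 1 ≤ (w + 1) ^ m := hw2
      exact_mod_cast this
    have e3 : (((w : ℝ) + 1) ^ m) ^ (m : ℝ)⁻¹ = w + 1 :=
      Real.pow_rpow_inv_natCast (by positivity) (by omega)
    rw [e1, ← e3]
    exact Real.rpow_lt_rpow (by positivity) (lt_of_lt_of_le hzz3 e2) (by positivity)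
  -- the choice of the exponents
  have hch : ∀ κ : ℕ, ∃ a : ℕ, Opn L κ → 1 ≤ a ∧ a ≤ L ∧
      Nat.Coprime (κ * 2 ^ a + 1) (2 ^ L - 1) := by
    intro κ
    by_cases h : Opn L κ
    · obtain ⟨a, ha⟩ := h
      exact ⟨a, fun _ => ha⟩
    · exact ⟨0, fun h' => absurd h' h⟩
  choose a ha using hch
  have hcount := count (x := x) (Y := x / MM L + 1) (δ := ε / 4)
    (P := fun k => Odd k ∧ Opn L k ∧ ¬ AlmostPrime c (6 * s + 1) k)
    (Bad := fun κ j => (∀ t < T, ¬ (Gd L w (a κ) (κ + MM L * j) t ∧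
      ∃ p ∈ PS L z \ PS L w, ∀ q ∈ PS L z \ PS L w,
        q ∣ (κ + MM L * j) * 2 ^ (a κ + L * t) + 1 → q = p)) ∨
      ∃ t ∈ range T, ∃ p ∈ PS L z \ PS L w,
        p ^ 2 ∣ (κ + MM L * j) * 2 ^ (a κ + L * t) + 1) hL rfl (by
      intro κ _ j hj hjx hPk
      obtain ⟨-, hO, hA⟩ := hPk
      by_contra hbad
      rw [not_or] at hbad
      obtain ⟨hb1, hb2⟩ := hbad
      push Not at hb1
      obtain ⟨t, ht, hG, hp⟩ := hb1
      have hOκ : Opn L κ := by
        obtain ⟨b, hb1, hb2, hb3⟩ := hO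
        exact ⟨b, hb1, hb2, cop.1 hb3⟩
      obtain ⟨ha1, ha2, ha3⟩ := ha κ hOκ
      have hk1 : 1 ≤ κ + MM L * j := by
        have : 1 ≤ MM L * j := Nat.mul_pos hM hj
        omega
      apply hA
      refine h3 L z w (a κ) (κ + MM L * j) t (6 * s) c hL ha1 hk1 (by omega) hwz (cop.2 ha3) hG
        hp ?_ ?_ ?_
      · intro p hp hdvd
        exact hb2 ⟨t, mem_range.2 ht, p, hp, hdvd⟩
      · refine lt_of_le_of_lt ?_ hwc
        exact Real.rpow_le_rpow (Nat.cast_nonneg _) (by exact_mod_cast hjx) hc.le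
      · exact logs3 hs hk1 hjx ha2 ht hx3 (by omega) hzz2 hzz3 hT2)
    (fun κ => by
      have h8 := hmom z w (x / MM L + 1) T κ (a κ) hz1' hw1 hw2 hzs hT1 hT2
      have h9 := hsqf z w (x / MM L + 1) T κ (a κ) hz2' hw2 hz3s hT3
      have h10 := or_card
        (fun j => ∀ t < T, ¬ (Gd L w (a κ) (κ + MM L * j) t ∧
          ∃ p ∈ PS L z \ PS L w, ∀ q ∈ PS L z \ PS L w,
            q ∣ (κ + MM L * j) * 2 ^ (a κ + L * t) + 1 → q = p))
        (fun j => ∃ t ∈ range T, ∃ p ∈ PS L z \ PS L w,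
          p ^ 2 ∣ (κ + MM L * j) * 2 ^ (a κ + L * t) + 1) (Ioc 0 (x / MM L + 1))
        (a := ε / 8 * ((x / MM L + 1 : ℕ) : ℝ)) (b := ε / 8 * ((x / MM L + 1 : ℕ) : ℝ))
        (by convert h8 using 4) (by convert h9 using 4)
      have h12 : ε / 8 * ((x / MM L + 1 : ℕ) : ℝ) + ε / 8 * ((x / MM L + 1 : ℕ) : ℝ) =
          ε / 4 * ((x / MM L + 1 : ℕ) : ℝ) := by ring
      rw [h12] at h10
      convert h10 using 4)
  refine hcount.trans ?_
  have hMr : (0 : ℝ) < MM L := by exact_mod_cast hM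
  have hY : (MM L : ℝ) * ((x / MM L + 1 : ℕ) : ℝ) ≤ x + MM L := by
    have h9 : MM L * (x / MM L) ≤ x := Nat.mul_div_le x (MM L)
    have h10 : MM L * (x / MM L + 1) ≤ x + MM L := by
      rw [mul_add, mul_one]
      omega
    exact_mod_cast h10
  have hx5 : (MM L + MM L * (ε / 4)) * (4 / ε) ≤ (x : ℝ) := by
    refine (Nat.le_ceil _).trans ?_
    exact_mod_cast hx4
  have hx6 : (MM L : ℝ) + MM L * (ε / 4) ≤ ε / 4 * x := by
    have h11 := mul_le_mul_of_nonneg_left hx5 (by positivity : (0 : ℝ) ≤ ε / 4)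
    have h12 : ε / 4 * (((MM L : ℝ) + MM L * (ε / 4)) * (4 / ε)) = MM L + MM L * (ε / 4) := by
      field_simp
    rw [h12] at h11
    exact h11
  have h13 : (MM L : ℝ) * (ε / 4 * ((x / MM L + 1 : ℕ) : ℝ)) ≤ ε / 4 * (x + MM L) := by
    have := mul_le_mul_of_nonneg_left hY (by positivity : (0 : ℝ) ≤ ε / 4)
    linarith
  have hx7 : (0 : ℝ) ≤ x := Nat.cast_nonneg x
  have h14 : 0 ≤ ε * x := by positivity
  linarith

end Pool.Agent.SPU
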