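import Pool.Agent.SPU.Targets2
import Pool.Agent.SPU.P_MO2

/-!
SPU, part 2: MO3, the second moment for the weight of exactly one prime (MP_315051_nt).
-/

set_option autoImplicit false

open Finset

namespace Pool.Agent.SPU

open Pool.Agent.SPA
open Pool.Agent.SPA.MOM_ (dvd15 seven_le)

namespace MO3_

/-- The real arithmetic at the end. -/
theorem arith (e N Y T V μ A K Λ Q δ g : ℝ) (he : 0 < e) (he1 : e ≤ 1) (hY : 0 ≤ Y)
    (hT : 0 < T) (hV : 0 < V) (hQ : 0 < Q) (hΛ : 0 < Λ) (_hA : 0 < A) (hK : 0 < K)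
    (hTV : 1 / K ≤ T * (V * Q)) (hΛK : 8 * A * K ≤ e * Λ)
    (hμ2 : 1 / 2 * (Λ * Q) ≤ μ) (hδ : δ = e / 136) (hg : g = e / 92)
    (h : N * (T * (V * μ)) ^ 2 ≤
      Y * (T * (A * (V * (Λ * Q))) + (T * (V * μ)) ^ 2 * (34 * δ + g + 22 * (δ * g)))) :
    N ≤ e * Y := by
  have hΛQ : 0 < Λ * Q := mul_pos hΛ hQ
  have hμ : 0 < μ := lt_of_lt_of_le (by positivity) hμ2
  have hq : 0 < (T * (V * μ)) ^ 2 := by positivity
  have h1 : (1 / 2 * (Λ * Q)) ^ 2 ≤ μ ^ 2 := pow_le_pow_left₀ (by positivity) hμ2 2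
  have h2 : A ≤ e / 8 * (T * (V * Q)) * Λ := by
    have h3 := mul_le_mul_of_nonneg_left hTV (show (0 : ℝ) ≤ e * Λ / 8 by positivity)
    have h4 : A ≤ e * Λ / 8 * (1 / K) := by
      rw [mul_one_div, le_div_iff₀ hK]
      linarith
    calc A ≤ _ := h4
      _ ≤ _ := h3
      _ = _ := by ring
  have h4 : A * (Λ * Q) ≤ e / 2 * ((T * V) * μ ^ 2) := by
    calc A * (Λ * Q) ≤ e / 8 * (T * (V * Q)) * Λ * (Λ * Q) :=
          mul_le_mul_of_nonneg_right h2 hΛQ.le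
      _ = e / 2 * ((T * V) * (1 / 2 * (Λ * Q)) ^ 2) := by ring
      _ ≤ e / 2 * ((T * V) * μ ^ 2) :=
          mul_le_mul_of_nonneg_left (mul_le_mul_of_nonneg_left h1 (by positivity)) (by positivity)
  have h5 : T * (A * (V * (Λ * Q))) ≤ e / 2 * (T * (V * μ)) ^ 2 := by
    have := mul_le_mul_of_nonneg_left h4 (show (0 : ℝ) ≤ T * V by positivity)
    calc T * (A * (V * (Λ * Q))) = T * V * (A * (Λ * Q)) := by ring
      _ ≤ _ := this
      _ = _ := by ring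
  have h6 : 34 * δ + g + 22 * (δ * g) ≤ e / 2 := by
    rw [hδ, hg]
    nlinarith
  have h7 : N * (T * (V * μ)) ^ 2 ≤ (e * Y) * (T * (V * μ)) ^ 2 := by
    refine h.trans ?_
    have h8 : T * (A * (V * (Λ * Q))) + (T * (V * μ)) ^ 2 * (34 * δ + g + 22 * (δ * g)) ≤
        e * (T * (V * μ)) ^ 2 := by
      have := mul_le_mul_of_nonneg_left h6 hq.le
      linarith
    have := mul_le_mul_of_nonneg_left h8 hY
    linarith
  exact le_of_mul_le_mul_right h7 hq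

end MO3_

open MO3_ MO2_ in
theorem p_MO3 (h1 : T_GSM) (h2 : T_SH) (h3 : T_PR2) (h4 : T_MEA) (h5 : T_N1) (h6 : T_N2)
    (h7 : T_N3) (h8 : T_CHE) (h9 : T_DPT) (h10 : T_DMU) (h11 : T_VLO) (h12 : T_ASY)
    (h13 : T_LAM) : T_MO3 := by
  classical
  obtain ⟨b, hb⟩ := h4 (1 / 2) (by norm_num)
  refine ⟨8 * b + 30, by omega, ?_⟩
  intro ε hε
  obtain ⟨e, he0, he1, heε⟩ : ∃ e : ℝ, 0 < e ∧ e ≤ 1 ∧ e ≤ ε :=
    ⟨min ε 1, lt_min hε one_pos, min_le_right _ _, min_le_left _ _⟩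
  obtain ⟨δ, hδ⟩ : ∃ δ : ℝ, δ = e / 136 := ⟨_, rfl⟩
  have hδ0 : 0 < δ := by rw [hδ]; positivity
  have hδ1 : δ ≤ 1 := by rw [hδ]; linarith
  obtain ⟨g, hg⟩ : ∃ g : ℝ, g = e / 92 := ⟨_, rfl⟩
  have hg0 : 0 < g := by rw [hg]; positivity
  obtain ⟨b', hb'⟩ := h4 δ hδ0
  obtain ⟨L, hL1, hL60, hBG⟩ := h1 g hg0
  obtain ⟨A, hA0, h7⟩ := h7
  obtain ⟨C₁, hC₁, hVLO⟩ := h11
  obtain ⟨C, hC0, hLAM⟩ := h13
  have hL0 : (0 : ℝ) < L := by exact_mod_cast hL1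
  obtain ⟨K, hK⟩ : ∃ K : ℝ, K = 2 * L * C₁ := ⟨_, rfl⟩
  have hK0 : 0 < K := by rw [hK]; positivity
  obtain ⟨m, hm⟩ : ∃ m : ℕ, m = max (4 * b' + 12) ⌈Real.exp (2 * (C + (1 + 8 * A * K / e)))⌉₊ :=
    ⟨_, rfl⟩
  have hmb : 4 * b' + 12 ≤ m := by rw [hm]; exact le_max_left _ _
  have hm1 : 1 ≤ m := by omega
  have hm0 : (0 : ℝ) < m := by exact_mod_cast hm1
  have hmlog : 1 + 8 * A * K / e ≤ Real.log m / 2 - C := by
    have h := (Nat.le_ceil (Real.exp (2 * (C + (1 + 8 * A * K / e))))).trans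
      (by exact_mod_cast (by rw [hm]; exact le_max_right _ _ :
        ⌈Real.exp (2 * (C + (1 + 8 * A * K / e)))⌉₊ ≤ m) :
      ((⌈Real.exp (2 * (C + (1 + 8 * A * K / e)))⌉₊ : ℕ) : ℝ) ≤ (m : ℝ))
    have h' := Real.log_le_log (Real.exp_pos _) h
    rw [Real.log_exp] at h'
    linarith
  obtain ⟨z1, hz1⟩ := h5 b b' m δ
  obtain ⟨z2, hz2⟩ := h6 b b' m δ
  obtain ⟨z3, hz3⟩ := h7 b b' m δ
  obtain ⟨z4, hz4⟩ := h12 1 m hm1
  obtain ⟨z5, hz5⟩ := hLAM L m hL1 hm1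
  refine ⟨L, m, max (max z1 z2) (max (max z3 z4) (max 2 z5)), hL1, hm1, ?_⟩
  intro z w Y T κ a hz hwz hzw hY hT1 hT2
  have hz1' : z1 ≤ z := by
    refine le_trans ?_ hz
    exact le_trans (le_max_left _ _) (le_max_left _ _)
  have hz2' : z2 ≤ z := by
    refine le_trans ?_ hz
    exact le_trans (le_max_right _ _) (le_max_left _ _)
  have hz3' : z3 ≤ z := by
    refine le_trans ?_ hz
    exact le_trans (le_trans (le_max_left _ _) (le_max_left _ _)) (le_max_right _ _)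
  have hz4' : z4 ≤ z := by
    refine le_trans ?_ hz
    exact le_trans (le_trans (le_max_right _ _) (le_max_left _ _)) (le_max_right _ _)
  have hz5' : 2 ≤ z := by
    refine le_trans ?_ hz
    exact le_trans (le_trans (le_max_left _ _) (le_max_right _ _)) (le_max_right _ _)
  have hz6' : z5 ≤ z := by
    refine le_trans ?_ hz
    exact le_trans (le_trans (le_max_right _ _) (le_max_right _ _)) (le_max_right _ _)
  have hasy := hz4 z w hz4' hzw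
  have hw7 : 7 ≤ w := by exact_mod_cast hasy.2.1
  have hlogz : 1 ≤ Real.log z := hasy.2.2
  have hwlez : w ≤ z := le_trans (Nat.le_self_pow (by omega) _) hwz
  -- the primes
  have hS : ∀ z' : ℕ, ∀ p ∈ PS L z', p.Prime ∧ 7 ≤ p ∧ p ≤ z' ∧ ¬ p ∣ 2 * (2 ^ L - 1) := by
    intro z' p hp
    rw [PS, mem_filter, mem_Icc] at hp
    exact ⟨hp.2.1, seven_le L p hL60 hp.2.1 hp.2.2, hp.1.2, hp.2.2⟩
  have hM2 : ∀ z' : ℕ, ∀ p ∈ PS L z', ¬ p ∣ 2 * MM L := by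
    intro z' p hp hd
    rcases (Nat.Prime.dvd_mul (hS z' p hp).1).1 hd with h | h
    · exact (hS z' p hp).2.2.2 (h.trans (dvd_mul_right _ _))
    · exact (hS z' p hp).2.2.2 h
  have hsub : PS L w ⊆ PS L z := by
    intro p hp
    rw [PS, mem_filter, mem_Icc] at hp ⊢
    exact ⟨⟨hp.1.1, hp.1.2.trans hwlez⟩, hp.2⟩
  obtain ⟨P1, hP1⟩ : ∃ P1 : Finset ℕ, P1 = PS L w := ⟨_, rfl⟩
  obtain ⟨P2, hP2⟩ : ∃ P2 : Finset ℕ, P2 = PS L z \ PS L w := ⟨_, rfl⟩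
  have hmem2 : ∀ p ∈ P2, p ∈ PS L z ∧ w < p := by
    intro p hp
    rw [hP2, mem_sdiff] at hp
    refine ⟨hp.1, ?_⟩
    by_contra hc
    refine hp.2 ?_
    have h := hp.1
    rw [PS, mem_filter, mem_Icc] at h ⊢
    exact ⟨⟨h.1.1, not_lt.1 hc⟩, h.2⟩
  have hPP : PP (MM L) w z P1 P2 := by
    refine ⟨?_, ?_, by omega, hwlez⟩
    · intro p hp
      rw [hP1] at hp
      exact ⟨(hS w p hp).1, (hS w p hp).2.1, (hS w p hp).2.2.1, hM2 w p hp⟩
    · intro p hp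
      have hp' := hmem2 p hp
      exact ⟨(hS z p hp'.1).1, (hS z p hp'.1).2.1, hp'.2, (hS z p hp'.1).2.2.1,
        hM2 z p hp'.1⟩
  obtain ⟨Λ, hΛ⟩ : ∃ Λ : ℝ, Λ = La P2 := ⟨_, rfl⟩
  have hΛ1 : 1 + 8 * A * K / e ≤ Λ := by
    rw [hΛ, hP2]
    exact hmlog.trans (hz5 z w hz6' hwz hzw)
  have hq0 : 0 ≤ 8 * A * K / e := by positivity
  have hΛge : 1 ≤ Λ := by linarith
  have hΛK : 8 * A * K ≤ e * Λ := by
    have h := mul_le_mul_of_nonneg_left (show 8 * A * K / e ≤ Λ by linarith) he0.le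
    rwa [mul_div_cancel₀ _ he0.ne'] at h
  have hHH : H2 b b' m δ z w Y (MM L) P1 P2 :=
    ⟨hb, hb', hδ0, hδ1, hPP, hmb, hwz, hzw, hY, by rw [← hΛ]; exact hΛge⟩
  -- products
  have hfac : ∀ p ∈ PS L z, 0 < 1 - 1 / (p : ℝ) ∧ 1 - 1 / (p : ℝ) ≤ 1 := by
    intro p hp
    have h7' : (7 : ℝ) ≤ p := by exact_mod_cast (hS z p hp).2.1
    have h8' : 1 / (p : ℝ) < 1 := by
      rw [div_lt_one (by linarith)]
      linarith
    have h9' : 0 ≤ 1 / (p : ℝ) := by positivity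
    exact ⟨by linarith, by linarith⟩
  obtain ⟨V, hV⟩ : ∃ V : ℝ, V = ∏ p ∈ P1, (1 - 1 / (p : ℝ)) := ⟨_, rfl⟩
  obtain ⟨Q, hQ⟩ : ∃ Q : ℝ, Q = ∏ p ∈ P2, (1 - 1 / (p : ℝ)) := ⟨_, rfl⟩
  have hV0 : 0 < V := by
    rw [hV, hP1]
    exact prod_pos fun p hp => (hfac p (hsub hp)).1
  have hQ0 : 0 < Q := by
    rw [hQ]
    exact prod_pos fun p hp => (hfac p (hmem2 p hp).1).1
  have hVQ : 1 / (C₁ * Real.log z) ≤ V * Q := by
    have h := (hVLO z (PS L z) hz5' (fun p hp =>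
      ⟨(hS z p hp).1, le_trans (by norm_num) (hS z p hp).2.1, (hS z p hp).2.2.1⟩)).1
    rw [← prod_sdiff hsub, ← hP2, ← hP1, ← hV, ← hQ] at h
    linarith
  have hP2' : ∀ p ∈ P2, p.Prime ∧ 7 ≤ p ∧ p ≤ z := fun p hp =>
    ⟨(hPP.h2 p hp).1, (hPP.h2 p hp).2.1, (hPP.h2 p hp).2.2.2.1⟩
  obtain ⟨μ, hμ⟩ : ∃ μ : ℝ, μ = nu z b P2 := ⟨_, rfl⟩
  have hdmu := h10 z b P2 hb hz5' hP2'
  have hμ2 : 1 / 2 * (Λ * Q) ≤ μ := by
    rw [hμ, hΛ, hQ]
    exact hdmu.1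
  have hμ0 : 0 < μ := lt_of_lt_of_le (by positivity) hμ2
  -- the number of exponents
  have hT0 : (0 : ℝ) < T := by
    by_contra hc
    have hc' : (T : ℝ) ≤ 0 := not_lt.1 hc
    have := mul_nonpos_of_nonneg_of_nonpos hL0.le hc'
    linarith
  have hTV : 1 / K ≤ T * (V * Q) := by
    have hlz : 0 < Real.log z := by linarith
    have h := mul_le_mul_of_nonneg_left hVQ hT0.le
    refine le_trans ?_ h
    rw [mul_one_div, div_le_div_iff₀ hK0 (by positivity), hK, one_mul]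
    calc C₁ * Real.log z ≤ C₁ * (2 * (L * T)) := mul_le_mul_of_nonneg_left hT1 hC₁.le
      _ = _ := by ring
  -- the functions
  obtain ⟨G, hG⟩ : ∃ G : ℕ → ℕ → ℝ, G = fun t j =>
      xx (b1 κ (MM L) (a + L * t)) P1 j *
        Fn (dM z b P2) P2 (oi (b1 κ (MM L) (a + L * t)) j) := ⟨_, rfl⟩
  obtain ⟨F, hF⟩ : ∃ F : ℕ → ℝ, F = fun h =>
      ∏ p ∈ P1.filter (fun p => p ∣ 2 ^ (L * h) - 1), (1 + 1 / ((p : ℝ) - 1)) := ⟨_, rfl⟩
  have hF1 : ∀ N : ℕ, ∑ h ∈ Icc 1 N, F h ≤ N * (1 + g) := by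
    intro N
    rw [hF]
    refine h2 L g hL1 hBG P1 (fun p hp => ?_) N
    rw [hP1] at hp
    exact ⟨(hS w p hp).1, (hS w p hp).2.2.2⟩
  have hche := h8 T Y G F (V * μ) δ g (A * (V * (Λ * Q))) (by positivity) hδ0.le hg0.le ?_ ?_ ?_
    hF1
  · -- conclusion
    have hfin := arith e _ Y T V μ A K Λ Q δ g he0 he1 (by positivity) hT0 hV0 hQ0
      (by linarith) hA0 hK0 hTV hΛK hμ2 hδ hg hche
    have hsubset : ((Ioc 0 Y).filter fun j => ∀ t < T, ¬ (Gd L w a (κ + MM L * j) t ∧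
        ∃ p ∈ PS L z \ PS L w, ∀ q ∈ PS L z \ PS L w,
          q ∣ (κ + MM L * j) * 2 ^ (a + L * t) + 1 → q = p)) ⊆
        ((Ioc 0 Y).filter fun j => ∀ t < T, G t j ≤ 0) := by
      intro j hj
      rw [mem_filter] at hj ⊢
      refine ⟨hj.1, fun t ht => ?_⟩
      by_contra hpos
      have hpos' : 0 < G t j := not_le.1 hpos
      rw [hG] at hpos'
      have hpos2 : 0 < xx (b1 κ (MM L) (a + L * t)) P1 j *
        Fn (dM z b P2) P2 (oi (b1 κ (MM L) (a + L * t)) j) := hpos'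
      refine hj.2 t ht ⟨?_, ?_⟩
      · intro p hp hpd
        have hx0 : xx (b1 κ (MM L) (a + L * t)) P1 j = 0 := by
          rw [xx, if_neg]
          intro hc
          exact hc p (by rw [hP1]; exact hp) hpd
        rw [hx0, zero_mul] at hpos2
        exact lt_irrefl _ hpos2
      · have hFpos : 0 < Fn (dM z b P2) P2 (oi (b1 κ (MM L) (a + L * t)) j) := by
          by_contra hc
          exact absurd (mul_nonpos_of_nonneg_of_nonpos (xx_nonneg _ _ _) (not_lt.1 hc))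
            (not_le.2 hpos2)
        obtain ⟨p, hp, -, hq⟩ := (h9 z b P2 (b1 κ (MM L) (a + L * t)) j hz5' hP2').2 hFpos
        rw [← hP2]
        exact ⟨p, hp, fun q hq1 hq2 => hq q hq1 hq2⟩
    have hcard : (((Ioc 0 Y).filter fun j => ∀ t < T, ¬ (Gd L w a (κ + MM L * j) t ∧
        ∃ p ∈ PS L z \ PS L w, ∀ q ∈ PS L z \ PS L w,
          q ∣ (κ + MM L * j) * 2 ^ (a + L * t) + 1 → q = p)).card : ℝ) ≤
        (((Ioc 0 Y).filter fun j => ∀ t < T, G t j ≤ 0).card : ℝ) := by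
      exact_mod_cast card_le_card hsubset
    have hY0 : (0 : ℝ) ≤ Y := by positivity
    have hlast : e * Y ≤ ε * Y := mul_le_mul_of_nonneg_right heε hY0
    have hgoal := (hcard.trans (by convert hfin)).trans hlast
    convert hgoal
  · -- the first moment
    intro t _
    have h := hz1 z w Y (MM L) κ (a + L * t) P1 P2 hz1' hHH
    rw [hG]
    show (1 - 6 * δ) * (Y * (V * μ)) ≤ _
    rw [hV, hμ]
    exact h
  · -- the diagonal
    intro t _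
    have h := hz3 z w Y (MM L) κ (a + L * t) P1 P2 hz3' hHH
    rw [hG]
    refine le_trans h (le_of_eq ?_)
    rw [hV, hΛ, hQ]
    ring
  · -- the pairs
    intro t h hh htT
    have hLh1 : 1 ≤ L * h := Nat.one_le_iff_ne_zero.2 (by positivity)
    have hLh3 : ((L * h : ℕ) : ℝ) ≤ Real.log z := by
      have hhT : (h : ℝ) ≤ T := by
        have : h ≤ T := by omega
        exact_mod_cast this
      push_cast
      exact le_trans (mul_le_mul_of_nonneg_left hhT hL0.le) hT2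
    have hm2 := hz2 z w Y (MM L) κ (a + L * t) (L * h) P1 P2 hz2' hHH hLh1 hLh3
    have hadd : a + L * (t + h) = a + L * t + L * h := by ring
    have hlhs : ∑ j ∈ Ioc 0 Y, G t j * G (t + h) j = ∑ j ∈ Ioc 0 Y,
        (xx (b1 κ (MM L) (a + L * t)) P1 j *
          Fn (dM z b P2) P2 (oi (b1 κ (MM L) (a + L * t)) j)) *
        (xx (b1 κ (MM L) (a + L * t + L * h)) P1 j *
          Fn (dM z b P2) P2 (oi (b1 κ (MM L) (a + L * t + L * h)) j)) := by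
      refine sum_congr rfl fun j _ => ?_
      rw [hG]
      show _ * (xx (b1 κ (MM L) (a + L * (t + h))) P1 j *
          Fn (dM z b P2) P2 (oi (b1 κ (MM L) (a + L * (t + h))) j)) = _
      rw [hadd]
    rw [hlhs]
    refine hm2.trans ?_
    have hpr : ∏ p ∈ P1, (1 - ro (L * h) p / (p : ℝ)) ≤ V ^ 2 * F h := by
      have hq := h3 P1 (2 ^ (L * h) - 1) (fun p hp => by
        rw [hP1] at hp
        exact ⟨(hS w p hp).1, le_trans (by norm_num) (hS w p hp).2.1⟩)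
      rw [hV, hF]
      refine le_trans (le_of_eq ?_) hq
      refine prod_congr rfl fun p _ => ?_
      rw [ro]
      split_ifs <;> norm_num
    have hc : (0 : ℝ) ≤ (1 + 22 * δ) * (Y * μ ^ 2) := by positivity
    have := mul_le_mul_of_nonneg_left hpr hc
    rw [← hμ]
    calc (1 + 22 * δ) * (Y * ((∏ p ∈ P1, (1 - ro (L * h) p / (p : ℝ))) * μ ^ 2))
        = (1 + 22 * δ) * (Y * μ ^ 2) * ∏ p ∈ P1, (1 - ro (L * h) p / (p : ℝ)) := by ring
      _ ≤ (1 + 22 * δ) * (Y * μ ^ 2) * (V ^ 2 * F h) := this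
      _ = (1 + 22 * δ) * (Y * (V * μ) ^ 2) * F h := by ring

end Pool.Agent.SPU
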