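import Pool.Agent.SPU.Targets2

/-!
SPU, part 2, target N1: the first moment of the weights for exactly one prime.
-/

set_option autoImplicit false

open Finset

namespace Pool.Agent.SPU

open Pool.Agent.SPA
open Pool.Agent.TSP (Per rho)

namespace N1_

lemma Fn_congr (c : Finset ℕ → ℝ) {P : Finset ℕ} {ω ω' : ℕ → ℝ} (h : ∀ l ∈ P, ω l = ω' l) :
    Fn c P ω = Fn c P ω' := by
  unfold Fn
  refine Finset.sum_congr rfl fun D hD => ?_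
  rw [Finset.prod_congr rfl fun l hl => h l (Finset.mem_powerset.1 hD hl)]

lemma ro_zero (l : ℕ) : ro 0 l = 1 := by
  unfold ro
  simp

lemma sum_one (c : Finset ℕ → ℝ) {P : Finset ℕ} {ω : ℕ → ℝ} (h : ∀ l ∈ P, ω l = 1) :
    ∑ D ∈ P.powerset, |c D| * ∏ l ∈ D, ω l = ∑ D ∈ P.powerset, |c D| := by
  refine Finset.sum_congr rfl fun D hD => ?_
  rw [Finset.prod_congr rfl fun l hl => h l (Finset.mem_powerset.1 hD hl)]
  simp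

end N1_

open N1_ in
theorem p_N1 (h1 : T_PNT) (h2 : T_PS1) (h3 : T_RM2) (h4 : T_DMU) (h5 : T_RH1)
    (h6 : T_DPT) : T_N1 := by
  intro b b' m δ
  obtain ⟨z0, hz0⟩ := h3 b b' m δ
  refine ⟨z0, fun z w Y M κ n P1 P2 hz H => ?_⟩
  have hw2 : 2 ≤ w := H.pp.hw
  have hz2 : 2 ≤ z := hw2.trans H.pp.hwz
  obtain ⟨hper, hrho⟩ := h5 κ M (2 ^ n)
  have hper' : Per (b1 κ M n) := hper
  have hr1 : ∀ p : ℕ, p.Prime → ¬ p ∣ 2 * M → rho (b1 κ M n) p = 1 := by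
    intro p hp hpM
    refine hrho p hp fun hd => hpM ?_
    rcases hp.dvd_mul.1 hd with h | h
    · exact Dvd.dvd.mul_left h 2
    · exact Dvd.dvd.mul_right (hp.dvd_of_dvd_pow h) M
  have hP1 : ∀ p ∈ P1, (rho (b1 κ M n) p : ℝ) = 1 := fun p hp => by
    rw [hr1 p (H.pp.h1 p hp).1 (H.pp.h1 p hp).2.2.2]
    simp
  have hP2 : ∀ p ∈ P2, (rho (b1 κ M n) p : ℝ) = 1 := fun p hp => by
    rw [hr1 p (H.pp.h2 p hp).1 (H.pp.h2 p hp).2.2.2.2]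
    simp
  have hdis : Disjoint P1 P2 := by
    rw [Finset.disjoint_left]
    intro p hp1 hp2
    have e1 := (H.pp.h1 p hp1).2.2.1
    have e2 := (H.pp.h2 p hp2).2.2.1
    omega
  have hpr : ∀ p ∈ P1 ∪ P2, p.Prime := fun p hp => by
    rcases Finset.mem_union.1 hp with h | h
    · exact (H.pp.h1 p h).1
    · exact (H.pp.h2 p h).1
  have hP1' : ∀ p ∈ P1, p.Prime ∧ 7 ≤ p ∧ p ≤ w := fun p hp =>
    ⟨(H.pp.h1 p hp).1, (H.pp.h1 p hp).2.1, (H.pp.h1 p hp).2.2.1⟩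
  have hP2' : ∀ p ∈ P2, p.Prime ∧ 7 ≤ p ∧ p ≤ z := fun p hp =>
    ⟨(H.pp.h2 p hp).1, (H.pp.h2 p hp).2.1, (H.pp.h2 p hp).2.2.2.1⟩
  obtain ⟨-, -, m2, -, m4, m5⟩ := h4 z b P2 H.ma hz2 hP2'
  obtain ⟨a1, -, a3, a4⟩ := H.ma' w P1 (fun p => 1 / (p : ℝ)) hw2 (fun p hp =>
    ⟨(hP1' p hp).1, (hP1' p hp).2.1, (hP1' p hp).2.2, by positivity,
      div_le_div_of_nonneg_right (by norm_num) (Nat.cast_nonneg _)⟩)
  obtain ⟨V, hV⟩ : ∃ V : ℝ, V = ∏ p ∈ P1, (1 - 1 / (p : ℝ)) := ⟨_, rfl⟩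
  obtain ⟨μ, hμ⟩ : ∃ μ : ℝ, μ = nu z b P2 := ⟨_, rfl⟩
  have hV1 : ∀ p ∈ P1, (1 - ro 0 p / (p : ℝ)) = 1 - 1 / (p : ℝ) := fun p _ => by
    rw [ro_zero]
  -- the two sieve estimates
  have key : ∀ c0 c1 : Finset ℕ → ℝ, (c0 = cT w b' P1 ∨ c0 = cE w b' P1) →
      (c1 = dM z b P2 ∨ c1 = dP z b P2) →
      |∑ j ∈ Ioc 0 Y, Fn c0 P1 (oi (b1 κ M n) j) * Fn c1 P2 (oi (b1 κ M n) j) -
        Y * (Fn c0 P1 (fun l => 1 / (l : ℝ)) * Fn c1 P2 (fun l => 1 / (l : ℝ)))| ≤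
        δ * (Y * (V * μ)) := by
    intro c0 c1 hc0 hc1
    have e1 := h2 (b1 κ M n) P1 P2 c0 c1 Y hper' hpr hdis
    rw [sum_one c0 hP1, sum_one c1 hP2,
      Fn_congr c0 (ω := fun l => (rho (b1 κ M n) l : ℝ) / l) (ω' := fun l => 1 / (l : ℝ))
        (fun l hl => by simp only [hP1 l hl]),
      Fn_congr c1 (ω := fun l => (rho (b1 κ M n) l : ℝ) / l) (ω' := fun l => 1 / (l : ℝ))
        (fun l hl => by simp only [hP2 l hl])] at e1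
    have e2 := (hz0 z w Y M 0 P1 P2 c0 c1 c1 hz H hc0 hc1 hc1).2
    rw [sum_one c0 (fun l _ => ro_zero l), Finset.prod_congr rfl hV1, ← hV, ← hμ] at e2
    exact e1.trans e2
  have k1 := key (cT w b' P1) (dM z b P2) (Or.inl rfl) (Or.inl rfl)
  have k2 := key (cE w b' P1) (dP z b P2) (Or.inr rfl) (Or.inr rfl)
  have hpt : ∀ j ∈ Ioc 0 Y,
      Fn (cT w b' P1) P1 (oi (b1 κ M n) j) * Fn (dM z b P2) P2 (oi (b1 κ M n) j) -
      Fn (cE w b' P1) P1 (oi (b1 κ M n) j) * Fn (dP z b P2) P2 (oi (b1 κ M n) j) ≤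
      xx (b1 κ M n) P1 j * Fn (dM z b P2) P2 (oi (b1 κ M n) j) := by
    intro j _
    obtain ⟨p1, p2, p3⟩ := h1 w b' P1 (b1 κ M n) j hw2 hP1'
    obtain ⟨q1, -⟩ := h6 z b P2 (b1 κ M n) j hz2 hP2'
    have q2 : 0 ≤ Fn (dP z b P2) P2 (oi (b1 κ M n) j) := (abs_nonneg _).trans q1
    have q3 := (le_abs_self (Fn (dM z b P2) P2 (oi (b1 κ M n) j))).trans q1
    nlinarith [mul_nonneg (sub_nonneg.2 p1) (sub_nonneg.2 q3),
      mul_nonneg (sub_nonneg.2 p3) q2]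
  have hsum := Finset.sum_le_sum hpt
  rw [Finset.sum_sub_distrib] at hsum
  have hY : (0 : ℝ) ≤ Y := Nat.cast_nonneg _
  rw [← hV] at a1 a4 ⊢
  rw [← hμ] at m2 m5 ⊢
  have hmu : Fn (dM z b P2) P2 (fun l => 1 / (l : ℝ)) = μ := hμ.symm
  rw [hmu] at k1
  have g1 : (Y : ℝ) * (V * μ) ≤
      Y * (Fn (cT w b' P1) P1 (fun l => 1 / (l : ℝ)) * μ) :=
    mul_le_mul_of_nonneg_left (mul_le_mul_of_nonneg_right a1 m2) hY
  have g2 : (Y : ℝ) * (Fn (cE w b' P1) P1 (fun l => 1 / (l : ℝ)) *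
      Fn (dP z b P2) P2 (fun l => 1 / (l : ℝ))) ≤ Y * ((δ * V) * (4 * μ)) :=
    mul_le_mul_of_nonneg_left (mul_le_mul a4 m5 m4 (a3.trans a4)) hY
  have g3 := (abs_le.1 k1).1
  have g4 := (abs_le.1 k2).2
  nlinarith

end Pool.Agent.SPU
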