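import Pool.Agent.SPU.Targets2

/-!
# SPU, N3: the diagonal terms of the second moment (exactly one prime)
-/

set_option autoImplicit false

open Finset

namespace Pool.Agent.SPU

open Pool.Agent.SPA
open Pool.Agent.TSP (Per rho)

namespace N3_

theorem b2_zero (κ M n : ℕ) : b2 κ M n 0 = b1 κ M n := by
  funext p j
  unfold b2 b1
  exact propext (or_self_iff (a := p ∣ (κ + M * j) * 2 ^ n + 1))

theorem ro_zero (l : ℕ) : ro 0 l = 1 := by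
  unfold ro
  rw [if_pos (by simp)]

theorem xx_nonneg (bad : ℕ → ℕ → Prop) (P : Finset ℕ) (n : ℕ) : 0 ≤ xx bad P n := by
  unfold xx
  split_ifs <;> norm_num

theorem xx_sq (bad : ℕ → ℕ → Prop) (P : Finset ℕ) (n : ℕ) : xx bad P n ^ 2 = xx bad P n := by
  unfold xx
  split_ifs <;> norm_num

end N3_

open N3_ in
/-- N3 -/
theorem p_N3 (h1 : T_PNT) (h2 : T_PS2) (h3 : T_RM2) (h4 : T_DMU) (h5 : T_DSQ) (h6 : T_DPT) :
    T_N3 := by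
  obtain ⟨C, hC, hSQ⟩ := h5
  refine ⟨2 * C + 2, by positivity, ?_⟩
  intro b b' m δ
  obtain ⟨z0, hR⟩ := h3 b b' m δ
  refine ⟨z0, ?_⟩
  intro z w Y M κ n P1 P2 hz hH
  have hw2 : 2 ≤ w := hH.pp.hw
  have hz2 : 2 ≤ z := hw2.trans hH.pp.hwz
  have hP1 : ∀ p ∈ P1, p.Prime ∧ 7 ≤ p ∧ p ≤ w := fun p hp =>
    ⟨(hH.pp.h1 p hp).1, (hH.pp.h1 p hp).2.1, (hH.pp.h1 p hp).2.2.1⟩
  have hP2 : ∀ p ∈ P2, p.Prime ∧ 7 ≤ p ∧ p ≤ z := fun p hp =>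
    ⟨(hH.pp.h2 p hp).1, (hH.pp.h2 p hp).2.1, (hH.pp.h2 p hp).2.2.2.1⟩
  obtain ⟨V, hV⟩ : ∃ V : ℝ, V = ∏ p ∈ P1, (1 - 1 / (p : ℝ)) := ⟨_, rfl⟩
  obtain ⟨L, hL⟩ : ∃ L : ℝ, L = La P2 * ∏ p ∈ P2, (1 - 1 / (p : ℝ)) := ⟨_, rfl⟩
  have hV0 : 0 ≤ V := by
    rw [hV]
    refine Finset.prod_nonneg fun p hp => ?_
    have h7p : (7 : ℝ) ≤ p := by exact_mod_cast (hP1 p hp).2.1
    have h8 : 1 / (p : ℝ) ≤ 1 := by
      rw [div_le_one (by linarith)]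
      linarith
    linarith
  -- the pointwise bound
  have hpt : ∀ j ∈ Ioc 0 Y, (xx (b1 κ M n) P1 j * Fn (dM z b P2) P2 (oi (b1 κ M n) j)) ^ 2 ≤
      Fn (cT w b' P1) P1 (oi (b2 κ M n 0) j) * (Fn (dP z b P2) P2 (oi (b1 κ M n) j) *
        Fn (dP z b P2) P2 (oi (b1 κ M (n + 0)) j)) := by
    intro j _
    rw [b2_zero, Nat.add_zero, mul_pow, xx_sq]
    obtain ⟨g1, -, -⟩ := h1 w b' P1 (b1 κ M n) j hw2 hP1
    have g2 := (h6 z b P2 (b1 κ M n) j hz2 hP2).1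
    have g6 : Fn (dM z b P2) P2 (oi (b1 κ M n) j) ^ 2 ≤
        Fn (dP z b P2) P2 (oi (b1 κ M n) j) * Fn (dP z b P2) P2 (oi (b1 κ M n) j) := by
      rw [← sq_abs, ← sq]
      exact pow_le_pow_left₀ (abs_nonneg _) g2 2
    calc xx (b1 κ M n) P1 j * Fn (dM z b P2) P2 (oi (b1 κ M n) j) ^ 2
        ≤ Fn (cT w b' P1) P1 (oi (b1 κ M n) j) * Fn (dM z b P2) P2 (oi (b1 κ M n) j) ^ 2 :=
          mul_le_mul_of_nonneg_right g1 (sq_nonneg _)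
      _ ≤ _ := mul_le_mul_of_nonneg_left g6 ((xx_nonneg _ _ _).trans g1)
  refine (Finset.sum_le_sum hpt).trans ?_
  -- the sum
  have hdis : Disjoint P1 P2 := by
    rw [Finset.disjoint_left]
    intro p hp1 hp2
    have e1 := (hH.pp.h1 p hp1).2.2.1
    have e2 := (hH.pp.h2 p hp2).2.2.1
    omega
  have hall : ∀ p ∈ P1 ∪ P2, p.Prime ∧ ¬ p ∣ 2 * M := by
    intro p hp
    rcases Finset.mem_union.1 hp with hp | hp
    · exact ⟨(hH.pp.h1 p hp).1, (hH.pp.h1 p hp).2.2.2⟩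
    · exact ⟨(hH.pp.h2 p hp).1, (hH.pp.h2 p hp).2.2.2.2⟩
  have hs := h2 κ M n 0 Y P1 P2 (cT w b' P1) (dP z b P2) (dP z b P2) hall hdis
  have hr := (hR z w Y M 0 P1 P2 (cT w b' P1) (dP z b P2) (dP z b P2) hz hH (Or.inl rfl)
    (Or.inr rfl) (Or.inr rfl)).1
  obtain ⟨-, hnu1, hnu0, hnu2, -, -⟩ := h4 z b P2 hH.ma hz2 hP2
  have hVe : ∏ p ∈ P1, (1 - ro 0 p / (p : ℝ)) = V := by
    rw [hV]
    exact Finset.prod_congr rfl fun p _ => by rw [ro_zero]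
  rw [hVe] at hr
  have hfe : (fun l : ℕ => ro 0 l / (l : ℝ)) = fun l : ℕ => 1 / (l : ℝ) := by
    funext l
    rw [ro_zero]
  have hte : (fun l : ℕ => l ∣ 2 ^ 0 - 1) = fun _ : ℕ => True := by
    funext l
    simp
  rw [hfe, hte] at hs
  rw [← hL] at hnu1
  rw [← hV, ← hL]
  have hL0 : 0 ≤ L := by linarith
  -- the means
  obtain ⟨m1, m2, -, -⟩ := hH.ma' w P1 (fun l => 1 / (l : ℝ)) hw2 (fun p hp => by
    obtain ⟨e1, e2, e3⟩ := hP1 p hp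
    have h7p : (7 : ℝ) ≤ p := by exact_mod_cast e2
    refine ⟨e1, e2, e3, by positivity, ?_⟩
    exact div_le_div_of_nonneg_right (by norm_num) (by positivity))
  rw [← hV] at m1 m2
  have m3 : 0 ≤ Fn (cT w b' P1) P1 (fun l => 1 / (l : ℝ)) := hV0.trans m1
  have m4 : Fn (cT w b' P1) P1 (fun l => 1 / (l : ℝ)) ≤ 2 * V :=
    m2.trans (mul_le_mul_of_nonneg_right (by linarith [hH.d1]) hV0)
  have hk := hSQ z b P2 hz2 hP2
  rw [← hL] at hk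
  have hmain : Fn (cT w b' P1) P1 (fun l => 1 / (l : ℝ)) *
      KK (fun _ => True) P2 (dP z b P2) (dP z b P2) ≤ 2 * V * (C * L) :=
    (mul_le_mul_of_nonneg_left hk m3).trans (mul_le_mul_of_nonneg_right m4 (by positivity))
  have hY : (0 : ℝ) ≤ Y := Nat.cast_nonneg Y
  have hmu : nu z b P2 ^ 2 ≤ 2 * L := by nlinarith
  have e1 : 0 ≤ (Y : ℝ) * V := mul_nonneg hY hV0
  have hrem : δ * (Y * (V * nu z b P2 ^ 2)) ≤ (Y * V) * (2 * L) := by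
    calc δ * (Y * (V * nu z b P2 ^ 2)) = δ * ((Y * V) * nu z b P2 ^ 2) := by ring
      _ ≤ 1 * ((Y * V) * nu z b P2 ^ 2) := mul_le_mul_of_nonneg_right hH.d1 (by positivity)
      _ = (Y * V) * nu z b P2 ^ 2 := one_mul _
      _ ≤ (Y * V) * (2 * L) := mul_le_mul_of_nonneg_left hmu e1
  have hfin := (abs_le.1 (hs.trans hr)).2
  have hY2 := mul_le_mul_of_nonneg_left hmain hY
  calc _ ≤ (Y : ℝ) * (Fn (cT w b' P1) P1 (fun l => 1 / (l : ℝ)) *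
        KK (fun _ => True) P2 (dP z b P2) (dP z b P2)) +
        δ * (Y * (V * nu z b P2 ^ 2)) := by linarith
    _ ≤ (Y : ℝ) * (2 * V * (C * L)) + (Y * V) * (2 * L) := by linarith
    _ = (2 * C + 2) * (Y * (V * L)) := by ring

end Pool.Agent.SPU
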