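import Pool.Agent.SPU.Targets2
import Pool.Agent.SPU.P_RMD

/-!
# SPU2-RM2: the remainder
-/

set_option autoImplicit false

open Finset

namespace Pool.Agent.SPU

open Pool.Agent.SPA

namespace RM2_

/-- The final arithmetic. -/
theorem fin {z b Y : ℕ} {δ V μ L A B : ℝ} (hz : 2 ≤ z) (hY : z ^ (8 * b + 30) ≤ Y)
    (hL : 1 ≤ L) (hδ : 0 < δ) (hLz : 4 * L ^ 5 ≤ δ * z) (hV : (1 / L) ^ 3 ≤ V)
    (hμ : 1 / 2 * (1 / L) ≤ μ) (hA : A ≤ (z : ℝ) ^ (8 * b + 27))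
    (hB : B ≤ (z : ℝ) ^ (8 * b + 27)) :
    A ≤ δ * (Y * (V * μ ^ 2)) ∧ B ≤ δ * (Y * (V * μ)) := by
  have hL0 : 0 < L := by linarith
  have hz1 : (1 : ℝ) ≤ z := by
    have : 1 ≤ z := by omega
    exact_mod_cast this
  have hY' : (z : ℝ) ^ (8 * b + 27) * z ≤ Y := by
    have h1 : (z : ℝ) ^ (8 * b + 27) * z ≤ (z : ℝ) ^ (8 * b + 30) := by
      rw [← pow_succ]
      exact pow_le_pow_right₀ hz1 (by omega)
    have h2 : (z : ℝ) ^ (8 * b + 30) ≤ Y := by exact_mod_cast hY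
    exact h1.trans h2
  have hi : 0 < 1 / L := by positivity
  have hi1 : 1 / L ≤ 1 := by
    rw [div_le_one hL0]; exact hL
  have hμ0 : 0 < μ := lt_of_lt_of_le (by positivity) hμ
  have hV0 : 0 < V := lt_of_lt_of_le (by positivity) hV
  have e5 : 1 / (4 * L ^ 5) = (1 / L) ^ 3 * (1 / 2 * (1 / L)) ^ 2 := by
    field_simp
    norm_num
  have k1 : 1 / (4 * L ^ 5) ≤ V * μ ^ 2 := by
    rw [e5]
    exact mul_le_mul hV (pow_le_pow_left₀ (by positivity) hμ 2) (by positivity) hV0.le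
  have k2 : 1 / (4 * L ^ 5) ≤ V * μ := by
    rw [e5]
    have : (1 / 2 * (1 / L)) ^ 2 ≤ 1 / 2 * (1 / L) := by nlinarith
    exact mul_le_mul hV (this.trans hμ) (by positivity) hV0.le
  have key : ∀ x : ℝ, 1 / (4 * L ^ 5) ≤ x →
      (z : ℝ) ^ (8 * b + 27) ≤ δ * (Y * x) := by
    intro x hx
    have hx0 : 0 < x := lt_of_lt_of_le (by positivity) hx
    have h1 : 1 ≤ δ * z * x := by
      have h2 : δ * z * (1 / (4 * L ^ 5)) ≤ δ * z * x :=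
        mul_le_mul_of_nonneg_left hx (by positivity)
      refine le_trans ?_ h2
      rw [mul_one_div, le_div_iff₀ (by positivity)]
      linarith
    have h3 : (z : ℝ) ^ (8 * b + 27) * 1 ≤ (z : ℝ) ^ (8 * b + 27) * (δ * z * x) :=
      mul_le_mul_of_nonneg_left h1 (by positivity)
    have h4 : (z : ℝ) ^ (8 * b + 27) * z * (δ * x) ≤ Y * (δ * x) :=
      mul_le_mul_of_nonneg_right hY' (by positivity)
    calc (z : ℝ) ^ (8 * b + 27) = (z : ℝ) ^ (8 * b + 27) * 1 := (mul_one _).symm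
      _ ≤ (z : ℝ) ^ (8 * b + 27) * (δ * z * x) := h3
      _ = (z : ℝ) ^ (8 * b + 27) * z * (δ * x) := by ring
      _ ≤ Y * (δ * x) := h4
      _ = δ * (Y * x) := by ring
  exact ⟨hA.trans (key _ k1), hB.trans (key _ k2)⟩

end RM2_

open RM2_ in
/-- The remainder. -/
theorem p_RM2 (h1 : T_REM) (h2 : T_ASY) (h3 : T_PRO) (h4 : T_DMU) (h5 : T_DRM) : T_RM2 := by
  intro b b' m δ
  by_cases hδ : 0 < δ
  swap
  · exact ⟨0, fun z w Y M d P1 P2 c0 c1 c2 _ hH => absurd hH.d0 hδ⟩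
  by_cases hm : 4 * b' + 12 ≤ m
  swap
  · exact ⟨0, fun z w Y M d P1 P2 c0 c1 c2 _ hH => absurd hH.mb hm⟩
  have hm1 : 1 ≤ m := by omega
  obtain ⟨C, hC1, hC⟩ := h3
  have hC0 : 0 < C := by linarith
  obtain ⟨z0, hz0⟩ := h2 (4 * C ^ 5 / δ) m hm1
  refine ⟨z0, fun z w Y M d P1 P2 c0 c1 c2 hz hH hc0 hc1 hc2 => ?_⟩
  obtain ⟨ha, -, hlog⟩ := hz0 z w hz hH.zw
  have hw2 : 2 ≤ w := hH.pp.hw
  have hwz : w ≤ z := hH.pp.hwz
  have hz2 : 2 ≤ z := hw2.trans hwz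
  have hwzR : (w : ℝ) ≤ z := by exact_mod_cast hwz
  have hw1 : (1 : ℝ) ≤ w := by
    have : 1 ≤ w := by omega
    exact_mod_cast this
  have hz1 : (1 : ℝ) ≤ z := hw1.trans hwzR
  obtain ⟨-, p2, p3, -⟩ := hC M w z m P1 P2 hH.pp hm1 hH.zw
  have hP1 : ∀ p ∈ P1, p.Prime ∧ 7 ≤ p ∧ p ≤ w := fun p hp =>
    ⟨(hH.pp.h1 p hp).1, (hH.pp.h1 p hp).2.1, (hH.pp.h1 p hp).2.2.1⟩
  have hP2 : ∀ p ∈ P2, p.Prime ∧ 7 ≤ p ∧ p ≤ z := fun p hp =>
    ⟨(hH.pp.h2 p hp).1, (hH.pp.h2 p hp).2.1, (hH.pp.h2 p hp).2.2.2.1⟩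
  obtain ⟨m1, -⟩ := h4 z b P2 hH.ma hz2 hP2
  obtain ⟨r1, r2⟩ := h5 z b P2 hz2 hP2
  obtain ⟨s0, s1⟩ := RMD_.small (d := d) h1 hw2 hP1 hc0
  have large : ∀ c : Finset ℕ → ℝ, (c = dM z b P2 ∨ c = dP z b P2) →
      0 ≤ ∑ D ∈ P2.powerset, |c D| ∧ ∑ D ∈ P2.powerset, |c D| ≤ (z : ℝ) ^ (4 * b + 13) := by
    intro c hc
    refine ⟨Finset.sum_nonneg fun D _ => abs_nonneg _, ?_⟩
    rcases hc with rfl | rfl
    · exact r1
    · exact r2
  obtain ⟨u0, u1⟩ := large c1 hc1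
  obtain ⟨v0, v1⟩ := large c2 hc2
  have hL : 1 ≤ C * Real.log z := by nlinarith
  have hLz : 4 * (C * Real.log z) ^ 5 ≤ δ * z := by
    have h5 : Real.log z ^ 5 ≤ Real.log z ^ 12 := pow_le_pow_right₀ hlog (by norm_num)
    have h6 : 4 * C ^ 5 / δ * Real.log z ^ 5 ≤ z :=
      ((mul_le_mul_of_nonneg_left h5 (by positivity)).trans ha).trans hwzR
    have h7 : δ * (4 * C ^ 5 / δ * Real.log z ^ 5) ≤ δ * z :=
      mul_le_mul_of_nonneg_left h6 hδ.le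
    have h8 : δ * (4 * C ^ 5 / δ * Real.log z ^ 5) = 4 * (C * Real.log z) ^ 5 := by
      field_simp
    linarith
  have hpos : (0 : ℝ) < 1 / (C * Real.log z) := by positivity
  have hμ : 1 / 2 * (1 / (C * Real.log z)) ≤ nu z b P2 := by
    refine le_trans ?_ m1
    refine mul_le_mul_of_nonneg_left ?_ (by norm_num)
    calc 1 / (C * Real.log z) = 1 * (1 / (C * Real.log z)) := (one_mul _).symm
      _ ≤ La P2 * ∏ p ∈ P2, (1 - 1 / (p : ℝ)) :=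
        mul_le_mul hH.la p2 hpos.le (le_trans zero_le_one hH.la)
  -- the sum over the small primes is at most `z`
  have sz : ∑ D ∈ P1.powerset, |c0 D| * ∏ l ∈ D, ro d l ≤ z := by
    have h5 : (w : ℝ) ^ (4 * b' + 11) ≤ (w : ℝ) ^ m :=
      pow_le_pow_right₀ hw1 (by omega)
    have h6 : (w : ℝ) ^ m ≤ z := by exact_mod_cast hH.wz
    linarith
  refine fin hz2 hH.zY hL hδ hLz (p3 d) hμ ?_ ?_
  · have e : (z : ℝ) ^ (8 * b + 27) =
        z * ((z : ℝ) ^ (4 * b + 13) * (z : ℝ) ^ (4 * b + 13)) := by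
      rw [← pow_add, ← pow_succ']
      congr 1
      omega
    rw [e]
    exact mul_le_mul sz (mul_le_mul u1 v1 v0 (by positivity)) (mul_nonneg u0 v0)
      (by positivity)
  · have e : (z : ℝ) * (z : ℝ) ^ (4 * b + 13) ≤ (z : ℝ) ^ (8 * b + 27) := by
      rw [← pow_succ']
      exact pow_le_pow_right₀ hz1 (by omega)
    exact (mul_le_mul sz u1 u0 (by positivity)).trans e

end Pool.Agent.SPU
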