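import Pool.Agent.SPU.Targets2
import Pool.Agent.SPA.P_PTW

/-!
SPU, part 2: target SQB
-/

set_option autoImplicit false

open Finset

namespace Pool.Agent.SPU

open Pool.Agent.SPA

namespace SQB_

theorem tau_empty (m : ℕ) : ∑ D ∈ (∅ : Finset ℕ).powerset, tau m D = 1 := by
  simp [tau]

theorem eps_sum (m : ℕ) (W : Finset ℕ) :
    ∑ D ∈ W.powerset, eps m D = (W.card.choose (2 * m + 1) : ℝ) := by
  unfold eps
  rw [← Finset.sum_filter, Finset.sum_const, nsmul_eq_mul, mul_one]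
  congr 1
  rw [← Finset.card_powersetCard]
  congr 1
  ext D
  rw [mem_filter, mem_powerset, mem_powersetCard]

theorem tau_sum (m w : ℕ) (W : Finset ℕ) (hw : W.card = w + 1) :
    ∑ D ∈ W.powerset, tau m D = (w.choose (2 * m) : ℝ) :=
  Pool.Agent.SPA.PTW_.alt W m w hw

theorem choose_le (a b : ℕ) : ((a.choose b : ℕ) : ℝ) ≤ 2 ^ a := by
  have h : a.choose b ≤ 2 ^ a := Nat.choose_le_two_pow a b
  exact_mod_cast h

end SQB_

open SQB_ in
theorem p_SQB : T_SQB := by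
  intro m W
  rcases Finset.eq_empty_or_nonempty W with rfl | hW
  · rw [tau_empty, eps_sum]
    refine ⟨by norm_num, by positivity, ?_⟩
    have h0 : (0 : ℕ).choose (2 * m + 1) = 0 := Nat.choose_eq_zero_of_lt (by omega)
    rw [Finset.card_empty, h0, if_pos rfl]
    norm_num
  · obtain ⟨w, hw⟩ : ∃ w, W.card = w + 1 := ⟨W.card - 1, by
      have := Finset.card_pos.2 hW
      omega⟩
    rw [tau_sum m w W hw, eps_sum, if_neg hW.ne_empty]
    refine ⟨by positivity, by positivity, ?_⟩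
    rw [zero_add, hw]
    by_cases hm : w + 1 ≤ 2 * m
    · have h1 : w.choose (2 * m) = 0 := Nat.choose_eq_zero_of_lt (by omega)
      have h2 : (w + 1).choose (2 * m + 1) = 0 := Nat.choose_eq_zero_of_lt (by omega)
      rw [h1, h2]
      simp
    · have h1 := choose_le w (2 * m)
      have h2 := choose_le (w + 1) (2 * m + 1)
      have h3 : (2 : ℝ) ^ w ≤ 2 ^ (w + 1) := pow_le_pow_right₀ (by norm_num) (by omega)
      have h4 : ((w.choose (2 * m) : ℕ) : ℝ) + (((w + 1).choose (2 * m + 1) : ℕ) : ℝ) ≤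
          2 * 2 ^ (w + 1) := by linarith
      have h5 : (((w.choose (2 * m) : ℕ) : ℝ) + (((w + 1).choose (2 * m + 1) : ℕ) : ℝ)) ^ 2 ≤
          (2 * 2 ^ (w + 1)) ^ 2 := pow_le_pow_left₀ (by positivity) h4 2
      have h6 : (2 : ℝ) * 4 ^ m ≤ 2 ^ (w + 1) := by
        have e1 : (2 : ℝ) * 4 ^ m = 2 ^ (2 * m + 1) := by
          rw [pow_succ, pow_mul]
          norm_num
          ring
        rw [e1]
        exact pow_le_pow_right₀ (by norm_num) (by omega)
      have h7 : (1 / 4 : ℝ) ^ m * 4 ^ m = 1 := by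
        rw [← mul_pow]
        norm_num
      have h8 : (2 : ℝ) ≤ (1 / 4 : ℝ) ^ m * 2 ^ (w + 1) := by
        calc (2 : ℝ) = 2 * ((1 / 4 : ℝ) ^ m * 4 ^ m) := by rw [h7, mul_one]
          _ = (1 / 4 : ℝ) ^ m * (2 * 4 ^ m) := by ring
          _ ≤ (1 / 4 : ℝ) ^ m * 2 ^ (w + 1) := mul_le_mul_of_nonneg_left h6 (by positivity)
      have e8 : (2 : ℝ) ^ (w + 1) * (2 * 2 ^ (w + 1)) ^ 2 = 2 * (8 : ℝ) ^ (w + 1) * 2 := by
        have : (8 : ℝ) ^ (w + 1) = 2 ^ (w + 1) * (2 ^ (w + 1) * 2 ^ (w + 1)) := by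
          rw [← mul_pow, ← mul_pow]
          norm_num
        rw [this]
        ring
      have e16 : (16 : ℝ) ^ (w + 1) = 8 ^ (w + 1) * 2 ^ (w + 1) := by
        rw [← mul_pow]
        norm_num
      calc (2 : ℝ) ^ (w + 1) * (((w.choose (2 * m) : ℕ) : ℝ) +
            (((w + 1).choose (2 * m + 1) : ℕ) : ℝ)) ^ 2
          ≤ 2 ^ (w + 1) * (2 * 2 ^ (w + 1)) ^ 2 := mul_le_mul_of_nonneg_left h5 (by positivity)
        _ = 2 * (8 : ℝ) ^ (w + 1) * 2 := e8
        _ ≤ 2 * (8 : ℝ) ^ (w + 1) * ((1 / 4 : ℝ) ^ m * 2 ^ (w + 1)) :=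
            mul_le_mul_of_nonneg_left h8 (by positivity)
        _ = 2 * (1 / 4 : ℝ) ^ m * 16 ^ (w + 1) := by
            rw [e16]
            ring

end Pool.Agent.SPU
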