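import Pool.Agent.SPU.Targets2

/-!
SPU (MP_315051_nt): SQF, the squares of the large primes.
-/

set_option autoImplicit false

open Finset

namespace Pool.Agent.SPU

open Pool.Agent.SPA

namespace SQF_

/-- a set of numbers up to `Y` in one residue class -/
lemma card_class (Y q : ℕ) (S : Finset ℕ) (hS : ∀ j ∈ S, j ≤ Y)
    (h : ∀ i ∈ S, ∀ j ∈ S, i % q = j % q) : S.card ≤ Y / q + 1 := by
  have h1 : S.card ≤ (range (Y / q + 1)).card := by
    refine Finset.card_le_card_of_injOn (fun j => j / q) ?_ ?_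
    · intro j hj
      have h2 : j / q ≤ Y / q := Nat.div_le_div_right (hS j hj)
      exact Finset.mem_coe.2 (mem_range.2 (Nat.lt_succ_of_le h2))
    · intro i hi j hj hij
      have h2 := h i hi j hj
      simp only at hij
      rw [← Nat.div_add_mod i q, ← Nat.div_add_mod j q, hij, h2]
  rwa [card_range] at h1

/-- the numbers `j` with `p ^ 2 ∣ (κ + M j) N + 1` are in one class -/
lemma one_class {p M N κ i j : ℕ} (hp : p.Prime) (hM : ¬ p ∣ M) (hN : ¬ p ∣ N)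
    (hi : p ^ 2 ∣ (κ + M * i) * N + 1) (hj : p ^ 2 ∣ (κ + M * j) * N + 1) :
    i % p ^ 2 = j % p ^ 2 := by
  have h1 : ((p : ℤ) ^ 2) ∣ ((κ : ℤ) + M * i) * N + 1 := by exact_mod_cast hi
  have h2 : ((p : ℤ) ^ 2) ∣ ((κ : ℤ) + M * j) * N + 1 := by exact_mod_cast hj
  have h3 : ((p : ℤ) ^ 2) ∣ (M * N : ℤ) * ((i : ℤ) - j) := by
    have h4 := dvd_sub h1 h2
    have h5 : (((κ : ℤ) + M * i) * N + 1) - (((κ : ℤ) + M * j) * N + 1) =
        (M * N : ℤ) * ((i : ℤ) - j) := by ring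
    rwa [h5] at h4
  have hc : IsCoprime ((p : ℤ) ^ 2) (M * N : ℤ) := by
    have h6 : Nat.Coprime (p ^ 2) (M * N) := by
      refine Nat.Coprime.pow_left 2 ?_
      exact Nat.Coprime.mul_right ((Nat.Prime.coprime_iff_not_dvd hp).2 hM)
        ((Nat.Prime.coprime_iff_not_dvd hp).2 hN)
    have h7 := Nat.isCoprime_iff_coprime.2 h6
    exact_mod_cast h7
  have h8 : ((p : ℤ) ^ 2) ∣ (i : ℤ) - j := hc.dvd_of_dvd_mul_left h3
  have h9 : (j : ℤ) ≡ i [ZMOD ((p ^ 2 : ℕ) : ℤ)] := by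
    rw [Int.modEq_iff_dvd]
    exact_mod_cast h8
  exact ((Int.natCast_modEq_iff.1 h9).symm : i % p ^ 2 = j % p ^ 2)

lemma mem_diff {L z w p : ℕ} (h : p ∈ PS L z \ PS L w) :
    p.Prime ∧ ¬ p ∣ 2 * (2 ^ L - 1) ∧ p ∈ Ioc w z := by
  rw [mem_sdiff] at h
  obtain ⟨h1, h2⟩ := h
  unfold PS at h1 h2
  rw [mem_filter, mem_Icc] at h1
  obtain ⟨⟨h3, h4⟩, h5, h6⟩ := h1
  refine ⟨h5, h6, mem_Ioc.2 ⟨?_, h4⟩⟩
  by_contra h7
  exact h2 (mem_filter.2 ⟨mem_Icc.2 ⟨h3, by omega⟩, h5, h6⟩)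

lemma count (L z w Y κ n : ℕ) (hw : 1 ≤ w) :
    ∑ p ∈ PS L z \ PS L w, ((((Ioc 0 Y).filter fun j =>
      p ^ 2 ∣ (κ + MM L * j) * 2 ^ n + 1).card : ℕ) : ℝ) ≤ Y / w + z := by
  have h1 : ∀ p ∈ PS L z \ PS L w, ((((Ioc 0 Y).filter fun j =>
      p ^ 2 ∣ (κ + MM L * j) * 2 ^ n + 1).card : ℕ) : ℝ) ≤ Y * ((p : ℝ) ^ 2)⁻¹ + 1 := by
    intro p hp
    obtain ⟨h2, h3, -⟩ := mem_diff hp
    have hM : ¬ p ∣ MM L := h3
    have hN : ¬ p ∣ 2 ^ n := fun h => h3 ((h2.dvd_of_dvd_pow h).mul_right _)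
    have h4 := card_class Y (p ^ 2) ((Ioc 0 Y).filter fun j =>
      p ^ 2 ∣ (κ + MM L * j) * 2 ^ n + 1)
      (fun j hj => (mem_Ioc.1 (mem_filter.1 hj).1).2)
      (fun i hi j hj => one_class h2 hM hN (mem_filter.1 hi).2 (mem_filter.1 hj).2)
    have h5 : ((Y / p ^ 2 : ℕ) : ℝ) ≤ Y * ((p : ℝ) ^ 2)⁻¹ := by
      have h6 := Nat.cast_div_le (m := Y) (n := p ^ 2) (α := ℝ)
      rw [Nat.cast_pow] at h6
      rwa [← div_eq_mul_inv]
    have h7 : ((((Ioc 0 Y).filter fun j =>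
      p ^ 2 ∣ (κ + MM L * j) * 2 ^ n + 1).card : ℕ) : ℝ) ≤ ((Y / p ^ 2 + 1 : ℕ) : ℝ) := by
      exact_mod_cast h4
    rw [Nat.cast_add, Nat.cast_one] at h7
    linarith
  refine (sum_le_sum h1).trans ?_
  rw [sum_add_distrib, ← mul_sum]
  have hsub : PS L z \ PS L w ⊆ Ioc w z := fun p hp => (mem_diff hp).2.2
  have h2 : ∑ p ∈ PS L z \ PS L w, ((p : ℝ) ^ 2)⁻¹ ≤ 1 / w := by
    refine (sum_le_sum_of_subset_of_nonneg hsub fun p _ _ => by positivity).trans ?_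
    rcases le_or_gt w z with h | h
    · have h3 := sum_Ioc_inv_sq_le_sub (α := ℝ) (k := w) (n := z) (by omega) h
      have h4 : (0 : ℝ) ≤ (z : ℝ)⁻¹ := by positivity
      rw [one_div]
      linarith
    · rw [Ioc_eq_empty (by omega), sum_empty]
      positivity
  have h3 : ∑ p ∈ PS L z \ PS L w, (1 : ℝ) ≤ z := by
    rw [sum_const, nsmul_eq_mul, mul_one]
    have h4 := card_le_card hsub
    rw [Nat.card_Ioc] at h4
    have h5 : (PS L z \ PS L w).card ≤ z := by omega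
    exact_mod_cast h5
  have h4 : (Y : ℝ) * ∑ p ∈ PS L z \ PS L w, ((p : ℝ) ^ 2)⁻¹ ≤ Y * (1 / w) :=
    mul_le_mul_of_nonneg_left h2 (Nat.cast_nonneg _)
  have h5 : (Y : ℝ) * (1 / w) = Y / w := by ring
  linarith

end SQF_

open SQF_ in
theorem p_SQF (h : T_ASY) : T_SQF := by
  intro L m ε hL hm hε
  obtain ⟨z0, hz0⟩ := h (2 / ε) m hm
  refine ⟨max z0 (⌈2 / ε⌉₊ + 1), fun z w Y T κ a hz hzw hzY hT => ?_⟩
  obtain ⟨a1, a2, a3⟩ := hz0 z w (le_trans (le_max_left _ _) hz) hzw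
  have hw1 : 1 ≤ w := by omega
  have hzε : 2 / ε ≤ z := by
    have h1 : ⌈2 / ε⌉₊ ≤ z := by
      have := le_trans (le_max_right z0 _) hz
      omega
    exact (Nat.le_ceil _).trans (by exact_mod_cast h1)
  have hz1 : 1 ≤ z := by
    have := le_trans (le_max_right z0 _) hz
    omega
  have hY0 : (0 : ℝ) ≤ Y := Nat.cast_nonneg _
  -- the union bound
  have hU : ((((Ioc 0 Y).filter fun j => ∃ t ∈ range T, ∃ p ∈ PS L z \ PS L w,
      p ^ 2 ∣ (κ + MM L * j) * 2 ^ (a + L * t) + 1).card : ℕ) : ℝ) ≤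
      T * (Y / w + z) := by
    have h1 : ((Ioc 0 Y).filter fun j => ∃ t ∈ range T, ∃ p ∈ PS L z \ PS L w,
        p ^ 2 ∣ (κ + MM L * j) * 2 ^ (a + L * t) + 1) ⊆
        (range T).biUnion fun t => (PS L z \ PS L w).biUnion fun p =>
          (Ioc 0 Y).filter fun j => p ^ 2 ∣ (κ + MM L * j) * 2 ^ (a + L * t) + 1 := by
      intro j hj
      obtain ⟨h2, t, ht, p, hp, h3⟩ := mem_filter.1 hj
      exact mem_biUnion.2 ⟨t, ht, mem_biUnion.2 ⟨p, hp, mem_filter.2 ⟨h2, h3⟩⟩⟩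
    have h2 : ((Ioc 0 Y).filter fun j => ∃ t ∈ range T, ∃ p ∈ PS L z \ PS L w,
        p ^ 2 ∣ (κ + MM L * j) * 2 ^ (a + L * t) + 1).card ≤
        ∑ t ∈ range T, ∑ p ∈ PS L z \ PS L w, ((Ioc 0 Y).filter fun j =>
          p ^ 2 ∣ (κ + MM L * j) * 2 ^ (a + L * t) + 1).card :=
      (card_le_card h1).trans (card_biUnion_le.trans (sum_le_sum fun t _ => card_biUnion_le))
    have h3 : ((((Ioc 0 Y).filter fun j => ∃ t ∈ range T, ∃ p ∈ PS L z \ PS L w,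
        p ^ 2 ∣ (κ + MM L * j) * 2 ^ (a + L * t) + 1).card : ℕ) : ℝ) ≤
        ∑ t ∈ range T, ∑ p ∈ PS L z \ PS L w, ((((Ioc 0 Y).filter fun j =>
          p ^ 2 ∣ (κ + MM L * j) * 2 ^ (a + L * t) + 1).card : ℕ) : ℝ) := by
      exact_mod_cast h2
    refine h3.trans ((sum_le_sum fun t _ => count L z w Y κ (a + L * t) hw1).trans ?_)
    rw [sum_const, card_range, nsmul_eq_mul]
  refine hU.trans ?_
  have hw0 : (0 : ℝ) < w := by exact_mod_cast hw1
  have hlog0 : 0 ≤ Real.log z := by linarith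
  have b1 : Real.log z ≤ ε / 2 * w := by
    have h1 : Real.log z ≤ Real.log z ^ 12 := le_self_pow₀ a3 (by norm_num)
    have h2 : 2 / ε * Real.log z ≤ w :=
      (mul_le_mul_of_nonneg_left h1 (by positivity)).trans a1
    have h3 : ε / 2 * (2 / ε * Real.log z) = Real.log z := by field_simp
    calc Real.log z = ε / 2 * (2 / ε * Real.log z) := h3.symm
      _ ≤ ε / 2 * w := mul_le_mul_of_nonneg_left h2 (by positivity)
  have b2 : Real.log z * (Y / w) ≤ ε / 2 * Y := by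
    calc Real.log z * (Y / w) ≤ ε / 2 * w * (Y / w) :=
          mul_le_mul_of_nonneg_right b1 (by positivity)
      _ = ε / 2 * Y := by field_simp
  have hz0' : (0 : ℝ) < z := by exact_mod_cast hz1
  have b3 : Real.log z * z ≤ ε / 2 * Y := by
    have h1 : Real.log z ≤ z := (Real.log_le_sub_one_of_pos hz0').trans (by linarith)
    have h2 : (z : ℝ) ^ 3 ≤ Y := by exact_mod_cast hzY
    have h3 : 1 ≤ ε / 2 * z := by
      have h4 := mul_le_mul_of_nonneg_left hzε (by positivity : (0 : ℝ) ≤ ε / 2)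
      have h5 : ε / 2 * (2 / ε) = 1 := by field_simp
      linarith
    calc Real.log z * z ≤ z * z := mul_le_mul_of_nonneg_right h1 hz0'.le
      _ = 1 * (z * z) := by ring
      _ ≤ ε / 2 * z * (z * z) := mul_le_mul_of_nonneg_right h3 (by positivity)
      _ = ε / 2 * (z : ℝ) ^ 3 := by ring
      _ ≤ ε / 2 * Y := mul_le_mul_of_nonneg_left h2 (by positivity)
  calc (T : ℝ) * (Y / w + z) ≤ Real.log z * (Y / w + z) :=
        mul_le_mul_of_nonneg_right hT (by positivity)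
    _ = Real.log z * (Y / w) + Real.log z * z := by ring
    _ ≤ ε * Y := by linarith

end Pool.Agent.SPU
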