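import Pool.Agent.SPU.Targets2

/-!
SPU (MP_315051_nt): SQM, the mean of the weighted squares.
-/

set_option autoImplicit false

open Finset

namespace Pool.Agent.SPU

open Pool.Agent.SPA

namespace SQM_

theorem fn_one (c : Finset ℕ → ℝ) (P : Finset ℕ) :
    Fn c P (fun _ => 1) = ∑ D ∈ P.powerset, c D := by
  unfold Fn
  refine Finset.sum_congr rfl fun D _ => ?_
  rw [Finset.prod_const_one, mul_one]

theorem split (h1 : T_FNM) (z : ℕ) (P W : Finset ℕ) (hW : W ⊆ P)
    (hU : (range z).biUnion (Bk P z) = P)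
    (hD : ∀ i j, i ≠ j → Disjoint (Bk P z i) (Bk P z j)) (γ : ℕ → Finset ℕ → ℝ) :
    ∑ D ∈ W.powerset, ∏ i ∈ range z, γ i (D ∩ Bk P z i) =
      ∏ i ∈ range z, ∑ D ∈ (W ∩ Bk P z i).powerset, γ i D := by
  have h := h1 z (fun i => W ∩ Bk P z i) γ (fun _ => 1)
    (fun i _ j _ hij => (hD i j hij).mono inter_subset_right inter_subset_right)
  have hU' : (range z).biUnion (fun i => W ∩ Bk P z i) = W := by
    rw [← Finset.inter_biUnion, hU, Finset.inter_eq_left.2 hW]
  rw [hU'] at h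
  simp only [fn_one] at h
  rw [h]
  refine Finset.sum_congr rfl fun D hD' => Finset.prod_congr rfl fun i _ => ?_
  rw [mem_powerset] at hD'
  rw [← Finset.inter_assoc, Finset.inter_eq_left.2 hD']

theorem expand (z : ℕ) (t e : ℕ → ℝ) (ht : ∀ i, 0 ≤ t i) (he : ∀ i, 0 ≤ e i) :
    0 ≤ ∏ i ∈ range z, t i ∧
    0 ≤ ∑ i ∈ range z, ∏ l ∈ range z, (if l = i then e l else t l) ∧
    ∏ i ∈ range z, t i + ∑ i ∈ range z, ∏ l ∈ range z, (if l = i then e l else t l) ≤
      ∏ i ∈ range z, (t i + e i) := by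
  induction z with
  | zero => simp
  | succ z ih =>
    obtain ⟨i1, i2, i3⟩ := ih
    have hs : ∑ i ∈ range (z + 1), ∏ l ∈ range (z + 1), (if l = i then e l else t l) =
        (∑ i ∈ range z, ∏ l ∈ range z, (if l = i then e l else t l)) * t z +
        (∏ i ∈ range z, t i) * e z := by
      rw [Finset.sum_range_succ]
      congr 1
      · rw [Finset.sum_mul]
        refine Finset.sum_congr rfl fun i hi => ?_
        rw [mem_range] at hi
        rw [Finset.prod_range_succ, if_neg (by omega)]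
      · rw [Finset.prod_range_succ, if_pos rfl]
        congr 1
        refine Finset.prod_congr rfl fun l hl => ?_
        rw [mem_range] at hl
        rw [if_neg (by omega)]
    refine ⟨Finset.prod_nonneg fun i _ => ht i, ?_, ?_⟩
    · rw [hs]
      exact add_nonneg (mul_nonneg i2 (ht z)) (mul_nonneg i1 (he z))
    · rw [hs, Finset.prod_range_succ, Finset.prod_range_succ]
      have h1 := mul_le_mul_of_nonneg_right i3 (add_nonneg (ht z) (he z))
      have h2 := mul_nonneg i2 (he z)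
      nlinarith [h1, h2]

/-- The majorant of one block. -/
noncomputable def hh (m : ℕ) (W : Finset ℕ) : ℝ :=
  (if W = ∅ then 1 else 0) + 2 * (1 / 4 : ℝ) ^ m * 16 ^ W.card

theorem hh_nonneg (m : ℕ) (W : Finset ℕ) : 0 ≤ hh m W := by
  unfold hh
  split_ifs <;> positivity

theorem point (h1 : T_FNM) (h3 : T_SQB) (z b : ℕ) (P W : Finset ℕ) (hW : W ⊆ P)
    (hU : (range z).biUnion (Bk P z) = P)
    (hD : ∀ i j, i ≠ j → Disjoint (Bk P z i) (Bk P z j)) :
    2 ^ W.card * (∑ D ∈ W.powerset, cP z b P D) ^ 2 ≤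
      ∏ i ∈ range z, hh (b + i) (W ∩ Bk P z i) := by
  set t : ℕ → ℝ := fun i => ∑ D ∈ (W ∩ Bk P z i).powerset, tau (b + i) D with ht
  set e : ℕ → ℝ := fun i => ∑ D ∈ (W ∩ Bk P z i).powerset, eps (b + i) D with he
  have ht0 : ∀ i, 0 ≤ t i := fun i => (h3 (b + i) (W ∩ Bk P z i)).1
  have he0 : ∀ i, 0 ≤ e i := fun i => (h3 (b + i) (W ∩ Bk P z i)).2.1
  have hcP : ∑ D ∈ W.powerset, cP z b P D = ∏ i ∈ range z, t i +
      ∑ i ∈ range z, ∏ l ∈ range z, (if l = i then e l else t l) := by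
    have e1 : ∑ D ∈ W.powerset, cT z b P D = ∏ i ∈ range z, t i :=
      split h1 z P W hW hU hD (fun i => tau (b + i))
    have e2 : ∑ D ∈ W.powerset, cE z b P D =
        ∑ i ∈ range z, ∏ l ∈ range z, (if l = i then e l else t l) := by
      unfold cE
      rw [Finset.sum_comm]
      refine Finset.sum_congr rfl fun i _ => ?_
      have := split h1 z P W hW hU hD (fun l D => if l = i then eps (b + l) D else tau (b + l) D)
      rw [this]
      refine Finset.prod_congr rfl fun l _ => ?_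
      by_cases hl : l = i
      · simp only [hl, if_true, he]
      · simp only [hl, if_false, ht]
    unfold cP
    rw [Finset.sum_add_distrib, e1, e2]
  obtain ⟨j1, j2, j3⟩ := expand z t e ht0 he0
  have h0 : 0 ≤ ∑ D ∈ W.powerset, cP z b P D := by rw [hcP]; exact add_nonneg j1 j2
  have hle : ∑ D ∈ W.powerset, cP z b P D ≤ ∏ i ∈ range z, (t i + e i) := by rw [hcP]; exact j3
  have hsq : (∑ D ∈ W.powerset, cP z b P D) ^ 2 ≤ (∏ i ∈ range z, (t i + e i)) ^ 2 :=
    pow_le_pow_left₀ h0 hle 2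
  have hU' : (range z).biUnion (fun i => W ∩ Bk P z i) = W := by
    rw [← Finset.inter_biUnion, hU, Finset.inter_eq_left.2 hW]
  have hcard : W.card = ∑ i ∈ range z, (W ∩ Bk P z i).card := by
    conv_lhs => rw [← hU']
    refine Finset.card_biUnion fun i _ j _ hij => ?_
    exact (hD i j hij).mono inter_subset_right inter_subset_right
  have h2 : (2 : ℝ) ^ W.card = ∏ i ∈ range z, (2 : ℝ) ^ (W ∩ Bk P z i).card := by
    rw [Finset.prod_pow_eq_pow_sum, ← hcard]
  calc 2 ^ W.card * (∑ D ∈ W.powerset, cP z b P D) ^ 2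
      ≤ 2 ^ W.card * (∏ i ∈ range z, (t i + e i)) ^ 2 :=
        mul_le_mul_of_nonneg_left hsq (by positivity)
    _ = ∏ i ∈ range z, ((2 : ℝ) ^ (W ∩ Bk P z i).card * (t i + e i) ^ 2) := by
        rw [h2, ← Finset.prod_pow, ← Finset.prod_mul_distrib]
    _ ≤ ∏ i ∈ range z, hh (b + i) (W ∩ Bk P z i) := by
        refine Finset.prod_le_prod (fun i _ => by positivity) fun i _ => ?_
        exact (h3 (b + i) (W ∩ Bk P z i)).2.2

theorem block (m : ℕ) (B : Finset ℕ) (ω : ℕ → ℝ) :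
    Fn (hh m) B ω = 1 + 2 * (1 / 4 : ℝ) ^ m * ∏ l ∈ B, (1 + 16 * ω l) := by
  unfold Fn hh
  have e1 : ∑ D ∈ B.powerset, ((if D = ∅ then (1 : ℝ) else 0) +
      2 * (1 / 4 : ℝ) ^ m * 16 ^ D.card) * ∏ l ∈ D, ω l =
      ∑ D ∈ B.powerset, (if D = ∅ then (1 : ℝ) else 0) * ∏ l ∈ D, ω l +
      2 * (1 / 4 : ℝ) ^ m * ∑ D ∈ B.powerset, ∏ l ∈ D, (16 * ω l) := by
    rw [Finset.mul_sum, ← Finset.sum_add_distrib]
    refine Finset.sum_congr rfl fun D _ => ?_
    rw [Finset.prod_mul_distrib, Finset.prod_const]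
    ring
  rw [e1, Finset.prod_one_add]
  congr 1
  rw [Finset.sum_eq_single ∅]
  · simp
  · intro D _ hD
    rw [if_neg hD, zero_mul]
  · intro h
    exact absurd (Finset.empty_mem_powerset B) h

theorem geo (z : ℕ) : ∑ i ∈ range z, (1 / 4 : ℝ) ^ i ≤ 2 := by
  have h : ∀ z : ℕ, ∑ i ∈ range z, (1 / 4 : ℝ) ^ i = 4 / 3 - 4 / 3 * (1 / 4 : ℝ) ^ z := by
    intro z
    induction z with
    | zero => norm_num
    | succ z ih =>
      rw [Finset.sum_range_succ, ih, pow_succ]
      ring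
  rw [h]
  have : (0 : ℝ) ≤ (1 / 4 : ℝ) ^ z := by positivity
  linarith

end SQM_

open SQM_ in
theorem p_SQM (h1 : T_FNM) (h2 : T_BLK) (h3 : T_SQB) : T_SQM := by
  obtain ⟨G, hG, hB⟩ := h2
  set E : ℝ := Real.exp (32 * G) with hE
  have hE0 : 0 < E := Real.exp_pos _
  refine ⟨Real.exp (4 * E), Real.exp_pos _, ?_⟩
  intro z b P hz hP
  obtain ⟨hU, hD, hS⟩ := hB z P hz hP
  have hω : ∀ l ∈ P, (0 : ℝ) ≤ 1 / ((l : ℝ) - 1) ∧ 1 / ((l : ℝ) - 1) ≤ 2 * (1 / (l : ℝ)) := by
    intro l hl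
    have h7 : (7 : ℝ) ≤ (l : ℝ) := by exact_mod_cast (hP l hl).2.1
    constructor
    · exact div_nonneg zero_le_one (by linarith)
    · rw [mul_one_div, div_le_div_iff₀ (by linarith) (by linarith)]
      linarith
  have hstep : Fn (fun W => 2 ^ W.card * (∑ D ∈ W.powerset, cP z b P D) ^ 2) P
      (fun l => 1 / ((l : ℝ) - 1)) ≤
      Fn (fun W => ∏ i ∈ range z, hh (b + i) (W ∩ Bk P z i)) P (fun l => 1 / ((l : ℝ) - 1)) := by
    unfold Fn
    refine Finset.sum_le_sum fun W hW => ?_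
    rw [mem_powerset] at hW
    refine mul_le_mul_of_nonneg_right (point h1 h3 z b P W hW hU hD) ?_
    exact Finset.prod_nonneg fun l hl => (hω l (hW hl)).1
  refine hstep.trans ?_
  have hF := h1 z (Bk P z) (fun i => hh (b + i)) (fun l => 1 / ((l : ℝ) - 1))
    (fun i _ j _ hij => hD i j hij)
  rw [hU] at hF
  rw [← hF]
  have hblk : ∀ i ∈ range z, Fn (hh (b + i)) (Bk P z i) (fun l => 1 / ((l : ℝ) - 1)) ≤
      Real.exp (2 * E * (1 / 4 : ℝ) ^ i) := by
    intro i _
    rw [block]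
    have hsub : Bk P z i ⊆ P := by
      intro p hp
      unfold Bk at hp
      exact (mem_filter.1 hp).1
    have hprod : ∏ l ∈ Bk P z i, (1 + 16 * (1 / ((l : ℝ) - 1))) ≤ E := by
      calc ∏ l ∈ Bk P z i, (1 + 16 * (1 / ((l : ℝ) - 1)))
          ≤ ∏ l ∈ Bk P z i, Real.exp (32 * (1 / (l : ℝ))) := by
            refine Finset.prod_le_prod (fun l hl => ?_) fun l hl => ?_
            · have := (hω l (hsub hl)).1
              linarith
            · have h := (hω l (hsub hl)).2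
              have h' := Real.add_one_le_exp (32 * (1 / (l : ℝ)))
              linarith
        _ = Real.exp (32 * ∑ l ∈ Bk P z i, 1 / (l : ℝ)) := by
            rw [← Real.exp_sum, Finset.mul_sum]
        _ ≤ E := by
            rw [hE]
            refine Real.exp_le_exp.2 ?_
            have := (hS i).2.2.2
            linarith
    have hq : (1 / 4 : ℝ) ^ (b + i) ≤ (1 / 4 : ℝ) ^ i :=
      pow_le_pow_of_le_one (by norm_num) (by norm_num) (by omega)
    have hq0 : (0 : ℝ) ≤ (1 / 4 : ℝ) ^ (b + i) := by positivity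
    have h5 : 2 * (1 / 4 : ℝ) ^ (b + i) * ∏ l ∈ Bk P z i, (1 + 16 * (1 / ((l : ℝ) - 1))) ≤
        2 * E * (1 / 4 : ℝ) ^ i := by
      calc 2 * (1 / 4 : ℝ) ^ (b + i) * ∏ l ∈ Bk P z i, (1 + 16 * (1 / ((l : ℝ) - 1)))
          ≤ 2 * (1 / 4 : ℝ) ^ (b + i) * E :=
            mul_le_mul_of_nonneg_left hprod (by positivity)
        _ ≤ 2 * (1 / 4 : ℝ) ^ i * E := by
            refine mul_le_mul_of_nonneg_right ?_ hE0.le
            linarith
        _ = 2 * E * (1 / 4 : ℝ) ^ i := by ring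
    have h6 := Real.add_one_le_exp (2 * E * (1 / 4 : ℝ) ^ i)
    linarith
  calc ∏ i ∈ range z, Fn (hh (b + i)) (Bk P z i) (fun l => 1 / ((l : ℝ) - 1))
      ≤ ∏ i ∈ range z, Real.exp (2 * E * (1 / 4 : ℝ) ^ i) := by
        refine Finset.prod_le_prod (fun i _ => ?_) hblk
        rw [block]
        have hsub : Bk P z i ⊆ P := by
          intro p hp
          unfold Bk at hp
          exact (mem_filter.1 hp).1
        have : 0 ≤ ∏ l ∈ Bk P z i, (1 + 16 * (1 / ((l : ℝ) - 1))) :=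
          Finset.prod_nonneg fun l hl => by
            have := (hω l (hsub hl)).1
            linarith
        positivity
    _ = Real.exp (2 * E * ∑ i ∈ range z, (1 / 4 : ℝ) ^ i) := by
        rw [← Real.exp_sum, Finset.mul_sum]
    _ ≤ Real.exp (4 * E) := by
        refine Real.exp_le_exp.2 ?_
        have := geo z
        nlinarith

end Pool.Agent.SPU
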