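import Pool.Agent.SPU.All
import Pool.Agent.SPU.P_FND
import Pool.Agent.SPU.P_DPT
import Pool.Agent.SPU.P_DMU
import Pool.Agent.SPU.P_DRM
import Pool.Agent.SPU.P_DAB
import Pool.Agent.SPU.P_KB2
import Pool.Agent.SPU.P_EXK
import Pool.Agent.SPU.P_SQB
import Pool.Agent.SPU.P_SQM
import Pool.Agent.SPU.P_DSQ
import Pool.Agent.SPU.P_LAM
import Pool.Agent.SPU.P_RM2
import Pool.Agent.SPU.P_N1
import Pool.Agent.SPU.P_N2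
import Pool.Agent.SPU.P_N3
import Pool.Agent.SPU.P_SQF
import Pool.Agent.SPU.P_GA3
import Pool.Agent.SPU.P_MO3
import Pool.Agent.SPU.P_MN3
import Pool.Agent.SPU.P_FN3

/-!
SPU (MP_315051_nt): assembly of part 2.
-/

set_option autoImplicit false

open Finset

namespace Pool.Agent.SPU

open Pool.Agent.SPA
open Pool.Agent.SPT (inf_le)
open Pool.Agent.Tri5 (p_MER p_EXP)

theorem dpt_all : T_DPT := p_DPT p_FND pnt_all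

theorem dmu_all : T_DMU := p_DMU p_FND

theorem drm_all : T_DRM := p_DRM rem_all p_FND

theorem dab_all : T_DAB := p_DAB p_CAB

theorem sqm_all : T_SQM := p_SQM p_FNM blk_all p_SQB

theorem dsq_all : T_DSQ := p_DSQ p_EXK sqm_all p_FND

theorem lam_all : T_LAM := p_LAM vlo_all

theorem rm2_all : T_RM2 := p_RM2 rem_all p_ASY pro_all dmu_all drm_all

theorem n1_all : T_N1 := p_N1 pnt_all ps1_all rm2_all dmu_all p_RH1 dpt_all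

theorem n2_all : T_N2 :=
  p_N2 pnt_all ps2_all rm2_all dmu_all p_KB2 dab_all p_ASY pro_all dpt_all

theorem n3_all : T_N3 := p_N3 pnt_all ps2_all rm2_all dmu_all dsq_all dpt_all

theorem mo3_all : T_MO3 :=
  p_MO3 gsm_all sh_all p_PR2 mea_all n1_all n2_all n3_all p_CHE dpt_all dmu_all vlo_all p_ASY
    lam_all

theorem mn3_all : T_MN3 := p_MN3 mo3_all (p_SQF p_ASY) p_GA3 p_ASY

/-- FN3 for a given `r`. -/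
theorem fn3_r (r : ℕ)
    (h : ∀ ε : ℝ, 0 < ε → ∃ (L : ℕ) (c : ℝ), 1 ≤ L ∧ 0 < c ∧ ∃ x0 : ℕ, ∀ x ≥ x0,
      cnt (fun k => Odd k ∧ Opn L k ∧ ¬ AlmostPrime c r k) x ≤ ε * x) (K : ℝ)
    (hK1 : ∀ L : ℕ, 1 ≤ L → K ≤ dens L)
    (hK2 : ∀ K' : ℝ, (∀ L : ℕ, 1 ≤ L → K' ≤ dens L) → K' ≤ K) (g : ℕ → ℝ)
    (hg1 : Filter.Tendsto g Filter.atTop Filter.atTop)
    (hg2 : ∀ c : ℝ, 0 < c → ∃ k0 : ℕ, ∀ k : ℕ, k0 ≤ k → g k ≤ (k : ℝ) ^ c)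
    (ε : ℝ) (hε : 0 < ε) : ∃ x0 : ℕ, ∀ x ≥ x0,
      |cnt (fun k => Odd k ∧ ∃ n : ℕ, 1 ≤ n ∧ (k * 2 ^ n + 1).primeFactorsList.length ≤ r ∧
        ∀ p : ℕ, p.Prime → p ∣ k * 2 ^ n + 1 → g k < p) x - K * x| ≤ ε * x := by
  obtain ⟨x1, hx1⟩ := FN3_.lower r h p_DEN K hK1 g hg2 ε hε
  obtain ⟨x2, hx2⟩ := FN3_.upper r p_OPC p_DEN K hK2 g hg1 ε hε
  refine ⟨max x1 x2, fun x hx => ?_⟩
  have a1 := hx1 x (le_trans (le_max_left _ _) hx)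
  have a2 := hx2 x (le_trans (le_max_right _ _) hx)
  unfold FN3_.AG at a1 a2
  rw [abs_le]
  constructor <;> linarith

/-- The almost primes with an absolute number of prime factors. -/
theorem f_all : ∃ (r0 : ℕ) (K : ℝ), 0 < K ∧
    (∀ P : Finset ℕ, (∀ p ∈ P, p.Prime) → ∀ ε : ℝ, 0 < ε → ∃ x0 : ℕ, ∀ x ≥ x0,
      (K - ε) * x ≤ cnt (fun k => Odd k ∧ ¬ CoveredBy P k) x) ∧
    (∀ ε : ℝ, 0 < ε → ∃ P : Finset ℕ, (∀ p ∈ P, p.Prime) ∧ ∃ x0 : ℕ, ∀ x ≥ x0,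
      cnt (fun k => Odd k ∧ ¬ CoveredBy P k) x ≤ (K + ε) * x) ∧ ∀ r : ℕ, r0 ≤ r →
    (∀ ε : ℝ, 0 < ε → ∃ (P : Finset ℕ) (c : ℝ), (∀ p ∈ P, p.Prime) ∧ 0 < c ∧ ∃ x0 : ℕ,
      ∀ x ≥ x0, cnt (fun k => Odd k ∧ ¬ CoveredBy P k ∧ ¬ AlmostPrime c r k) x ≤ ε * x) ∧
    ∀ g : ℕ → ℝ, Filter.Tendsto g Filter.atTop Filter.atTop →
      (∀ c : ℝ, 0 < c → ∃ k0 : ℕ, ∀ k : ℕ, k0 ≤ k → g k ≤ (k : ℝ) ^ c) →
      ∀ ε : ℝ, 0 < ε → ∃ x0 : ℕ, ∀ x ≥ x0,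
        |cnt (fun k => Odd k ∧ ∃ n : ℕ, 1 ≤ n ∧ (k * 2 ^ n + 1).primeFactorsList.length ≤ r ∧
          ∀ p : ℕ, p.Prime → p ∣ k * 2 ^ n + 1 → g k < p) x - K * x| ≤ ε * x := by
  obtain ⟨r0, h⟩ := mn3_all
  obtain ⟨K, h0, h1, h2, _, _⟩ := b_all
  refine ⟨r0, K, h0, h1, h2, fun r hr => ?_⟩
  have hm : ∀ ε : ℝ, 0 < ε → ∃ (L : ℕ) (c : ℝ), 1 ≤ L ∧ 0 < c ∧ ∃ x0 : ℕ, ∀ x ≥ x0,
      cnt (fun k => Odd k ∧ Opn L k ∧ ¬ AlmostPrime c r k) x ≤ ε * x := by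
    intro ε hε
    obtain ⟨L, c, hL, hc, x0, hx⟩ := h ε hε
    refine ⟨L, c, hL, hc, x0, fun x hx0 => le_trans (cnt_mono ?_ x) (hx x hx0)⟩
    rintro k ⟨ho, hk, ha⟩
    refine ⟨ho, hk, fun hb => ha ?_⟩
    obtain ⟨n, hn, hl, hp⟩ := hb
    exact ⟨n, hn, hl.trans hr, hp⟩
  refine ⟨fun ε hε => ?_, fn3_r r hm K (le_dens K h1) (inf_le K h2)⟩
  obtain ⟨L, c, hL, hc, x0, hx⟩ := hm ε hε
  refine ⟨(2 ^ L - 1).primeFactors, c, fun p hp => Nat.prime_of_mem_primeFactors hp, hc, x0,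
    fun x hx0 => ?_⟩
  refine le_trans (cnt_mono ?_ x) (hx x hx0)
  rintro k ⟨ho, hk, ha⟩
  exact ⟨ho, opn_of_not p_OPC hL hk, ha⟩

end Pool.Agent.SPU
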