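import Pool.Agent.SPA.Targets

/-!
SPU (MP_315051_nt): numbers `k * 2 ^ n + 1` without prime factors up to `k ^ c`, `c` fixed:
definitions.
-/

set_option autoImplicit false

open Finset

namespace Pool.Agent.SPU

open Pool.Agent.SPA

/-- Multilinear sums. -/
noncomputable def Fn (c : Finset ℕ → ℝ) (P : Finset ℕ) (ω : ℕ → ℝ) : ℝ :=
  ∑ D ∈ P.powerset, c D * ∏ l ∈ D, ω l

/-- The coefficients of `TT`. -/
noncomputable def tau (m : ℕ) (D : Finset ℕ) : ℝ := if D.card ≤ 2 * m then (-1) ^ D.card else 0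

/-- The coefficients of `EE`. -/
noncomputable def eps (m : ℕ) (D : Finset ℕ) : ℝ := if D.card = 2 * m + 1 then 1 else 0

/-- The coefficients of the upper function. -/
noncomputable def cT (z b : ℕ) (P D : Finset ℕ) : ℝ :=
  ∏ i ∈ range z, tau (b + i) (D ∩ Bk P z i)

/-- The coefficients of the correction. -/
noncomputable def cE (z b : ℕ) (P D : Finset ℕ) : ℝ :=
  ∑ i ∈ range z, ∏ l ∈ range z,
    (if l = i then eps (b + l) (D ∩ Bk P z l) else tau (b + l) (D ∩ Bk P z l))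

/-- The coefficients of the lower function. -/
noncomputable def cM (z b : ℕ) (P D : Finset ℕ) : ℝ := cT z b P D - cE z b P D

/-- The coefficients of a majorant of the absolute value of the lower function. -/
noncomputable def cP (z b : ℕ) (P D : Finset ℕ) : ℝ := cT z b P D + cE z b P D

open Classical in
/-- The indicator of the bad primes. -/
noncomputable def oi (bad : ℕ → ℕ → Prop) (n l : ℕ) : ℝ := if bad l n then 1 else 0

/-- `p` divides `(κ + M j) 2 ^ n + 1`. -/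
def b1 (κ M n p j : ℕ) : Prop := p ∣ (κ + M * j) * 2 ^ n + 1

/-- `p` divides one of the two numbers. -/
def b2 (κ M n d p j : ℕ) : Prop :=
  p ∣ (κ + M * j) * 2 ^ n + 1 ∨ p ∣ (κ + M * j) * 2 ^ (n + d) + 1

open Classical in
/-- The number of bad classes for two numbers. -/
noncomputable def ro (d l : ℕ) : ℝ := if l ∣ 2 ^ d - 1 then 1 else 2

open Classical in
/-- The mean of a product of two functions of the large primes. -/
noncomputable def KK (e : ℕ → Prop) (P : Finset ℕ) (c c' : Finset ℕ → ℝ) : ℝ :=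
  ∑ D ∈ P.powerset, ∑ D' ∈ P.powerset,
    c D * c' D' * ((∏ l ∈ D ∪ D', 1 / (l : ℝ)) * if ∀ l ∈ D ∩ D', e l then 1 else 0)

/-- The parameter `b` gives the precision `η`. -/
def MA (η : ℝ) (b : ℕ) : Prop := ∀ (z : ℕ) (P : Finset ℕ) (g : ℕ → ℝ), 2 ≤ z →
  (∀ p ∈ P, p.Prime ∧ 7 ≤ p ∧ p ≤ z ∧ 0 ≤ g p ∧ g p ≤ 2 / p) →
  ∏ p ∈ P, (1 - g p) ≤ Fn (cT z b P) P g ∧
  Fn (cT z b P) P g ≤ (1 + η) * ∏ p ∈ P, (1 - g p) ∧
  0 ≤ Fn (cE z b P) P g ∧ Fn (cE z b P) P g ≤ η * ∏ p ∈ P, (1 - g p)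

/-- The small primes `P1` and the large primes `P2`, none of which divides `2 M`. -/
structure PP (M w z : ℕ) (P1 P2 : Finset ℕ) : Prop where
  h1 : ∀ p ∈ P1, p.Prime ∧ 7 ≤ p ∧ p ≤ w ∧ ¬ p ∣ 2 * M
  h2 : ∀ p ∈ P2, p.Prime ∧ 7 ≤ p ∧ w < p ∧ p ≤ z ∧ ¬ p ∣ 2 * M
  hw : 2 ≤ w
  hwz : w ≤ z

end Pool.Agent.SPU
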