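import Pool.Agent.SPU.Targets

/-!
# FNM: products of multilinear sums
-/

set_option autoImplicit false

open Finset

namespace Pool.Agent.SPU

open Pool.Agent.SPA

namespace FNM_

theorem two (P P' : Finset ℕ) (c c' : Finset ℕ → ℝ) (ω : ℕ → ℝ) (h : Disjoint P P') :
    Fn c P ω * Fn c' P' ω = Fn (fun D => c (D ∩ P) * c' (D ∩ P')) (P ∪ P') ω := by
  unfold Fn
  rw [Finset.sum_mul_sum, ← Finset.sum_product']
  have h1 : ∀ x ∈ P.powerset ×ˢ P'.powerset, (x.1 ∪ x.2) ∩ P = x.1 ∧ (x.1 ∪ x.2) ∩ P' = x.2 := by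
    intro x hx
    rw [Finset.mem_product, Finset.mem_powerset, Finset.mem_powerset] at hx
    constructor
    · rw [Finset.union_inter_distrib_right, Finset.inter_eq_left.2 hx.1,
        Finset.disjoint_iff_inter_eq_empty.1 (h.symm.mono_left hx.2), Finset.union_empty]
    · rw [Finset.union_inter_distrib_right, Finset.inter_eq_left.2 hx.2,
        Finset.disjoint_iff_inter_eq_empty.1 (h.mono_left hx.1), Finset.empty_union]
  refine Finset.sum_bij' (fun x _ => x.1 ∪ x.2) (fun D _ => (D ∩ P, D ∩ P')) ?_ ?_ ?_ ?_ ?_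
  · intro x hx
    rw [Finset.mem_product, Finset.mem_powerset, Finset.mem_powerset] at hx
    exact Finset.mem_powerset.2 (Finset.union_subset_union hx.1 hx.2)
  · intro D _
    rw [Finset.mem_product, Finset.mem_powerset, Finset.mem_powerset]
    exact ⟨Finset.inter_subset_right, Finset.inter_subset_right⟩
  · intro x hx
    exact Prod.ext (h1 x hx).1 (h1 x hx).2
  · intro D hD
    rw [Finset.mem_powerset] at hD
    show D ∩ P ∪ D ∩ P' = D
    rw [← Finset.inter_union_distrib_left, Finset.inter_eq_left.2 hD]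
  · intro x hx
    show (c x.1 * ∏ l ∈ x.1, ω l) * (c' x.2 * ∏ l ∈ x.2, ω l) =
      c ((x.1 ∪ x.2) ∩ P) * c' ((x.1 ∪ x.2) ∩ P') * ∏ l ∈ x.1 ∪ x.2, ω l
    have h2 := h1 x hx
    rw [h2.1, h2.2]
    rw [Finset.mem_product, Finset.mem_powerset, Finset.mem_powerset] at hx
    rw [Finset.prod_union (h.mono hx.1 hx.2)]
    ring

end FNM_

theorem p_FNM : T_FNM := by
  intro I B γ ω hB
  induction I with
  | zero => simp [Fn]
  | succ I ih =>
    have hd : Disjoint ((range I).biUnion B) (B I) := by
      rw [Finset.disjoint_biUnion_left]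
      intro i hi
      rw [Finset.mem_range] at hi
      exact hB i (by omega) I (by omega) (by omega)
    have hU : (range (I + 1)).biUnion B = (range I).biUnion B ∪ B I := by
      rw [Finset.range_add_one, Finset.biUnion_insert, Finset.union_comm]
    rw [Finset.prod_range_succ, ih (fun i hi j hj hij => hB i (by omega) j (by omega) hij),
      FNM_.two _ _ _ _ _ hd, hU]
    unfold Fn
    refine Finset.sum_congr rfl fun D _ => ?_
    congr 1
    show (∏ i ∈ range I, γ i (D ∩ (range I).biUnion B ∩ B i)) * γ I (D ∩ B I) =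
      ∏ i ∈ range (I + 1), γ i (D ∩ B i)
    rw [Finset.prod_range_succ]
    congr 1
    refine Finset.prod_congr rfl fun i hi => ?_
    rw [Finset.inter_assoc, Finset.inter_eq_right.2 (Finset.subset_biUnion_of_mem B hi)]

end Pool.Agent.SPU
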