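import Pool.Agent.SPU.Targets2
import Pool.Agent.SPU.P_M2

/-!
SPU, part 2: N2, the pairs, for the lower function of exactly one prime (MP_315051_nt).
-/

set_option autoImplicit false

open Finset

namespace Pool.Agent.SPU

open Pool.Agent.SPA

namespace N2_

theorem num {C δ L w d ν S Q : ℝ} (hC : 1 ≤ C) (hδ : 0 < δ) (hL : 1 ≤ L) (hw : 0 < w)
    (hwC : 32 * C ^ 11 / δ * L ^ 12 ≤ w) (hd0 : 0 ≤ d) (hd : d ≤ L)
    (hν : 1 / 2 * (1 / (C * L)) ≤ ν) (hS : S ≤ (1 + d) / w) (hQ0 : 0 ≤ Q)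
    (hQ : Q ≤ 4 * (C * L) ^ 9) : S * Q ≤ δ * ν ^ 2 := by
  have hL0 : 0 < L := by linarith
  have hC0 : 0 < C := by linarith
  have hCL : 0 < C * L := mul_pos hC0 hL0
  have h1 : 32 * C ^ 11 * L ^ 12 ≤ δ * w := by
    have h4 := mul_le_mul_of_nonneg_left hwC hδ.le
    have h5 : δ * (32 * C ^ 11 / δ * L ^ 12) = 32 * C ^ 11 * L ^ 12 := by
      field_simp
    rwa [h5] at h4
  have h2 : (1 + d) / w * (4 * (C * L) ^ 9) ≤ δ * (1 / 2 * (1 / (C * L))) ^ 2 := by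
    have h3 : δ * (1 / 2 * (1 / (C * L))) ^ 2 = δ / (4 * (C * L) ^ 2) := by
      field_simp
      ring
    rw [h3, div_mul_eq_mul_div, div_le_div_iff₀ hw (by positivity)]
    have h4 : 1 + d ≤ 2 * L := by linarith
    calc (1 + d) * (4 * (C * L) ^ 9) * (4 * (C * L) ^ 2)
        = (1 + d) * (16 * (C * L) ^ 11) := by ring
      _ ≤ 2 * L * (16 * (C * L) ^ 11) := mul_le_mul_of_nonneg_right h4 (by positivity)
      _ = 32 * C ^ 11 * L ^ 12 := by ring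
      _ ≤ δ * w := h1
  calc S * Q ≤ (1 + d) / w * (4 * (C * L) ^ 9) := mul_le_mul hS hQ hQ0 (by positivity)
    _ ≤ δ * (1 / 2 * (1 / (C * L))) ^ 2 := h2
    _ ≤ δ * ν ^ 2 := mul_le_mul_of_nonneg_left (pow_le_pow_left₀ (by positivity) hν 2) hδ.le

theorem prod8 (P : Finset ℕ) : ∏ l ∈ P, (1 + 8 * (1 / (l : ℝ))) ≤
    (∏ l ∈ P, (1 + 3 * (1 / (l : ℝ)))) ^ 3 := by
  rw [← prod_pow]
  refine prod_le_prod (fun l _ => by positivity) fun l _ => ?_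
  have hx : 0 ≤ 1 / (l : ℝ) := by positivity
  have h2 : 0 ≤ (1 / (l : ℝ)) ^ 2 := by positivity
  have h3 : 0 ≤ (1 / (l : ℝ)) ^ 3 := by positivity
  have h4 : (1 + 3 * (1 / (l : ℝ))) ^ 3 =
      1 + 9 * (1 / (l : ℝ)) + 27 * (1 / (l : ℝ)) ^ 2 + 27 * (1 / (l : ℝ)) ^ 3 := by ring
  rw [h4]
  linarith

end N2_

open N2_ in
open M2_ (xx_mul point fin ro_bd) in
theorem p_N2 (h1 : T_PNT) (h2 : T_PS2) (h3 : T_RM2) (h4 : T_DMU) (h5 : T_KB2) (h6 : T_DAB)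
    (h7 : T_ASY) (h8 : T_PRO) (h9 : T_DPT) : T_N2 := by
  classical
  intro b b' m δ
  obtain ⟨C, hC1, hpro⟩ := h8
  obtain ⟨z1, hrmd⟩ := h3 b b' m δ
  obtain ⟨z2, hasy⟩ : ∃ z0 : ℕ, 1 ≤ m → ∀ z w : ℕ, z0 ≤ z → z < (w + 1) ^ m →
      32 * C ^ 11 / δ * Real.log z ^ 12 ≤ w ∧ 7 ≤ w ∧ 1 ≤ Real.log z := by
    by_cases hm : 1 ≤ m
    · obtain ⟨z0, hz0⟩ := h7 (32 * C ^ 11 / δ) m hm
      exact ⟨z0, fun _ => hz0⟩
    · exact ⟨0, fun h => absurd h hm⟩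
  refine ⟨max z1 z2, ?_⟩
  intro z w Y M κ n d P1 P2 hz hH hd1 hdL
  have hz1 : z1 ≤ z := le_trans (le_max_left _ _) hz
  have hz2 : z2 ≤ z := le_trans (le_max_right _ _) hz
  have hm1 : 1 ≤ m := by
    have := hH.mb
    omega
  obtain ⟨hwC, hw7, hL1⟩ := hasy hm1 z w hz2 hH.zw
  have hw2 : 2 ≤ w := hH.pp.hw
  have hzw : 2 ≤ z := hw2.trans hH.pp.hwz
  have hδ := hH.d0
  have hP1 : ∀ p ∈ P1, p.Prime ∧ 7 ≤ p ∧ p ≤ w := fun p hp =>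
    ⟨(hH.pp.h1 p hp).1, (hH.pp.h1 p hp).2.1, (hH.pp.h1 p hp).2.2.1⟩
  have hP2 : ∀ p ∈ P2, p.Prime ∧ 7 ≤ p ∧ p ≤ z := fun p hp =>
    ⟨(hH.pp.h2 p hp).1, (hH.pp.h2 p hp).2.1, (hH.pp.h2 p hp).2.2.2.1⟩
  have hdis : Disjoint P1 P2 := by
    rw [Finset.disjoint_left]
    intro p hp hp'
    exact absurd (hH.pp.h1 p hp).2.2.1 (not_le.2 (hH.pp.h2 p hp').2.2.1)
  have hPM : ∀ p ∈ P1 ∪ P2, p.Prime ∧ ¬ p ∣ 2 * M := by
    intro p hp
    rcases mem_union.1 hp with h | h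
    · exact ⟨(hH.pp.h1 p h).1, (hH.pp.h1 p h).2.2.2⟩
    · exact ⟨(hH.pp.h2 p h).1, (hH.pp.h2 p h).2.2.2.2⟩
  obtain ⟨-, hlow, -, hQ3, -, -, hlast⟩ := hpro M w z m P1 P2 hH.pp hm1 hH.zw
  obtain ⟨hnu1, -, -, -, hp0, hp4⟩ := h4 z b P2 hH.ma hzw hP2
  obtain ⟨ν, hν⟩ : ∃ ν : ℝ, ν = nu z b P2 := ⟨_, rfl⟩
  obtain ⟨V, hV⟩ : ∃ V : ℝ, V = ∏ p ∈ P1, (1 - ro d p / (p : ℝ)) := ⟨_, rfl⟩
  have hV0 : 0 ≤ V := by
    rw [hV]
    refine prod_nonneg fun p hp => ?_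
    have h7p : (7 : ℝ) ≤ p := by exact_mod_cast (hP1 p hp).2.1
    have h9 : ro d p / (p : ℝ) ≤ 1 := by
      rw [div_le_one (by linarith)]
      have := (ro_bd d p).2
      linarith
    linarith
  -- the means over the small primes
  obtain ⟨mG1, mG2, mE1, mE2⟩ := hH.ma' w P1 (fun l => ro d l / (l : ℝ)) hw2 (by
    intro p hp
    have h7p : (7 : ℝ) ≤ p := by exact_mod_cast (hP1 p hp).2.1
    have hr := ro_bd d p
    refine ⟨(hP1 p hp).1, (hP1 p hp).2.1, (hP1 p hp).2.2, ?_, ?_⟩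
    · exact div_nonneg (by linarith) (by linarith)
    · exact div_le_div_of_nonneg_right hr.2 (by linarith))
  -- the error term
  have hCL : 0 < C * Real.log z := mul_pos (by linarith) (by linarith)
  have hlow2 : 1 / 2 * (1 / (C * Real.log z)) ≤ ν := by
    rw [hν]
    refine le_trans ?_ hnu1
    refine mul_le_mul_of_nonneg_left ?_ (by norm_num)
    have h10 : 0 ≤ ∏ p ∈ P2, (1 - 1 / (p : ℝ)) := le_trans (by positivity) hlow
    calc 1 / (C * Real.log z) ≤ ∏ p ∈ P2, (1 - 1 / (p : ℝ)) := hlow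
      _ = 1 * ∏ p ∈ P2, (1 - 1 / (p : ℝ)) := (one_mul _).symm
      _ ≤ La P2 * ∏ p ∈ P2, (1 - 1 / (p : ℝ)) := mul_le_mul_of_nonneg_right hH.la h10
  have hQ9 : 4 * ∏ l ∈ P2, (1 + 8 * (1 / (l : ℝ))) ≤ 4 * (C * Real.log z) ^ 9 := by
    refine mul_le_mul_of_nonneg_left ?_ (by norm_num)
    refine le_trans (prod8 P2) ?_
    refine le_trans (pow_le_pow_left₀ (prod_nonneg fun l _ => by positivity) hQ3 3) ?_
    rw [← pow_mul]
  have hom : (∑ l ∈ P2, (1 / (l : ℝ) + if l ∣ 2 ^ d - 1 then 1 else 0) * (1 / (l : ℝ))) *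
      (4 * ∏ l ∈ P2, (1 + 8 * (1 / (l : ℝ)))) ≤ δ * ν ^ 2 := by
    refine num hC1 hδ hL1 (by exact_mod_cast (by omega : 0 < w)) hwC (Nat.cast_nonneg d) hdL
      hlow2 ?_ ?_ hQ9
    · have hl := hlast d hd1 (P2.filter fun l => l ∣ 2 ^ d - 1) (filter_subset _ _)
        (fun l hl => (mem_filter.1 hl).2)
      refine le_trans (le_of_eq ?_) hl
      rw [sum_filter, ← sum_add_distrib]
      refine sum_congr rfl fun l _ => ?_
      split_ifs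
      · ring
      · ring
    · refine mul_nonneg (by norm_num) (prod_nonneg fun l _ => ?_)
      positivity
  have hP2' : ∀ l ∈ P2, 1 ≤ l := fun l hl => by
    have := (hP2 l hl).2.1
    omega
  have hK1 : KK (fun l => l ∣ 2 ^ d - 1) P2 (dM z b P2) (dM z b P2) ≤ ν ^ 2 + δ * ν ^ 2 := by
    have h9 := h5 (fun l => l ∣ 2 ^ d - 1) P2 (dM z b P2) (dM z b P2) hP2'
      (fun D => (h6 z b P2 D).1) (fun D => (h6 z b P2 D).1)
    have h10 := (abs_le.1 h9).2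
    have h11 : Fn (dM z b P2) P2 (fun l => 1 / (l : ℝ)) = ν := by rw [hν]; rfl
    rw [h11] at h10
    have h13 : KK (fun l => l ∣ 2 ^ d - 1) P2 (dM z b P2) (dM z b P2) - ν * ν ≤ δ * ν ^ 2 := by
      refine le_trans h10 (le_trans (le_of_eq ?_) hom)
      congr 1
      refine sum_congr rfl fun l _ => ?_
      congr
    nlinarith
  have hK2 : KK (fun l => l ∣ 2 ^ d - 1) P2 (dP z b P2) (dP z b P2) ≤
      (4 * ν) ^ 2 + δ * ν ^ 2 := by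
    have h9 := h5 (fun l => l ∣ 2 ^ d - 1) P2 (dP z b P2) (dP z b P2) hP2'
      (fun D => (h6 z b P2 D).2) (fun D => (h6 z b P2 D).2)
    have h10 := (abs_le.1 h9).2
    have h13 : KK (fun l => l ∣ 2 ^ d - 1) P2 (dP z b P2) (dP z b P2) -
        Fn (dP z b P2) P2 (fun l => 1 / (l : ℝ)) * Fn (dP z b P2) P2 (fun l => 1 / (l : ℝ)) ≤
        δ * ν ^ 2 := by
      refine le_trans h10 (le_trans (le_of_eq ?_) hom)
      congr 1
      refine sum_congr rfl fun l _ => ?_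
      congr
    have h14 : Fn (dP z b P2) P2 (fun l => 1 / (l : ℝ)) *
        Fn (dP z b P2) P2 (fun l => 1 / (l : ℝ)) ≤ (4 * ν) ^ 2 := by
      rw [← sq, hν]
      exact pow_le_pow_left₀ hp0 hp4 2
    linarith
  -- the remainders
  have hR1 := (hrmd z w Y M d P1 P2 (cT w b' P1) (dM z b P2) (dM z b P2) hz1 hH (Or.inl rfl)
    (Or.inl rfl) (Or.inl rfl)).1
  have hR2 := (hrmd z w Y M d P1 P2 (cE w b' P1) (dP z b P2) (dP z b P2) hz1 hH (Or.inr rfl)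
    (Or.inr rfl) (Or.inr rfl)).1
  rw [← hV, ← hν] at hR1 hR2
  have hS1 := (abs_le.1 (h2 κ M n d Y P1 P2 (cT w b' P1) (dM z b P2) (dM z b P2) hPM hdis)).2
  have hS2 := (abs_le.1 (h2 κ M n d Y P1 P2 (cE w b' P1) (dP z b P2) (dP z b P2) hPM hdis)).2
  -- pointwise
  have hpt : ∀ j ∈ Ioc 0 Y,
      (xx (b1 κ M n) P1 j * Fn (dM z b P2) P2 (oi (b1 κ M n) j)) *
        (xx (b1 κ M (n + d)) P1 j * Fn (dM z b P2) P2 (oi (b1 κ M (n + d)) j)) ≤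
      Fn (cT w b' P1) P1 (oi (b2 κ M n d) j) * (Fn (dM z b P2) P2 (oi (b1 κ M n) j) *
        Fn (dM z b P2) P2 (oi (b1 κ M (n + d)) j)) +
      Fn (cE w b' P1) P1 (oi (b2 κ M n d) j) * (Fn (dP z b P2) P2 (oi (b1 κ M n) j) *
        Fn (dP z b P2) P2 (oi (b1 κ M (n + d)) j)) := by
    intro j _
    obtain ⟨e1, -, e3⟩ := h1 w b' P1 (b2 κ M n d) j hw2 hP1
    have e4 := point e1 e3 (h9 z b P2 (b1 κ M n) j hzw hP2).1
      (h9 z b P2 (b1 κ M (n + d)) j hzw hP2).1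
    refine le_trans (le_of_eq ?_) e4
    rw [← xx_mul]
    ring
  have hfin := fin (Nat.cast_nonneg Y) hV0 hδ.le hH.d1 (le_trans hV0 (hV ▸ mG1)) (hV ▸ mG2) mE1
    (hV ▸ mE2) hK1 hK2 (sub_le_iff_le_add'.1 hS1) (sub_le_iff_le_add'.1 hS2) hR1 hR2
  refine le_trans (sum_le_sum hpt) ?_
  rw [sum_add_distrib, ← hV, ← hν]
  exact hfin

end Pool.Agent.SPU
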