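import Pool.Agent.SPU.Defs

/-!
SPU (MP_315051_nt): targets.  The proof of every target is in its docstring. `T_ALT`, `T_RNK`,
`T_BLK`, `T_VLO`, `T_TEL`, `T_RPW`, `T_PTW`, `T_FLM`, `T_SFM`, `T_SFC`, `T_RH1`, `T_RH2`, `T_PR2`,
`T_SH`, `T_GSM` are targets of `Pool/Agent/SPA/Targets.lean`, all proved
(`Pool/Agent/SPA/P_*.lean`).
-/

set_option autoImplicit false

open Finset

namespace Pool.Agent.SPU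

open Pool.Agent.SPA
open Pool.Agent.TSP (Per rho)
open Pool.Agent.Tri5 (T_MER T_EXP)

/-- FNM (`theorem p_FNM : T_FNM`). Induction on `I`. Two sets: for disjoint `P`, `P'`
`Fn c P ω * Fn c' P' ω = Fn (fun D => c (D ∩ P) * c' (D ∩ P')) (P ∪ P') ω`
(see `Pool/Agent/SPA/P_SFM.lean`: the bijection `D ↦ (D ∩ P, D ∩ P')`). For `I = 0` both sides are
`1` (`γ` empty product, `P = ∅`). `D ∩ (⋃_{i<I} B i) ∩ B i = D ∩ B i`. -/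
def T_FNM : Prop := ∀ (I : ℕ) (B : ℕ → Finset ℕ) (γ : ℕ → Finset ℕ → ℝ) (ω : ℕ → ℝ),
  (∀ i < I, ∀ j < I, i ≠ j → Disjoint (B i) (B j)) →
  ∏ i ∈ range I, Fn (γ i) (B i) ω =
    Fn (fun D => ∏ i ∈ range I, γ i (D ∩ B i)) ((range I).biUnion B) ω

/-- CFN (`theorem p_CFN (h1 : T_FNM) (h2 : T_BLK) : T_CFN`). FNM with `B = Bk P z`, whose union is
`P` and which are disjoint (BLK); for `cE` exchange the sum over `i` with the sum over `D` and use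
FNM for every `i` with `γ l = if l = i then eps (b + l) else tau (b + l)`. -/
def T_CFN : Prop := ∀ (z b : ℕ) (P : Finset ℕ) (ω : ℕ → ℝ), 2 ≤ z →
  (∀ p ∈ P, p.Prime ∧ 7 ≤ p ∧ p ≤ z) →
  Fn (cT z b P) P ω = ∏ i ∈ range z, Fn (tau (b + i)) (Bk P z i) ω ∧
  Fn (cE z b P) P ω = ∑ i ∈ range z, ∏ l ∈ range z,
    (if l = i then Fn (eps (b + l)) (Bk P z l) ω else Fn (tau (b + l)) (Bk P z l) ω)

/-- CAB (`theorem p_CAB : T_CAB`). Let `D_i = D ∩ Bk P z i`. If `|D_i| ≤ 2 (b+i)` for all `i < z`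
then `cT = ±1` and every term of `cE` has the factor `eps = 0`. Otherwise `|D_j| > 2 (b+j)` for some
`j < z`; then `tau (b+j) D_j = 0`, so `cT = 0` and in `cE` only the term `i = j` can be nonzero; it
is a product of factors of absolute value `≤ 1`. -/
def T_CAB : Prop := ∀ (z b : ℕ) (P D : Finset ℕ), |cM z b P D| ≤ 1 ∧ |cP z b P D| ≤ 1

/-- REM (`theorem p_REM (h1 : T_FNM) (h2 : T_BLK) (h3 : T_RNK) (h4 : T_RPW) : T_REM`).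
`|cT D| = ∏ |tau (b+i) (D ∩ Bk i)|`, so by FNM with `γ i D = |tau (b+i) D|` the sum is
`∏_i ∑_{D ⊆ Bk i} |tau| ∏ ω`. `|tau m D| ≤ 1` if `|D| ≤ 2 m + 1`, else `0`; the second part of RNK
with `w = yy z i`, `k = 2 (b+i) + 1`: the factor is at most `yy^(2(b+i)+1) exp (∑ω / yy)`, and
`∑ ω ≤ 2 |Bk i| ≤ 2 yy`, `exp 2 ≤ 49 ≤ yy^2` if the block is not empty; if it is empty the factor is
at most `1`. So every factor is `≤ yy z i ^ (2 (b+i) + 3)` and RPW gives `z^(4b+10)`. For `cE`: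
`|cE D| ≤ ∑_{i<z} ∏_l |..|`, every `i` gives at most `z^(4b+10)` (same bound for `eps`), and there
are `z` of them. -/
def T_REM : Prop := ∀ (z b : ℕ) (P : Finset ℕ) (ω : ℕ → ℝ), 2 ≤ z →
  (∀ p ∈ P, p.Prime ∧ 7 ≤ p ∧ p ≤ z) → (∀ p ∈ P, 0 ≤ ω p ∧ ω p ≤ 2) →
  ∑ D ∈ P.powerset, |cT z b P D| * ∏ l ∈ D, ω l ≤ (z : ℝ) ^ (4 * b + 10) ∧
  ∑ D ∈ P.powerset, |cE z b P D| * ∏ l ∈ D, ω l ≤ (z : ℝ) ^ (4 * b + 11)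

/-- PNT (`theorem p_PNT (h1 : T_CFN) (h2 : T_PTW) (h3 : T_TEL) (h4 : T_BLK) : T_PNT`).
`Fn (tau m) P (oi bad n) = TT bad P m n`, `Fn (eps m) P (oi bad n) = EE bad P m n` (by definition,
`∏_{l ∈ D} oi bad n l = ind bad D n`), and `xx bad P n = ∏_{i<z} xx bad (Bk P z i) n`. PTW for every
block: `0 ≤ xx ≤ TT ≤ xx + EE`, `0 ≤ EE`; products and TEL. `0 ≤ Fn cE` since all factors are
`≥ 0`. -/
def T_PNT : Prop := ∀ (z b : ℕ) (P : Finset ℕ) (bad : ℕ → ℕ → Prop) (n : ℕ), 2 ≤ z →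
  (∀ p ∈ P, p.Prime ∧ 7 ≤ p ∧ p ≤ z) →
  xx bad P n ≤ Fn (cT z b P) P (oi bad n) ∧ 0 ≤ Fn (cE z b P) P (oi bad n) ∧
  Fn (cT z b P) P (oi bad n) ≤ xx bad P n + Fn (cE z b P) P (oi bad n)

/-- MEA (`theorem p_MEA (h1 : T_CFN) (h2 : T_FLM) (h3 : T_ALT) : T_MEA`). By definition
`Fn (tau m) P g = UU g P m` and `Fn (eps m) P g = ee g P (2 m + 1)`; so this is FLM with the `b` of
FLM. `0 ≤ Fn cE`: all factors are `≥ 0` (`UU ≥ ∏ (1 - g) ≥ 0` by ALT, `ee ≥ 0`). -/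
def T_MEA : Prop := ∀ η : ℝ, 0 < η → ∃ b : ℕ, MA η b

/-- PS1 (`theorem p_PS1 (h1 : T_SFM) (h2 : T_SFC) : T_PS1`). `Fn c P (oi bad n)` is a sieve function
over `P` with mean `Fn c P (rho/l)` and remainder `∑ |c| ∏ rho` (`SF`, by definition; `ind` is the
product of the `oi`, `gg`, `rr` products of `rho/l`, `rho`). SFM for the product, SFC with
`X = 0`. -/
def T_PS1 : Prop := ∀ (bad : ℕ → ℕ → Prop) (P1 P2 : Finset ℕ) (c0 c1 : Finset ℕ → ℝ) (Y : ℕ),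
  Per bad → (∀ p ∈ P1 ∪ P2, p.Prime) → Disjoint P1 P2 →
  |∑ j ∈ Ioc 0 Y, Fn c0 P1 (oi bad j) * Fn c1 P2 (oi bad j) -
    Y * (Fn c0 P1 (fun l => (rho bad l : ℝ) / l) * Fn c1 P2 (fun l => (rho bad l : ℝ) / l))| ≤
  (∑ D ∈ P1.powerset, |c0 D| * ∏ l ∈ D, (rho bad l : ℝ)) *
    ∑ D ∈ P2.powerset, |c1 D| * ∏ l ∈ D, (rho bad l : ℝ)

open Classical in
/-- CNT (`theorem p_CNT (h1 : T_RH1) (h2 : T_RH2) : T_CNT`). If some `l ∈ D1 ∩ D2` does not divide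
`2^d - 1` then no `j` is counted (`(κ+Mj) 2^n ≡ -1 ≡ (κ+Mj) 2^(n+d) (mod l)` gives `2^d ≡ 1`), and
the main term is `0`. Otherwise let `bad p j` be `b2 κ M n d p j` for `p ∈ D`, `b1 κ M n p j` for
`p ∈ D1` and `b1 κ M (n+d) p j` for the other `p` (`D ⊆ P1` is disjoint from `D1`, `D2`). `Per bad`.
For `l ∈ D1 ∩ D2` the conditions `b1 κ M n l j` and `b1 κ M (n+d) l j` are equivalent as
`l ∣ 2^d - 1`. So `j` is counted iff `bad l j` for all `l ∈ D ∪ (D1 ∪ D2)`; the number of these `j`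
in `Ioc 0 Y` differs from `Y ∏ rho/l` by at most `∏ rho` (`Pool.Agent.TSP.count_bad`), and
`rho bad l = ro d l` on `D` (RH2), `= 1` on `D1 ∪ D2` (RH1; `l ∤ 2 M`). -/
def T_CNT : Prop := ∀ (κ M n d Y : ℕ) (P1 P2 D D1 D2 : Finset ℕ),
  (∀ p ∈ P1 ∪ P2, p.Prime ∧ ¬ p ∣ 2 * M) → Disjoint P1 P2 → D ⊆ P1 → D1 ⊆ P2 → D2 ⊆ P2 →
  |(((Ioc 0 Y).filter fun j => (∀ l ∈ D, b2 κ M n d l j) ∧ (∀ l ∈ D1, b1 κ M n l j) ∧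
      ∀ l ∈ D2, b1 κ M (n + d) l j).card : ℝ) -
    Y * ((∏ l ∈ D, ro d l / l) * ((∏ l ∈ D1 ∪ D2, 1 / (l : ℝ)) *
      if ∀ l ∈ D1 ∩ D2, l ∣ 2 ^ d - 1 then 1 else 0))| ≤ ∏ l ∈ D, ro d l

/-- PS2 (`theorem p_PS2 (h : T_CNT) : T_PS2`). Expand the three `Fn`, exchange the sums:
`∑_j ∏_{D} oi ∏_{D1} oi ∏_{D2} oi` is the number of CNT. Multiply CNT by
`|c0 D| |c1 D1| |c2 D2|` and add up; the main terms factor. -/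
def T_PS2 : Prop := ∀ (κ M n d Y : ℕ) (P1 P2 : Finset ℕ) (c0 c1 c2 : Finset ℕ → ℝ),
  (∀ p ∈ P1 ∪ P2, p.Prime ∧ ¬ p ∣ 2 * M) → Disjoint P1 P2 →
  |∑ j ∈ Ioc 0 Y, Fn c0 P1 (oi (b2 κ M n d) j) *
      (Fn c1 P2 (oi (b1 κ M n) j) * Fn c2 P2 (oi (b1 κ M (n + d)) j)) -
    Y * (Fn c0 P1 (fun l => ro d l / l) * KK (fun l => l ∣ 2 ^ d - 1) P2 c1 c2)| ≤
  (∑ D ∈ P1.powerset, |c0 D| * ∏ l ∈ D, ro d l) *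
    ((∑ D ∈ P2.powerset, |c1 D|) * ∑ D ∈ P2.powerset, |c2 D|)

/-- KI (`theorem p_KI : T_KI`). First: induction on `P` (`Finset.sum_powerset_insert`): for a new
element `q` the four cases (`q` in none, one, the other, both of `D`, `D'`) give
`1 + x q + x q + x q`. Second: the pairs `D, D'` which contain `l` correspond to pairs of subsets of
`P.erase l`, `∏_{D ∪ D'} x = x l * ∏_{rest}`, and `∏_{P.erase l} (1 + 3 x) ≤ ∏_P (1 + 3 x)`. -/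
def T_KI : Prop := ∀ (P : Finset ℕ) (x : ℕ → ℝ), (∀ l ∈ P, 0 ≤ x l) →
  ∑ D ∈ P.powerset, ∑ D' ∈ P.powerset, ∏ q ∈ D ∪ D', x q = ∏ q ∈ P, (1 + 3 * x q) ∧
  ∀ l ∈ P, ∑ D ∈ P.powerset, ∑ D' ∈ P.powerset,
    (if l ∈ D ∩ D' then ∏ q ∈ D ∪ D', x q else 0) ≤ x l * ∏ q ∈ P, (1 + 3 * x q)

open Classical in
/-- KB (`theorem p_KB (h : T_KI) : T_KB`). `x l = 1/l`. First: `|c c'| ≤ 1`, the indicator is `≤ 1`,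
KI. Second: `Fn c P x * Fn c' P x = ∑_D ∑_D' c D c' D' ∏_D x ∏_D' x`. For disjoint `D`, `D'` the
terms of the two sides agree (`∏_D ∏_D' = ∏_{D ∪ D'}`, indicator `1`). If `D ∩ D'` is not empty the
difference is at most `∏_{D ∪ D'} x * [∀ l ∈ D ∩ D', e l] + ∏_D x ∏_D' x` in absolute value, and
`∏_D ∏_D' = ∏_{D ∪ D'} ∏_{D ∩ D'}` (`Finset.prod_union_inter`); it is at most
`∑_{l ∈ D ∩ D'} (x l + [e l]) ∏_{D ∪ D'} x` (one term of this sum is enough, all `x ≤ 1`). Sum over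
`D, D'` and use the second part of KI: `∑_{l ∈ P} (x l + [e l]) x l ∏_P (1 + 3 x)`. -/
def T_KB : Prop := ∀ (e : ℕ → Prop) (P : Finset ℕ) (c c' : Finset ℕ → ℝ),
  (∀ l ∈ P, 1 ≤ l) → (∀ D, |c D| ≤ 1) → (∀ D, |c' D| ≤ 1) →
  |KK e P c c'| ≤ ∏ l ∈ P, (1 + 3 * (1 / (l : ℝ))) ∧
  |KK e P c c' - Fn c P (fun l => 1 / (l : ℝ)) * Fn c' P (fun l => 1 / (l : ℝ))| ≤
    (∑ l ∈ P, (1 / (l : ℝ) + if e l then 1 else 0) * (1 / (l : ℝ))) *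
      ∏ l ∈ P, (1 + 3 * (1 / (l : ℝ)))

/-- ASY (`theorem p_ASY : T_ASY`). `w + 1 > z^(1/m)`, and `(log z)^12 = o(z^(1/m))`
(`isLittleO_log_rpow_atTop` or `Real.isLittleO_pow_log_id_atTop` for `w + 1`:
`log z < m log (w+1)`, `w + 1 → ∞`, `(log (w+1))^12 = o(w+1)`). -/
def T_ASY : Prop := ∀ (C : ℝ) (m : ℕ), 1 ≤ m → ∃ z0 : ℕ, ∀ z w : ℕ, z0 ≤ z → z < (w + 1) ^ m →
  C * Real.log z ^ 12 ≤ w ∧ 7 ≤ w ∧ 1 ≤ Real.log z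

/-- PRO (`theorem p_PRO (h1 : T_MER) (h2 : T_VLO) : T_PRO`), products over the primes. (a) VLO
(`P1`, `P2` consist of primes in `[3, z]`). (b) `1 + 3/l ≤ (1 - 1/l)^(-3)` (Bernoulli:
`(1 - 1/l)^(-1) ≥ 1 + 1/l`, cube), VLO. (c) `k = w`, `n = z` in MER (`|P2| ≤ z`, all primes `> w`):
`∏ (1 + 1/(p-1)) ≤ C log z/log w ≤ 2 C m` because `log z < m log (w+1) ≤ 2 m log w`; and
`1 + 3/l ≤ (1 + 1/(l-1))^3`, `1 - 1/l = (1 + 1/(l-1))⁻¹`. (d) `2^(number) ≤ ∏ ≤ 2^d`, so at most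
`d` primes divide `2^d - 1` (`d ≥ 1`); each is `> w`; `∑_{l > w} 1/l^2 ≤ 1/w`
(`1/l^2 ≤ 1/(l-1) - 1/l`). -/
def T_PRO : Prop := ∃ C : ℝ, 1 ≤ C ∧ ∀ (M w z m : ℕ) (P1 P2 : Finset ℕ), PP M w z P1 P2 →
  1 ≤ m → z < (w + 1) ^ m →
  1 / (C * Real.log z) ≤ ∏ p ∈ P1, (1 - 1 / (p : ℝ)) ∧
  1 / (C * Real.log z) ≤ ∏ p ∈ P2, (1 - 1 / (p : ℝ)) ∧
  (∀ d : ℕ, (1 / (C * Real.log z)) ^ 3 ≤ ∏ p ∈ P1, (1 - ro d p / (p : ℝ))) ∧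
  ∏ p ∈ P2, (1 + 3 * (1 / (p : ℝ))) ≤ (C * Real.log z) ^ 3 ∧
  ∏ p ∈ P2, (1 + 3 * (1 / (p : ℝ))) ≤ (C * m) ^ 3 ∧
  1 / (C * m) ≤ ∏ p ∈ P2, (1 - 1 / (p : ℝ)) ∧
  ∀ d : ℕ, 1 ≤ d → ∀ P : Finset ℕ, P ⊆ P2 → (∀ l ∈ P, l ∣ 2 ^ d - 1) →
    ∑ l ∈ P2, (1 / (l : ℝ)) * (1 / (l : ℝ)) + ∑ l ∈ P, 1 / (l : ℝ) ≤ (1 + d) / w

/-- The moments: the common hypotheses. `δ` is the precision of `b'`, `1/2` that of `b`. -/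
structure HH (b b' : ℕ) (δ : ℝ) (z w Y M : ℕ) (P1 P2 : Finset ℕ) : Prop where
  ma : MA (1 / 2) b
  ma' : MA δ b'
  d0 : 0 < δ
  d1 : δ ≤ 1
  pp : PP M w z P1 P2
  wz : w ^ (4 * b' + 12) ≤ z
  zw : z < (w + 1) ^ (4 * b' + 12)
  zY : z ^ (8 * b + 30) ≤ Y

/-- The mean of the lower function. -/
noncomputable def mu (z b : ℕ) (P2 : Finset ℕ) : ℝ := Fn (cM z b P2) P2 (fun l => 1 / (l : ℝ))

/-- MUB (`theorem p_MUB : T_MUB`). `Fn (cM ..) = Fn cT - Fn cE`, `Fn (cP ..) = Fn cT + Fn cE`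
(`Fn` is linear in `c`), and `MA (1/2) b` with `g = 1/l`, `Π = ∏ (1 - 1/l)`: `Π ≤ Fn cT ≤ 3/2 Π`,
`0 ≤ Fn cE ≤ 1/2 Π`. -/
def T_MUB : Prop := ∀ (z b : ℕ) (P : Finset ℕ), MA (1 / 2) b → 2 ≤ z →
  (∀ p ∈ P, p.Prime ∧ 7 ≤ p ∧ p ≤ z) →
  1 / 2 * ∏ p ∈ P, (1 - 1 / (p : ℝ)) ≤ mu z b P ∧ 0 < mu z b P ∧ mu z b P ≤ 2 ∧
  0 ≤ Fn (cP z b P) P (fun l => 1 / (l : ℝ)) ∧
  Fn (cP z b P) P (fun l => 1 / (l : ℝ)) ≤ 4 * mu z b P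

/-- RMD (`theorem p_RMD (h1 : T_REM) (h2 : T_ASY) (h3 : T_PRO) (h4 : T_MUB) : T_RMD`), the
remainder. By REM (`ω = ro d ≤ 2` over `P1` with `z = w`, `b = b'`; `ω = 1` over `P2`)
`∑_{P1} |cT| ∏ ro ≤ w^(4b'+11)`, same for `cE`; `∑_{P2} |cM|`, `∑_{P2} |cP|` are
`≤ z^(4b+10) + z^(4b+11) ≤ z^(4b+12)`. So the product is at most
`w^(4b'+11) z^(8b+24) ≤ z^(8b+25) ≤ Y/z^5`. By PRO and MUB `V ≥ (1/(C log z))^3` and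
`mu ≥ 1/(2 C log z)`, so `V mu^2 ≥ (1/(2 C log z))^5 ≥ 1/(δ z^5)` by ASY (`w ≤ z`; the constant is
chosen before `z0`). (`ro 0 p = 1`, so `d = 0` covers the case of one number.) -/
def T_RMD : Prop := ∀ (b b' : ℕ) (δ : ℝ), ∃ z0 : ℕ, ∀ (z w Y M d : ℕ) (P1 P2 : Finset ℕ)
  (c0 c1 c2 : Finset ℕ → ℝ), z0 ≤ z → HH b b' δ z w Y M P1 P2 →
  (c0 = cT w b' P1 ∨ c0 = cE w b' P1) → (c1 = cM z b P2 ∨ c1 = cP z b P2) →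
  (c2 = cM z b P2 ∨ c2 = cP z b P2) →
  (∑ D ∈ P1.powerset, |c0 D| * ∏ l ∈ D, ro d l) *
    ((∑ D ∈ P2.powerset, |c1 D|) * ∑ D ∈ P2.powerset, |c2 D|) ≤
    δ * (Y * ((∏ p ∈ P1, (1 - ro d p / (p : ℝ))) * mu z b P2 ^ 2)) ∧
  (∑ D ∈ P1.powerset, |c0 D| * ∏ l ∈ D, ro d l) * (∑ D ∈ P2.powerset, |c1 D|) ≤
    δ * (Y * ((∏ p ∈ P1, (1 - ro d p / (p : ℝ))) * mu z b P2))

/-- M1 (`theorem p_M1 (h1 : T_PNT) (h2 : T_PS1) (h3 : T_RMD) (h4 : T_MUB) (h5 : T_RH1) : T_M1`),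
the first moment. `bad = b1 κ M n` (`rho = 1` on `P1`, `P2`: RH1; `ro 0 = 1`). With
`pre = xx bad P1 j`, `G, E` the functions `Fn (cT w b' P1)`, `Fn (cE w b' P1)` and `F⁻, F⁺` the
functions with the coefficients `cM z b P2`, `cP z b P2`: PNT gives `0 ≤ G - pre ≤ E`, `F⁻ ≤ F⁺`,
`0 ≤ F⁺`, so `pre F⁻ = G F⁻ - (G - pre) F⁻ ≥ G F⁻ - E F⁺`. PS1 for both products; the means:
`V ≤ m_G`, `m_E ≤ δ V` (`MA δ b'`, `g = 1/p`), `μ⁺ ≤ 4 μ`. So the sum is at least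
`Y V μ - 4 δ Y V μ - 2 R` with `R ≤ δ Y V μ` (RMD with `d = 0`). -/
def T_M1 : Prop := ∀ (b b' : ℕ) (δ : ℝ), ∃ z0 : ℕ, ∀ (z w Y M κ n : ℕ) (P1 P2 : Finset ℕ),
  z0 ≤ z → HH b b' δ z w Y M P1 P2 →
  (1 - 6 * δ) * (Y * ((∏ p ∈ P1, (1 - 1 / (p : ℝ))) * mu z b P2)) ≤
    ∑ j ∈ Ioc 0 Y, xx (b1 κ M n) P1 j * Fn (cM z b P2) P2 (oi (b1 κ M n) j)

/-- M2 (`theorem p_M2 (h1 : T_PNT) (h2 : T_PS2) (h3 : T_RMD) (h4 : T_MUB) (h5 : T_KB) (h6 : T_CAB)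
(h7 : T_ASY) (h8 : T_PRO) : T_M2`), the pairs. `xx (b1 κ M n) P1 j * xx (b1 κ M (n+d)) P1 j =
xx (b2 κ M n d) P1 j =: pre`. With `G, E` for `b2`, `F1, F2` (coefficients `cM`) and `F1⁺, F2⁺`
(`cP`) for the two numbers: `|F| ≤ F⁺` (PNT), so
`pre F1 F2 = G F1 F2 - (G - pre) F1 F2 ≤ G F1 F2 + E F1⁺ F2⁺`. PS2 for both. Means: `m_G ≤ (1+δ) V`,
`0 ≤ m_E ≤ δ V`, `V = ∏ (1 - ro/p)` (`MA δ b'`), `KK(cM, cM) ≤ μ² + ω`,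
`KK(cP, cP) ≤ 16 μ² + ω` (KB, CAB, MUB) with `ω ≤ (1+d)/w * (C log z)^3 ≤ δ μ²` (PRO, ASY,
`μ ≥ 1/(2 C log z)`, `d ≤ (log z)^3`). So the sum is at most
`Y V ((1+δ)(1+δ) μ² + δ (17 μ²)) + 2 R ≤ (1 + 22 δ) Y V μ²`, `R ≤ δ Y V μ²` (RMD). -/
def T_M2 : Prop := ∀ (b b' : ℕ) (δ : ℝ), ∃ z0 : ℕ, ∀ (z w Y M κ n d : ℕ) (P1 P2 : Finset ℕ),
  z0 ≤ z → HH b b' δ z w Y M P1 P2 → 1 ≤ d → (d : ℝ) ≤ Real.log z ^ 3 →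
  ∑ j ∈ Ioc 0 Y, (xx (b1 κ M n) P1 j * Fn (cM z b P2) P2 (oi (b1 κ M n) j)) *
    (xx (b1 κ M (n + d)) P1 j * Fn (cM z b P2) P2 (oi (b1 κ M (n + d)) j)) ≤
    (1 + 22 * δ) * (Y * ((∏ p ∈ P1, (1 - ro d p / (p : ℝ))) * mu z b P2 ^ 2))

/-- M3 (`theorem p_M3 (h1 : T_PNT) (h2 : T_PS2) (h3 : T_RMD) (h4 : T_MUB) (h5 : T_KB) (h6 : T_CAB)
(h7 : T_PRO) : T_M3`), the diagonal. `xx² = xx ≤ G`, `F² ≤ (F⁺)²`; PS2 with `d = 0`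
(`b2 κ M n 0` is `b1 κ M n`, `ro 0 = 1`, `KK ≤ ∏ (1 + 3/l) ≤ (C m)^3`, `m = 4 b' + 12`),
`m_G ≤ 2 V`, `R ≤ δ Y V μ² ≤ 4 Y V` (RMD, `μ ≤ 2`). So the constant is `2 (C m)^3 + 4`. -/
def T_M3 : Prop := ∀ (b b' : ℕ) (δ : ℝ), ∃ (z0 : ℕ) (A : ℝ), 0 < A ∧
  ∀ (z w Y M κ n : ℕ) (P1 P2 : Finset ℕ), z0 ≤ z → HH b b' δ z w Y M P1 P2 →
  ∑ j ∈ Ioc 0 Y, (xx (b1 κ M n) P1 j * Fn (cM z b P2) P2 (oi (b1 κ M n) j)) ^ 2 ≤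
    A * (Y * ∏ p ∈ P1, (1 - 1 / (p : ℝ)))

open Classical in
/-- CHE (`theorem p_CHE : T_CHE`), Chebyshev. `W j = ∑_{t<T} a t j`, `m₀ = T v`.
`∑_j (W - m₀)² = ∑ W² - 2 m₀ ∑ W + Y m₀²`; `∑ W ≥ (1 - 6 δ) Y m₀`;
`∑ W² = ∑_t ∑_j a² + 2 ∑_{t' < t} ∑_j a a'
≤ T D Y + 2 (1 + 22 δ) Y v² ∑_{t<T} ∑_{h ≤ t} F h ≤ T D Y + (1 + 22 δ) Y v² (1+g) T²`
(`2 ∑_{t<T} t ≤ T²`). If all `a t j ≤ 0` then `W j ≤ 0` and `(W - m₀)² ≥ m₀²`. -/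
def T_CHE : Prop := ∀ (T Y : ℕ) (a : ℕ → ℕ → ℝ) (F : ℕ → ℝ) (v δ g D : ℝ), 0 ≤ v → 0 ≤ δ →
  0 ≤ g → (∀ t < T, (1 - 6 * δ) * (Y * v) ≤ ∑ j ∈ Ioc 0 Y, a t j) →
  (∀ t < T, ∑ j ∈ Ioc 0 Y, a t j ^ 2 ≤ D * Y) →
  (∀ t h : ℕ, 1 ≤ h → t + h < T →
    ∑ j ∈ Ioc 0 Y, a t j * a (t + h) j ≤ (1 + 22 * δ) * (Y * v ^ 2) * F h) →
  (∀ N : ℕ, ∑ h ∈ Icc 1 N, F h ≤ N * (1 + g)) →
  (((Ioc 0 Y).filter fun j => ∀ t < T, a t j ≤ 0).card : ℝ) * (T * v) ^ 2 ≤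
    Y * (T * D + (T * v) ^ 2 * (34 * δ + g + 22 * (δ * g)))

open Classical in
/-- MO2 (`theorem p_MO2 (h1 : T_GSM) (h2 : T_SH) (h3 : T_PR2) (h4 : T_MEA) (h5 : T_M1) (h6 : T_M2)
(h7 : T_M3) (h8 : T_CHE) (h9 : T_PNT) (h10 : T_MUB) (h11 : T_PRO) (h12 : T_ASY) : T_MO2`). `b` from
MEA with `1/2`; `s = 8 b + 30`. Given `ε ≤ 1` (wlog): `δ = ε/136`, `b'` from MEA, `m = 4 b' + 12`;
`L` from GSM with `g = ε/92` (`60 ∣ L`, so `15 ∣ 2^L - 1` and all primes of `PS L z` are `≥ 7`; they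
do not divide `2 MM L`). For large `z` let `w` be with `w^m ≤ z < (w+1)^m`, `P1 = PS L w`,
`P2 = PS L z \ PS L w`, `M = MM L`, `n_t = a + L t`,
`a t j = xx (b1 κ M n_t) P1 j * Fn (cM z b P2) P2 (oi (b1 κ M n_t) j)`. `HH` holds. CHE with
`v = V μ`, `V = ∏_{P1} (1 - 1/p)`, `D = A V` (M3), `F h = ∏_{p ∈ P1, p ∣ 2^(L h) - 1} (1 + 1/(p-1))`
(M2 with `d = L h ≤ L T ≤ (log z)^3`, PR2; `∑ F ≤ N (1+g)` is SH for `P1`). If `¬ Gd` for `t` then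
some `p ∈ PS L z` divides the number; `p ∈ P1`: `xx = 0`; `p ∈ P2`: `xx (..) P2 j = 0` and PNT:
`Fn cM ≤ 0`, `xx ≥ 0`; so `a t j ≤ 0`. Divide by `(T v)²` (`T V ≥ T VV L z ≥ B > 0`, `μ > 0`):
`T D/(T v)² = A/(T V μ²) ≤ A (2 C m)²/B ≤ ε/2` (MUB, PRO: `μ ≥ 1/(2 C m)`), choose `B` so. And
`34 δ + g + 22 δ g ≤ ε/4 + ε/92 + 22 ε/92 ≤ ε/2`. -/
def T_MO2 : Prop := ∃ s : ℕ, 1 ≤ s ∧ ∀ ε : ℝ, 0 < ε → ∃ (L z0 : ℕ) (B : ℝ), 1 ≤ L ∧ 0 < B ∧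
  ∀ z Y T κ a : ℕ, z0 ≤ z → z ^ s ≤ Y → B ≤ T * VV L z → (T : ℝ) ≤ Real.log z ^ 2 →
    (((Ioc 0 Y).filter fun j => ∀ t < T, ¬ Gd L z a (κ + MM L * j) t).card : ℝ) ≤ ε * Y

/-- MN2 (`theorem p_MN2 (h1 : T_MO2) (h2 : T_VLO) (h3 : T_GAP) : T_MN2`). The proof of
`Pool/Agent/SPA/P_MAIN.lean` with `T_MO2` instead of `T_MOM`: `s`, so `c = 1/(2 s)`, comes before
`ε`; the only new point is `T = ⌈B C log z⌉₊ ≤ B C log z + 1 ≤ (log z)^2` for large `z`. -/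
def T_MN2 : Prop := ∃ c : ℝ, 0 < c ∧ ∀ ε : ℝ, 0 < ε → ∃ L r : ℕ, 1 ≤ L ∧ ∃ x0 : ℕ, ∀ x ≥ x0,
  cnt (fun k => Odd k ∧ Opn L k ∧ ¬ AlmostPrime c r k) x ≤ ε * x

/-- FN2 (`theorem p_FN2 (h1 : T_MN2) (h2 : T_OPC) (h3 : T_DEN) : T_FN2`). The proof of
`Pool/Agent/SPA/P_FIN.lean`, parts (a), (b): `c0` from MN2. For `0 < c ≤ c0`, `ε > 0`:
upper bound: `cnt (Odd ∧ NoSmall c) x ≤ cnt (Odd ∧ Opn L) x + (2^L)^(1/c) + 1` for every `L`; take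
`L` with `dens L ≤ K + ε/2` (exists by the second hypothesis) and DEN. Lower bound:
`AlmostPrime c0 r k` implies `NoSmall c k` for `k ≥ 1`; MN2 with `ε/2` and
`cnt (Odd ∧ Opn L) x ≥ K x - MM L - 1` (DEN, first hypothesis). -/
def T_FN2 : Prop := ∃ c0 : ℝ, 0 < c0 ∧ ∀ c : ℝ, 0 < c → c ≤ c0 → ∀ K : ℝ,
  (∀ L : ℕ, 1 ≤ L → K ≤ dens L) → (∀ K' : ℝ, (∀ L : ℕ, 1 ≤ L → K' ≤ dens L) → K' ≤ K) →
  ∀ ε : ℝ, 0 < ε → ∃ x0 : ℕ, ∀ x ≥ x0, |cnt (fun k => Odd k ∧ NoSmall c k) x - K * x| ≤ ε * x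

end Pool.Agent.SPU
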