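import Pool.Agent.SPU.Targets

/-!
SPU, part 2 (MP_315051_nt): almost primes `k * 2 ^ n + 1` with an absolute number of prime factors.
The proof of every target is in its docstring. The weight of `n` is now the sum, over the primes `p`
of `P2` which divide `N = k * 2 ^ n + 1`, of the lower function of `P2.erase p`; it is positive only
if exactly one prime of `P2` divides `N`.
-/

set_option autoImplicit false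

open Finset

namespace Pool.Agent.SPU

open Pool.Agent.SPA
open Pool.Agent.TSP (Per rho)
open Pool.Agent.Tri5 (T_MER T_EXP)

/-- The coefficients of the lower function for exactly one prime. -/
noncomputable def dM (z b : ℕ) (P D : Finset ℕ) : ℝ := ∑ p ∈ D, cM z b (P.erase p) (D.erase p)

/-- The coefficients of the majorant for exactly one prime. -/
noncomputable def dP (z b : ℕ) (P D : Finset ℕ) : ℝ := ∑ p ∈ D, cP z b (P.erase p) (D.erase p)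

/-- The mean. -/
noncomputable def nu (z b : ℕ) (P : Finset ℕ) : ℝ := Fn (dM z b P) P (fun l => 1 / (l : ℝ))

/-- The sum of the reciprocals. -/
noncomputable def La (P : Finset ℕ) : ℝ := ∑ l ∈ P, 1 / (l : ℝ)

/-- The common hypotheses. -/
structure H2 (b b' m : ℕ) (δ : ℝ) (z w Y M : ℕ) (P1 P2 : Finset ℕ) : Prop where
  ma : MA (1 / 2) b
  ma' : MA δ b'
  d0 : 0 < δ
  d1 : δ ≤ 1
  pp : PP M w z P1 P2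
  mb : 4 * b' + 12 ≤ m
  wz : w ^ m ≤ z
  zw : z < (w + 1) ^ m
  zY : z ^ (8 * b + 30) ≤ Y
  la : 1 ≤ La P2

/-- FND (`theorem p_FND : T_FND`). Exchange the sums: the pairs `p ∈ D ⊆ P` correspond to the pairs
`p ∈ P`, `D' ⊆ P.erase p` (`D = insert p D'`, `D' = D.erase p`), and `∏_D ω = ω p * ∏_D' ω`. -/
def T_FND : Prop := ∀ (c : ℕ → Finset ℕ → ℝ) (P : Finset ℕ) (ω : ℕ → ℝ),
  Fn (fun D => ∑ p ∈ D, c p (D.erase p)) P ω = ∑ p ∈ P, ω p * Fn (c p) (P.erase p) ω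

/-- DPT (`theorem p_DPT (h1 : T_FND) (h2 : T_PNT) : T_DPT`). FND:
`Fn (dM ..) = ∑_{p ∈ P} oi p * Fn (cM z b (P.erase p)) (P.erase p) (oi ..)`, same for `dP`, `cP`.
PNT for `P.erase p`: `xx ≤ Fn cT`, `0 ≤ Fn cE`, `Fn cT - Fn cE ≤ xx`, `0 ≤ xx`, so
`|Fn cM| ≤ Fn cP` and `Fn cM ≤ xx` (`Fn` is linear in `c`). If the sum is positive some `p` has
`oi p = 1` and `Fn cM > 0`, so `xx bad (P.erase p) n = 1`: no other prime of `P` is bad. -/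
def T_DPT : Prop := ∀ (z b : ℕ) (P : Finset ℕ) (bad : ℕ → ℕ → Prop) (n : ℕ), 2 ≤ z →
  (∀ p ∈ P, p.Prime ∧ 7 ≤ p ∧ p ≤ z) →
  |Fn (dM z b P) P (oi bad n)| ≤ Fn (dP z b P) P (oi bad n) ∧
  (0 < Fn (dM z b P) P (oi bad n) → ∃ p ∈ P, bad p n ∧ ∀ q ∈ P, bad q n → q = p)

/-- DMU (`theorem p_DMU (h1 : T_FND) : T_DMU`). FND with `ω = 1/l`, so
`nu = ∑ (1/p) mu z b (P.erase p)`. `MA (1/2) b` for `P.erase p`, `g = 1/l`, `Π_p = ∏_{P.erase p}`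
of `1 - 1/l`: `1/2 Π_p ≤ mu ≤ 3/2 Π_p`, `Fn (cP ..) ≤ 2 Π_p ≤ 4 mu`; `Π ≤ Π_p ≤ 7/6 Π` as
`p ≥ 7`. So `1/2 Λ Π ≤ nu ≤ 2 Λ Π`. `Π ≤ exp (-Λ)` and `Λ exp (-Λ) ≤ 1/2`
(`exp Λ ≥ 2 Λ`: `exp Λ ≥ 1 + Λ + Λ²/2`), so `nu ≤ 1`. -/
def T_DMU : Prop := ∀ (z b : ℕ) (P : Finset ℕ), MA (1 / 2) b → 2 ≤ z →
  (∀ p ∈ P, p.Prime ∧ 7 ≤ p ∧ p ≤ z) →
  1 / 2 * (La P * ∏ p ∈ P, (1 - 1 / (p : ℝ))) ≤ nu z b P ∧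
  nu z b P ≤ 2 * (La P * ∏ p ∈ P, (1 - 1 / (p : ℝ))) ∧ 0 ≤ nu z b P ∧ nu z b P ≤ 1 ∧
  0 ≤ Fn (dP z b P) P (fun l => 1 / (l : ℝ)) ∧
  Fn (dP z b P) P (fun l => 1 / (l : ℝ)) ≤ 4 * nu z b P

/-- DRM (`theorem p_DRM (h1 : T_REM) (h2 : T_FND) : T_DRM`).
`|dM D| ≤ ∑_{p ∈ D} |cM (P.erase p) (D.erase p)|`; FND with `c p D' = |cM z b (P.erase p) D'|`,
`ω = 1`: the sum is at most `∑_{p ∈ P} ∑_{D' ⊆ P.erase p} |cM ..|`, and REM (`ω = 1`) gives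
`z^(4b+10) + z^(4b+11) ≤ z^(4b+12)` for every `p`; `|P| ≤ z`. -/
def T_DRM : Prop := ∀ (z b : ℕ) (P : Finset ℕ), 2 ≤ z → (∀ p ∈ P, p.Prime ∧ 7 ≤ p ∧ p ≤ z) →
  ∑ D ∈ P.powerset, |dM z b P D| ≤ (z : ℝ) ^ (4 * b + 13) ∧
  ∑ D ∈ P.powerset, |dP z b P D| ≤ (z : ℝ) ^ (4 * b + 13)

/-- DAB (`theorem p_DAB (h : T_CAB) : T_DAB`). `|dM| ≤ |D| ≤ 2^|D|`. -/
def T_DAB : Prop := ∀ (z b : ℕ) (P D : Finset ℕ),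
  |dM z b P D| ≤ 2 ^ D.card ∧ |dP z b P D| ≤ 2 ^ D.card

open Classical in
/-- KB2 (`theorem p_KB2 : T_KB2`). As KB (`Pool/Agent/SPU/P_KI.lean`, `P_KB.lean`), with the
weights `2^|D| 2^|D'|`: for fixed `l` the sum of `2^(|D|+|D'|) ∏_{D ∪ D'} x` over the `D, D'` which
contain `l` is `4 x l ∏_{P.erase l} (1 + 2 x + 2 x + 4 x)`. -/
def T_KB2 : Prop := ∀ (e : ℕ → Prop) (P : Finset ℕ) (c c' : Finset ℕ → ℝ),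
  (∀ l ∈ P, 1 ≤ l) → (∀ D, |c D| ≤ 2 ^ D.card) → (∀ D, |c' D| ≤ 2 ^ D.card) →
  |KK e P c c' - Fn c P (fun l => 1 / (l : ℝ)) * Fn c' P (fun l => 1 / (l : ℝ))| ≤
    (∑ l ∈ P, (1 / (l : ℝ) + if e l then 1 else 0) * (1 / (l : ℝ))) *
      (4 * ∏ l ∈ P, (1 + 8 * (1 / (l : ℝ))))

/-- EXK (`theorem p_EXK : T_EXK`). `x = 1/l`, `1/(l-1) = x/(1-x)`, so
`∏_P (1-x) ∏_{W} 1/(l-1) = ∏_W x ∏_{P \ W} (1-x)`. Expand the right side: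
`∑_{D, D'} c D c' D' ∑_{D ∪ D' ⊆ W ⊆ P} ∏_W x ∏_{P \ W} (1-x)`, and the inner sum is
`∏_{D ∪ D'} x ∏_{P \ (D ∪ D')} (x + 1 - x)` (`Finset.prod_add`). -/
def T_EXK : Prop := ∀ (P : Finset ℕ) (c c' : Finset ℕ → ℝ), (∀ l ∈ P, 2 ≤ l) →
  KK (fun _ => True) P c c' = (∏ l ∈ P, (1 - 1 / (l : ℝ))) *
    Fn (fun W => (∑ D ∈ W.powerset, c D) * ∑ D ∈ W.powerset, c' D) P (fun l => 1 / ((l : ℝ) - 1))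

/-- SQB (`theorem p_SQB : T_SQB`). Let `w = |W|`. `w = 0`: `tau m ∅ = 1`, `eps m ∅ = 0`. `w ≥ 1`:
`∑ tau = C(w-1, 2m)` (see `P_PTW.lean`), `∑ eps = C(w, 2m+1)`; both are `0` for `w ≤ 2m` and at
most `2^w` otherwise, so the left side is at most `2^w 4 4^w ≤ 4 8^w 2^(w-2m-1) =
2 (1/4)^m 16^w`. -/
def T_SQB : Prop := ∀ (m : ℕ) (W : Finset ℕ), 0 ≤ ∑ D ∈ W.powerset, tau m D ∧
  0 ≤ ∑ D ∈ W.powerset, eps m D ∧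
  2 ^ W.card * (∑ D ∈ W.powerset, tau m D + ∑ D ∈ W.powerset, eps m D) ^ 2 ≤
    (if W = ∅ then 1 else 0) + 2 * (1 / 4 : ℝ) ^ m * 16 ^ W.card

/-- SQM (`theorem p_SQM (h1 : T_FNM) (h2 : T_BLK) (h3 : T_SQB) : T_SQM`). For `W ⊆ P` let
`W_i = W ∩ Bk P z i`, `t_i = ∑_{D ⊆ W_i} tau (b+i) D`, `e_i = ∑_{D ⊆ W_i} eps (b+i) D`. FNM for the
sets `W_i` (`ω = 1`; union `W`): `∑_{D ⊆ W} cP D = ∏ t_i + ∑_i ∏_l (if l = i then e_l else t_l) ≤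
∏ (t_i + e_i)`. So `2^|W| (..)² ≤ ∏_i h_i(W_i)`, `h_i(W) = [W = ∅] + 2 (1/4)^(b+i) 16^|W|` (SQB), and
FNM for `P`: the left side is at most `∏_i (1 + 2 (1/4)^(b+i) ∏_{Bk i} (1 + 16/(l-1)))`, and
`∏_{Bk i} (1 + 16/(l-1)) ≤ exp (32 G)` (`1/(l-1) ≤ 2/l`, `G` from BLK). `∑ (1/4)^(b+i) ≤ 2`; so
`C = exp (4 exp (32 G))`. -/
def T_SQM : Prop := ∃ C : ℝ, 0 < C ∧ ∀ (z b : ℕ) (P : Finset ℕ), 2 ≤ z →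
  (∀ p ∈ P, p.Prime ∧ 7 ≤ p ∧ p ≤ z) →
  Fn (fun W => 2 ^ W.card * (∑ D ∈ W.powerset, cP z b P D) ^ 2) P (fun l => 1 / ((l : ℝ) - 1)) ≤ C

/-- DSQ (`theorem p_DSQ (h1 : T_EXK) (h2 : T_SQM) (h3 : T_FND) : T_DSQ`). EXK: it is
`Π * Fn (fun W => (∑_{D ⊆ W} dP D)²) P (1/(l-1))`. `∑_{D ⊆ W} dP D = ∑_{p ∈ W} g_p (W.erase p)` with
`g_p W' = ∑_{D' ⊆ W'} cP z b (P.erase p) D'` (FND for `W`, `ω = 1`), and by Cauchy-Schwarz the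
square is at most `|W| ∑_{p ∈ W} g_p² ≤ ∑_{p ∈ W} 2^|W.erase p| g_p (W.erase p)²`. FND: at most
`∑_{p ∈ P} 1/(p-1) * C ≤ 2 C Λ` (SQM for `P.erase p`). -/
def T_DSQ : Prop := ∃ C : ℝ, 0 < C ∧ ∀ (z b : ℕ) (P : Finset ℕ), 2 ≤ z →
  (∀ p ∈ P, p.Prime ∧ 7 ≤ p ∧ p ≤ z) →
  KK (fun _ => True) P (dP z b P) (dP z b P) ≤ C * (La P * ∏ p ∈ P, (1 - 1 / (p : ℝ)))

/-- LAM (`theorem p_LAM (h1 : T_VLO) : T_LAM`). For large `z` also `w` is large (`ASY`), `w ≥ 2^L`,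
so `PS L z \ PS L w` is the set of all primes in `(w, z]`. `∏_{p ≤ z} (1 - 1/p) log (z+1) ≤ 1`
(`Pool.Agent.TSP.mertens`), `∏_{p ≤ w} (1 - 1/p) ≥ 1/(2 C₁ log w)` (VLO for the primes `≥ 3`), and
`m log w ≤ log z`, so `∏_{w < p ≤ z} (1 - 1/p) ≤ 2 C₁/m`; and it is `≥ exp (-2 Λ)`
(`1 - t ≥ exp (-2 t)` for `0 ≤ t ≤ 1/2`). So `Λ ≥ (log m - log (2 C₁))/2`. -/
def T_LAM : Prop := ∃ C : ℝ, 0 < C ∧ ∀ L m : ℕ, 1 ≤ L → 1 ≤ m → ∃ z0 : ℕ, ∀ z w : ℕ, z0 ≤ z →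
  w ^ m ≤ z → z < (w + 1) ^ m → Real.log m / 2 - C ≤ La (PS L z \ PS L w)

/-- RM2 (`theorem p_RM2 (h1 : T_REM) (h2 : T_ASY) (h3 : T_PRO) (h4 : T_DMU) (h5 : T_DRM) : T_RM2`).
As RMD: by REM the first factor is `≤ w^(4b'+11) ≤ w^m ≤ z`, the others are `≤ z^(4b+13)` (DRM), so
the product is `≤ z^(8b+27) ≤ Y/z^3`. `V ≥ (1/(C log z))^3` (PRO), `nu ≥ 1/2 Λ Π ≥ 1/(2 C log z)`
(DMU, `Λ ≥ 1`, PRO), ASY. -/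
def T_RM2 : Prop := ∀ (b b' m : ℕ) (δ : ℝ), ∃ z0 : ℕ, ∀ (z w Y M d : ℕ) (P1 P2 : Finset ℕ)
  (c0 c1 c2 : Finset ℕ → ℝ), z0 ≤ z → H2 b b' m δ z w Y M P1 P2 →
  (c0 = cT w b' P1 ∨ c0 = cE w b' P1) → (c1 = dM z b P2 ∨ c1 = dP z b P2) →
  (c2 = dM z b P2 ∨ c2 = dP z b P2) →
  (∑ D ∈ P1.powerset, |c0 D| * ∏ l ∈ D, ro d l) *
    ((∑ D ∈ P2.powerset, |c1 D|) * ∑ D ∈ P2.powerset, |c2 D|) ≤
    δ * (Y * ((∏ p ∈ P1, (1 - ro d p / (p : ℝ))) * nu z b P2 ^ 2)) ∧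
  (∑ D ∈ P1.powerset, |c0 D| * ∏ l ∈ D, ro d l) * (∑ D ∈ P2.powerset, |c1 D|) ≤
    δ * (Y * ((∏ p ∈ P1, (1 - ro d p / (p : ℝ))) * nu z b P2))

/-- N1 (`theorem p_N1 (h1 : T_PNT) (h2 : T_PS1) (h3 : T_RM2) (h4 : T_DMU) (h5 : T_RH1)
(h6 : T_DPT) : T_N1`). As M1 (`Pool/Agent/SPU/P_M1.lean`) with `dM, dP, nu` for `cM, cP, mu`:
`pre F ≥ G F - E F⁺`, `F = Fn (dM ..)`, `F⁺ = Fn (dP ..)`, `|F| ≤ F⁺` (DPT). -/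
def T_N1 : Prop := ∀ (b b' m : ℕ) (δ : ℝ), ∃ z0 : ℕ, ∀ (z w Y M κ n : ℕ) (P1 P2 : Finset ℕ),
  z0 ≤ z → H2 b b' m δ z w Y M P1 P2 →
  (1 - 6 * δ) * (Y * ((∏ p ∈ P1, (1 - 1 / (p : ℝ))) * nu z b P2)) ≤
    ∑ j ∈ Ioc 0 Y, xx (b1 κ M n) P1 j * Fn (dM z b P2) P2 (oi (b1 κ M n) j)

/-- N2 (`theorem p_N2 (h1 : T_PNT) (h2 : T_PS2) (h3 : T_RM2) (h4 : T_DMU) (h5 : T_KB2) (h6 : T_DAB)
(h7 : T_ASY) (h8 : T_PRO) (h9 : T_DPT) : T_N2`). As M2 (`Pool/Agent/SPU/P_M2.lean`) with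
`dM, dP, nu`; `ω ≤ (1+d)/w * 4 ∏ (1 + 8/l)`, `∏ (1 + 8/l) ≤ (∏ (1 + 3/l))^3 ≤ (C log z)^9`,
`1 + d ≤ 2 log z`, `nu ≥ 1/(2 C log z)` (DMU, `Λ ≥ 1`, PRO), so `ω ≤ δ nu²` by ASY
(`(log z)^12`). -/
def T_N2 : Prop := ∀ (b b' m : ℕ) (δ : ℝ), ∃ z0 : ℕ, ∀ (z w Y M κ n d : ℕ) (P1 P2 : Finset ℕ),
  z0 ≤ z → H2 b b' m δ z w Y M P1 P2 → 1 ≤ d → (d : ℝ) ≤ Real.log z →
  ∑ j ∈ Ioc 0 Y, (xx (b1 κ M n) P1 j * Fn (dM z b P2) P2 (oi (b1 κ M n) j)) *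
    (xx (b1 κ M (n + d)) P1 j * Fn (dM z b P2) P2 (oi (b1 κ M (n + d)) j)) ≤
    (1 + 22 * δ) * (Y * ((∏ p ∈ P1, (1 - ro d p / (p : ℝ))) * nu z b P2 ^ 2))

/-- N3 (`theorem p_N3 (h1 : T_PNT) (h2 : T_PS2) (h3 : T_RM2) (h4 : T_DMU) (h5 : T_DSQ)
(h6 : T_DPT) : T_N3`). As M3 (`Pool/Agent/SPU/P_M3.lean`): `xx² = xx ≤ G`, `F² ≤ (F⁺)²`, PS2 with
`d = 0` (`l ∣ 2^0 - 1` always, so `KK` is that of DSQ), `m_G ≤ 2 V`, `KK ≤ C Λ Π` (DSQ),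
`R ≤ δ Y V nu² ≤ 2 Y V Λ Π` (RM2, DMU: `nu² ≤ nu ≤ 2 Λ Π`). So `A = 2 C + 2`. -/
def T_N3 : Prop := ∃ A : ℝ, 0 < A ∧ ∀ (b b' m : ℕ) (δ : ℝ), ∃ z0 : ℕ,
  ∀ (z w Y M κ n : ℕ) (P1 P2 : Finset ℕ), z0 ≤ z → H2 b b' m δ z w Y M P1 P2 →
  ∑ j ∈ Ioc 0 Y, (xx (b1 κ M n) P1 j * Fn (dM z b P2) P2 (oi (b1 κ M n) j)) ^ 2 ≤
    A * (Y * ((∏ p ∈ P1, (1 - 1 / (p : ℝ))) * (La P2 * ∏ p ∈ P2, (1 - 1 / (p : ℝ)))))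

/-- SQF (`theorem p_SQF (h : T_ASY) : T_SQF`). For fixed `t` and `p` (prime, `p ∤ 2 MM L`) the
condition `p² ∣ (κ + M j) 2^n + 1` is one residue class for `j` modulo `p²`, so at most
`Y/p² + 1` of the `j` satisfy it. Sum over `w < p ≤ z` and `t < T`: at most
`T (Y/w + z) ≤ log z (Y/w + Y/z²)` (`z³ ≤ Y`), which is `≤ ε Y` by ASY. -/
def T_SQF : Prop := ∀ (L m : ℕ) (ε : ℝ), 1 ≤ L → 1 ≤ m → 0 < ε → ∃ z0 : ℕ,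
  ∀ z w Y T κ a : ℕ, z0 ≤ z → z < (w + 1) ^ m → z ^ 3 ≤ Y → (T : ℝ) ≤ Real.log z →
  ((((Ioc 0 Y).filter fun j => ∃ t ∈ range T, ∃ p ∈ PS L z \ PS L w,
    p ^ 2 ∣ (κ + MM L * j) * 2 ^ (a + L * t) + 1).card : ℕ) : ℝ) ≤ ε * Y

/-- GA3 (`theorem p_GA3 : T_GA3`). As GAP (`Pool/Agent/SPA/P_GAP.lean`). Let `n = a + L t`,
`N = k 2^n + 1`. Every prime divisor `q` of `N` does not divide `2 (2^L - 1)` (GAP), so `q > w`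
(`Gd` for `w`), hence `q ≥ w + 1 > k^c`. If `q ≤ z` then `q ∈ PS L z \ PS L w`, so `q = p`, and `p`
divides `N` only once. So all but one of the prime factors are `≥ z + 1`; their number `l` satisfies
`(z+1)^l ≤ N ≤ 2 k 2^n`, so `l ≤ r`. -/
def T_GA3 : Prop := ∀ (L z w a k t r : ℕ) (c : ℝ), 1 ≤ L → 1 ≤ a → 1 ≤ k → 1 ≤ z → w ≤ z →
  Nat.Coprime (k * 2 ^ a + 1) (2 ^ L - 1) → Gd L w a k t →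
  (∃ p ∈ PS L z \ PS L w, ∀ q ∈ PS L z \ PS L w, q ∣ k * 2 ^ (a + L * t) + 1 → q = p) →
  (∀ p ∈ PS L z \ PS L w, ¬ p ^ 2 ∣ k * 2 ^ (a + L * t) + 1) → (k : ℝ) ^ c < w + 1 →
  Real.log (2 * k) + (a + L * t) * Real.log 2 ≤ r * Real.log (z + 1) → AlmostPrime c (r + 1) k

open Classical in
/-- MO3 (`theorem p_MO3 (h1 : T_GSM) (h2 : T_SH) (h3 : T_PR2) (h4 : T_MEA) (h5 : T_N1) (h6 : T_N2)
(h7 : T_N3) (h8 : T_CHE) (h9 : T_DPT) (h10 : T_DMU) (h11 : T_VLO) (h12 : T_ASY)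
(h13 : T_LAM) : T_MO3`). As MO2 (`Pool/Agent/SPU/P_MO2.lean`). `b` from MEA with `1/2`,
`s = 8 b + 30`; `δ = ε/136`, `b'` from MEA; `L` from GSM with `g = ε/92`; `m ≥ 4 b' + 12` so large
that `log m/2 - C ≥ max 1 Λ₀` (LAM). `P1 = PS L w`, `P2 = PS L z \ PS L w`, `H2` holds. CHE with
`a t j = xx (b1 ..) P1 j * Fn (dM z b P2) P2 (oi ..)`, `v = V nu`, `D = A V Λ Π` (N3), `F` as in
MO2 (N2 with `d = L h ≤ L T ≤ log z`, PR2, SH). If the condition fails for `t` then `a t j ≤ 0`: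
not `Gd L w`: `xx = 0`; otherwise DPT. `T D/(T v)² = A Λ Π/(T V nu²) ≤ 4 A/(T V Π Λ)` (DMU), and
`T V Π ≥ 1/(2 L C₁)` because `V Π = VV L z ≥ 1/(C₁ log z)` (VLO) and `2 L T ≥ log z`. So
`T D/(T v)² ≤ 8 A L C₁/Λ ≤ ε/2` if `Λ₀ = 16 A L C₁/ε`. -/
def T_MO3 : Prop := ∃ s : ℕ, 3 ≤ s ∧ ∀ ε : ℝ, 0 < ε → ∃ L m z0 : ℕ, 1 ≤ L ∧ 1 ≤ m ∧
  ∀ z w Y T κ a : ℕ, z0 ≤ z → w ^ m ≤ z → z < (w + 1) ^ m → z ^ s ≤ Y →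
    Real.log z ≤ 2 * (L * T) → (L * T : ℝ) ≤ Real.log z →
    (((Ioc 0 Y).filter fun j => ∀ t < T, ¬ (Gd L w a (κ + MM L * j) t ∧
      ∃ p ∈ PS L z \ PS L w, ∀ q ∈ PS L z \ PS L w,
        q ∣ (κ + MM L * j) * 2 ^ (a + L * t) + 1 → q = p)).card : ℝ) ≤ ε * Y

/-- MN3 (`theorem p_MN3 (h1 : T_MO3) (h2 : T_SQF) (h3 : T_GA3) (h4 : T_ASY) : T_MN3`). As
`Pool/Agent/SPA/P_MAIN.lean`. `s` from MO3, `r = 6 s + 1`. Given `ε`: `L, m` from MO3 with `ε/8`, SQF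
with `ε/8`; `M = MM L`, `c = 1/(4 s m)`. For large `x`: `z = ⌊x^(1/(2s))⌋₊`, `Y = x/M + 1`
(`z^s ≤ x^(1/2) ≤ Y`, so `z^3 ≤ Y`), `w` with `w^m ≤ z < (w+1)^m`, `T = ⌊log z/L⌋₊` (so
`L T ≤ log z ≤ 2 L T`). Let `k ≤ x` be odd, `Opn L k`, `k ≥ M`, `κ = k % M`, `j = k / M`; for every
`κ` one `a ≤ L` (Opn). If some `t < T` satisfies the condition of MO3 and no `p²` divides (SQF) then
GA3 with `6 s` for `r` gives `AlmostPrime c r k`: `k^c ≤ x^c < w + 1` (`(w+1)^m > z ≥ x^(1/(4s))`)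
and `log (2 k) + (a + L t) log 2 ≤ log (2 x) + L + log z ≤ 3 log x ≤ 6 s log (z+1)`
(`log (z+1) ≥ log x/(2 s)`). So for every `κ` at most `(ε/8 + ε/8) Y` exceptions `j`, in all at most
`M + M (ε/4) (x/M + 1) ≤ ε x`. -/
def T_MN3 : Prop := ∃ r : ℕ, ∀ ε : ℝ, 0 < ε → ∃ (L : ℕ) (c : ℝ), 1 ≤ L ∧ 0 < c ∧
  ∃ x0 : ℕ, ∀ x ≥ x0, cnt (fun k => Odd k ∧ Opn L k ∧ ¬ AlmostPrime c r k) x ≤ ε * x

/-- FN3 (`theorem p_FN3 (h1 : T_MN3) (h2 : T_OPC) (h3 : T_DEN) : T_FN3`). `r` from MN3. Upper bound: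
let `L` be with `dens L ≤ K + ε/2`; there is `k₀` with `g k ≥ 2^L` for `k ≥ k₀`; if `k ≥ k₀` has the
property then `Opn L k` (otherwise OPC: some prime `p ≤ 2^L - 1` divides `k 2^n + 1`, but
`g k < p`). So the count is `≤ cnt (Odd ∧ Opn L) x + k₀`, DEN. Lower bound: MN3 with `ε/2` gives
`L, c`; there is `k₁` with `g k ≤ k^c` for `k ≥ k₁`, so `AlmostPrime c r k` gives the property for
`k ≥ k₁`; the count is `≥ cnt (Odd ∧ Opn L) x - (ε/2) x - k₁ ≥ K x - MM L - 1 - (ε/2) x - k₁`. -/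
def T_FN3 : Prop := ∃ r : ℕ, ∀ K : ℝ,
  (∀ L : ℕ, 1 ≤ L → K ≤ dens L) → (∀ K' : ℝ, (∀ L : ℕ, 1 ≤ L → K' ≤ dens L) → K' ≤ K) →
  ∀ g : ℕ → ℝ, Filter.Tendsto g Filter.atTop Filter.atTop →
  (∀ c : ℝ, 0 < c → ∃ k0 : ℕ, ∀ k : ℕ, k0 ≤ k → g k ≤ (k : ℝ) ^ c) →
  ∀ ε : ℝ, 0 < ε → ∃ x0 : ℕ, ∀ x ≥ x0,
    |cnt (fun k => Odd k ∧ ∃ n : ℕ, 1 ≤ n ∧ (k * 2 ^ n + 1).primeFactorsList.length ≤ r ∧
      ∀ p : ℕ, p.Prime → p ∣ k * 2 ^ n + 1 → g k < p) x - K * x| ≤ ε * x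

end Pool.Agent.SPU
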